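import Mathlib
import Pool.Agent.Lib.H13S.Defs
import Pool.Agent.Lib.H55K.SD
import Pool.Agent.Lib.H55R.Defs

/-!
# H13X: a bad ramified prime gives a nonzero Selmer class, for all curves with complex multiplication (definitions)

The setting of H55K (Dta): F one of the nine fields, E : y^2 = x^3 + A x + B with complex multiplication act by the integers of F,
l a good prime at least 5, π a prime element above l. N is a number field between F and Ω. See PROOF.md.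
-/

open NumberField IsDedekindDomain WeierstrassCurve

namespace H13X

open H55P (IQ embF eF LF Per IsHecke Pt ac Inert Dec Nm Coc)
open H35P (WAB Ker tt)
open H55K (Tor ak xc yc CMA Dta GV GMod cj cj_cj mul_cj cj_prime cj_dvd cj_nat Nm_cj Nm_mul Nm_nat)
open H55K.S
open H13S (Abv)

variable {F : Type} [Field F] [NumberField F] [IQ F] {A B : F} {Om : ℂ} {Ω : Type} [Field Ω] [DecidableEq Ω]
  [Algebra F Ω] {j : Ω →+* ℂ}

/-- The data, and a prime element π above l. -/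
structure Dat (A B : F) (Om : ℂ) (j : Ω →+* ℂ) (act : 𝓞 F →+* AddMonoid.End (Pt (WAB A B) Ω)) (mo : Ideal (𝓞 F))
    (ψ : Ideal (𝓞 F) →*₀ 𝓞 F) (π : 𝓞 F) (l : ℕ) : Prop where
  dta : Dta A B Om j act mo ψ l
  pr : Prime π
  dvd : π ∣ (l : 𝓞 F)

section data

variable {act : 𝓞 F →+* AddMonoid.End (Pt (WAB A B) Ω)} {mo : Ideal (𝓞 F)} {ψ : Ideal (𝓞 F) →*₀ 𝓞 F} {π : 𝓞 F} {l : ℕ}

theorem Dat.cma (D : Dat A B Om j act mo ψ π l) : CMA F A B Om j act := D.dta.cma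

theorem Dat.hl (D : Dat A B Om j act mo ψ π l) : l.Prime := D.dta.prime

theorem Dat.five (D : Dat A B Om j act mo ψ π l) : 5 ≤ l := D.dta.five

/-- The conjugate data. -/
theorem Dat.conj (D : Dat A B Om j act mo ψ π l) : Dat A B Om j act mo ψ (cj π) l :=
  ⟨D.dta, cj_prime D.pr, by rw [cj_dvd, cj_nat]; exact D.dvd⟩

end data

/-- c is a continuous cocycle on the group of K with values in the points killed by the conjugate of π. -/
structure Cc (act : 𝓞 F →+* AddMonoid.End (Pt (WAB A B) Ω)) (π : 𝓞 F) (K : IntermediateField F Ω)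
    (c : (Ω ≃ₐ[F] Ω) → Pt (WAB A B) Ω) : Prop where
  mul : ∀ s ∈ K.fixingSubgroup, ∀ t ∈ K.fixingSubgroup, c (s * t) = c s + ac (WAB A B) s (c t)
  cont : ∃ N : IntermediateField F Ω, FiniteDimensional F N ∧
    ∀ s ∈ K.fixingSubgroup, s ∈ N.fixingSubgroup → c s = 0
  val : ∀ s ∈ K.fixingSubgroup, c s ∈ Tor act (cj π)

/-- L is the field generated over K by the points killed by π. -/
structure IsTB (act : 𝓞 F →+* AddMonoid.End (Pt (WAB A B) Ω)) (π : 𝓞 F) (K L : IntermediateField F Ω) : Prop where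
  fin : FiniteDimensional F L
  le : K ≤ L
  fix : ∀ s : Ω ≃ₐ[F] Ω, s ∈ L.fixingSubgroup ↔ s ∈ K.fixingSubgroup ∧ ∀ T ∈ Tor act π, ac (WAB A B) s T = T

/-- What is needed of the base field N: the inertia groups above l fix N; the residue fields above l. -/
structure Nb (l : ℕ) (N : IntermediateField F Ω) : Prop where
  fin : FiniteDimensional F N
  inert : ∀ V : ValuationSubring Ω, V.valuation (l : Ω) < 1 → ∀ s : Ω ≃ₐ[F] Ω, Inert V s → s ∈ N.fixingSubgroup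
  res : ∀ (V : ValuationSubring Ω) (β : 𝓞 F), Prime β → vo V β < 1 → V.valuation (l : Ω) < 1 →
    ∃ q f : ℕ, 0 < f ∧ q = Nm β ^ f ∧ (∀ x ∈ N, x ∈ V → V.valuation (x ^ q - x) < 1) ∧
      (∃ φ ∈ N.fixingSubgroup, Dec V φ ∧ ∀ x ∈ V, V.valuation (φ x - x ^ q) < 1) ∧
      ∃ r : Fin q → Ω, (∀ i, r i ∈ N ∧ V.valuation (r i) ≤ 1) ∧
        (∀ i i', i ≠ i' → V.valuation (r i - r i') = 1) ∧
        ∀ x ∈ N, x ∈ V → ∃ i, V.valuation (x - r i) < 1

/-- s lies in the decomposition group of V over N. -/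
def DecN (N : IntermediateField F Ω) (V : ValuationSubring Ω) (s : Ω ≃ₐ[F] Ω) : Prop :=
  s ∈ N.fixingSubgroup ∧ Dec V s

section loc

variable (act : 𝓞 F →+* AddMonoid.End (Pt (WAB A B) Ω)) (π : 𝓞 F)

/-- s lies in the inertia group of V and fixes the points killed by π and by its conjugate. -/
def JV (V : ValuationSubring Ω) (s : Ω ≃ₐ[F] Ω) : Prop :=
  Inert V s ∧ (∀ T ∈ Tor act π, ac (WAB A B) s T = T) ∧ ∀ T ∈ Tor act (cj π), ac (WAB A B) s T = T

/-- s lies in the decomposition group of V over N and fixes the points killed by π. -/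
def DT (N : IntermediateField F Ω) (V : ValuationSubring Ω) (s : Ω ≃ₐ[F] Ω) : Prop :=
  DecN N V s ∧ ∀ T ∈ Tor act π, ac (WAB A B) s T = T

/-- x is fixed by these automorphisms. -/
def Hx (N : IntermediateField F Ω) (V : ValuationSubring Ω) (x : Ω) : Prop :=
  ∀ s, DT act π N V s → s x = x

/-- c is a cocycle on the decomposition group of V over N with values in the points killed by the conjugate of π. -/
structure Dc (N : IntermediateField F Ω) (V : ValuationSubring Ω)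
    (c : (Ω ≃ₐ[F] Ω) → Pt (WAB A B) Ω) : Prop where
  mul : ∀ s, DecN N V s → ∀ t, DecN N V t → c (s * t) = c s + ac (WAB A B) s (c t)
  val : ∀ s, DecN N V s → c s ∈ Tor act (cj π)

/-- The y T are Kummer generators for c over the henselization. -/
structure KS (N : IntermediateField F Ω) (V : ValuationSubring Ω)
    (e : Pt (WAB A B) Ω → Pt (WAB A B) Ω → Ω)
    (c : (Ω ≃ₐ[F] Ω) → Pt (WAB A B) Ω) (y : Pt (WAB A B) Ω → Ω) : Prop where
  ne : ∀ T ∈ Tor act π, y T ≠ 0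
  gal : ∀ T ∈ Tor act π, ∀ s, DT act π N V s → s (y T) = e (c s) T * y T

/-- An additive and equivariant system of elements of the henselization modulo l-th powers. -/
structure Sys (l : ℕ) (N : IntermediateField F Ω) (V : ValuationSubring Ω) (m : Pt (WAB A B) Ω → Ω) :
    Prop where
  ne : ∀ T ∈ Tor act π, m T ≠ 0
  fx : ∀ T ∈ Tor act π, Hx act π N V (m T)
  add : ∀ T ∈ Tor act π, ∀ T' ∈ Tor act π, ∃ z, Hx act π N V z ∧ z ≠ 0 ∧ m (T + T') = m T * m T' * z ^ l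
  gal : ∀ s, DecN N V s → ∀ T ∈ Tor act π, ∃ z, Hx act π N V z ∧ z ≠ 0 ∧
    m (ac (WAB A B) s T) = s (m T) * z ^ l

/-- The level: m is an l-th power times an element which differs from 1 by at most r. -/
def Lv (l : ℕ) (N : IntermediateField F Ω) (V : ValuationSubring Ω) (r : V.ValueGroup) (m : Ω) :
    Prop :=
  ∃ z, Hx act π N V z ∧ z ≠ 0 ∧ V.valuation (m / z ^ l - 1) ≤ r

/-- The coefficient a of m at the level i, an element of N integral at V: m = z^l (1 + a t^i + smaller terms). -/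
def Co (l : ℕ) (N : IntermediateField F Ω) (V : ValuationSubring Ω) (t : Ω) (i : ℕ) (m a : Ω) :
    Prop :=
  (a ∈ N ∧ V.valuation a ≤ 1) ∧
    ∃ z, Hx act π N V z ∧ z ≠ 0 ∧ V.valuation (m / z ^ l - 1 - a * t ^ i) ≤ V.valuation t ^ (i + 1)

end loc

/-- The ramified case: V lies above π, t is the parameter of a point killed by π, e0 (l - 1) = Nm π - 1. -/
structure RB (A B : F) (Om : ℂ) (j : Ω →+* ℂ) (act : 𝓞 F →+* AddMonoid.End (Pt (WAB A B) Ω)) (mo : Ideal (𝓞 F))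
    (ψ : Ideal (𝓞 F) →*₀ 𝓞 F) (π : 𝓞 F) (l : ℕ) (V : ValuationSubring Ω) (t : Ω) (e0 : ℕ) : Prop where
  D : Dat A B Om j act mo ψ π l
  above : vo V π < 1
  pt : ∃ T ∈ Tor act π, T ≠ 0 ∧ t = tt T
  e0 : e0 * (l - 1) = Nm π - 1

/-- The same with a base field N. -/
structure RV (A B : F) (Om : ℂ) (j : Ω →+* ℂ) (act : 𝓞 F →+* AddMonoid.End (Pt (WAB A B) Ω)) (mo : Ideal (𝓞 F))
    (ψ : Ideal (𝓞 F) →*₀ 𝓞 F) (π : 𝓞 F) (l : ℕ) (N : IntermediateField F Ω) (V : ValuationSubring Ω) (t : Ω)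
    (e0 : ℕ) : Prop where
  base : RB A B Om j act mo ψ π l V t e0
  nb : Nb l N

/-- The unramified case: V lies above cj π, π does not divide cj π. φ a Frobenius element over N, q the number of elements of the
residue field of N; φ acts on the points killed by π as n. -/
structure UV (A B : F) (Om : ℂ) (j : Ω →+* ℂ) (act : 𝓞 F →+* AddMonoid.End (Pt (WAB A B) Ω)) (mo : Ideal (𝓞 F))
    (ψ : Ideal (𝓞 F) →*₀ 𝓞 F) (π : 𝓞 F) (l : ℕ) (N : IntermediateField F Ω) (V : ValuationSubring Ω)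
    (φ : Ω ≃ₐ[F] Ω) (q n : ℕ) : Prop where
  D : Dat A B Om j act mo ψ π l
  nd : ¬ π ∣ cj π
  above : vo V (cj π) < 1
  nb : Nb l N
  dec : DecN N V φ
  ql : ∃ q' : ℕ, q = l * q' ∧ 0 < q'
  frob : ∀ x ∈ V, V.valuation (φ x - x ^ q) < 1
  gal : ∀ T ∈ Tor act π, ac (WAB A B) φ T = n • T
  n1 : ¬ l ∣ n
  rep : ∃ r : Fin q → Ω, (∀ i, r i ∈ N ∧ V.valuation (r i) ≤ 1) ∧
    ∀ i i', i ≠ i' → V.valuation (r i - r i') = 1

/-- The output of the global part: an additive and equivariant system of elements of L = N(E[π]) whose orders are divisible by l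
outside w, of level at least 2 above π, not all of them l-th powers. -/
structure GN (act : 𝓞 F →+* AddMonoid.End (Pt (WAB A B) Ω)) (π : 𝓞 F) (l : ℕ) (N L : IntermediateField F Ω)
    [NumberField N] [NumberField L] (w : HeightOneSpectrum (𝓞 N)) (m : Pt (WAB A B) Ω → (L)ˣ) : Prop where
  add : ∀ T ∈ Tor act π, ∀ T' ∈ Tor act π, ∃ z : (L)ˣ, m (T + T') = m T * m T' * z ^ l
  gal : ∀ σ ∈ N.fixingSubgroup, ∀ T ∈ Tor act π, ∃ z : (L)ˣ,
    ((m (ac (WAB A B) σ T) : L) : Ω) = σ ((m T : L) : Ω) * ((z : L) : Ω) ^ l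
  out : ∀ T ∈ Tor act π, ∀ (V : ValuationSubring Ω) (W : HeightOneSpectrum (𝓞 L)), Abv L V W →
    ¬ Abv N V w → (l : ℤ) ∣ H55R.ord W (m T)
  lev : ∀ T ∈ Tor act π, ∀ W : HeightOneSpectrum (𝓞 L),
    W.valuation L (algebraMap F L (π : F)) < 1 → ∃ z : (L)ˣ,
      W.valuation L (((m T * (z ^ l)⁻¹ : (L)ˣ) : L) - 1) ≤ WithZero.exp (-2 : ℤ)
  nz : ∃ T ∈ Tor act π, ∀ z : (L)ˣ, m T ≠ z ^ l

/-- The global class over N. -/
structure Gl (A B : F) (Om : ℂ) (j : Ω →+* ℂ) (act : 𝓞 F →+* AddMonoid.End (Pt (WAB A B) Ω)) (mo : Ideal (𝓞 F))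
    (ψ : Ideal (𝓞 F) →*₀ 𝓞 F) (π : 𝓞 F) (l : ℕ) (e : Pt (WAB A B) Ω → Pt (WAB A B) Ω → Ω)
    (N L : IntermediateField F Ω) [NumberField N] (w : HeightOneSpectrum (𝓞 N))
    (c : (Ω ≃ₐ[F] Ω) → Pt (WAB A B) Ω) (y : Pt (WAB A B) Ω → Ω) : Prop where
  D : Dat A B Om j act mo ψ π l
  nb : Nb l N
  wl : (l : 𝓞 N) ∉ w.asIdeal
  fx : ∀ V : ValuationSubring Ω, Abv N V w → ∀ s, DecN N V s → ∀ T ∈ Tor act π, ac (WAB A B) s T = T
  tb : IsTB act π N L
  cc : Cc act π N c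
  kum : ∀ T ∈ Tor act π, Kum L e c T (y T)
  out : ∀ V : ValuationSubring Ω, ¬ Abv N V w → ∀ T ∈ Tor act π, ∃ x ∈ L, x ≠ 0 ∧
    V.valuation (y T) = V.valuation x
  lev : ∀ V : ValuationSubring Ω, vo V π < 1 → ∀ T ∈ Tor act π, ∀ T₀ ∈ Tor act π, T₀ ≠ 0 →
    ∃ z ∈ L, z ≠ 0 ∧ V.valuation (y T ^ l / z ^ l - 1) ≤ V.valuation (tt T₀) ^ 2
  nz : ∃ T ∈ Tor act π, ∀ z ∈ L, z ^ l ≠ y T ^ l

section small

variable {act : 𝓞 F →+* AddMonoid.End (Pt (WAB A B) Ω)} {π : 𝓞 F} {K L : IntermediateField F Ω}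
  {c : (Ω ≃ₐ[F] Ω) → Pt (WAB A B) Ω}

theorem IsTB.mono (h : IsTB act π K L) {s : Ω ≃ₐ[F] Ω} (hs : s ∈ L.fixingSubgroup) : s ∈ K.fixingSubgroup :=
  ((h.fix s).1 hs).1

theorem Cc.one (h : Cc act π K c) : c 1 = 0 := by
  have h1 := h.mul 1 (Subgroup.one_mem _) 1 (Subgroup.one_mem _)
  rw [mul_one, ac_one] at h1
  exact left_eq_add.mp h1

theorem Cc.inv (h : Cc act π K c) {s : Ω ≃ₐ[F] Ω} (hs : s ∈ K.fixingSubgroup) :
    ac (WAB A B) s (c s⁻¹) = -c s := by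
  have h1 := h.mul s hs s⁻¹ (Subgroup.inv_mem _ hs)
  rw [mul_inv_cancel, h.one] at h1
  exact (neg_eq_of_add_eq_zero_right h1.symm).symm

end small

end H13X
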