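import Mathlib
import Pool.Agent.Lib.H13S.DV
import Pool.Agent.Lib.H13X.D
import Pool.Agent.Lib.H55K.SKR

/-! # H13X: decomposition groups and fixed elements (port of H13Z.LG, H13Y.YG) -/

open NumberField IsDedekindDomain WeierstrassCurve

namespace H13X

open H55P (IQ embF eF LF Per IsHecke Pt ac Inert Dec Nm Coc)
open H35P (WAB Ker tt)
open H55K (Tor ak xc yc CMA Dta GV GMod cj cj_cj mul_cj cj_prime cj_dvd cj_nat Nm_cj Nm_mul Nm_nat)
open H55K.S
open H13S (Abv)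

section gal

variable {F : Type} [Field F] {Ω : Type} [Field Ω] [Algebra F Ω] {V : ValuationSubring Ω}

theorem gi_dec (V : ValuationSubring Ω) (s : Ω ≃ₐ[F] Ω) (h : Inert V s) : Dec V s := by
  intro x
  have hmem : ∀ x ∈ V, s x ∈ V := by
    intro x hx
    have h1 : s x = x + (s x - x) := by ring
    rw [h1]
    refine V.add_mem _ _ hx ?_
    exact (V.valuation_le_one_iff _).1 (h x hx).le
  refine ⟨fun hsx => ?_, hmem x⟩
  by_contra hx
  have hx0 : x ≠ 0 := by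
    rintro rfl
    exact hx V.zero_mem
  have h1 : x⁻¹ ∈ V := (V.mem_or_inv_mem x).resolve_left hx
  have h2 := h x⁻¹ h1
  have h3 : V.valuation x⁻¹ < 1 := by
    rw [map_inv₀]
    have h4 : ¬ V.valuation x ≤ 1 := fun h4 => hx ((V.valuation_le_one_iff _).1 h4)
    rw [not_le] at h4
    exact inv_lt_one_of_one_lt₀ h4
  have h4 : V.valuation (s x⁻¹) < 1 := by
    have h5 : s x⁻¹ = (s x⁻¹ - x⁻¹) + x⁻¹ := by ring
    rw [h5]
    exact V.valuation.map_add_lt h2 h3
  rw [map_inv₀, map_inv₀] at h4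
  have h5 : V.valuation (s x) ≤ 1 := (V.valuation_le_one_iff _).2 hsx
  have h6 : V.valuation (s x) ≠ 0 := by
    rw [Valuation.ne_zero_iff]
    exact (map_ne_zero s).2 hx0
  have h7 : 1 ≤ (V.valuation (s x))⁻¹ := (one_le_inv₀ (zero_lt_iff.2 h6)).2 h5
  exact absurd h4 (not_lt.2 h7)


theorem Dec.mul' {s t : Ω ≃ₐ[F] Ω} (hs : Dec V s) (ht : Dec V t) : Dec V (s * t) := by
  intro x
  exact (hs (t x)).trans (ht x)

theorem Dec.inv' {s : Ω ≃ₐ[F] Ω} (hs : Dec V s) : Dec V s⁻¹ := by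
  intro x
  have h1 := hs (s⁻¹ x)
  have h2 : s (s⁻¹ x) = x := s.apply_symm_apply x
  rw [h2] at h1
  exact h1.symm

/-- Elements of the decomposition group preserve the inequalities between values (H13S.dv_le). -/
theorem Dec.lt {s : Ω ≃ₐ[F] Ω} (hs : Dec V s) (a b : Ω) :
    V.valuation (s a) < V.valuation (s b) ↔ V.valuation a < V.valuation b := by
  rw [← not_le, ← not_le, H13S.dv_le s hs b a]

theorem Dec.lt_one {s : Ω ≃ₐ[F] Ω} (hs : Dec V s) (a : Ω) : V.valuation (s a) < 1 ↔ V.valuation a < 1 := by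
  have h := Dec.lt hs a 1
  rwa [map_one, map_one] at h

theorem Dec.le_one {s : Ω ≃ₐ[F] Ω} (hs : Dec V s) (a : Ω) : V.valuation (s a) ≤ 1 ↔ V.valuation a ≤ 1 := by
  have h := H13S.dv_le s hs a 1
  rwa [map_one, map_one] at h

/-- s has a finite orbit on a: as in H13S.qv_val. -/
theorem Dec.val [Algebra.IsAlgebraic F Ω] {s : Ω ≃ₐ[F] Ω} (hs : Dec V s) (a : Ω) :
    V.valuation (s a) = V.valuation a := by
  obtain ⟨n, hn, hna⟩ := qv_orb s a
  have hstep : ∀ k : ℕ, (s ^ (k + 1)) a = s ((s ^ k) a) := by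
    intro k
    rw [pow_succ']
    rfl
  rcases lt_trichotomy (V.valuation (s a)) (V.valuation a) with h | h | h
  · exfalso
    have h1 : ∀ k : ℕ, V.valuation ((s ^ (k + 1)) a) < V.valuation a := by
      intro k
      induction k with
      | zero =>
        rw [zero_add, pow_one]
        exact h
      | succ k ih =>
        rw [hstep (k + 1)]
        exact lt_trans ((Dec.lt hs _ _).2 ih) h
    have h2 := h1 (n - 1)
    rw [Nat.sub_add_cancel hn, hna] at h2
    exact lt_irrefl _ h2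
  · exact h
  · exfalso
    have h1 : ∀ k : ℕ, V.valuation a < V.valuation ((s ^ (k + 1)) a) := by
      intro k
      induction k with
      | zero =>
        rw [zero_add, pow_one]
        exact h
      | succ k ih =>
        rw [hstep (k + 1)]
        exact lt_trans h ((Dec.lt hs _ _).2 ih)
    have h2 := h1 (n - 1)
    rw [Nat.sub_add_cancel hn, hna] at h2
    exact lt_irrefl _ h2

/-- The inertia group is contained in the decomposition group (H13S.git_dec). -/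
theorem Inert.dec {s : Ω ≃ₐ[F] Ω} (hs : Inert V s) : Dec V s := gi_dec V s hs

/-- Conjugates of inertia elements by decomposition elements are inertia elements. -/
theorem Inert.conj {s σ : Ω ≃ₐ[F] Ω} (hs : Inert V s) (hσ : Dec V σ) : Inert V (σ⁻¹ * s * σ) := by
  intro x hx
  have h1 := hs (σ x) ((hσ x).2 hx)
  have h2 := (Dec.lt_one (Dec.inv' hσ) (s (σ x) - σ x)).2 h1
  rw [map_sub] at h2
  have h3 : σ⁻¹ (σ x) = x := σ.symm_apply_apply x
  rw [h3] at h2
  exact h2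

theorem lcb_mul {s t : Ω ≃ₐ[F] Ω} (hs : Inert V s) (ht : Inert V t) : Inert V (s * t) := by
  intro x hx
  have h1 := hs (t x) ((Inert.dec ht x).2 hx)
  have h2 := ht x hx
  have h3 : (s * t) x - x = (s (t x) - t x) + (t x - x) := by
    change s (t x) - x = _
    ring
  rw [h3]
  exact (V.valuation.map_add _ _).trans_lt (max_lt h1 h2)

theorem lcb_inv {s : Ω ≃ₐ[F] Ω} (hs : Inert V s) : Inert V s⁻¹ := by
  intro x hx
  have e : s (s⁻¹ x) = x := AlgEquiv.apply_symm_apply s x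
  have h1 : s⁻¹ x ∈ V := by
    rw [← Inert.dec hs, e]
    exact hx
  have h2 := hs _ h1
  rw [e] at h2
  rw [← V.valuation.map_neg, neg_sub]
  exact h2

theorem lcb_one : Inert V (1 : Ω ≃ₐ[F] Ω) := by
  intro x _
  have : (1 : Ω ≃ₐ[F] Ω) x - x = 0 := sub_self x
  rw [this, map_zero]
  exact zero_lt_one

end gal

section act

variable {F : Type} [Field F] [NumberField F] [IQ F] {A B : F} {Om : ℂ} {Ω : Type} [Field Ω] [DecidableEq Ω]
  [Algebra F Ω] {j : Ω →+* ℂ} {act : 𝓞 F →+* AddMonoid.End (Pt (WAB A B) Ω)} {mo : Ideal (𝓞 F)}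
  {ψ : Ideal (𝓞 F) →*₀ 𝓞 F}

/-- An automorphism acting as act a on Tor β and moving a point has no fixed point. -/
theorem no_fix (hA : CMA F A B Om j act) {β : 𝓞 F} (hβ : Prime β) {s : Ω ≃ₐ[F] Ω}
    (h : ∃ T ∈ Tor act β, ac (WAB A B) s T ≠ T) {T : Pt (WAB A B) Ω} (hT : T ∈ Tor act β)
    (hs : ac (WAB A B) s T = T) : T = 0 := by
  obtain ⟨-, T₀, hT₀, hgen, hker⟩ := gi_gen hA β hβ
  obtain ⟨a, ha⟩ := hgen _ (ac_mem hA s hT₀)
  have hall : ∀ X ∈ Tor act β, ac (WAB A B) s X = act a X := by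
    intro X hX
    obtain ⟨b, rfl⟩ := hgen X hX
    rw [ac_act hA, ha, ← act_mul, ← act_mul, mul_comm]
  obtain ⟨T₁, hT₁, hne⟩ := h
  have hnd : ¬ β ∣ a - 1 := by
    rintro ⟨c, hc⟩
    apply hne
    rw [hall T₁ hT₁, ← sub_eq_zero]
    have h1 : act (a - 1) T₁ = 0 := by
      rw [hc, mul_comm, act_mul, mem_Tor.1 hT₁]
      exact map_zero _
    rwa [act_sub, act_one] at h1
  obtain ⟨u, v, huv⟩ := (hβ.irreducible.coprime_iff_not_dvd).2 hnd
  have h1 : act (a - 1) T = 0 := by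
    rw [act_sub, act_one, ← hall T hT, hs, sub_self]
  have h2 : act (u * β + v * (a - 1)) T = 0 := by
    rw [act_add, act_mul, act_mul, mem_Tor.1 hT, h1, map_zero, map_zero, add_zero]
  rwa [huv, act_one] at h2

variable {π : 𝓞 F} {l : ℕ} {N : IntermediateField F Ω} {V : ValuationSubring Ω}

theorem Hx.add {x y : Ω} (hx : Hx act π N V x) (hy : Hx act π N V y) : Hx act π N V (x + y) := by
  intro s hs
  rw [map_add, hx s hs, hy s hs]

theorem Hx.sub {x y : Ω} (hx : Hx act π N V x) (hy : Hx act π N V y) : Hx act π N V (x - y) := by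
  intro s hs
  rw [map_sub, hx s hs, hy s hs]

theorem Hx.mul {x y : Ω} (hx : Hx act π N V x) (hy : Hx act π N V y) : Hx act π N V (x * y) := by
  intro s hs
  rw [map_mul, hx s hs, hy s hs]

theorem Hx.div {x y : Ω} (hx : Hx act π N V x) (hy : Hx act π N V y) : Hx act π N V (x / y) := by
  intro s hs
  rw [map_div₀, hx s hs, hy s hs]

theorem Hx.inv {x : Ω} (hx : Hx act π N V x) : Hx act π N V x⁻¹ := by
  intro s hs
  rw [map_inv₀, hx s hs]

theorem Hx.pow {x : Ω} (hx : Hx act π N V x) (n : ℕ) : Hx act π N V (x ^ n) := by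
  intro s hs
  rw [map_pow, hx s hs]

theorem Hx.zpow {x : Ω} (hx : Hx act π N V x) (n : ℤ) : Hx act π N V (x ^ n) := by
  intro s hs
  rw [map_zpow₀, hx s hs]

theorem Hx.alg (a : F) : Hx act π N V (algebraMap F Ω a) := by
  intro s _
  exact s.commutes a

theorem Hx.nat (n : ℕ) : Hx act π N V (n : Ω) := by
  intro s _
  exact map_natCast s n

theorem Hx.one : Hx act π N V (1 : Ω) := by
  intro s _
  exact map_one s

theorem Hx.of_mem {x : Ω} (hx : x ∈ N) : Hx act π N V x := fun s hs =>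
  (IntermediateField.mem_fixingSubgroup_iff N s).1 hs.1.1 x hx

theorem Hx.tt {T : Pt (WAB A B) Ω} (hT : T ∈ Tor act π) : Hx act π N V (H35P.tt T) := by
  intro s hs
  rw [← tt_ac, hs.2 T hT]

theorem DecN.mul {s t : Ω ≃ₐ[F] Ω} (hs : DecN N V s) (ht : DecN N V t) : DecN N V (s * t) :=
  ⟨mul_mem hs.1 ht.1, Dec.mul' hs.2 ht.2⟩

theorem DecN.inv {s : Ω ≃ₐ[F] Ω} (hs : DecN N V s) : DecN N V s⁻¹ :=
  ⟨inv_mem hs.1, Dec.inv' hs.2⟩

/-- Inertia elements above l are in the decomposition group over N. -/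
theorem Nb.dec (hN : Nb l N) (h : V.valuation (l : Ω) < 1)
    {s : Ω ≃ₐ[F] Ω} (hs : Inert V s) : DecN N V s :=
  ⟨hN.inert V h s hs, Inert.dec hs⟩

theorem DT.conj (hA : CMA F A B Om j act) {σ : Ω ≃ₐ[F] Ω} (hσ : DecN N V σ) {s : Ω ≃ₐ[F] Ω} (hs : DT act π N V s) :
    DT act π N V (σ⁻¹ * s * σ) := by
  refine ⟨(hσ.inv.mul hs.1).mul hσ, fun T hT => ?_⟩
  rw [ac_mul, ac_mul, hs.2 _ (ac_mem hA σ hT), ← ac_mul, inv_mul_cancel, ac_one]

theorem Hx.dec (hA : CMA F A B Om j act) {x : Ω} (hx : Hx act π N V x) {σ : Ω ≃ₐ[F] Ω} (hσ : DecN N V σ) : Hx act π N V (σ x) := by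
  intro s hs
  have h2 := hx _ (DT.conj hA hσ hs)
  have h3 : s (σ x) = σ ((σ⁻¹ * s * σ) x) := by
    have h4 : (σ⁻¹ * s * σ) x = σ⁻¹ (s (σ x)) := rfl
    rw [h4]
    exact (σ.apply_symm_apply _).symm
  rw [h3, h2]

/-- The cocycle condition over N gives the one on the inertia group. -/
theorem Dc.sub_cob (hA : CMA F A B Om j act) {c : (Ω ≃ₐ[F] Ω) → Pt (WAB A B) Ω} (hc : Dc act π N V c) {X : Pt (WAB A B) Ω} (hX : X ∈ Tor act (cj π)) :
    Dc act π N V fun s => c s - (ac (WAB A B) s X - X) := by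
  refine ⟨fun s hs t ht => ?_, fun s hs => sub_mem (hc.val s hs) (sub_mem (ac_mem hA s hX) hX)⟩
  show c (s * t) - (ac (WAB A B) (s * t) X - X) = c s - (ac (WAB A B) s X - X) + ac (WAB A B) s (c t - (ac (WAB A B) t X - X))
  rw [hc.mul s hs t ht, ac_mul, map_sub, map_sub]
  abel

theorem Dc.sub {c c' : (Ω ≃ₐ[F] Ω) → Pt (WAB A B) Ω} (hc : Dc act π N V c) (hc' : Dc act π N V c') :
    Dc act π N V fun s => c s - c' s := by
  refine ⟨fun s hs t ht => ?_, fun s hs => sub_mem (hc.val s hs) (hc'.val s hs)⟩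
  show c (s * t) - c' (s * t) = c s - c' s + ac (WAB A B) s (c t - c' t)
  rw [hc.mul s hs t ht, hc'.mul s hs t ht, map_sub]
  abel

theorem Dc.one {c : (Ω ≃ₐ[F] Ω) → Pt (WAB A B) Ω} (hc : Dc act π N V c) : c 1 = 0 := by
  have h1 : DecN N V (1 : Ω ≃ₐ[F] Ω) := ⟨one_mem _, fun x => Iff.rfl⟩
  have h2 := hc.mul 1 h1 1 h1
  rw [mul_one, ac_one] at h2
  exact left_eq_add.mp h2

/-- A cocycle vanishing on an inertia element: c (s n) = c s etc. -/
theorem Dc.conj_eq {c : (Ω ≃ₐ[F] Ω) → Pt (WAB A B) Ω} (hc : Dc act π N V c) {σ s : Ω ≃ₐ[F] Ω} (hσ : DecN N V σ)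
    (hs : DecN N V s) (h1 : c σ = 0) (h2 : c (s⁻¹ * σ * s) = 0) : ac (WAB A B) σ (c s) = c s := by
  have h3 := hc.mul σ hσ s hs
  have h4 := hc.mul s hs (s⁻¹ * σ * s) ((hs.inv.mul hσ).mul hs)
  have e : s * (s⁻¹ * σ * s) = σ * s := by group
  rw [e, h2, map_zero, add_zero] at h4
  rw [h1, zero_add, h4] at h3
  exact h3.symm

/-- If a cocycle vanishes on the inertia group over N and some inertia element has no fixed point then it vanishes. -/
theorem cob_dec_ram {c : (Ω ≃ₐ[F] Ω) → Pt (WAB A B) Ω} (hc : Dc act π N V c)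
    (h : ∀ s ∈ N.fixingSubgroup, Inert V s → c s = 0)
    (hσ : ∃ s ∈ N.fixingSubgroup, Inert V s ∧ ∀ T ∈ Tor act (cj π), ac (WAB A B) s T = T → T = 0) :
    ∀ s, DecN N V s → c s = 0 := by
  obtain ⟨σ, hσN, hσ1, hσ2⟩ := hσ
  intro s hs
  have hσD : DecN N V σ := ⟨hσN, Inert.dec hσ1⟩
  exact hσ2 _ (hc.val s hs) (hc.conj_eq hσD hs (h σ hσN hσ1)
    (h _ ((hs.inv.mul hσD).mul hs).1 (Inert.conj hσ1 hs.2)))

end act

end H13X
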