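import Mathlib
import Pool.Agent.Lib.H13X.XG
import Pool.Agent.Lib.H13Z.LDG

/-! # H13X: port of H13Z/LDG -/

open NumberField IsDedekindDomain WeierstrassCurve

namespace H13X

open H55P (IQ embF eF LF Per IsHecke Pt ac Inert Dec Nm Coc)
open H35P (WAB Ker tt)
open H55K (Tor ak xc yc CMA Dta GV GMod cj cj_cj mul_cj cj_prime cj_dvd cj_nat Nm_cj Nm_mul Nm_nat)
open H55K.S
open H13S (Abv)




variable {F : Type} [Field F] [NumberField F] [IQ F] {A B : F} {Om : ℂ} {Ω : Type} [Field Ω] [DecidableEq Ω]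
  [Algebra F Ω] [IsAlgClosure F Ω] {j : Ω →+* ℂ} {act : 𝓞 F →+* AddMonoid.End (Pt (WAB A B) Ω)} {mo : Ideal (𝓞 F)}
  {ψ : Ideal (𝓞 F) →*₀ 𝓞 F}

theorem LDG_pow {L : Type} [Field L] (V : ValuationSubring L) {x y : L} (hx : V.valuation x ≤ 1)
    (hy : V.valuation y ≤ 1) (h : V.valuation (x - y) < 1) (n : ℕ) : V.valuation (x ^ n - y ^ n) < 1 := by
  induction n with
  | zero =>
    rw [pow_zero, pow_zero, sub_self, map_zero]
    exact zero_lt_one
  | succ n ih =>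
    have e : x ^ (n + 1) - y ^ (n + 1) = x ^ n * (x - y) + (x ^ n - y ^ n) * y := by ring
    rw [e]
    refine V.valuation.map_add_lt ?_ ?_
    · rw [map_mul, map_pow]
      exact lt_of_le_of_lt (mul_le_of_le_one_left' (pow_le_one' hx n)) h
    · rw [map_mul]
      exact lt_of_le_of_lt (mul_le_of_le_one_right' hy) ih

theorem LDG_decpow {Ω : Type} [Field Ω] [DecidableEq Ω] [Algebra F Ω] {V : ValuationSubring Ω}
    {φ : Ω ≃ₐ[F] Ω} (hφ : Dec V φ) (j : ℕ) : Dec V (φ ^ j) := by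
  induction j with
  | zero =>
    intro x
    rw [pow_zero]
    rfl
  | succ j ih =>
    rw [pow_succ]
    exact Dec.mul' ih hφ

theorem LDG_phi {Ω : Type} [Field Ω] [DecidableEq Ω] [Algebra F Ω] {V : ValuationSubring Ω}
    {φ : Ω ≃ₐ[F] Ω} (hφ : Dec V φ) {Q : ℕ} (hφF : ∀ x ∈ V, V.valuation (φ x - x ^ Q) < 1) (j : ℕ)
    {y : Ω} (hy : y ∈ V) : V.valuation ((φ ^ j) y - y ^ (Q ^ j)) < 1 := by
  induction j with
  | zero =>
    rw [pow_zero, pow_zero, pow_one]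
    have : (1 : Ω ≃ₐ[F] Ω) y - y = 0 := sub_self y
    rw [this, map_zero]
    exact zero_lt_one
  | succ j ih =>
    have h1 : (φ ^ j) y ∈ V := (LDG_decpow hφ j y).2 hy
    have h2 := hφF _ h1
    have h3 := LDG_pow V ((V.valuation_le_one_iff _).2 h1)
      ((V.valuation_le_one_iff _).2 (V.pow_mem hy (Q ^ j))) ih Q
    have h4 : (φ ^ (j + 1)) y = φ ((φ ^ j) y) := by
      rw [pow_succ']
      rfl
    have e : (φ ^ (j + 1)) y - y ^ (Q ^ (j + 1)) = (φ ((φ ^ j) y) - ((φ ^ j) y) ^ Q) +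
        (((φ ^ j) y) ^ Q - (y ^ (Q ^ j)) ^ Q) := by
      rw [h4, pow_succ Q j, pow_mul]
      ring
    rw [e]
    exact V.valuation.map_add_lt h2 h3

theorem LDG_frobN {K : IntermediateField F Ω} [NumberField K] {V : ValuationSubring Ω}
    {w : HeightOneSpectrum (𝓞 K)} (hw : Abv K V w) (N : IntermediateField F Ω) [NumberField N]
    (W : HeightOneSpectrum (𝓞 N)) (hW : Abv N V W) (hKN : K ≤ N)
    (hN : ∀ s : Ω ≃ₐ[F] Ω, ∀ x ∈ N, s x ∈ N) {s : Ω ≃ₐ[F] Ω} (hs : s ∈ K.fixingSubgroup) (hsD : Dec V s) :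
    ∃ j : ℕ, ∀ a : 𝓞 N, V.valuation (s ((a : N) : Ω) - ((a : N) : Ω) ^ (Ideal.absNorm w.asIdeal ^ j)) < 1 := by
  let sN : N →+* N := (((s : Ω →ₐ[F] Ω).comp N.val).codRestrict N.toSubalgebra (fun x => hN s x x.2)).toRingHom
  let sO : 𝓞 N →+* 𝓞 N := RingOfIntegers.mapRingHom sN
  have hsO : ∀ a : 𝓞 N, (((sO a : 𝓞 N) : N) : Ω) = s ((a : N) : Ω) := fun a => rfl
  let iN : K →+* N := (IntermediateField.inclusion hKN).toRingHom
  let iO : 𝓞 K →+* 𝓞 N := RingOfIntegers.mapRingHom iN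
  have hiO : ∀ a : 𝓞 K, (((iO a : 𝓞 N) : N) : Ω) = ((a : K) : Ω) := fun a => rfl
  have memW : ∀ a : 𝓞 N, a ∈ W.asIdeal ↔ V.valuation ((a : N) : Ω) < 1 := by
    intro a
    rw [hW.lt]
    exact (W.valuation_lt_one_iff_mem a).symm
  have memw : ∀ a : 𝓞 K, a ∈ w.asIdeal ↔ V.valuation ((a : K) : Ω) < 1 := by
    intro a
    rw [hw.lt]
    exact (w.valuation_lt_one_iff_mem a).symm
  have hle1 : W.asIdeal ≤ W.asIdeal.comap sO := by
    intro a ha
    rw [Ideal.mem_comap, memW, hsO, Dec.lt_one hsD]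
    exact (memW a).1 ha
  have hle2 : w.asIdeal ≤ W.asIdeal.comap iO := by
    intro a ha
    rw [Ideal.mem_comap, memW, hiO]
    exact (memw a).1 ha
  have hwm := w.isMaximal
  have hWm := W.isMaximal
  let _ : Field (𝓞 K ⧸ w.asIdeal) := Ideal.Quotient.field w.asIdeal
  let _ : Field (𝓞 N ⧸ W.asIdeal) := Ideal.Quotient.field W.asIdeal
  have hfin1 : Finite (𝓞 K ⧸ w.asIdeal) := Ideal.finiteQuotientOfFreeOfNeBot _ w.ne_bot
  have hfin2 : Finite (𝓞 N ⧸ W.asIdeal) := Ideal.finiteQuotientOfFreeOfNeBot _ W.ne_bot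
  obtain ⟨j, hj⟩ := H13Z.LDG_ff (Ideal.quotientMap W.asIdeal iO hle2) (Ideal.quotientMap W.asIdeal sO hle1) (by
    intro a
    obtain ⟨a, rfl⟩ := Ideal.Quotient.mk_surjective a
    rw [Ideal.quotientMap_mk, Ideal.quotientMap_mk]
    congr 1
    apply RingOfIntegers.coe_injective
    apply Subtype.ext
    rw [hsO, hiO]
    exact (IntermediateField.mem_fixingSubgroup_iff K s).1 hs _ (a : K).2)
  refine ⟨j, fun a => ?_⟩
  have h1 := hj (Ideal.Quotient.mk W.asIdeal a)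
  rw [Ideal.quotientMap_mk, ← map_pow, Ideal.Quotient.mk_eq_mk_iff_sub_mem, memW] at h1
  have h3 : Ideal.absNorm w.asIdeal = Nat.card (𝓞 K ⧸ w.asIdeal) := rfl
  rw [h3]
  exact h1

theorem LDG_ext (N : IntermediateField F Ω) [NumberField N] {V : ValuationSubring Ω}
    (W : HeightOneSpectrum (𝓞 N)) (hW : Abv N V W) {s : Ω ≃ₐ[F] Ω} (hsD : Dec V s) (q : ℕ)
    (h : ∀ a : 𝓞 N, V.valuation (s ((a : N) : Ω) - ((a : N) : Ω) ^ q) < 1) (x : Ω) (hx : x ∈ N) (hxV : x ∈ V) :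
    V.valuation (s x - x ^ q) < 1 := by
  obtain ⟨n, d, hnd⟩ := HeightOneSpectrum.exists_primeCompl_mul_eq_of_integer W (⟨x, hx⟩ : N)
    ((hW ⟨x, hx⟩).1 hxV)
  have hxd : x * (((d : 𝓞 N) : N) : Ω) = ((n : N) : Ω) := congrArg Subtype.val hnd
  have hd1 : ¬ V.valuation (((d : 𝓞 N) : N) : Ω) < 1 := by
    intro h1
    rw [hW.lt] at h1
    exact d.2 ((W.valuation_lt_one_iff_mem (d : 𝓞 N)).1 h1)
  have hsd : V.valuation (s (((d : 𝓞 N) : N) : Ω)) = 1 := by
    refine le_antisymm ?_ ?_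
    · rw [Dec.le_one hsD]
      exact H13S.vw_int N V d
    · rw [← not_lt, Dec.lt_one hsD]
      exact hd1
  have h1 := h (d : 𝓞 N)
  have h2 := h n
  have hxv : V.valuation (x ^ q) ≤ 1 := (V.valuation_le_one_iff _).2 (V.pow_mem hxV q)
  have e : (s x - x ^ q) * s (((d : 𝓞 N) : N) : Ω) = (s ((n : N) : Ω) - ((n : N) : Ω) ^ q) -
      x ^ q * (s (((d : 𝓞 N) : N) : Ω) - (((d : 𝓞 N) : N) : Ω) ^ q) := by
    rw [← hxd, map_mul, mul_pow]
    ring
  have h3 : V.valuation ((s x - x ^ q) * s (((d : 𝓞 N) : N) : Ω)) < 1 := by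
    rw [e]
    refine lt_of_le_of_lt (V.valuation.map_sub _ _) (max_lt h2 ?_)
    rw [map_mul]
    exact lt_of_le_of_lt (mul_le_of_le_one_left' hxv) h1
  rw [map_mul, hsd, mul_one] at h3
  exact h3

theorem LDG_top {K : IntermediateField F Ω} [NumberField K] {V : ValuationSubring Ω}
    {w : HeightOneSpectrum (𝓞 K)} (hw : Abv K V w) : ∃ x : K, (x : Ω) ∉ V := by
  obtain ⟨a, ha, ha0⟩ := Submodule.exists_mem_ne_zero_of_ne_bot w.ne_bot
  have h1 : V.valuation ((a : K) : Ω) < 1 := by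
    rw [hw.lt]
    exact (w.valuation_lt_one_iff_mem a).2 ha
  have ha1 : ((a : K) : Ω) ≠ 0 := by
    intro h
    apply ha0
    apply RingOfIntegers.coe_injective
    exact Subtype.ext h
  refine ⟨(a : K)⁻¹, fun h => ?_⟩
  have e : (((a : K)⁻¹ : K) : Ω) = ((a : K) : Ω)⁻¹ := rfl
  rw [e, ← V.valuation_le_one_iff, map_inv₀, inv_le_one₀ (zero_lt_iff.2 ((map_ne_zero _).2 ha1))] at h
  exact absurd h1 (not_lt.2 h)

/-- Chunk LDG1 (M). The decomposition group is generated by a Frobenius element and elements which are inertial on a given finite subfield N. N may be enlarged to a normal extension of F containing K (normalClosure). s in Dec V, s in K.fixingSubgroup. W = the prime of 𝓞 N below V (exists_below; V is not ⊤), the residue field 𝓞 N/W is finite,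
with the subfield 𝓞 K/w with Q = absNorm w elements. s and φ map 𝓞 N to itself and preserve W (Dec), s induces an automorphism of 𝓞 N/W over 𝓞 K/w, so x → x^(Q^j) for some j (FiniteField: the Galois group is generated by Frobenius; e.g. bijective_frobeniusAlgEquivOfAlgebraic_pow, or IsCyclic..), as φ^j.
So s φ^(-j) x - x has value < 1 for x in 𝓞 N, hence for x in N, x in V (x = a/b with a, b in 𝓞 N, b not in W). -/
theorem dec_frob {K : IntermediateField F Ω} [NumberField K] {V : ValuationSubring Ω}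
    {w : HeightOneSpectrum (𝓞 K)} (hw : Abv K V w) {φ : Ω ≃ₐ[F] Ω} (hφ : φ ∈ K.fixingSubgroup)
    (hφD : Dec V φ) (hφF : ∀ x ∈ V, V.valuation (φ x - x ^ Ideal.absNorm w.asIdeal) < 1)
    (N : IntermediateField F Ω) [FiniteDimensional F N] (hKN : K ≤ N)
    (hN : ∀ s : Ω ≃ₐ[F] Ω, ∀ x ∈ N, s x ∈ N) {s : Ω ≃ₐ[F] Ω} (hs : s ∈ K.fixingSubgroup) (hsD : Dec V s) :
    ∃ j : ℕ, ∀ x ∈ N, x ∈ V → V.valuation ((s * (φ ^ j)⁻¹) x - x) < 1 := by
  have hNnf : NumberField N := NumberField.of_module_finite F N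
  have hVN : ∃ x : N, (x : Ω) ∉ V := by
    obtain ⟨x, hx⟩ := LDG_top hw
    exact ⟨⟨x, hKN x.2⟩, hx⟩
  obtain ⟨W, hW⟩ := H13S.exists_below N V hVN
  obtain ⟨j, hj⟩ := LDG_frobN hw N W hW hKN hN hs hsD
  refine ⟨j, fun x hx hxV => ?_⟩
  have hy : (φ ^ j)⁻¹ x ∈ N := hN _ x hx
  have hyV : (φ ^ j)⁻¹ x ∈ V := (Dec.inv' (LDG_decpow hφD j) x).2 hxV
  have h1 := LDG_ext N W hW hsD _ hj _ hy hyV
  have h2 := LDG_phi hφD hφF j hyV
  have h3 : (φ ^ j) ((φ ^ j)⁻¹ x) = x := by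
    have h4 : ((φ ^ j) * (φ ^ j)⁻¹) x = x := by
      rw [mul_inv_cancel]
      rfl
    exact h4
  rw [h3] at h2
  have e : (s * (φ ^ j)⁻¹) x - x = (s ((φ ^ j)⁻¹ x) - ((φ ^ j)⁻¹ x) ^ (Ideal.absNorm w.asIdeal ^ j)) -
      (x - ((φ ^ j)⁻¹ x) ^ (Ideal.absNorm w.asIdeal ^ j)) := by
    have : (s * (φ ^ j)⁻¹) x = s ((φ ^ j)⁻¹ x) := rfl
    rw [this]
    ring
  rw [e]
  exact lt_of_le_of_lt (V.valuation.map_sub _ _) (max_lt h1 h2)

/-- Chunk LDG2 (S/M). A₀ cocycle on the decomposition group over K vanishing on inertia and at Frobenius is zero. Enlarge N (from hc) to a finite normal extension of F containing K. dec_frob: s' = s φ^(-j) is inertial on N, inertia_lift: s'' with Inert V s'', s'' = s' on N; s'' is in K.fixingSubgroup (K ≤ N), n = s''⁻¹ s' is in N.fixingSubgroup and Dec V n.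
d s' = d (s'' n) = d s'' + ac s'' (d n) = 0; d (φ^j) = 0 (induction); d s = d (s' φ^j) = 0. -/
theorem dec_gen {K : IntermediateField F Ω} [NumberField K] {V : ValuationSubring Ω}
    {w : HeightOneSpectrum (𝓞 K)} (hw : Abv K V w) {d : (Ω ≃ₐ[F] Ω) → Pt (WAB A B) Ω}
    (hd : ∀ s ∈ K.fixingSubgroup, Dec V s → ∀ t ∈ K.fixingSubgroup, Dec V t →
      d (s * t) = d s + ac (WAB A B) s (d t))
    (hc : ∃ N : IntermediateField F Ω, FiniteDimensional F N ∧
      ∀ s ∈ K.fixingSubgroup, s ∈ N.fixingSubgroup → Dec V s → d s = 0)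
    (hI : ∀ s ∈ K.fixingSubgroup, Inert V s → d s = 0) {φ : Ω ≃ₐ[F] Ω} (hφ : φ ∈ K.fixingSubgroup)
    (hφD : Dec V φ) (hφF : ∀ x ∈ V, V.valuation (φ x - x ^ Ideal.absNorm w.asIdeal) < 1) (h0 : d φ = 0)
    {s : Ω ≃ₐ[F] Ω} (hs : s ∈ K.fixingSubgroup) (hsD : Dec V s) : d s = 0 := by
  obtain ⟨N0, hN0f, hN0⟩ := hc
  have hcl0 : IsAlgClosed Ω := IsAlgClosure.isAlgClosed F
  have hal0 : Algebra.IsAlgebraic F Ω := IsAlgClosure.isAlgebraic
  have hnorm : Normal F Ω := IsAlgClosure.normal F Ω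
  have hKfin : FiniteDimensional F K := FiniteDimensional.right ℚ F K
  let M : IntermediateField F Ω := K ⊔ N0
  have hMfin : FiniteDimensional F M := IntermediateField.finiteDimensional_sup K N0
  let N : IntermediateField F Ω := IntermediateField.normalClosure F M Ω
  have hNfin : FiniteDimensional F N := normalClosure.is_finiteDimensional F M Ω
  have hNnorm : Normal F N := normalClosure.normal F M Ω
  have hMN : M ≤ N := IntermediateField.le_normalClosure M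
  have hKN : K ≤ N := le_trans le_sup_left hMN
  have hN0N : N0 ≤ N := le_trans le_sup_right hMN
  have hst : ∀ s : Ω ≃ₐ[F] Ω, ∀ x ∈ N, s x ∈ N := by
    intro s x hx
    exact (IntermediateField.normal_iff_forall_map_le'.1 hNnorm) s ⟨x, hx, rfl⟩
  obtain ⟨j, hj⟩ := dec_frob hw hφ hφD hφF N hKN hst hs hsD
  have hφj : φ ^ j ∈ K.fixingSubgroup := pow_mem hφ j
  have hφjD := LDG_decpow hφD j
  obtain ⟨s', hs'⟩ : ∃ s', s' = s * (φ ^ j)⁻¹ := ⟨_, rfl⟩
  rw [← hs'] at hj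
  have hs'K : s' ∈ K.fixingSubgroup := by
    rw [hs']
    exact mul_mem hs (inv_mem hφj)
  have hs'D : Dec V s' := by
    rw [hs']
    exact Dec.mul' hsD (Dec.inv' hφjD)
  obtain ⟨t, htI, ht⟩ := H13S.inertia_lift N V s' (fun x hx => hst s' x hx) hj
  have htD : Dec V t := Inert.dec htI
  have htK : t ∈ K.fixingSubgroup := by
    rw [IntermediateField.mem_fixingSubgroup_iff]
    intro x hx
    rw [ht x (hKN hx)]
    exact (IntermediateField.mem_fixingSubgroup_iff K s').1 hs'K x hx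
  have hnK : t⁻¹ * s' ∈ K.fixingSubgroup := mul_mem (inv_mem htK) hs'K
  have hnN : t⁻¹ * s' ∈ N0.fixingSubgroup := by
    rw [IntermediateField.mem_fixingSubgroup_iff]
    intro x hx
    have h1 : (t⁻¹ * s') x = t⁻¹ (s' x) := rfl
    rw [h1, ← ht x (hN0N hx)]
    have h2 : (t⁻¹ * t) x = x := by
      rw [inv_mul_cancel]
      rfl
    exact h2
  have hnD : Dec V (t⁻¹ * s') := Dec.mul' (Dec.inv' htD) hs'D
  have h1 : d s' = 0 := by
    have h2 := hd t htK htD (t⁻¹ * s') hnK hnD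
    rw [mul_inv_cancel_left, hI t htK htI, hN0 _ hnK hnN hnD, map_zero, add_zero] at h2
    exact h2
  have hd1 : d 1 = 0 := by
    have h2 := hd 1 (one_mem _) (LDG_decpow hφD 0 |> fun h => by rwa [pow_zero] at h) 1 (one_mem _)
      (LDG_decpow hφD 0 |> fun h => by rwa [pow_zero] at h)
    rw [mul_one, ac_one] at h2
    exact left_eq_add.1 h2
  have h3 : ∀ j : ℕ, d (φ ^ j) = 0 := by
    intro j
    induction j with
    | zero => rw [pow_zero, hd1]
    | succ j ih =>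
      rw [pow_succ, hd _ (pow_mem hφ j) (LDG_decpow hφD j) _ hφ hφD, ih, h0, map_zero, add_zero]
  have h4 : s = s' * φ ^ j := by
    rw [hs', inv_mul_cancel_right]
  rw [h4, hd s' hs'K hs'D _ hφj hφjD, h1, h3 j, map_zero, add_zero]

end H13X
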