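import Mathlib
import Pool.Agent.Lib.H13S.FR
import Pool.Agent.Lib.H13S.VW
import Pool.Agent.Lib.H55K.SKR

/-! # H13X: port of H13Z/LE -/

open NumberField IsDedekindDomain WeierstrassCurve

namespace H13X

open H55P (IQ embF eF LF Per IsHecke Pt ac Inert Dec Nm Coc)
open H35P (WAB Ker tt)
open H55K (Tor ak xc yc CMA Dta GV GMod cj cj_cj mul_cj cj_prime cj_dvd cj_nat Nm_cj Nm_mul Nm_nat)
open H55K.S
open H13S (Abv)




variable {F : Type} [Field F] [NumberField F] [IQ F] {A B : F} {Om : ℂ} {Ω : Type} [Field Ω] [DecidableEq Ω]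
  [Algebra F Ω] [IsAlgClosure F Ω] {j : Ω →+* ℂ} {act : 𝓞 F →+* AddMonoid.End (Pt (WAB A B) Ω)} {mo : Ideal (𝓞 F)}
  {ψ : Ideal (𝓞 F) →*₀ 𝓞 F}

variable {V : ValuationSubring Ω}

/-- Inertia fixes the torsion of order prime to V. -/
theorem inert_tors (hA : CMA F A B Om j act) (hG : GV A B V) {a : 𝓞 F} (ha : vo V a = 1) {s : Ω ≃ₐ[F] Ω}
    (hs : Inert V s) {T : Pt (WAB A B) Ω} (hT : T ∈ Tor act a) : ac (WAB A B) s T = T :=
  sub_eq_zero.1 (kr_tor hA hG a ha (sub_mem (ac_mem hA s hT) hT) (kr_inert hG s hs T))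

/-- Chunk LE4 (S/M). Frobenius elements over K: H13S.exists_frob with K in place of F₀ (Ω is an algebraic closure of K), restrictScalars F. -/
theorem exists_frobK (K : IntermediateField F Ω) [NumberField K] {w : HeightOneSpectrum (𝓞 K)}
    (hw : Abv K V w) : ∃ s ∈ K.fixingSubgroup, Dec V s ∧
      ∀ x ∈ V, V.valuation (s x - x ^ Ideal.absNorm w.asIdeal) < 1 := by
  have hac : IsAlgClosed Ω := IsAlgClosure.isAlgClosed F
  have hal : Algebra.IsAlgebraic F Ω := IsAlgClosure.isAlgebraic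
  have hK : IsAlgClosure K Ω := ⟨hac, Algebra.IsAlgebraic.tower_top (K := F) K⟩
  obtain ⟨s, hs1, hs2⟩ := H13S.exists_frob w V (fun a ha => by
    rw [← HeightOneSpectrum.valuation_lt_one_iff_mem (K := K)] at ha
    exact (hw.lt _).2 ha)
  refine ⟨s.restrictScalars F, ?_, hs1, hs2⟩
  rw [IntermediateField.mem_fixingSubgroup_iff]
  intro x hx
  exact s.commutes ⟨x, hx⟩

/-- The residue field of w is an extension of degree f of the one of γ (w contains γ by Abv.lt; absNorm of w is the cardinality of 𝓞 K/w, a finite extension of 𝓞 F/γ, which has Nm γ elements). -/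
theorem norm_above (K : IntermediateField F Ω) [NumberField K] {w : HeightOneSpectrum (𝓞 K)}
    (hw : Abv K V w) {γ : 𝓞 F} (hγ : Prime γ) (hV : vo V γ < 1) :
    ∃ f : ℕ, 0 < f ∧ Ideal.absNorm w.asIdeal = Nm γ ^ f := by
  have hmem : algebraMap (𝓞 F) (𝓞 K) γ ∈ w.asIdeal := by
    rw [← HeightOneSpectrum.valuation_lt_one_iff_mem (K := K), ← hw.lt]
    exact hV
  have hle : Ideal.span {γ} ≤ w.asIdeal.comap (algebraMap (𝓞 F) (𝓞 K)) := by
    rw [Ideal.span_singleton_le_iff_mem, Ideal.mem_comap]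
    exact hmem
  have hbot : Ideal.span {γ} ≠ ⊥ := by
    rw [Ne, Ideal.span_singleton_eq_bot]
    exact hγ.ne_zero
  have hp : (Ideal.span {γ}).IsPrime := (Ideal.span_singleton_prime hγ.ne_zero).2 hγ
  have hm : (Ideal.span {γ}).IsMaximal := hp.isMaximal hbot
  have hfin : Finite (𝓞 F ⧸ Ideal.span {γ}) := Ideal.finiteQuotientOfFreeOfNeBot _ hbot
  have hfin2 : Finite (𝓞 K ⧸ w.asIdeal) := Ideal.finiteQuotientOfFreeOfNeBot _ w.ne_bot
  have hwm := w.isMaximal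
  letI : Field (𝓞 F ⧸ Ideal.span {γ}) := Ideal.Quotient.field _
  letI : Algebra (𝓞 F ⧸ Ideal.span {γ}) (𝓞 K ⧸ w.asIdeal) := Ideal.Quotient.algebraQuotientOfLEComap hle
  have hnt : Nontrivial (𝓞 K ⧸ w.asIdeal) := Ideal.Quotient.nontrivial_iff.2 hwm.ne_top
  have hft1 : Fintype (𝓞 F ⧸ Ideal.span {γ}) := Fintype.ofFinite _
  have hft2 : Fintype (𝓞 K ⧸ w.asIdeal) := Fintype.ofFinite _
  have hmf : Module.Finite (𝓞 F ⧸ Ideal.span {γ}) (𝓞 K ⧸ w.asIdeal) := Module.Finite.of_finite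
  have hcard := Module.card_eq_pow_finrank (K := 𝓞 F ⧸ Ideal.span {γ}) (V := 𝓞 K ⧸ w.asIdeal)
  refine ⟨Module.finrank (𝓞 F ⧸ Ideal.span {γ}) (𝓞 K ⧸ w.asIdeal), Module.finrank_pos, ?_⟩
  have e1 : Ideal.absNorm w.asIdeal = Nat.card (𝓞 K ⧸ w.asIdeal) := rfl
  have e2 : Nm γ = Nat.card (𝓞 F ⧸ Ideal.span {γ}) := rfl
  rw [e1, e2, Nat.card_eq_fintype_card, Nat.card_eq_fintype_card, hcard]

end H13X
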