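import Mathlib
import Pool.Agent.Lib.H13X.XG
import Pool.Agent.Lib.H55K.SNA

/-! # H13X: port of H13Z/LP -/

open NumberField IsDedekindDomain WeierstrassCurve

namespace H13X

open H55P (IQ embF eF LF Per IsHecke Pt ac Inert Dec Nm Coc)
open H35P (WAB Ker tt)
open H55K (Tor ak xc yc CMA Dta GV GMod cj cj_cj mul_cj cj_prime cj_dvd cj_nat Nm_cj Nm_mul Nm_nat)
open H55K.S
open H13S (Abv)




variable {F : Type} [Field F] [NumberField F] [IQ F] {A B : F} {Om : ℂ} {Ω : Type} [Field Ω] [DecidableEq Ω]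
  [Algebra F Ω] [IsAlgClosure F Ω] {j : Ω →+* ℂ} {act : 𝓞 F →+* AddMonoid.End (Pt (WAB A B) Ω)} {mo : Ideal (𝓞 F)}
  {ψ : Ideal (𝓞 F) →*₀ 𝓞 F}

variable {V : ValuationSubring Ω}

theorem lp_fix (s : Ω ≃ₐ[F] Ω) {P : Pt (WAB A B) Ω} (hx : s (xc P) = xc P) (hy : s (yc P) = yc P) : ac (WAB A B) s P = P := by
  by_cases hP : P = 0
  · rw [hP, map_zero]
  · refine pt_ext (ac_ne s hP) hP ?_ ?_
    · rw [xc_ac, hx]
    · rw [yc_ac, hy]

theorem lp_adj (s : Ω ≃ₐ[F] Ω) (P : Pt (WAB A B) Ω)
    (hs : s ∈ (IntermediateField.adjoin F {xc P, yc P}).fixingSubgroup) : ac (WAB A B) s P = P := by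
  rw [IntermediateField.mem_fixingSubgroup_iff] at hs
  refine lp_fix s (hs _ ?_) (hs _ ?_)
  · exact IntermediateField.subset_adjoin F _ (by simp)
  · exact IntermediateField.subset_adjoin F _ (by simp)

theorem lp_fin (P : Pt (WAB A B) Ω) : FiniteDimensional F (IntermediateField.adjoin F {xc P, yc P}) := by
  have hal : Algebra.IsAlgebraic F Ω := IsAlgClosure.isAlgebraic
  have hfin : Finite ({xc P, yc P} : Set Ω) := Set.Finite.to_subtype (Set.toFinite _)
  exact IntermediateField.finiteDimensional_adjoin fun x _ => (hal.isAlgebraic x).isIntegral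

theorem lp_adjoin (s : Ω ≃ₐ[F] Ω) (S : Set Ω) (h : ∀ x ∈ S, s x = x) :
    s ∈ (IntermediateField.adjoin F S).fixingSubgroup := by
  rw [IntermediateField.mem_fixingSubgroup_iff]
  intro x hx
  induction hx using IntermediateField.adjoin_induction with
  | mem x hx => exact h x hx
  | algebraMap a => exact s.commutes a
  | add x y _ _ hx hy => rw [map_add, hx, hy]
  | inv x _ hx => rw [map_inv₀, hx]
  | mul x y _ _ hx hy => rw [map_mul, hx, hy]

/-- The root of B w^3 + A t w^2 - w + t^3 in the maximal ideal. -/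
theorem xp_root (hG : GV A B V) {t : Ω} (ht0 : t ≠ 0) (ht : V.valuation t < 1) :
    ∃ w : Ω, w = t ^ 3 + algebraMap F Ω A * t * w ^ 2 + algebraMap F Ω B * w ^ 3 ∧ V.valuation w < 1 ∧ w ≠ 0 := by
  have hac : IsAlgClosed Ω := IsAlgClosure.isAlgClosed F
  let C : Cubic Ω := ⟨t ^ 3, -1, algebraMap F Ω A * t, algebraMap F Ω B⟩
  have ha : C.a ≠ 0 := pow_ne_zero 3 ht0
  have hs : (C.toPoly.map (RingHom.id Ω)).Splits := IsAlgClosed.splits _
  obtain ⟨x, y, z, h3⟩ := (Cubic.splits_iff_roots_eq_three (φ := RingHom.id Ω) ha).1 hs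
  have hb := Cubic.b_eq_three_roots (φ := RingHom.id Ω) ha h3
  change (-1 : Ω) = t ^ 3 * -(x + y + z) at hb
  have hroot : ∀ r ∈ ({x, y, z} : Multiset Ω), t ^ 3 * r ^ 3 - r ^ 2 + algebraMap F Ω A * t * r + algebraMap F Ω B = 0 := by
    intro r hr
    rw [← h3, Cubic.map_roots, Polynomial.mem_roots_map_of_injective (RingHom.id Ω).injective (Cubic.ne_zero_of_a_ne_zero ha)] at hr
    have h4 : t ^ 3 * r ^ 3 + -1 * r ^ 2 + algebraMap F Ω A * t * r + algebraMap F Ω B = 0 := by
      simpa [Cubic.toPoly, C] using hr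
    linear_combination h4
  have hmax : ∃ r ∈ ({x, y, z} : Multiset Ω), 1 < V.valuation r := by
    by_contra hcon
    push Not at hcon
    have h4 : V.valuation (x + y + z) ≤ 1 := by
      refine (V.valuation.map_add _ _).trans (max_le ((V.valuation.map_add _ _).trans (max_le ?_ ?_)) ?_)
      · exact hcon x (by simp)
      · exact hcon y (by simp)
      · exact hcon z (by simp)
    have h5 : t ^ 3 * (x + y + z) = 1 := by linear_combination hb
    have h6 : V.valuation (t ^ 3 * (x + y + z)) < 1 := by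
      rw [map_mul, map_pow]
      exact (mul_le_of_le_one_right' h4).trans_lt (pow_lt_one₀ zero_le ht (by norm_num))
    rw [h5, map_one] at h6
    exact lt_irrefl _ h6
  obtain ⟨r, hr, hr1⟩ := hmax
  have hr0 : r ≠ 0 := by
    rintro rfl
    rw [map_zero] at hr1
    exact absurd hr1 (not_lt.2 zero_le)
  refine ⟨r⁻¹, ?_, ?_, inv_ne_zero hr0⟩
  · have h4 := hroot r hr
    field_simp
    linear_combination -h4
  · rw [map_inv₀]
    exact inv_lt_one_of_one_lt₀ hr1

/-- Its uniqueness. -/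
theorem xp_uniq (hG : GV A B V) {t w w' : Ω} (ht : V.valuation t < 1)
    (h : w = t ^ 3 + algebraMap F Ω A * t * w ^ 2 + algebraMap F Ω B * w ^ 3) (hw : V.valuation w < 1)
    (h' : w' = t ^ 3 + algebraMap F Ω A * t * w' ^ 2 + algebraMap F Ω B * w' ^ 3) (hw' : V.valuation w' < 1) :
    w = w' := by
  have hA1 : V.valuation (algebraMap F Ω A) ≤ 1 := (V.valuation_le_one_iff _).2 hG.a
  have hB1 : V.valuation (algebraMap F Ω B) ≤ 1 := (V.valuation_le_one_iff _).2 hG.b
  have e1 : (w - w') * (1 - (algebraMap F Ω A * t * (w + w') + algebraMap F Ω B * (w ^ 2 + w * w' + w' ^ 2))) = 0 := by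
    linear_combination h - h'
  rcases mul_eq_zero.1 e1 with h2 | h2
  · exact sub_eq_zero.1 h2
  · exfalso
    have h3 : V.valuation (algebraMap F Ω A * t * (w + w') + algebraMap F Ω B * (w ^ 2 + w * w' + w' ^ 2)) < 1 := by
      refine (V.valuation.map_add _ _).trans_lt (max_lt ?_ ?_)
      · rw [map_mul, map_mul]
        have h4 : V.valuation (w + w') ≤ 1 := (V.valuation.map_add _ _).trans (max_le hw.le hw'.le)
        exact (mul_le_of_le_one_right' h4).trans_lt ((mul_le_of_le_one_left' hA1).trans_lt ht)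
      · rw [map_mul]
        refine (mul_le_of_le_one_left' hB1).trans_lt ?_
        refine (V.valuation.map_add _ _).trans_lt (max_lt ((V.valuation.map_add _ _).trans_lt (max_lt ?_ ?_)) ?_)
        · rw [map_pow]
          exact pow_lt_one₀ zero_le hw (by norm_num)
        · rw [map_mul]
          exact (mul_le_of_le_one_right' hw'.le).trans_lt hw
        · rw [map_pow]
          exact pow_lt_one₀ zero_le hw' (by norm_num)
    rw [← sub_eq_zero.1 h2, map_one] at h3
    exact lt_irrefl _ h3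

/-- A point in the kernel of reduction with a given parameter in N, defined over the decomposition field over N. -/
theorem local_ptt (hA : CMA F A B Om j act) (hG : GV A B V) {N : IntermediateField F Ω} [FiniteDimensional F N]
    {t : Ω} (htN : t ∈ N) (ht0 : t ≠ 0) (ht : V.valuation t < 1) :
    ∃ (Q : Pt (WAB A B) Ω) (B₀ : IntermediateField F Ω), FiniteDimensional F B₀ ∧
      (∀ s : Ω ≃ₐ[F] Ω, DecN N V s → s ∈ B₀.fixingSubgroup) ∧
      (∀ s ∈ B₀.fixingSubgroup, ac (WAB A B) s Q = Q) ∧ Ker V Q ∧ tt Q = t := by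
  have hal : Algebra.IsAlgebraic F Ω := IsAlgClosure.isAlgebraic
  obtain ⟨w, hw, hw1, hw0⟩ := xp_root hG ht0 ht
  have heq : (1 / w) ^ 2 = (t / w) ^ 3 + algebraMap F Ω A * (t / w) + algebraMap F Ω B := by
    field_simp
    linear_combination hw
  have hd : algebraMap F Ω (4 * A ^ 3 + 27 * B ^ 2) ≠ 0 := (map_ne_zero _).2 hA.disc
  have hΔ : ((WAB A B)⁄Ω).Δ ≠ 0 := by
    rw [H55K.s_Δ, H55K.base_a4, H55K.base_a6]
    have hch : CharZero Ω := charZero_of_injective_algebraMap (algebraMap F Ω).injective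
    refine mul_ne_zero (by norm_num) ?_
    rw [map_add, map_mul, map_mul, map_pow, map_pow] at hd
    intro h
    apply hd
    rw [← h]
    simp only [map_ofNat]
  obtain ⟨Q, hQ0, hQx, hQy⟩ := H55K.exists_pt (W := (WAB A B)⁄Ω) hΔ (x := t / w) (y := 1 / w) (by
    rw [H55K.base_a4, H55K.base_a6]
    exact heq)
  have htQ : tt Q = t := by
    rw [H55K.tt_eq, hQx, hQy]
    field_simp
  have hVw : V.valuation w = V.valuation t ^ 3 := by
    have hA1 : V.valuation (algebraMap F Ω A) ≤ 1 := (V.valuation_le_one_iff _).2 hG.a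
    have hB1 : V.valuation (algebraMap F Ω B) ≤ 1 := (V.valuation_le_one_iff _).2 hG.b
    have hw00 : 0 < V.valuation w := zero_lt_iff.2 ((map_ne_zero _).2 hw0)
    have h1 : V.valuation (algebraMap F Ω A * t * w ^ 2 + algebraMap F Ω B * w ^ 3) < V.valuation w := by
      have e : algebraMap F Ω A * t * w ^ 2 + algebraMap F Ω B * w ^ 3 =
          (algebraMap F Ω A * t * w + algebraMap F Ω B * w ^ 2) * w := by ring
      rw [e, map_mul]
      refine mul_lt_of_lt_one_left hw00 ?_
      refine (V.valuation.map_add _ _).trans_lt (max_lt ?_ ?_)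
      · rw [map_mul, map_mul]
        exact (mul_le_of_le_one_right' hw1.le).trans_lt ((mul_le_of_le_one_left' hA1).trans_lt ht)
      · rw [map_mul, map_pow]
        exact (mul_le_of_le_one_left' hB1).trans_lt (pow_lt_one₀ zero_le hw1 (by norm_num))
    have e2 : t ^ 3 = w - (algebraMap F Ω A * t * w ^ 2 + algebraMap F Ω B * w ^ 3) := by
      linear_combination -hw
    rw [← map_pow, e2, Valuation.map_sub_eq_of_lt_left _ h1]
  have htV : 0 < V.valuation t := zero_lt_iff.2 ((map_ne_zero _).2 ht0)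
  have hsw : ∀ s : Ω ≃ₐ[F] Ω, DecN N V s → s w = w := by
    intro s hs
    have hst : s t = t := (IntermediateField.mem_fixingSubgroup_iff N s).1 hs.1 t htN
    have h7 := congrArg s hw
    rw [map_add, map_add, map_mul, map_mul, map_mul, map_pow, map_pow, map_pow, hst, s.commutes, s.commutes] at h7
    exact xp_uniq hG ht h7 ((Dec.lt_one hs.2 w).2 hw1) hw hw1
  have hfd : FiniteDimensional F (IntermediateField.adjoin F {w}) :=
    IntermediateField.adjoin.finiteDimensional (hal.isAlgebraic w).isIntegral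
  refine ⟨Q, N ⊔ IntermediateField.adjoin F {w}, inferInstance, ?_, ?_, ?_, htQ⟩
  · intro s hs
    rw [IntermediateField.fixingSubgroup_sup, Subgroup.mem_inf]
    refine ⟨hs.1, lp_adjoin s _ ?_⟩
    intro x hx
    rw [Set.mem_singleton_iff] at hx
    rw [hx]
    exact hsw s hs
  · intro s hs
    rw [IntermediateField.fixingSubgroup_sup, Subgroup.mem_inf] at hs
    have h5 : s w = w := (IntermediateField.mem_fixingSubgroup_iff _ s).1 hs.2 w
      (IntermediateField.mem_adjoin_simple_self F w)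
    have h6 : s t = t := (IntermediateField.mem_fixingSubgroup_iff _ s).1 hs.1 t htN
    refine lp_fix s ?_ ?_
    · rw [hQx, map_div₀, h5, h6]
    · rw [hQy, map_div₀, map_one, h5]
  · rw [H55K.ker_iff V hQ0, hQx, map_div₀, hVw]
    rw [lt_div_iff₀ (pow_pos htV 3), one_mul]
    exact pow_lt_self_of_lt_one₀ htV ht (by norm_num)

/-- Chunk LP2 (M). act_div: act β P = Q. P in Ker V: otherwise P ≠ 0 and V (xc P) ≤ 1, kr_kron: V (xc Q) ≤ 1, Q ≠ 0 (tt Q ≠ 0), against Ker V Q. q = Nm β, τ = V (tt R) for R ≠ 0 in Tor β, τ^(q-1) = V β (kr_tor_ram). The points P + R are in Ker V (kr_add, kr_tor_ram). kr_prod: the product of the V (tt (P + R)) over R in Tor β (q points) is V (tt Q) = V β.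
If V (tt P) > τ: V (tt (P + R)) = V (tt P) for all R (kr_tt_add with c = V (tt P) < 1: c^2 < c), so V (tt P)^q = V β. If V (tt P) ≤ τ: V (tt (P + R)) ≤ τ for all R (kr_tt_add, c = τ), so V β ≤ τ^q = V β * τ < V β: contradiction. -/
theorem div_pt (hA : CMA F A B Om j act) (hG : GV A B V) {β : 𝓞 F} (hβ : Prime β) (hN : 4 ≤ Nm β) (hV : vo V β < 1) {Q : Pt (WAB A B) Ω}
    (hQ : Ker V Q) (hv : V.valuation (tt Q) = vo V β) :
    ∃ P : Pt (WAB A B) Ω, act β P = Q ∧ Ker V P ∧ V.valuation (tt P) ^ Nm β = vo V β := by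
  have hβ0 : vo V β ≠ 0 := by
    have h1 : algebraMap F Ω (β : F) ≠ 0 := by
      intro h
      have h2 : (β : F) = 0 := (map_eq_zero _).1 h
      exact hβ.ne_zero (by exact_mod_cast h2)
    simpa [vo] using h1
  obtain ⟨P, hP⟩ := hA.surj β hβ.ne_zero Q
  have hQ0 : Q ≠ 0 := by
    rintro rfl
    rw [tt_zero, map_zero] at hv
    exact hβ0 hv.symm
  have hK : Ker V P := by
    apply na_red hA hG hβ hV 1
    rw [pow_one, hP]
    exact hQ
  refine ⟨P, hP, hK, ?_⟩
  have hcard : Nat.card (Tor act β) = Nm β := (gi_gen hA β hβ).1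
  have hfin : Finite (Tor act β) := Nat.finite_of_card_ne_zero (by rw [hcard]; omega)
  have hfi : Fintype (Tor act β) := Fintype.ofFinite _
  have hcard' : (Finset.univ : Finset (Tor act β)).card = Nm β := by
    rw [Finset.card_univ, ← Nat.card_eq_fintype_card, hcard]
  have hprod := kr_prod hA hG β hβ hV hK
  rw [hP, hv, finprod_eq_prod_of_fintype] at hprod
  have hKR : ∀ R : Tor act β, Ker V (R : Pt (WAB A B) Ω) := by
    intro R
    by_cases h0 : (R : Pt (WAB A B) Ω) = 0
    · rw [h0]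
      exact trivial
    · exact (kr_tor_ram hA hG β hβ hV R.2 h0).1
  have hP0 : P ≠ 0 := by
    rintro rfl
    rw [map_zero] at hP
    exact hQ0 hP.symm
  have htP : tt P ≠ 0 := fun h => hP0 ((kr_tt_zero hG hK).1 h)
  have hc0 : 0 < V.valuation (tt P) := zero_lt_iff.2 ((Valuation.ne_zero_iff _).2 htP)
  have hc1 : V.valuation (tt P) < 1 := kr_tt_lt hG hK
  by_cases hcase : ∀ R : Tor act β, V.valuation (tt (R : Pt (WAB A B) Ω)) < V.valuation (tt P)
  · have h1 : ∀ R ∈ (Finset.univ : Finset (Tor act β)), V.valuation (tt (P + (R : Pt (WAB A B) Ω))) = V.valuation (tt P) := by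
      intro R _
      have h2 := kr_tt_add hG hK (hKR R) (V.valuation (tt P)) le_rfl (hcase R).le
      have h4 : V.valuation (tt P) ^ 2 < V.valuation (tt P) := pow_lt_self_of_lt_one₀ hc0 hc1 (by norm_num)
      have e : tt (P + (R : Pt (WAB A B) Ω)) = ((tt (P + (R : Pt (WAB A B) Ω)) - tt P - tt (R : Pt (WAB A B) Ω)) + tt (R : Pt (WAB A B) Ω)) + tt P := by
        ring
      rw [e]
      refine V.valuation.map_add_eq_of_lt_right ?_
      exact lt_of_le_of_lt (V.valuation.map_add _ _) (max_lt (lt_of_le_of_lt h2 h4) (hcase R))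
    rw [Finset.prod_congr rfl h1, Finset.prod_const, hcard'] at hprod
    exact hprod
  · exfalso
    rw [not_forall] at hcase
    obtain ⟨R₀, hR₀⟩ := hcase
    rw [not_lt] at hR₀
    have h0 : (R₀ : Pt (WAB A B) Ω) ≠ 0 := by
      intro h
      rw [h, tt_zero, map_zero] at hR₀
      exact absurd hR₀ (not_le.2 hc0)
    obtain ⟨-, hτ⟩ := kr_tor_ram hA hG β hβ hV R₀.2 h0
    have hτ1 : V.valuation (tt (R₀ : Pt (WAB A B) Ω)) < 1 := kr_tt_lt hG (hKR R₀)
    have hRle : ∀ R : Tor act β, V.valuation (tt (R : Pt (WAB A B) Ω)) ≤ V.valuation (tt (R₀ : Pt (WAB A B) Ω)) := by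
      intro R
      by_cases hR : (R : Pt (WAB A B) Ω) = 0
      · rw [hR, tt_zero, map_zero]
        exact zero_le
      · obtain ⟨-, h5⟩ := kr_tor_ram hA hG β hβ hV R.2 hR
        by_contra hlt
        rw [not_le] at hlt
        have hn : Nm β - 1 ≠ 0 := by omega
        have h6 := pow_lt_pow_left₀ hlt zero_le hn
        rw [hτ, h5] at h6
        exact lt_irrefl _ h6
    have h1 : ∀ R ∈ (Finset.univ : Finset (Tor act β)), V.valuation (tt (P + (R : Pt (WAB A B) Ω))) ≤
        V.valuation (tt (R₀ : Pt (WAB A B) Ω)) := by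
      intro R _
      have h2 := kr_tt_add hG hK (hKR R) (V.valuation (tt (R₀ : Pt (WAB A B) Ω))) hR₀ (hRle R)
      have h4 : V.valuation (tt (R₀ : Pt (WAB A B) Ω)) ^ 2 ≤ V.valuation (tt (R₀ : Pt (WAB A B) Ω)) :=
        pow_le_of_le_one zero_le hτ1.le (by norm_num)
      have e : tt (P + (R : Pt (WAB A B) Ω)) = ((tt (P + (R : Pt (WAB A B) Ω)) - tt P - tt (R : Pt (WAB A B) Ω)) + tt (R : Pt (WAB A B) Ω)) + tt P := by
        ring
      rw [e]
      exact (V.valuation.map_add _ _).trans (max_le ((V.valuation.map_add _ _).trans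
        (max_le (h2.trans h4) (hRle R))) hR₀)
    have h2 := Finset.prod_le_pow_card _ _ _ h1
    rw [hprod, hcard'] at h2
    have h5 : V.valuation (tt (R₀ : Pt (WAB A B) Ω)) ^ Nm β = vo V β * V.valuation (tt (R₀ : Pt (WAB A B) Ω)) := by
      rw [← hτ, ← pow_succ]
      congr 1
      omega
    rw [h5] at h2
    have h6 : vo V β * V.valuation (tt (R₀ : Pt (WAB A B) Ω)) < vo V β * 1 :=
      mul_lt_mul_of_pos_left hτ1 (zero_lt_iff.2 hβ0)
    rw [mul_one] at h6
    exact absurd h2 (not_le.2 h6)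

/-- Chunk LP3 (S). s → s P - P is a cocycle with values in Tor (cj π) on the group of B₀ if act (cj π) P is fixed by it. Continuous: N = adjoin F {xc P, yc P}. -/
theorem cc_pt (hA : CMA F A B Om j act) {π : 𝓞 F} {B₀ : IntermediateField F Ω} {P : Pt (WAB A B) Ω}
    (hP : ∀ s ∈ B₀.fixingSubgroup, ac (WAB A B) s (act (cj π) P) = act (cj π) P) :
    Cc act π B₀ fun s => ac (WAB A B) s P - P := by
  refine ⟨fun s _ t _ => ?_, ?_, fun s hs => ?_⟩
  · rw [ac_mul, map_sub]
    abel
  · refine ⟨IntermediateField.adjoin F {xc P, yc P}, lp_fin P, fun s _ hs => ?_⟩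
    rw [lp_adj s P hs, sub_self]
  · rw [mem_Tor, map_sub, ← ac_act hA, hP s hs, sub_self]

end H13X
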