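import Mathlib
import Pool.Agent.Lib.H13X.XDG
import Pool.Agent.Lib.H13X.XE
import Pool.Agent.Lib.H13X.XP0
import Pool.Agent.Lib.H55K.G9A
import Pool.Agent.Lib.H55K.G9B
import Pool.Agent.Lib.H55K.K0A
import Pool.Agent.Lib.H55K.K2A
import Pool.Agent.Lib.H55K.Y3
import Pool.Agent.Lib.H55K.Y9

/-! # H13X: the link between the number of points and the decomposition group -/

open NumberField IsDedekindDomain WeierstrassCurve

namespace H13X

open H55P (IQ embF eF LF Per IsHecke Pt ac Inert Dec Nm Coc PExt UnrP Ram RamF)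
open H35P (WAB Ker tt)
open H55K (Tor ak xc yc CMA Dta GV GMod cj cj_cj mul_cj cj_prime cj_dvd cj_nat Nm_cj Nm_mul Nm_nat)
open H55K (Abw exists_abw)
open H55K.S
open H55R (Pl)
open H13S (Abv)

theorem lk_fin {k : Type} [Field k] [Finite k] (W : WeierstrassCurve k) : Finite W.toAffine.Point := by
  let f : W.toAffine.Point → Option (k × k) := fun P => match P with
    | .zero => none
    | .some x y _ => some (x, y)
  apply Finite.of_injective f
  rintro (_ | ⟨x, y, h⟩) (_ | ⟨x', y', h'⟩) he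
  · rfl
  · exact absurd he (by simp [f])
  · exact absurd he (by simp [f])
  · have h1 : (x, y) = (x', y') := Option.some.inj he
    rw [Prod.mk.injEq] at h1
    obtain ⟨rfl, rfl⟩ := h1
    rfl

variable {F : Type} [Field F] [NumberField F] [IQ F] {A B : F} {Om : ℂ} {Ω : Type} [Field Ω] [DecidableEq Ω]
  [Algebra F Ω] [IsAlgClosure F Ω] {j : Ω →+* ℂ} {act : 𝓞 F →+* AddMonoid.End (Pt (WAB A B) Ω)} {mo : Ideal (𝓞 F)}
  {ψ : Ideal (𝓞 F) →*₀ 𝓞 F} {π : 𝓞 F} {l : ℕ}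

/-- The reduction is good at V above v₀ if v₀ is prime to 6 and to the discriminant. -/
theorem lk_gv (W₀ : WeierstrassCurve (𝓞 F)) (hA : A = -(algebraMap (𝓞 F) F W₀.c₄) / 48)
    (hB : B = -(algebraMap (𝓞 F) F W₀.c₆) / 864) {V : ValuationSubring Ω} (h2 : V.valuation (2 : Ω) = 1)
    (h3 : V.valuation (3 : Ω) = 1) (hΔ : vo V W₀.Δ = 1) : GV A B V := by
  have h48 : V.valuation (48 : Ω) = 1 := by
    have e : (48 : Ω) = 2 * 2 * 2 * 2 * 3 := by norm_num
    rw [e]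
    simp only [map_mul, h2, h3, one_mul]
  have h864 : V.valuation (864 : Ω) = 1 := by
    have e : (864 : Ω) = 2 * 2 * 2 * 2 * 2 * 3 * 3 * 3 := by norm_num
    rw [e]
    simp only [map_mul, h2, h3, one_mul]
  have h16 : V.valuation (16 : Ω) = 1 := by
    have e : (16 : Ω) = 2 * 2 * 2 * 2 := by norm_num
    rw [e]
    simp only [map_mul, h2, one_mul]
  refine ⟨?_, ?_, h2, h3, ?_⟩
  · rw [← V.valuation_le_one_iff, hA, map_div₀, map_neg, map_ofNat, map_div₀, Valuation.map_neg, h48,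
      div_one]
    exact H55K.y3_le V _
  · rw [← V.valuation_le_one_iff, hB, map_div₀, map_neg, map_ofNat, map_div₀, Valuation.map_neg, h864,
      div_one]
    exact H55K.y3_le V _
  · rw [H55K.y3_disc W₀ hA hB, map_div₀, map_neg, map_ofNat, map_div₀, Valuation.map_neg, h16, div_one]
    exact hΔ

/-- An element of 𝓞 F not in v₀ has value 1. -/
theorem lk_one {v₀ : Pl F} {V : ValuationSubring Ω} (hV : Abw V v₀) {x : 𝓞 F} (hx : x ∉ v₀.asIdeal) : vo V x = 1 := by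
  refine le_antisymm (vo_le V x) (not_lt.1 fun h => hx ?_)
  exact (v₀.valuation_lt_one_iff_mem x).1 ((hV.lt (x : F)).1 h)

theorem lk_lt {v₀ : Pl F} {V : ValuationSubring Ω} (hV : Abw V v₀) {x : 𝓞 F} (hx : x ∈ v₀.asIdeal) : vo V x < 1 :=
  (hV.lt (x : F)).2 ((v₀.valuation_lt_one_iff_mem x).2 hx)

/-- l divides the number of points modulo v₀: there is a point killed by l fixed by a Frobenius element. -/
theorem lk_frob (hA : CMA F A B Om j act) (W₀ : WeierstrassCurve (𝓞 F))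
    (hA' : A = -(algebraMap (𝓞 F) F W₀.c₄) / 48) (hB' : B = -(algebraMap (𝓞 F) F W₀.c₆) / 864) {v₀ : Pl F}
    (hΔ : W₀.Δ ∉ v₀.asIdeal) {V : ValuationSubring Ω} (hV : Abw V v₀) (hG : GV A B V) (hl : l.Prime)
    (hlV : (l : 𝓞 F) ∉ v₀.asIdeal) (hpts : l ∣ Nat.card (W₀⁄(𝓞 F ⧸ v₀.asIdeal)).toAffine.Point)
    {s : Ω ≃ₐ[F] Ω} (hsD : Dec V s) (hs : ∀ x ∈ V, V.valuation (s x - x ^ Ideal.absNorm v₀.asIdeal) < 1) :
    ∃ T : Pt (WAB A B) Ω, T ≠ 0 ∧ l • T = 0 ∧ ac (WAB A B) s T = T := by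
  have hcl0 : IsAlgClosed Ω := IsAlgClosure.isAlgClosed F
  have hm := v₀.isMaximal
  have hlV1 := lk_one hV hlV
  let C : AddSubgroup (Pt (WAB A B) Ω ⧸ H55K.kerG hG) :=
    { carrier := {c | ∃ X : Pt (WAB A B) Ω, (X : Pt (WAB A B) Ω ⧸ H55K.kerG hG) = c ∧
        Ker V (ac (WAB A B) s X - X)}
      add_mem' := by
        rintro _ _ ⟨X, rfl, hX⟩ ⟨Y, rfl, hY⟩
        refine ⟨X + Y, rfl, ?_⟩
        have e : ac (WAB A B) s (X + Y) - (X + Y) = (ac (WAB A B) s X - X) + (ac (WAB A B) s Y - Y) := by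
          rw [map_add]
          abel
        rw [e]
        exact H55K.kadd hG hX hY
      zero_mem' := by
        refine ⟨0, rfl, ?_⟩
        rw [map_zero, sub_zero]
        trivial
      neg_mem' := by
        rintro _ ⟨X, rfl, hX⟩
        refine ⟨-X, rfl, ?_⟩
        have e : ac (WAB A B) s (-X) - (-X) = -(ac (WAB A B) s X - X) := by
          rw [map_neg]
          abel
        rw [e]
        exact H55K.kneg hX }
  have hcard : Nat.card (W₀⁄(𝓞 F ⧸ v₀.asIdeal)).toAffine.Point = Nat.card C :=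
    H55K.red_card hG W₀ hA' hB' v₀ hΔ (fun a ha => lk_lt hV ha) s hs
  have hfin : Finite C := by
    let _ : Field (𝓞 F ⧸ v₀.asIdeal) := Ideal.Quotient.field _
    have hf : Finite (𝓞 F ⧸ v₀.asIdeal) := Ideal.finiteQuotientOfFreeOfNeBot _ v₀.ne_bot
    have h1 : Finite (W₀⁄(𝓞 F ⧸ v₀.asIdeal)).toAffine.Point := lk_fin _
    have h2 : Nat.card (W₀⁄(𝓞 F ⧸ v₀.asIdeal)).toAffine.Point ≠ 0 := Nat.card_pos.ne'
    rw [hcard] at h2
    exact Nat.finite_of_card_ne_zero h2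
  have hfact : Fact l.Prime := ⟨hl⟩
  rw [hcard] at hpts
  obtain ⟨⟨c, X, rfl, hX⟩, hc⟩ := exists_prime_addOrderOf_dvd_card' l hpts
  have hc0 : ¬ Ker V X := by
    intro h
    have h1 : (⟨(X : Pt (WAB A B) Ω ⧸ H55K.kerG hG), X, rfl, hX⟩ : C) = 0 := by
      apply Subtype.ext
      exact (QuotientAddGroup.eq_zero_iff X).2 h
    rw [h1, addOrderOf_zero] at hc
    exact hl.one_lt.ne hc
  have hlX : Ker V (l • X) := by
    have h1 := addOrderOf_nsmul_eq_zero (⟨(X : Pt (WAB A B) Ω ⧸ H55K.kerG hG), X, rfl, hX⟩ : C)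
    rw [hc] at h1
    have h2 : ((l • X : Pt (WAB A B) Ω) : Pt (WAB A B) Ω ⧸ H55K.kerG hG) = 0 := congrArg Subtype.val h1
    exact (QuotientAddGroup.eq_zero_iff _).1 h2
  obtain ⟨T, hT, hXT⟩ := H55K.g9_surj hA hG (b := (l : 𝓞 F)) hlV1 (X := X) (by rw [act_nat (act := act)]; exact hlX)
  have hlT : l • T = 0 := by
    have h1 : act (l : 𝓞 F) T = 0 := hT
    rwa [act_nat (act := act)] at h1
  refine ⟨T, ?_, hlT, ?_⟩
  · rintro rfl
    rw [sub_zero] at hXT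
    exact hc0 hXT
  · have h1 : ac (WAB A B) s T - T = (ac (WAB A B) s X - X) - (ac (WAB A B) s (X - T) - (X - T)) := by
      rw [map_sub]
      abel
    have h2 : Ker V (ac (WAB A B) s T - T) := by
      rw [h1]
      exact H55K.ksub hG hX (H55K.ksub hG (kr_dec s hsD hXT) hXT)
    exact sub_eq_zero.1 (H55K.tor_unit hA hG (b := (l : 𝓞 F)) hlV1 (sub_mem (ac_mem hA s hT) hT) h2)

omit [IQ F] in
theorem lk_norm {v₀ : Pl F} {V : ValuationSubring Ω} (hV : Abw V v₀)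
    [NumberField (⊥ : IntermediateField F Ω)] : ∃ w : HeightOneSpectrum (𝓞 (⊥ : IntermediateField F Ω)),
      Abv ⊥ V w ∧ Ideal.absNorm w.asIdeal = Ideal.absNorm v₀.asIdeal := by
  obtain ⟨a, ha, ha0⟩ := Submodule.exists_mem_ne_zero_of_ne_bot v₀.ne_bot
  have h1 : V.valuation (algebraMap F Ω (a : F)) < 1 := (hV.lt (a : F)).2 ((v₀.valuation_lt_one_iff_mem a).2 ha)
  have ha1 : algebraMap F Ω (a : F) ≠ 0 := by
    rw [Ne, map_eq_zero]
    intro h
    apply ha0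
    exact RingOfIntegers.ext h
  obtain ⟨x, hx⟩ : ∃ x : F, x = (a : F) := ⟨_, rfl⟩
  rw [← hx] at h1 ha1
  obtain ⟨w, hw⟩ := H13S.exists_below (⊥ : IntermediateField F Ω) V
    ⟨algebraMap F (⊥ : IntermediateField F Ω) x⁻¹, fun h => by
      have e : ((algebraMap F (⊥ : IntermediateField F Ω) x⁻¹ : (⊥ : IntermediateField F Ω)) : Ω) =
          (algebraMap F Ω x)⁻¹ := by
        rw [← map_inv₀]
        rfl
      rw [e, ← V.valuation_le_one_iff, map_inv₀, inv_le_one₀ (zero_lt_iff.2 ((map_ne_zero _).2 ha1))] at h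
      exact absurd h1 (not_lt.2 h)⟩
  refine ⟨w, hw, ?_⟩
  have hmem : ∀ x : 𝓞 F, x ∈ v₀.asIdeal ↔ algebraMap (𝓞 F) (𝓞 (⊥ : IntermediateField F Ω)) x ∈ w.asIdeal := by
    intro x
    rw [← v₀.valuation_lt_one_iff_mem (K := F) x, ← hV.lt (x : F)]
    have h2 := hw.lt (algebraMap F (⊥ : IntermediateField F Ω) (x : F))
    exact h2.trans (w.valuation_lt_one_iff_mem (K := (⊥ : IntermediateField F Ω))
      (algebraMap (𝓞 F) (𝓞 (⊥ : IntermediateField F Ω)) x))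
  rw [← Ideal.absNorm_relNorm (𝓞 F) (𝓞 (⊥ : IntermediateField F Ω)) w.asIdeal, H55K.y9_norm hmem]

/-- The same for the decomposition group. -/
theorem lk_dec (hA : CMA F A B Om j act) (W₀ : WeierstrassCurve (𝓞 F))
    (hA' : A = -(algebraMap (𝓞 F) F W₀.c₄) / 48) (hB' : B = -(algebraMap (𝓞 F) F W₀.c₆) / 864) {v₀ : Pl F}
    (hΔ : W₀.Δ ∉ v₀.asIdeal) {V : ValuationSubring Ω} (hV : Abw V v₀) (hG : GV A B V) (hl : l.Prime)
    (hlV : (l : 𝓞 F) ∉ v₀.asIdeal) (hpts : l ∣ Nat.card (W₀⁄(𝓞 F ⧸ v₀.asIdeal)).toAffine.Point) :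
    ∃ T : Pt (WAB A B) Ω, T ≠ 0 ∧ l • T = 0 ∧ ∀ s, Dec V s → ac (WAB A B) s T = T := by
  have hcl0 : IsAlgClosed Ω := IsAlgClosure.isAlgClosed F
  have hal0 : Algebra.IsAlgebraic F Ω := IsAlgClosure.isAlgebraic
  have hbn : NumberField (⊥ : IntermediateField F Ω) := NumberField.of_module_finite F _
  obtain ⟨w, hw, hn⟩ := lk_norm hV
  obtain ⟨φ, hφ, hφD, hφF⟩ := exists_frobK (⊥ : IntermediateField F Ω) hw
  obtain ⟨T, hT0, hT, hφT⟩ := lk_frob hA W₀ hA' hB' hΔ hV hG hl hlV hpts hφD (by rw [← hn]; exact hφF)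
  refine ⟨T, hT0, hT, fun s hs => ?_⟩
  have hbot : ∀ s : Ω ≃ₐ[F] Ω, s ∈ (⊥ : IntermediateField F Ω).fixingSubgroup := fun s => by
    rw [IntermediateField.fixingSubgroup_bot]
    exact Subgroup.mem_top s
  have hTl : T ∈ Tor act (l : 𝓞 F) := by
    rw [mem_Tor, act_nat (act := act)]
    exact hT
  have hfin := lp_fin T
  have h0 := dec_gen (A := A) (B := B) (d := fun s => ac (WAB A B) s T - T) hw (fun s _ _ t _ _ => by
      show ac (WAB A B) (s * t) T - T = (ac (WAB A B) s T - T) + ac (WAB A B) s (ac (WAB A B) t T - T)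
      rw [ac_mul, map_sub]
      abel)
    ⟨IntermediateField.adjoin F {xc T, yc T}, hfin, fun s _ hs _ => by
      show ac (WAB A B) s T - T = 0
      rw [lp_adj s T hs, sub_self]⟩
    (fun s _ hi => by
      show ac (WAB A B) s T - T = 0
      rw [inert_tors hA hG (lk_one hV hlV) hi hTl, sub_self])
    hφ hφD hφF (by show ac (WAB A B) φ T - T = 0; rw [hφT, sub_self]) (hbot s) hs
  exact sub_eq_zero.1 h0

/-- A prime element π above l such that the decomposition group fixes all the points killed by π. -/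
theorem lk_pi (hA : CMA F A B Om j act) (hl : l.Prime) (unr : ∀ v : HeightOneSpectrum (𝓞 F), (l : 𝓞 F) ∉ v.asIdeal ^ 2)
    {V : ValuationSubring Ω} {T : Pt (WAB A B) Ω} (hT0 : T ≠ 0) (hT : l • T = 0)
    (hf : ∀ s, Dec V s → ac (WAB A B) s T = T) :
    ∃ π : 𝓞 F, Prime π ∧ π ∣ (l : 𝓞 F) ∧ ∀ s, Dec V s → ∀ R ∈ Tor act π, ac (WAB A B) s R = R := by
  have key : ∀ β : 𝓞 F, Prime β → ∀ T' ∈ Tor act β, T' ≠ 0 → (∀ s, Dec V s → ac (WAB A B) s T' = T') →
      ∀ s, Dec V s → ∀ R ∈ Tor act β, ac (WAB A B) s R = R := by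
    intro β hβ T' hT' h0 hf' s hs R hR
    obtain ⟨a, rfl⟩ := H55K.tor_gen hA hβ hT' hR h0
    rw [ac_act hA, hf' s hs]
  have hTl : act (l : 𝓞 F) T = 0 := by
    rw [act_nat (act := act)]
    exact hT
  obtain ⟨π, hπ, hd⟩ := exists_prime_above (F := F) hl
  rcases dichotomy hl unr hπ hd with ⟨-, -, h3⟩ | ⟨-, -, -, hll⟩
  · exact ⟨π, hπ, hd, key π hπ T (by rw [← tor_assoc h3]; exact hTl) hT0 hf⟩
  · have hd' : cj π ∣ (l : 𝓞 F) := by rw [cj_dvd, cj_nat]; exact hd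
    by_cases h : act (cj π) T = 0
    · exact ⟨cj π, cj_prime hπ, hd', key (cj π) (cj_prime hπ) T h hT0 hf⟩
    · refine ⟨π, hπ, hd, key π hπ (act (cj π) T) ?_ h fun s hs => ?_⟩
      · rw [mem_Tor, ← act_mul, hll]
        exact hTl
      · rw [ac_act hA, hf s hs]

end H13X
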