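import Mathlib
import Pool.Agent.Lib.H13S.IN1
import Pool.Agent.Lib.H13S.VW
import Pool.Agent.Lib.H13Z.CZ4
import Pool.Agent.Lib.H13Z.TR
import Pool.Agent.Lib.H55K.K0A
import Pool.Agent.Lib.H55K.SD
import Pool.Agent.Lib.H55R.BF1
import Pool.Agent.Lib.H55R.HB1

/-! # H13X: one step of degree l -/

open NumberField IsDedekindDomain WeierstrassCurve
open scoped Pointwise

namespace H13X

open H55P (IQ embF eF LF Per IsHecke Pt ac Inert Dec Nm Coc)
open H35P (WAB Ker tt)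
open H55K (Tor ak xc yc CMA Dta GV GMod cj cj_cj mul_cj cj_prime cj_dvd cj_nat Nm_cj Nm_mul Nm_nat)
open H55K (Abw exists_abw)
open H55K.S
open H55R (Pl)
open H13S (Abv)
open H13Z (SelNon)

section trans

variable {F : Type} [Field F] [NumberField F] {Ω : Type} [Field Ω] [DecidableEq Ω] [Algebra F Ω] [IsAlgClosure F Ω]

theorem xt_sub (N : IntermediateField F Ω) [NumberField N] {V V' : ValuationSubring Ω} {w : HeightOneSpectrum (𝓞 N)}
    (hV : Abv N V w) (hV' : Abv N V' w) : ∃ u : Gal(Ω/N), ∀ z : 𝓞 Ω, V'.valuation (u (z : Ω)) < 1 ↔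
      V.valuation (z : Ω) < 1 := by
  have hcl0 : IsAlgClosed Ω := IsAlgClosure.isAlgClosed F
  have hal0 : Algebra.IsAlgebraic F Ω := IsAlgClosure.isAlgebraic
  have hc0 : CharZero Ω := charZero_of_injective_algebraMap (algebraMap F Ω).injective
  have hfin : FiniteDimensional F N := by
    have : IsScalarTower ℚ F N := IsScalarTower.of_algebraMap_eq' (Subsingleton.elim _ _)
    exact Module.Finite.of_restrictScalars_finite ℚ F N
  have hal : Algebra.IsAlgebraic N Ω := Algebra.IsAlgebraic.tower_top (K := F) N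
  have hcl : IsAlgClosure N Ω := ⟨inferInstance, hal⟩
  have hG : IsGalois N Ω := IsAlgClosure.isGalois N Ω
  have hQp : (H55P.ps9Q V).IsPrime := H55P.ps9_prime V
  have hQp' : (H55P.ps9Q V').IsPrime := H55P.ps9_prime V'
  have hinv := H55P.ps9_inv (Ω := Ω) N
  have hsc : SMulCommClass Gal(Ω/N) (𝓞 N) (𝓞 Ω) := by
    constructor
    intro g a z
    rw [Algebra.smul_def, Algebra.smul_def, smul_mul']
    congr 1
    apply RingOfIntegers.ext
    exact g.commutes (a : N)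
  let _ : TopologicalSpace (𝓞 Ω) := ⊥
  have : DiscreteTopology (𝓞 Ω) := ⟨rfl⟩
  have hcont : ContinuousSMul Gal(Ω/N) (𝓞 Ω) := by
    rw [continuousSMul_iff_stabilizer_isOpen]
    intro z
    have h1 := stabilizer_isOpen_of_isIntegral (K := N) (z : Ω)
    convert! h1 using 1
    ext g
    simp only [SetLike.mem_coe, MulAction.mem_stabilizer_iff]
    constructor
    · intro h
      exact congrArg (fun y : 𝓞 Ω => (y : Ω)) h
    · intro h
      exact RingOfIntegers.coe_injective h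
  have hunder : (H55P.ps9Q V).under (𝓞 N) = (H55P.ps9Q V').under (𝓞 N) := by
    ext a
    show (algebraMap (𝓞 N) (𝓞 Ω) a : 𝓞 Ω) ∈ H55P.ps9Q V ↔ (algebraMap (𝓞 N) (𝓞 Ω) a : 𝓞 Ω) ∈ H55P.ps9Q V'
    rw [H55P.ps9_lt, H55P.ps9_lt]
    have h1 := hV.lt (a : N)
    have h2 := hV'.lt (a : N)
    exact h1.trans h2.symm
  obtain ⟨u, hu⟩ := Algebra.IsInvariant.exists_smul_of_under_eq_of_profinite (A := 𝓞 N) (B := 𝓞 Ω)
    (G := Gal(Ω/N)) (H55P.ps9Q V) (H55P.ps9Q V') hunder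
  refine ⟨u, fun z => ?_⟩
  have h1 : u • z ∈ H55P.ps9Q V' ↔ z ∈ H55P.ps9Q V := by
    rw [hu]
    exact Ideal.smul_mem_pointwise_smul_iff
  rw [H55P.ps9_lt, H55P.ps9_lt] at h1
  exact h1

/-- The Galois group of Ω over N is transitive on the valuation rings above w. -/
theorem trans_V (N : IntermediateField F Ω) [NumberField N] {V V' : ValuationSubring Ω} {w : HeightOneSpectrum (𝓞 N)}
    (hV : Abv N V w) (hV' : Abv N V' w) : ∃ s ∈ N.fixingSubgroup, ∀ x, s x ∈ V' ↔ x ∈ V := by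
  have hcl0 : IsAlgClosed Ω := IsAlgClosure.isAlgClosed F
  have hal0 : Algebra.IsAlgebraic F Ω := IsAlgClosure.isAlgebraic
  have hc0 : CharZero Ω := charZero_of_injective_algebraMap (algebraMap F Ω).injective
  have htop : ∀ {U : ValuationSubring Ω}, Abv N U w → U ≠ ⊤ := by
    rintro U hU rfl
    obtain ⟨π, hπ⟩ := H55R.HB1_pi w
    have h1 := hU ((π⁻¹ : (N)ˣ) : N)
    have h2 : ¬ w.valuation N ((π⁻¹ : (N)ˣ) : N) ≤ 1 := by
      rw [H55R.BF1_val, H55R.ord_inv, hπ, neg_neg, not_le, ← WithZero.exp_zero, WithZero.exp_lt_exp]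
      norm_num
    exact h2 (h1.1 (ValuationSubring.mem_top _))
  obtain ⟨u, hu⟩ := xt_sub N hV hV'
  obtain ⟨s, hs⟩ : ∃ s : Ω ≃ₐ[F] Ω, ∀ x, s x = u x := ⟨u.restrictScalars F, fun x => rfl⟩
  have hkey : ∀ z : 𝓞 Ω, V'.valuation (s (z : Ω)) < 1 ↔ V.valuation (z : Ω) < 1 := by
    intro z
    rw [hs]
    exact hu z
  have hle : ∀ (U : ValuationSubring Ω) (z : 𝓞 Ω), U.valuation (z : Ω) ≤ 1 := fun U z =>
    (U.valuation_le_one_iff _).2 (H55P.ps9_mem U z)
  refine ⟨s, ?_, fun x => ⟨fun hx => ?_, fun hx => ?_⟩⟩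
  · rw [IntermediateField.mem_fixingSubgroup_iff]
    intro y hy
    rw [hs]
    exact u.commutes ⟨y, hy⟩
  · obtain ⟨q, hq, hqV⟩ := H13S.in1_char (F₀ := F) (Ω := Ω) V' (htop hV')
    obtain ⟨a, c, hc, hac⟩ := H55P.ps9_frac F V' q hq hqV (s x) hx
    obtain ⟨a', ha'⟩ : ∃ a' : 𝓞 Ω, s (a' : Ω) = (a : Ω) := ⟨RingOfIntegers.mapRingHom s.symm a, s.apply_symm_apply _⟩
    obtain ⟨c', hc'⟩ : ∃ c' : 𝓞 Ω, s (c' : Ω) = (c : Ω) := ⟨RingOfIntegers.mapRingHom s.symm c, s.apply_symm_apply _⟩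
    have h1 : V.valuation (c' : Ω) = 1 := by
      refine le_antisymm (hle V c') (not_lt.1 fun h => ?_)
      have h2 := (hkey c').2 h
      rw [hc', hc] at h2
      exact lt_irrefl _ h2
    have h2 : x = (a' : Ω) / (c' : Ω) := by
      apply s.injective
      rw [map_div₀, ha', hc']
      exact hac
    rw [← V.valuation_le_one_iff, h2, map_div₀, h1, div_one]
    exact hle V a'
  · obtain ⟨q, hq, hqV⟩ := H13S.in1_char (F₀ := F) (Ω := Ω) V (htop hV)
    obtain ⟨a, c, hc, rfl⟩ := H55P.ps9_frac F V q hq hqV x hx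
    have hs' : ∀ z : 𝓞 Ω, V'.valuation (s (z : Ω)) ≤ 1 := by
      intro z
      obtain ⟨z', hz'⟩ : ∃ z' : 𝓞 Ω, (z' : Ω) = s (z : Ω) := ⟨RingOfIntegers.mapRingHom s z, rfl⟩
      rw [← hz']
      exact hle V' z'
    have h1 : V'.valuation (s (c : Ω)) = 1 := by
      refine le_antisymm (hs' c) (not_lt.1 fun h => ?_)
      have h2 := (hkey c).1 h
      rw [hc] at h2
      exact lt_irrefl _ h2
    rw [← V'.valuation_le_one_iff, map_div₀, map_div₀, h1, div_one]
    exact hs' a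

/-- The same over F. -/
theorem trans_F {V V' : ValuationSubring Ω} {v : HeightOneSpectrum (𝓞 F)}
    (hV : Abw V v) (hV' : Abw V' v) : ∃ s : Ω ≃ₐ[F] Ω, ∀ x, s x ∈ V' ↔ x ∈ V := by
  have hcl0 : IsAlgClosed Ω := IsAlgClosure.isAlgClosed F
  have hal0 : Algebra.IsAlgebraic F Ω := IsAlgClosure.isAlgebraic
  have hNF : NumberField (⊥ : IntermediateField F Ω) := NumberField.of_module_finite F _
  have hex : ∃ x : (⊥ : IntermediateField F Ω), (x : Ω) ∉ V := by
    obtain ⟨π, hπ⟩ := H55R.HB1_pi v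
    refine ⟨algebraMap F _ ((π⁻¹ : Fˣ) : F), fun h => ?_⟩
    have h1 := (hV ((π⁻¹ : Fˣ) : F)).1 h
    have h2 : ¬ v.valuation F ((π⁻¹ : Fˣ) : F) ≤ 1 := by
      rw [H55R.BF1_val, H55R.ord_inv, hπ, neg_neg, not_le, ← WithZero.exp_zero, WithZero.exp_lt_exp]
      norm_num
    exact h2 h1
  obtain ⟨w, hw⟩ := H13S.exists_below (⊥ : IntermediateField F Ω) V hex
  have hw' : Abv (⊥ : IntermediateField F Ω) V' w := by
    intro x
    obtain ⟨y, hy⟩ := IntermediateField.mem_bot.1 x.2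
    rw [← hw x, ← hy]
    exact (hV' y).trans (hV y).symm
  obtain ⟨s, -, hs⟩ := trans_V (⊥ : IntermediateField F Ω) hw hw'
  exact ⟨s, hs⟩

end trans

end H13X
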