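import Mathlib
import Pool.Agent.Lib.H13X.D
import Pool.Agent.Lib.H13X.XE
import Pool.Agent.Lib.H55P.T15
import Pool.Agent.Lib.H55P.Z10

/-! # H13X: port of H13Y/YN: the base fields -/

open NumberField IsDedekindDomain WeierstrassCurve

namespace H13X

open H55P (IQ embF eF LF Per IsHecke Pt ac Inert Dec Nm Coc)
open H35P (WAB Ker tt)
open H55K (Tor ak xc yc CMA Dta GV GMod cj cj_cj mul_cj cj_prime cj_dvd cj_nat Nm_cj Nm_mul Nm_nat)
open H55K.S
open H13S (Abv)

variable {F : Type} [Field F] [NumberField F] [IQ F]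

omit [NumberField F] [IQ F] in
theorem fix_bot {Ω : Type} [Field Ω] [Algebra F Ω] (s : Ω ≃ₐ[F] Ω) : s ∈ (⊥ : IntermediateField F Ω).fixingSubgroup := by
  rw [IntermediateField.fixingSubgroup_bot]
  exact Subgroup.mem_top s

theorem yn1_fin {Ω : Type} [Field Ω] [Algebra F Ω] (K : IntermediateField F Ω) [NumberField K] :
    FiniteDimensional F K := by
  have : IsScalarTower ℚ F K := IsScalarTower.of_algebraMap_eq' (Subsingleton.elim _ _)
  exact Module.Finite.of_restrictScalars_finite ℚ F K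

/-- Chunk YN1 (M). Inertia elements above an unramified prime of a normal extension act trivially on it. w below V (H13S.exists_below), v₀ = w.under 𝓞 F: h v₀. Gal(L₀/F): L₀ is normal over F (hn), IsGalois. Ideal.card_inertia_eq_ramificationIdxIn: the inertia group of w has e elements, e = 1 because not H55P.RamF (all primes above v₀ have index < 2; ramificationIdxIn).
σ = restriction of s to L₀ lies in the inertia group: for x in 𝓞 L₀, x in V, V (s x - x) < 1, so σ x - x in w (Abv.lt). So σ = 1. -/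
theorem inert_triv {Ω : Type} [Field Ω] [DecidableEq Ω] [Algebra F Ω] [IsAlgClosure F Ω]
    {L₀ : IntermediateField F Ω} [NumberField L₀] (hn : ∀ s : Ω ≃ₐ[F] Ω, ∀ x ∈ L₀, s x ∈ L₀)
    {V : ValuationSubring Ω} (hV : ∃ x : L₀, (x : Ω) ∉ V)
    (h : ∀ v₀ : HeightOneSpectrum (𝓞 F), (∀ x : 𝓞 F, x ∈ v₀.asIdeal ↔ V.valuation (algebraMap F Ω (x : F)) < 1) →
      ¬ H55P.RamF L₀ v₀.asIdeal) {s : Ω ≃ₐ[F] Ω} (hs : Inert V s) : s ∈ L₀.fixingSubgroup := by
  have hac : IsAlgClosed Ω := IsAlgClosure.isAlgClosed F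
  have hal : Algebra.IsAlgebraic F Ω := IsAlgClosure.isAlgebraic
  have hcz : CharZero Ω := charZero_of_injective_algebraMap (algebraMap F Ω).injective
  have hfin : FiniteDimensional F L₀ := yn1_fin L₀
  refine H55P.inert_mem ⊥ L₀ bot_le (fun s _ => hn s) V ?_ s (fix_bot s) hs
  intro v hv hram
  obtain ⟨v₀, h1, h2, -⟩ := H55P.bot_conv (⟨0, 0, 0, 0, 0⟩ : WeierstrassCurve (𝓞 F)) L₀ v
  refine h v₀ (fun x => ?_) (h2 hram)
  rw [h1, hv]
  rfl

theorem yn2_norm {Ω : Type} [Field Ω] [DecidableEq Ω] [Algebra F Ω] [IsAlgClosure F Ω] {l : ℕ}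
    {L₀ : IntermediateField F Ω} (hL : H55P.PExt l ⊥ L₀) : IsGalois F L₀ := by
  have hac : IsAlgClosed Ω := IsAlgClosure.isAlgClosed F
  have hal : Algebra.IsAlgebraic F Ω := IsAlgClosure.isAlgebraic
  have hnΩ : Normal F Ω := IsAlgClosure.normal F Ω
  have h1 : Normal F L₀ := by
    rw [IntermediateField.normal_iff_forall_map_le']
    rintro s _ ⟨x, hx, rfl⟩
    exact hL.norm s (fix_bot s) x hx
  exact ⟨⟩

/-- An element of N in V is congruent to an integer of N. -/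
theorem yn2_approx {Ω : Type} [Field Ω] [Algebra F Ω] (N : IntermediateField F Ω) [NumberField N]
    (V : ValuationSubring Ω) (w : HeightOneSpectrum (𝓞 N)) (hw : Abv N V w) (x : N) (hx : (x : Ω) ∈ V) :
    ∃ y : 𝓞 N, V.valuation ((x : Ω) - ((y : N) : Ω)) < 1 := by
  have hwm := w.isMaximal
  have hunit : ∀ d : 𝓞 N, d ∉ w.asIdeal → V.valuation ((d : N) : Ω) = 1 := by
    intro d hd
    refine le_antisymm (H13S.vw_int N V d) (not_lt.1 fun h' => hd ?_)
    have h2 := (hw.lt (d : N)).1 h'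
    exact (w.valuation_lt_one_iff_mem d).1 h2
  have hlt : ∀ d : 𝓞 N, d ∈ w.asIdeal → V.valuation ((d : N) : Ω) < 1 := by
    intro d hd
    exact (hw.lt (d : N)).2 ((w.valuation_lt_one_iff_mem d).2 hd)
  have hx' : w.valuation N x ≤ 1 := (hw x).1 hx
  have key : ∃ n d : 𝓞 N, d ∉ w.asIdeal ∧ x * (d : N) = (n : N) := by
    obtain ⟨n, d, h | h⟩ := w.exists_primeCompl_mul_eq_or_mul_eq x
    · exact ⟨n, d, d.2, h⟩
    · refine ⟨d, n, ?_, h⟩
      intro hn
      have h1 := congrArg (w.valuation N) h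
      rw [map_mul] at h1
      have h2 : w.valuation N (algebraMap (𝓞 N) N (d : 𝓞 N)) = 1 :=
        le_antisymm (w.valuation_le_one _) (not_lt.1 fun h' => d.2 ((w.valuation_lt_one_iff_mem _).1 h'))
      have h3 : w.valuation N (algebraMap (𝓞 N) N n) < 1 := (w.valuation_lt_one_iff_mem n).2 hn
      rw [h2] at h1
      exact absurd h1 (ne_of_lt (lt_of_le_of_lt (mul_le_of_le_one_left' hx') h3))
  obtain ⟨n, d, hd, hnd⟩ := key
  obtain ⟨c, hc⟩ : ∃ c : 𝓞 N, 1 - d * c ∈ w.asIdeal := by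
    obtain ⟨c, hc⟩ := Ideal.Quotient.exists_inv (I := w.asIdeal) (a := Ideal.Quotient.mk _ d)
      (by rw [Ne, Ideal.Quotient.eq_zero_iff_mem]; exact hd)
    obtain ⟨c', rfl⟩ := Ideal.Quotient.mk_surjective c
    refine ⟨c', ?_⟩
    rw [← Ideal.Quotient.eq_zero_iff_mem, map_sub, map_mul, hc, map_one, sub_self]
  refine ⟨n * c, ?_⟩
  have hd1 := hunit d hd
  have hd0 : ((d : N) : Ω) ≠ 0 := by
    intro h0
    rw [h0, map_zero] at hd1
    exact zero_ne_one hd1
  have e1 : ((n : N) : Ω) = (x : Ω) * ((d : N) : Ω) := by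
    have h4 := congrArg (fun z : N => (z : Ω)) hnd
    exact h4.symm
  have e2 : (x : Ω) - (((n * c : 𝓞 N) : N) : Ω) = (x : Ω) * (((1 - d * c : 𝓞 N) : N) : Ω) := by
    have h5 : (((n * c : 𝓞 N) : N) : Ω) = ((n : N) : Ω) * ((c : N) : Ω) := by simp
    have h6 : (((1 - d * c : 𝓞 N) : N) : Ω) = 1 - ((d : N) : Ω) * ((c : N) : Ω) := by simp
    rw [h5, h6, e1]
    ring
  rw [e2, map_mul]
  exact lt_of_le_of_lt (mul_le_of_le_one_left' ((V.valuation_le_one_iff _).2 hx)) (hlt _ hc)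

theorem yn2_exp {Ω : Type} [Field Ω] [DecidableEq Ω] [Algebra F Ω] [IsAlgClosure F Ω] {l : ℕ} (hl : l.Prime)
    {N L₀ : IntermediateField F Ω} [NumberField N] [NumberField L₀] (hL : H55P.PExt l ⊥ L₀) (hNL : N ≤ L₀)
    (V : ValuationSubring Ω) (β : 𝓞 F) (hβ : Prime β) (hV : vo V β < 1)
    (w : HeightOneSpectrum (𝓞 N)) (hw : Abv N V w) (w₀ : HeightOneSpectrum (𝓞 L₀)) (hw₀ : Abv L₀ V w₀) :
    ∃ j : ℕ, Ideal.absNorm w.asIdeal = Nm β ^ (l ^ j) := by
  have hac : IsAlgClosed Ω := IsAlgClosure.isAlgClosed F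
  have hal : Algebra.IsAlgebraic F Ω := IsAlgClosure.isAlgebraic
  have hcz : CharZero Ω := charZero_of_injective_algebraMap (algebraMap F Ω).injective
  have hG := yn2_norm hL
  let _ : Algebra N L₀ := H55P.s13_alg hNL
  have t1 : IsScalarTower F N L₀ := IsScalarTower.of_algebraMap_eq fun x => rfl
  have hwp := w.isPrime
  have hwm := w.isMaximal
  have hw0p := w₀.isPrime
  have hw0m := w₀.isMaximal
  obtain ⟨k, hk⟩ := hL.deg
  rw [IntermediateField.finrank_bot, one_mul] at hk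
  obtain ⟨j, hj⟩ := H55P.s13_inertia l hl (M := F) (L := L₀) k hk w₀.asIdeal w₀.ne_bot
  have hover : w₀.asIdeal.LiesOver w.asIdeal := by
    constructor
    ext x
    rw [Ideal.mem_under, ← w₀.valuation_lt_one_iff_mem (K := L₀), ← w.valuation_lt_one_iff_mem (K := N),
      ← hw.lt, ← hw₀.lt]
    rfl
  have h2 := Ideal.inertiaDeg_tower (R := 𝓞 F) w.asIdeal w₀.asIdeal
  have h3 : w.asIdeal.inertiaDeg (𝓞 F) ∣ l ^ j := by
    rw [← hj, h2]
    exact dvd_mul_right _ _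
  obtain ⟨i, -, hi⟩ := (Nat.dvd_prime_pow hl).1 h3
  refine ⟨i, ?_⟩
  have hbot : Ideal.span {β} ≠ ⊥ := by
    rw [Ne, Ideal.span_singleton_eq_bot]
    exact hβ.ne_zero
  have hp : (Ideal.span {β}).IsPrime := (Ideal.span_singleton_prime hβ.ne_zero).2 hβ
  have hm : (Ideal.span {β}).IsMaximal := hp.isMaximal hbot
  have hmem : algebraMap (𝓞 F) (𝓞 N) β ∈ w.asIdeal := by
    rw [← HeightOneSpectrum.valuation_lt_one_iff_mem (K := N), ← hw.lt]
    exact hV
  have hlies : w.asIdeal.LiesOver (Ideal.span {β}) := by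
    constructor
    refine hm.eq_of_le (Ideal.IsPrime.ne_top inferInstance) ?_
    rw [Ideal.span_singleton_le_iff_mem]
    exact hmem
  rw [← Ideal.absNorm_pow_inertiaDeg (Ideal.span {β}) w.asIdeal, hi]
  rfl

/-- Chunk YN2 (M). The residue field of N at V. w below V (H13S.exists_below: N is not contained in V because of 1/l). norm_above: absNorm w = Nm β^f. f is a power of l: w₀ = the prime of L₀ below V, absNorm w₀ = Nm β^f₀, f₀ = the inertia degree of w₀ over F divides [L₀ : F] = l^k (L₀/F Galois: e f g = n), f divides f₀ (absNorm w₀ = absNorm w^g', inertia degrees in the tower; or: the residue field of w is a subfield of the residue field of w₀).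
x in N, x in V: x = a/b, a, b in 𝓞 N, b not in w (or: x is congruent to an element of 𝓞 N), a^q - a in w (q = card of the residue field). φ: exists_frobK N. r: representatives of the q = absNorm w classes of 𝓞 N modulo w (Fin q ≃ 𝓞 N/w; differences are not in w: V = 1 by Abv). -/
theorem nb_res {Ω : Type} [Field Ω] [DecidableEq Ω] [Algebra F Ω] [IsAlgClosure F Ω] {l : ℕ} (hl : l.Prime)
    {N L₀ : IntermediateField F Ω} [NumberField N] [NumberField L₀] (hL : H55P.PExt l ⊥ L₀) (hNL : N ≤ L₀)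
    (V : ValuationSubring Ω) (β : 𝓞 F) (hβ : Prime β) (hV : vo V β < 1) (hVl : V.valuation (l : Ω) < 1) :
    ∃ q f : ℕ, 0 < f ∧ q = Nm β ^ f ∧ (∀ x ∈ N, x ∈ V → V.valuation (x ^ q - x) < 1) ∧
      (∃ φ ∈ N.fixingSubgroup, Dec V φ ∧ ∀ x ∈ V, V.valuation (φ x - x ^ q) < 1) ∧
      ∃ r : Fin q → Ω, (∀ i, r i ∈ N ∧ V.valuation (r i) ≤ 1) ∧
        (∀ i i', i ≠ i' → V.valuation (r i - r i') = 1) ∧
        ∀ x ∈ N, x ∈ V → ∃ i, V.valuation (x - r i) < 1 := by
  have hcz : CharZero Ω := charZero_of_injective_algebraMap (algebraMap F Ω).injective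
  have hl0 : (l : Ω) ≠ 0 := Nat.cast_ne_zero.2 hl.ne_zero
  have hlinv : ((l : Ω)⁻¹) ∉ V := by
    rw [← V.valuation_le_one_iff, map_inv₀, not_le]
    exact (one_lt_inv₀ (zero_lt_iff.2 ((map_ne_zero _).2 hl0))).2 hVl
  have hN : ∃ x : N, (x : Ω) ∉ V := by
    refine ⟨(l : N)⁻¹, ?_⟩
    have e : (((l : N)⁻¹ : N) : Ω) = (l : Ω)⁻¹ := by simp
    rw [e]
    exact hlinv
  have hL' : ∃ x : L₀, (x : Ω) ∉ V := by
    refine ⟨(l : L₀)⁻¹, ?_⟩
    have e : (((l : L₀)⁻¹ : L₀) : Ω) = (l : Ω)⁻¹ := by simp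
    rw [e]
    exact hlinv
  obtain ⟨w, hw⟩ := H13S.exists_below N V hN
  obtain ⟨w₀, hw₀⟩ := H13S.exists_below L₀ V hL'
  have hwm := w.isMaximal
  obtain ⟨j, hj⟩ := yn2_exp hl hL hNL V β hβ hV w hw w₀ hw₀
  obtain ⟨φ, hφN, hφD, hφ⟩ := exists_frobK N hw
  refine ⟨Ideal.absNorm w.asIdeal, l ^ j, pow_pos hl.pos j, hj, ?_, ⟨φ, hφN, hφD, hφ⟩, ?_⟩
  · intro x hx hxV
    have h1 := hφ x hxV
    have h2 : φ x = x := (IntermediateField.mem_fixingSubgroup_iff N φ).1 hφN x hx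
    rw [h2] at h1
    rw [← neg_sub, Valuation.map_neg]
    exact h1
  · have hcard : Nat.card (𝓞 N ⧸ w.asIdeal) = Ideal.absNorm w.asIdeal := rfl
    have hfin : Finite (𝓞 N ⧸ w.asIdeal) := Ideal.finiteQuotientOfFreeOfNeBot _ w.ne_bot
    have e : Fin (Ideal.absNorm w.asIdeal) ≃ (𝓞 N ⧸ w.asIdeal) := by
      rw [← hcard]
      exact (Finite.equivFin _).symm
    have hmk : ∀ y : 𝓞 N ⧸ w.asIdeal, Ideal.Quotient.mk w.asIdeal (Quotient.out y) = y := fun y =>
      Quotient.out_eq y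
    refine ⟨fun i => (((Quotient.out (e i) : 𝓞 N) : N) : Ω), fun i => ⟨?_, H13S.vw_int N V _⟩, ?_, ?_⟩
    · exact ((Quotient.out (e i) : 𝓞 N) : N).2
    · intro i i' hii
      have e1 : (((Quotient.out (e i) : 𝓞 N) : N) : Ω) - (((Quotient.out (e i') : 𝓞 N) : N) : Ω) =
          (((Quotient.out (e i) - Quotient.out (e i') : 𝓞 N) : N) : Ω) := by simp
      show V.valuation ((((Quotient.out (e i) : 𝓞 N) : N) : Ω) - (((Quotient.out (e i') : 𝓞 N) : N) : Ω)) = 1
      rw [e1]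
      refine le_antisymm (H13S.vw_int N V _) (not_lt.1 fun h' => hii ?_)
      have h2 := (w.valuation_lt_one_iff_mem _).1 ((hw.lt _).1 h')
      rw [← Ideal.Quotient.eq_zero_iff_mem, map_sub, hmk, hmk, sub_eq_zero] at h2
      exact e.injective h2
    · intro x hx hxV
      obtain ⟨y, hy⟩ := yn2_approx N V w hw ⟨x, hx⟩ hxV
      refine ⟨e.symm (Ideal.Quotient.mk w.asIdeal y), ?_⟩
      have h3 : y - Quotient.out (Ideal.Quotient.mk w.asIdeal y) ∈ w.asIdeal := by
        rw [← Ideal.Quotient.eq_zero_iff_mem, map_sub, hmk, sub_self]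
      have h4 := (hw.lt _).2 ((w.valuation_lt_one_iff_mem _).2 h3)
      show V.valuation (x - (((Quotient.out (e (e.symm (Ideal.Quotient.mk w.asIdeal y))) : 𝓞 N) : N) : Ω)) < 1
      rw [e.apply_symm_apply]
      have e2 : x - (((Quotient.out (Ideal.Quotient.mk w.asIdeal y) : 𝓞 N) : N) : Ω) =
          (x - ((y : N) : Ω)) + (((y - Quotient.out (Ideal.Quotient.mk w.asIdeal y) : 𝓞 N) : N) : Ω) := by
        have h5 : (((y - Quotient.out (Ideal.Quotient.mk w.asIdeal y) : 𝓞 N) : N) : Ω) =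
          ((y : N) : Ω) - (((Quotient.out (Ideal.Quotient.mk w.asIdeal y) : 𝓞 N) : N) : Ω) := by simp
        rw [h5]
        ring
      rw [e2]
      exact V.valuation.map_add_lt hy h4

/-- Extensions inside a Galois extension of degree a power of l, in which l is unramified, satisfy Nb. -/
theorem nb_of {Ω : Type} [Field Ω] [DecidableEq Ω] [Algebra F Ω] [IsAlgClosure F Ω] {l : ℕ} (hl : l.Prime)
    {N L₀ : IntermediateField F Ω} [NumberField N] [NumberField L₀] (hL : H55P.PExt l ⊥ L₀) (hNL : N ≤ L₀)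
    (hU : H55P.UnrP l L₀) : Nb l N := by
  have hLf : FiniteDimensional F L₀ := hL.fin
  have hcz : CharZero Ω := charZero_of_injective_algebraMap (algebraMap F Ω).injective
  refine ⟨H55P.finDim_of_le hNL, ?_, ?_⟩
  · intro V h s hs
    have hn : ∀ s : Ω ≃ₐ[F] Ω, ∀ x ∈ L₀, s x ∈ L₀ := fun s => hL.norm s (fix_bot s)
    have hVne : ∃ x : L₀, (x : Ω) ∉ V := by
      have hl0 : (l : Ω) ≠ 0 := Nat.cast_ne_zero.2 hl.ne_zero
      refine ⟨(l : L₀)⁻¹, fun hmem => ?_⟩
      have h1 : V.valuation ((((l : L₀))⁻¹ : L₀) : Ω) ≤ 1 := (V.valuation_le_one_iff _).2 hmem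
      have h2 : ((((l : L₀))⁻¹ : L₀) : Ω) = (l : Ω)⁻¹ := by push_cast; rfl
      rw [h2] at h1
      have h3 : V.valuation ((l : Ω) * (l : Ω)⁻¹) < 1 := by
        rw [map_mul]
        exact mul_lt_one_of_lt_of_le h h1
      rw [mul_inv_cancel₀ hl0, map_one] at h3
      exact lt_irrefl _ h3
    refine IntermediateField.fixingSubgroup_le hNL (inert_triv hn hVne ?_ hs)
    intro v₀ hv₀ hr
    obtain ⟨W, hW, hle⟩ := hr
    have hlv : (l : 𝓞 F) ∈ v₀.asIdeal := by
      rw [hv₀]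
      simpa using h
    have h1 : (l : 𝓞 L₀) ∈ W ^ 2 := by
      have := hle (Ideal.mem_map_of_mem (algebraMap (𝓞 F) (𝓞 L₀)) hlv)
      rwa [map_natCast] at this
    have h2 : W ^ 2 ∣ Ideal.span {(l : 𝓞 L₀)} := by
      rw [Ideal.dvd_iff_le, Ideal.span_singleton_le_iff_mem]
      exact h1
    have h3 : IsUnit W := hU W (by rwa [← sq])
    exact hW.ne_top (Ideal.isUnit_iff.1 h3)
  · intro V β hβ h1 h2
    exact nb_res hl hL hNL V β hβ h1 h2

end H13X
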