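import Mathlib
import Pool.Agent.Lib.H13X.D
import Pool.Agent.Lib.H55K.SF

/-! # H13X: the ramified primes, base field F (port of H13Z.LR1, LR2, LR3) -/

open NumberField IsDedekindDomain WeierstrassCurve

namespace H13X

open H55P (IQ embF eF LF Per IsHecke Pt ac Inert Dec Nm Coc)
open H35P (WAB Ker tt)
open H55K (Tor ak xc yc CMA Dta GV GMod cj cj_cj mul_cj cj_prime cj_dvd cj_nat Nm_cj Nm_mul Nm_nat)
open H55K.S
open H13S (Abv)

variable {F : Type} [Field F] [NumberField F] [IQ F] {A B : F} {Om : ℂ} {Ω : Type} [Field Ω] [DecidableEq Ω]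
  [Algebra F Ω] [IsAlgClosure F Ω] {j : Ω →+* ℂ} {act : 𝓞 F →+* AddMonoid.End (Pt (WAB A B) Ω)} {mo : Ideal (𝓞 F)}
  {ψ : Ideal (𝓞 F) →*₀ 𝓞 F}

variable {π : 𝓞 F} {l : ℕ} {V : ValuationSubring Ω} {t : Ω} {e0 : ℕ}

theorem RB.vl (R : RB A B Om j act mo ψ π l V t e0) : V.valuation (l : Ω) < 1 :=
  H55K.S.val_l R.D.dvd (fun V x => vo_le V x) V R.above

theorem RB.gv (R : RB A B Om j act mo ψ π l V t e0) : GV A B V := R.D.dta.good V R.vl

/-- Basic facts. -/
theorem RB.val_l (R : RB A B Om j act mo ψ π l V t e0) : V.valuation (l : Ω) = vo V π ∧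
    V.valuation t ^ (Nm π - 1) = vo V π ∧
    V.valuation t < 1 ∧ V.valuation t ≠ 0 ∧ V.valuation t ^ (e0 * (l - 1)) = V.valuation (l : Ω) ∧
    (Nm π = l ∧ e0 = 1 ∨ Nm π = l ^ 2 ∧ e0 = l + 1 ∧ Tor act (cj π) = Tor act π) := by
  have D := R.D
  have hV := R.above
  have he := R.e0
  obtain ⟨T, hT, hT0, ht⟩ := R.pt
  obtain ⟨hK, hv⟩ := kr_tor_ram D.cma R.gv π D.pr hV hT hT0
  rw [← ht] at hv
  have h1 : V.valuation t < 1 := by
    rw [ht]
    exact kr_tt_lt R.gv hK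
  have h5 := D.five
  have hlo : V.valuation (l : Ω) = vo V (l : 𝓞 F) := (vo_nat V l).symm
  have hdi := dichotomy D.hl D.dta.unr D.pr D.dvd
  have hq : 2 ≤ Nm π := by
    rcases hdi with ⟨-, h, -⟩ | ⟨-, -, h, -⟩
    · rw [h]
      nlinarith
    · omega
  have h2 : V.valuation t ≠ 0 := by
    intro h
    rw [h, zero_pow (by omega)] at hv
    exact vo_ne V D.pr.ne_zero hv.symm
  have hl : V.valuation (l : Ω) = vo V π := by
    rw [hlo]
    rcases hdi with ⟨-, -, h⟩ | ⟨hn, -, -, h⟩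
    · exact vo_assoc V h (fun x => vo_le V x)
    · rw [← h, vo_mul, qv_unit V D.pr hV hn, mul_one]
  refine ⟨hl, hv, h1, h2, ?_, ?_⟩
  · rw [he, hl]
    exact hv
  · rcases hdi with ⟨hc, h, h3⟩ | ⟨-, -, h, -⟩
    · right
      refine ⟨h, ?_, tor_assoc hc⟩
      rw [h] at he
      obtain ⟨m, rfl⟩ : ∃ m, l = m + 1 := ⟨l - 1, by omega⟩
      have e2 : (m + 1) ^ 2 - 1 = (m + 1 + 1) * (m + 1 - 1) := by
        have : (m + 1) ^ 2 = (m + 1 + 1) * m + 1 := by ring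
        rw [this]
        simp
      rw [e2] at he
      exact Nat.eq_of_mul_eq_mul_right (by omega) he
    · left
      refine ⟨h, ?_⟩
      rw [h] at he
      have : e0 * (l - 1) = 1 * (l - 1) := by omega
      exact Nat.eq_of_mul_eq_mul_right (by omega) this

theorem RB.vo_lt (R : RB A B Om j act mo ψ π l V t e0) (a : 𝓞 F) : vo V a < 1 ↔ π ∣ a := by
  constructor
  · intro h
    by_contra hn
    exact absurd (qv_unit V R.D.pr R.above hn) h.ne
  · rintro ⟨b, rfl⟩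
    rw [vo_mul]
    exact (mul_le_of_le_one_right' (vo_le V b)).trans_lt R.above

/-- The field of the points killed by π and its prime below V. -/
theorem rb_base (R : RB A B Om j act mo ψ π l V t e0) : ∃ L : IntermediateField F Ω, H55K.IsTF act π L ∧
    ∃ (_ : NumberField L) (w : HeightOneSpectrum (𝓞 L)) (t' : L), Abv L V w ∧ (t' : Ω) = t ∧
      w.valuation L t' = WithZero.exp (-1 : ℤ) ∧
      ∀ a : 𝓞 L, ∃ b : 𝓞 F, a - algebraMap (𝓞 F) (𝓞 L) b ∈ w.asIdeal := by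
  classical
  have hp := R.D.pr
  have hA := R.D.cma
  obtain ⟨L, hLT⟩ := H55K.exists_istf hA hp
  have hfin : FiniteDimensional F L := hLT.1
  have hnf : NumberField L := NumberField.of_module_finite F _
  have hL := H55K.tfld_of_istf hA hLT
  have hgal : IsGalois F L := hL.gal
  have hV := R.above
  have hpi : V.valuation (((algebraMap F L (π : F) : L)) : Ω) < 1 := hV
  have hpi0 : (algebraMap F L (π : F)) ≠ 0 := by
    rw [Ne, map_eq_zero_iff _ (algebraMap F L).injective]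
    intro h
    apply hp.ne_zero
    exact RingOfIntegers.coe_injective (h.trans (map_zero _).symm)
  obtain ⟨w, hw⟩ := H13S.exists_below L V ⟨(algebraMap F L (π : F))⁻¹, by
    intro hin
    rw [← V.valuation_le_one_iff] at hin
    have e : (((algebraMap F L (π : F))⁻¹ : L) : Ω) = (((algebraMap F L (π : F) : L)) : Ω)⁻¹ := rfl
    rw [e, map_inv₀] at hin
    have h0 : 0 < V.valuation (((algebraMap F L (π : F) : L)) : Ω) :=
      zero_lt_iff.2 ((map_ne_zero _).2 fun h => hpi0 (Subtype.ext h))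
    rw [inv_le_one₀ h0] at hin
    exact absurd hin (not_le.2 hpi)⟩
  have hwpi := (hw.lt _).1 hpi
  have hmem : algebraMap (𝓞 F) (𝓞 L) π ∈ w.asIdeal := by
    have h1 : algebraMap F L (π : F) = algebraMap (𝓞 L) L (algebraMap (𝓞 F) (𝓞 L) π) := rfl
    rw [h1, HeightOneSpectrum.valuation_lt_one_iff_mem] at hwpi
    exact hwpi
  have hv := H55K.k10_below hp w hmem
  have tr := H55K.tot_ram hA hp hL (w.under (𝓞 F)) (H55K.k10_val hp _ hv) (fun V' hV' =>
    R.D.dta.good V' (H55K.S.val_l R.D.dvd (fun V x => vo_le V x) V' hV'))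
  obtain ⟨T, hT, hT0, hTt⟩ := R.pt
  obtain ⟨x, y, hx, hy⟩ := hL.crd T hT
  have htt : (((x / y : L)) : Ω) = tt T := by
    rw [H55K.tt_eq, ← hx, ← hy]
    rfl
  refine ⟨L, hLT, hnf, w, x / y, hw, ?_, tr.val w rfl T hT hT0 _ htt, ?_⟩
  · rw [hTt, htt]
  · intro a
    have hmax : (w.under (𝓞 F)).asIdeal.IsMaximal := (w.under (𝓞 F)).isMaximal
    let _ : Field (𝓞 F ⧸ (w.under (𝓞 F)).asIdeal) := Ideal.Quotient.field _
    obtain ⟨r, hr, hr2⟩ := H55K.k5_res (w.under (𝓞 F)) w rfl tr.fs (k := 𝓞 F ⧸ (w.under (𝓞 F)).asIdeal)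
      (Ideal.Quotient.mk (w.under (𝓞 F)).asIdeal) (fun x => Ideal.Quotient.eq_zero_iff_mem)
    obtain ⟨b, hb⟩ := Ideal.Quotient.mk_surjective (r a)
    refine ⟨b, ?_⟩
    rw [← hr, map_sub, hr2, hb, sub_self]

/-- An element fixed by the inertia elements which fix the points killed by π has the value of a power of t. -/
theorem values_inert (R : RB A B Om j act mo ψ π l V t e0) {x : Ω} (h0 : x ≠ 0)
    (hx : ∀ s : Ω ≃ₐ[F] Ω, Inert V s → (∀ T ∈ Tor act π, ac (WAB A B) s T = T) → s x = x) :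
    ∃ n : ℤ, V.valuation x = V.valuation t ^ n := by
  obtain ⟨L, hL, hnf, w, t', hw, ht, hwt, -⟩ := rb_base R
  obtain ⟨a, ha0, ha⟩ := H13S.value_fixed L V x h0 fun s hs hi => hx s hi ((hL.2 s).1 hs)
  have ht0 : t' ≠ 0 := by
    rintro rfl
    rw [map_zero] at hwt
    exact WithZero.exp_ne_zero hwt.symm
  have hwa : w.valuation L a ≠ 0 := (map_ne_zero _).2 ha0
  obtain ⟨m, hm⟩ : ∃ m : ℤ, w.valuation L a = WithZero.exp m :=
    ⟨WithZero.log (w.valuation L a), (WithZero.exp_log hwa).symm⟩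
  have h1 : w.valuation L a = w.valuation L (t' ^ (-m)) := by
    rw [hm, map_zpow₀, hwt, ← WithZero.exp_zsmul]
    congr 1
    simp
  have h2 : V.valuation (a : Ω) = V.valuation ((t' ^ (-m) : L) : Ω) :=
    le_antisymm ((hw.le _ _).2 h1.le) ((hw.le _ _).2 h1.ge)
  refine ⟨-m, ?_⟩
  rw [ha, h2]
  have e : ((t' ^ (-m) : L) : Ω) = (t' : Ω) ^ (-m) := rfl
  rw [e, map_zpow₀, ht]

theorem rb_mem {L : IntermediateField F Ω} (hL : H55K.IsTF act π L) {x : Ω} (hx : x ∈ L) : Hx act π ⊥ V x := by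
  intro s hs
  exact (IntermediateField.mem_fixingSubgroup_iff L s).1 ((hL.2 s).2 hs.2) x hx

/-- Residues over F. -/
theorem RB.residue (R : RB A B Om j act mo ψ π l V t e0) {x : Ω} (hx : Hx act π ⊥ V x) (h1 : V.valuation x ≤ 1) :
    ∃ a : 𝓞 F, V.valuation (x - algebraMap F Ω (a : F)) < 1 := by
  obtain ⟨L, hL, hnf, w, t', hw, ht, hwt, hres⟩ := rb_base R
  obtain ⟨-, -, ht1, ht0, -, -⟩ := R.val_l
  have htp : 0 < V.valuation t := zero_lt_iff.2 ht0
  have hV : V ≠ ⊤ := by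
    intro h
    have h2 : t⁻¹ ∈ V := by rw [h]; trivial
    rw [← V.valuation_le_one_iff, map_inv₀, inv_le_one₀ htp] at h2
    exact absurd h2 (not_le.2 ht1)
  have hbot : ∀ s : Ω ≃ₐ[F] Ω, s ∈ (⊥ : IntermediateField F Ω).fixingSubgroup := by
    intro s
    rw [IntermediateField.fixingSubgroup_bot]
    exact Subgroup.mem_top s
  obtain ⟨a, ha⟩ := H13S.residue_fixed L V hV x ((V.valuation_le_one_iff _).1 h1)
    fun s hs hd => hx s ⟨⟨hbot s, hd⟩, (hL.2 s).1 hs⟩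
  obtain ⟨b, hb⟩ := hres a
  refine ⟨b, ?_⟩
  have h3 : w.valuation L (algebraMap (𝓞 L) L (a - algebraMap (𝓞 F) (𝓞 L) b)) < 1 :=
    (HeightOneSpectrum.valuation_lt_one_iff_mem w _).2 hb
  have h4 := (hw.lt _).2 h3
  have e : (((algebraMap (𝓞 L) L (a - algebraMap (𝓞 F) (𝓞 L) b) : L)) : Ω) =
      ((a : L) : Ω) - algebraMap F Ω (b : F) := rfl
  rw [e] at h4
  have e2 : x - algebraMap F Ω (b : F) = (x - ((a : L) : Ω)) + (((a : L) : Ω) - algebraMap F Ω (b : F)) := by ring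
  rw [e2]
  exact V.valuation.map_add_lt ha h4

/-- The inertia group acts through all of (𝓞 F/π)^*. -/
theorem RB.exists_inert (R : RB A B Om j act mo ψ π l V t e0) {a : 𝓞 F} (ha : ¬ π ∣ a) :
    ∃ s : Ω ≃ₐ[F] Ω, Inert V s ∧ ∀ T ∈ Tor act π, ac (WAB A B) s T = act a T := by
  classical
  have hp : Prime π := R.D.pr
  have hA := R.D.cma
  obtain ⟨L, hLT⟩ := H55K.exists_istf hA hp
  have hfin : FiniteDimensional F L := hLT.1
  have hnf : NumberField L := NumberField.of_module_finite F _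
  have hL := H55K.tfld_of_istf hA hLT
  have hgal : IsGalois F L := hL.gal
  have hint : Algebra.IsAlgebraic F Ω := IsAlgClosure.isAlgebraic
  obtain ⟨T₁, hT₁, hT₁0, ht⟩ := R.pt
  obtain ⟨-, -, ht1, ht0, -⟩ := R.val_l
  obtain ⟨x, y, hx, hy⟩ := hL.crd T₁ hT₁
  have htN : t ∈ L := by
    rw [ht, H55K.tt_eq, ← hx, ← hy]
    exact (x / y).2
  obtain ⟨w, hw⟩ := H13S.exists_below L V ⟨(⟨t, htN⟩ : L)⁻¹, by
    rw [← V.valuation_le_one_iff]
    have e : (((⟨t, htN⟩ : L)⁻¹ : L) : Ω) = t⁻¹ := rfl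
    rw [e, map_inv₀, not_le]
    exact (one_lt_inv₀ (zero_lt_iff.2 ht0)).2 ht1⟩
  have hwπ : algebraMap (𝓞 F) (𝓞 L) π ∈ w.asIdeal := by
    rw [← HeightOneSpectrum.valuation_lt_one_iff_mem (K := L), ← hw.lt]
    exact R.above
  have hv := H55K.k10_below hp w hwπ
  have TR := H55K.tot_ram hA hp hL (w.under (𝓞 F)) (H55K.k10_val hp _ hv) (fun V' hV' =>
    R.D.dta.good V' (H55K.S.val_l R.D.dvd (fun V x => vo_le V x) V' hV'))
  have haR : act a T₁ ≠ 0 := by
    rw [Ne, H55K.tor_zero hA hp hT₁ hT₁0]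
    exact ha
  obtain ⟨σ, hσ⟩ := TR.orb T₁ hT₁ hT₁0 (act a T₁) (act_tor hT₁) haR
  obtain ⟨s, hs⟩ := H55K.exists_lft (Ω := Ω) (F := F) σ
  have hpt : ∀ T ∈ Tor act π, ac (WAB A B) s T = act a T := by
    intro T hT
    obtain ⟨c, hc⟩ := H55K.tor_gen hA hp hT₁ hT hT₁0
    rw [← hc, ac_act hA, hσ s hs, ← act_mul, mul_comm, act_mul]
  have hs' : ∀ x : L, s (x : Ω) = ((σ x : L) : Ω) := hs
  have hN : ∀ x ∈ L, s x ∈ L := by
    intro x hx
    rw [hs' ⟨x, hx⟩]
    exact (σ _).2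
  have hsm : H55R.smulP σ w = w := TR.one _ _ (H55R.under_smulP σ w) rfl
  have hval : ∀ x : L, w.valuation L (σ x) = w.valuation L x := by
    intro x
    have h1 := H55K.Ab.T3_val σ w (σ x)
    rw [hsm] at h1
    rw [← h1]
    congr 1
    exact σ.symm_apply_apply x
  have hI : ∀ x ∈ L, x ∈ V → V.valuation (s x - x) < 1 := by
    intro x hx hxV
    obtain ⟨b, hb⟩ := R.residue (rb_mem hLT hx) ((V.valuation_le_one_iff _).2 hxV)
    have e : s x - x = s (x - algebraMap F Ω (b : F)) - (x - algebraMap F Ω (b : F)) := by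
      rw [map_sub, s.commutes]
      ring
    have hy : x - algebraMap F Ω (b : F) ∈ L := sub_mem hx (L.algebraMap_mem _)
    rw [e]
    refine lt_of_le_of_lt (V.valuation.map_sub _ _) (max_lt ?_ hb)
    rw [hs' ⟨_, hy⟩, hw.lt, hval, ← hw.lt]
    exact hb
  obtain ⟨s', hs'1, hs'2⟩ := H13S.inertia_lift L V s hN hI
  refine ⟨s', hs'1, fun T hT => ?_⟩
  rw [← hpt T hT]
  have h1 : s⁻¹ * s' ∈ L.fixingSubgroup := by
    rw [IntermediateField.mem_fixingSubgroup_iff]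
    intro x hx
    show s.symm (s' x) = x
    rw [hs'2 x hx, s.symm_apply_apply]
  have h2 := (hLT.2 _).1 h1 T hT
  rw [ac_mul] at h2
  have h3 := congrArg (ac (WAB A B) s) h2
  rw [ac_inv] at h3
  exact h3

/-- s t = a t modulo V t^2 if s acts as act a on Tor π. -/
theorem RB.act_t (R : RB A B Om j act mo ψ π l V t e0) {a : 𝓞 F} {s : Ω ≃ₐ[F] Ω}
    (hs : ∀ T ∈ Tor act π, ac (WAB A B) s T = act a T) :
    V.valuation (s t - algebraMap F Ω (a : F) * t) ≤ V.valuation t ^ 2 := by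
  obtain ⟨T₁, hT₁, hT₁0, rfl⟩ := R.pt
  have hK := (kr_tor_ram R.D.cma R.gv π R.D.pr R.above hT₁ hT₁0).1
  have h1 : s (tt T₁) = tt (act a T₁) := by
    rw [← hs T₁ hT₁, tt_ac]
  rw [h1]
  exact kr_tt_act R.D.cma R.gv a hK

end H13X
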