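import Mathlib
import Pool.Agent.Lib.H13X.XG
import Pool.Agent.Lib.H13X.XR1

/-! # H13X: port of H13Y/YR -/

open NumberField IsDedekindDomain WeierstrassCurve

namespace H13X

open H55P (IQ embF eF LF Per IsHecke Pt ac Inert Dec Nm Coc)
open H35P (WAB Ker tt)
open H55K (Tor ak xc yc CMA Dta GV GMod cj cj_cj mul_cj cj_prime cj_dvd cj_nat Nm_cj Nm_mul Nm_nat)
open H55K.S
open H13S (Abv)





variable {F : Type} [Field F] [NumberField F] [IQ F] {A B : F} {Om : ℂ} {Ω : Type} [Field Ω] [DecidableEq Ω]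
  [Algebra F Ω] [IsAlgClosure F Ω] {j : Ω →+* ℂ} {act : 𝓞 F →+* AddMonoid.End (Pt (WAB A B) Ω)} {mo : Ideal (𝓞 F)}
  {ψ : Ideal (𝓞 F) →*₀ 𝓞 F}

variable {π : 𝓞 F} {l : ℕ} {N : IntermediateField F Ω} {V : ValuationSubring Ω} {t : Ω} {e0 : ℕ}

theorem RV.lt (R : RV A B Om j act mo ψ π l N V t e0) : V.valuation (l : Ω) < 1 := by
  rw [R.base.val_l.1]
  exact R.base.above

theorem RV.dec (R : RV A B Om j act mo ψ π l N V t e0) {s : Ω ≃ₐ[F] Ω} (hs : Inert V s) : DecN N V s :=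
  R.nb.dec R.lt hs

theorem RV.values (R : RV A B Om j act mo ψ π l N V t e0) {x : Ω} (hx : Hx act π N V x) (h0 : x ≠ 0) :
    ∃ n : ℤ, V.valuation x = V.valuation t ^ n :=
  values_inert R.base h0 fun s hs hT => hx s ⟨R.dec hs, hT⟩

theorem RV.step (R : RV A B Om j act mo ψ π l N V t e0) {x : Ω} (hx : Hx act π N V x) {i : ℕ}
    (h : V.valuation x < V.valuation t ^ i) : V.valuation x ≤ V.valuation t ^ (i + 1) := by
  by_cases h0 : x = 0
  · rw [h0, map_zero]
    exact zero_le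
  obtain ⟨n, hn⟩ := R.values hx h0
  obtain ⟨-, -, ht1, ht0, -, -⟩ := R.base.val_l
  have htp : 0 < V.valuation t := zero_lt_iff.2 ht0
  rw [hn] at h ⊢
  have h2 : (i : ℤ) < n := by
    by_contra hc
    rw [not_lt] at hc
    have h3 : V.valuation t ^ (i : ℤ) ≤ V.valuation t ^ n :=
      zpow_le_zpow_right_of_le_one₀ htp ht1.le hc
    rw [zpow_natCast] at h3
    exact absurd h (not_lt.2 h3)
  have h3 : V.valuation t ^ n ≤ V.valuation t ^ ((i + 1 : ℕ) : ℤ) :=
    zpow_le_zpow_right_of_le_one₀ htp ht1.le (by push_cast; omega)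
  rw [zpow_natCast] at h3
  exact h3

omit [IsAlgClosure F Ω] in
theorem yr_act {a b : 𝓞 F} {T : Pt (WAB A B) Ω} (hT : T ∈ Tor act π)
    (h : Ideal.Quotient.mk (Ideal.span {π}) a = Ideal.Quotient.mk (Ideal.span {π}) b) :
    act a T = act b T := by
  rw [Ideal.Quotient.eq, Ideal.mem_span_singleton] at h
  obtain ⟨c, hc⟩ := h
  have h1 : act (a - b) T = 0 := by
    rw [hc, mul_comm, act_mul, mem_Tor.1 hT, map_zero]
  rw [act_sub] at h1
  exact sub_eq_zero.1 h1

omit [IsAlgClosure F Ω] in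
theorem yr_mem {a : 𝓞 F} {T : Pt (WAB A B) Ω} (hT : T ∈ Tor act π) : act a T ∈ Tor act π := by
  rw [mem_Tor, ← act_mul, mul_comm, act_mul, mem_Tor.1 hT, map_zero]

/-- Chunk YR (M). Residues come from N. For each class ζ in (𝓞 F/π)^* choose a representative a in 𝓞 F (not divisible by π) and an inertia element s_ζ acting as act a on Tor π (RV.exists_inert R.base); it is in DecN (R.dec). b = (1/(Nm π - 1)) * sum over ζ of s_ζ x: V (s_ζ x - x) < 1, V (Nm π - 1) = 1 (Nm π - 1 is an integer prime to l, V l < 1), so V (b - x) < 1.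
b is fixed by every s in DecN N V: s acts as act c on Tor π (exists_chi/gi_gen; π does not divide c), s s_ζ and s_(cζ) act in the same way, so s_(cζ)⁻¹ s s_ζ is in DT and fixes x: s s_ζ x = s_(cζ) x; the sum is permuted. H13S.residue_fixed for K = N (NumberField from R.nb.fin; V ≠ ⊤ because V l < 1): a in 𝓞 N with V (b - a) < 1. -/
theorem RV.residue (R : RV A B Om j act mo ψ π l N V t e0) {x : Ω} (hx : Hx act π N V x) (h1 : V.valuation x ≤ 1) :
    ∃ a ∈ N, V.valuation a ≤ 1 ∧ V.valuation (x - a) < 1 := by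
  classical
  have hp := R.base.D.pr
  obtain ⟨χ, hχ, -⟩ := exists_chi R.base.D.cma π hp
  have hpp : (Ideal.span {π}).IsPrime := (Ideal.span_singleton_prime hp.ne_zero).2 hp
  have hbot : Ideal.span {π} ≠ ⊥ := by
    rw [Ne, Ideal.span_singleton_eq_bot]
    exact hp.ne_zero
  have hm : (Ideal.span {π}).IsMaximal := hpp.isMaximal hbot
  have hfin : Finite (𝓞 F ⧸ Ideal.span {π}) := Ideal.finiteQuotientOfFreeOfNeBot _ hbot
  have hcard : Nat.card (𝓞 F ⧸ Ideal.span {π})ˣ = Nm π - 1 := by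
    let _ := Ideal.Quotient.field (Ideal.span {π})
    exact Nat.card_units (𝓞 F ⧸ Ideal.span {π})
  let _ : Fintype (𝓞 F ⧸ Ideal.span {π})ˣ := Fintype.ofFinite _
  have hnt : Nontrivial (𝓞 F ⧸ Ideal.span {π}) := Ideal.Quotient.nontrivial_iff.2 hpp.ne_top
  have hA : ∀ u : (𝓞 F ⧸ Ideal.span {π})ˣ, ∃ a : 𝓞 F,
      Ideal.Quotient.mk (Ideal.span {π}) a = (u : 𝓞 F ⧸ Ideal.span {π}) := fun u =>
    Ideal.Quotient.mk_surjective _
  choose A₀ hA using hA
  have hnd : ∀ u, ¬ π ∣ A₀ u := by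
    intro u h
    have h1 : (u : 𝓞 F ⧸ Ideal.span {π}) = 0 := by
      rw [← hA u, Ideal.Quotient.eq_zero_iff_mem, Ideal.mem_span_singleton]
      exact h
    exact u.ne_zero h1
  have hS : ∀ u, ∃ s : Ω ≃ₐ[F] Ω, Inert V s ∧ ∀ T ∈ Tor act π, ac (WAB A B) s T = act (A₀ u) T :=
    fun u => R.base.exists_inert (hnd u)
  choose S hSI hST using hS
  -- the sum is fixed
  have key : ∀ s, DecN N V s → ∀ u, s (S u x) = S (χ s * u) x := by
    intro s hs u
    have hD : DT act π N V ((S (χ s * u))⁻¹ * (s * S u)) := by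
      refine ⟨(R.dec (hSI _)).inv.mul (hs.mul (R.dec (hSI u))), fun T hT => ?_⟩
      obtain ⟨c, hc⟩ := Ideal.Quotient.mk_surjective ((χ s : (𝓞 F ⧸ Ideal.span {π})ˣ) : 𝓞 F ⧸ Ideal.span {π})
      have h1 : ac (WAB A B) (s * S u) T = ac (WAB A B) (S (χ s * u)) T := by
        rw [ac_mul, hST u T hT, hχ s c hc _ (yr_mem hT), hST _ T hT, ← act_mul]
        refine yr_act hT ?_
        rw [map_mul, hc, hA, hA, Units.val_mul]
      rw [ac_mul, h1, ← ac_mul, inv_mul_cancel, ac_one]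
    have h2 := hx _ hD
    have h3 : ((S (χ s * u))⁻¹ * (s * S u)) x = (S (χ s * u)).symm (s (S u x)) := rfl
    rw [h3] at h2
    rw [← h2, (S (χ s * u)).apply_symm_apply]
    rw [h2]
  obtain ⟨hl1, -, ht1, ht0, -, hN⟩ := R.base.val_l
  have hVl := R.lt
  have hn : V.valuation ((Fintype.card (𝓞 F ⧸ Ideal.span {π})ˣ : ℕ) : Ω) = 1 := by
    have h1 : V.valuation ((Nm π : ℕ) : Ω) < 1 := by
      rcases hN with h | h
      · rw [h.1]
        exact hVl
      · rw [h.1, Nat.cast_pow, map_pow]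
        exact pow_lt_one₀ zero_le hVl two_ne_zero
    have h2 : 1 ≤ Nm π := by
      rcases hN with h | h
      · rw [h.1]
        exact R.base.D.hl.one_le
      · rw [h.1]
        exact Nat.one_le_pow _ _ R.base.D.hl.pos
    rw [← Nat.card_eq_fintype_card, hcard, Nat.cast_sub h2, Nat.cast_one]
    rw [Valuation.map_sub_swap, Valuation.map_one_sub_of_lt _ h1]
  have hn0 : ((Fintype.card (𝓞 F ⧸ Ideal.span {π})ˣ : ℕ) : Ω) ≠ 0 := by
    intro h
    rw [h, map_zero] at hn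
    exact zero_ne_one hn
  have hb : ∀ b : Ω, b = ((Fintype.card (𝓞 F ⧸ Ideal.span {π})ˣ : ℕ) : Ω)⁻¹ * ∑ u, S u x →
      V.valuation (b - x) < 1 := by
    intro b hb
    have h1' : b - x = ((Fintype.card (𝓞 F ⧸ Ideal.span {π})ˣ : ℕ) : Ω)⁻¹ * ∑ u, (S u x - x) := by
      rw [Finset.sum_sub_distrib, Finset.sum_const, Finset.card_univ, nsmul_eq_mul, mul_sub,
        inv_mul_cancel_left₀ hn0, hb]
    rw [h1', map_mul, map_inv₀, hn, inv_one, one_mul]
    exact V.valuation.map_sum_lt one_ne_zero fun u _ => hSI u x ((V.valuation_le_one_iff _).1 h1)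
  obtain ⟨b, hbd⟩ : ∃ b : Ω, b = ((Fintype.card (𝓞 F ⧸ Ideal.span {π})ˣ : ℕ) : Ω)⁻¹ * ∑ u, S u x :=
    ⟨_, rfl⟩
  have hbx := hb b hbd
  have hb1 : V.valuation b ≤ 1 := by
    have e : b = (b - x) + x := by ring
    rw [e]
    exact (V.valuation.map_add _ _).trans (max_le hbx.le h1)
  have hbf : ∀ s ∈ N.fixingSubgroup, Dec V s → s b = b := by
    intro s hs hd
    rw [hbd, map_mul, map_inv₀, map_natCast, map_sum]
    congr 1
    rw [Finset.sum_congr rfl fun u _ => key s ⟨hs, hd⟩ u]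
    exact Fintype.sum_equiv (Equiv.mulLeft (χ s)) _ _ fun u => rfl
  have hV : V ≠ ⊤ := by
    intro h
    have htp : 0 < V.valuation t := zero_lt_iff.2 ht0
    have h2 : t⁻¹ ∈ V := by rw [h]; trivial
    rw [← V.valuation_le_one_iff, map_inv₀, inv_le_one₀ htp] at h2
    exact absurd h2 (not_le.2 ht1)
  have hfd := R.nb.fin
  have hnf : NumberField N := NumberField.of_module_finite F _
  obtain ⟨a, ha⟩ := H13S.residue_fixed N V hV b ((V.valuation_le_one_iff _).1 hb1) hbf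
  refine ⟨((a : N) : Ω), (a : N).2, ?_, ?_⟩
  · have e : ((a : N) : Ω) = b - (b - ((a : N) : Ω)) := by ring
    rw [e]
    exact (V.valuation.map_sub _ _).trans (max_le hb1 ha.le)
  · have e : x - ((a : N) : Ω) = (b - ((a : N) : Ω)) - (b - x) := by ring
    rw [e]
    exact lt_of_le_of_lt (V.valuation.map_sub _ _) (max_lt ha hbx)

/-- The values of differences of elements of N: 1 or at most V t (special case of step). -/
theorem RV.val_N (R : RV A B Om j act mo ψ π l N V t e0) {a : Ω} (ha : a ∈ N) (h : V.valuation a < 1) :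
    V.valuation a ≤ V.valuation t := by
  have := R.step (Hx.of_mem (π := π) (V := V) ha) (i := 0) (by rwa [pow_zero])
  simpa using this

end H13X
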