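import Mathlib
import Pool.Agent.Lib.H13X.D
import Pool.Agent.Lib.H13Z.CZ1

/-! # H13X: port of H13Z/CZ1 -/

open NumberField IsDedekindDomain WeierstrassCurve

namespace H13X

open H55P (IQ embF eF LF Per IsHecke Pt ac Inert Dec Nm Coc)
open H35P (WAB Ker tt)
open H55K (Tor ak xc yc CMA Dta GV GMod cj cj_cj mul_cj cj_prime cj_dvd cj_nat Nm_cj Nm_mul Nm_nat)
open H55K.S
open H13S (Abv)




variable {F : Type} [Field F] [NumberField F] [IQ F] {A B : F} {Om : ℂ} {Ω : Type} [Field Ω] [DecidableEq Ω]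
  [Algebra F Ω] [IsAlgClosure F Ω] {j : Ω →+* ℂ} {act : 𝓞 F →+* AddMonoid.End (Pt (WAB A B) Ω)} {mo : Ideal (𝓞 F)}
  {ψ : Ideal (𝓞 F) →*₀ 𝓞 F}

/-- Chunk CZ1 (M). Additive system of l-th roots. -/
theorem y_system {π : 𝓞 F} {l : ℕ} (D : Dat A B Om j act mo ψ π l) (L : IntermediateField F Ω) (m : Pt (WAB A B) Ω → (L)ˣ)
    (hadd : ∀ T ∈ Tor act π, ∀ T' ∈ Tor act π, ∃ z : (L)ˣ, m (T + T') = m T * m T' * z ^ l) :
    ∃ y : Pt (WAB A B) Ω → Ω, (∀ T ∈ Tor act π, y T ≠ 0 ∧ ∃ z : (L)ˣ, y T ^ l = ((m T * z ^ l : (L)ˣ) : L)) ∧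
      ∀ T ∈ Tor act π, ∀ T' ∈ Tor act π, ∃ z : (L)ˣ, y (T + T') = y T * y T' * ((z : L) : Ω) := by
  classical
  have hl : Fact l.Prime := ⟨D.hl⟩
  have hl0 : l ≠ 0 := D.hl.ne_zero
  have hAC : IsAlgClosed Ω := IsAlgClosure.isAlgClosed F
  have hfull := (gi_gen D.cma π D.pr).1
  have hfin : Finite (Tor act π) := Nat.finite_of_card_ne_zero (by rw [hfull]; exact fun h => D.pr.ne_zero (H55P.Nm_eq_zero.1 h))
  have hkill : ∀ T : Tor act π, l • T = 0 := by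
    rintro ⟨T, hT⟩
    apply Subtype.ext
    change l • T = 0
    obtain ⟨c, hc⟩ := D.dvd
    rw [← act_nat (act := act), hc, mul_comm, act_mul, mem_Tor.1 hT, map_zero]
  obtain ⟨iM⟩ : Nonempty (Module (ZMod l) (Tor act π)) := ⟨AddCommGroup.zmodModule hkill⟩
  have iF : Module.Finite (ZMod l) (Tor act π) := Module.Finite.of_finite
  obtain ⟨n, b⟩ : Σ n : ℕ, Module.Basis (Fin n) (ZMod l) (Tor act π) := ⟨_, Module.finBasis (ZMod l) ↥(Tor act π)⟩
  have hrep : ∀ T : Tor act π, T = ∑ i, (b.repr T i).val • b i := by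
    intro T
    conv_lhs => rw [← b.sum_repr T]
    refine Finset.sum_congr rfl fun i _ => ?_
    conv_lhs => rw [← ZMod.natCast_zmod_val (b.repr T i)]
    exact Nat.cast_smul_eq_nsmul (ZMod l) _ _
  have hroot : ∀ i : Fin n, ∃ w : Ω, w ^ l = ((m (b i) : L) : Ω) := fun i =>
    IsAlgClosed.exists_pow_nat_eq _ (Nat.pos_of_ne_zero hl0)
  choose w hw using hroot
  have hw0 : ∀ i, w i ≠ 0 := by
    intro i h
    have h1 := hw i
    rw [h, zero_pow hl0] at h1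
    have h2 : ((m (b i) : L)) ≠ 0 := Units.ne_zero _
    apply h2
    exact_mod_cast h1.symm
  let cc : Pt (WAB A B) Ω → Fin n → ℕ := fun T i => if h : T ∈ Tor act π then (b.repr ⟨T, h⟩ i).val else 0
  let y : Pt (WAB A B) Ω → Ω := fun T => ∏ i, w i ^ cc T i
  have hcc : ∀ T (h : T ∈ Tor act π) i, cc T i = (b.repr ⟨T, h⟩ i).val := fun T h i => dif_pos h
  have hprod : ∀ (e : Fin n → ℕ), (∏ i, (w i ^ l) ^ e i) = (((∏ i, m (b i) ^ e i : (L)ˣ) : L) : Ω) := by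
    intro e
    rw [Units.coe_prod]
    rw [show ((((∏ i, ((m (b i) ^ e i : (L)ˣ) : L)) : L)) : Ω) = L.val (∏ i, ((m (b i) ^ e i : (L)ˣ) : L)) from rfl,
      map_prod]
    refine Finset.prod_congr rfl fun i _ => ?_
    rw [hw i, Units.val_pow_eq_pow_val, map_pow]
    rfl
  refine ⟨y, fun T hT => ⟨Finset.prod_ne_zero_iff.2 fun i _ => pow_ne_zero _ (hw0 i), ?_⟩,
    fun T hT T' hT' => ?_⟩
  · obtain ⟨z, hz⟩ := H13Z.cz1_quot (A := Tor act π) l (fun T => m T) (fun T T' => hadd T T.2 T' T'.2) b (cc T)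
    refine ⟨z, ?_⟩
    have h1 : (∑ i, cc T i • b i) = ⟨T, hT⟩ := by
      conv_rhs => rw [hrep ⟨T, hT⟩]
      exact Finset.sum_congr rfl fun i _ => by rw [hcc T hT i]
    rw [h1] at hz
    change (∏ i, w i ^ cc T i) ^ l = _
    rw [← Finset.prod_pow]
    have h2 : (∏ i, (w i ^ cc T i) ^ l) = ∏ i, (w i ^ l) ^ cc T i :=
      Finset.prod_congr rfl fun i _ => by rw [← pow_mul, ← pow_mul, mul_comm]
    rw [h2, hprod, hz]
  · let q : Fin n → ℕ := fun i => (cc T i + cc T' i) / l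
    refine ⟨(∏ i, m (b i) ^ q i)⁻¹, ?_⟩
    have h1 : ∀ i, cc T i + cc T' i = cc (T + T') i + l * q i := by
      intro i
      have h2 : cc (T + T') i = (cc T i + cc T' i) % l := by
        rw [hcc _ ((Tor act π).add_mem hT hT'), hcc T hT, hcc T' hT']
        rw [← ZMod.val_add]
        congr 1
        have h3 : (⟨T + T', (Tor act π).add_mem hT hT'⟩ : Tor act π) = ⟨T, hT⟩ + ⟨T', hT'⟩ := rfl
        rw [h3, map_add]
        rfl
      rw [h2]
      exact (Nat.mod_add_div _ _).symm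
    have h2 : y T * y T' = y (T + T') * (((∏ i, m (b i) ^ q i : (L)ˣ) : L) : Ω) := by
      change (∏ i, w i ^ cc T i) * (∏ i, w i ^ cc T' i) = (∏ i, w i ^ cc (T + T') i) * _
      rw [← hprod, ← Finset.prod_mul_distrib, ← Finset.prod_mul_distrib]
      refine Finset.prod_congr rfl fun i _ => ?_
      rw [← pow_add, ← pow_mul, ← pow_add, h1 i]
    rw [h2, mul_assoc]
    have h3 : (((∏ i, m (b i) ^ q i : (L)ˣ) : L) : Ω) * ((((∏ i, m (b i) ^ q i : (L)ˣ)⁻¹ : (L)ˣ) : L) : Ω) = 1 := by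
      have h4 : ((∏ i, m (b i) ^ q i : (L)ˣ) : L) * (((∏ i, m (b i) ^ q i : (L)ˣ)⁻¹ : (L)ˣ) : L) = 1 :=
        Units.mul_inv _
      have h5 := congrArg (fun x : L => (x : Ω)) h4
      simpa using h5
    rw [h3, mul_one]

end H13X
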