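import Mathlib
import Pool.Agent.Lib.H13X.D

/-! # H13X: port of H13Z/KB2 -/

open NumberField IsDedekindDomain WeierstrassCurve

namespace H13X

open H55P (IQ embF eF LF Per IsHecke Pt ac Inert Dec Nm Coc)
open H35P (WAB Ker tt)
open H55K (Tor ak xc yc CMA Dta GV GMod cj cj_cj mul_cj cj_prime cj_dvd cj_nat Nm_cj Nm_mul Nm_nat)
open H55K.S
open H13S (Abv)




variable {F : Type} [Field F] [NumberField F] [IQ F] {A B : F} {Om : ℂ} {Ω : Type} [Field Ω] [DecidableEq Ω]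
  [Algebra F Ω] [IsAlgClosure F Ω] {j : Ω →+* ℂ} {act : 𝓞 F →+* AddMonoid.End (Pt (WAB A B) Ω)} {mo : Ideal (𝓞 F)}
  {ψ : Ideal (𝓞 F) →*₀ 𝓞 F}

variable {π : 𝓞 F} {l : ℕ} {B₀ L : IntermediateField F Ω} {c : (Ω ≃ₐ[F] Ω) → Pt (WAB A B) Ω}
  {e : Pt (WAB A B) Ω → Pt (WAB A B) Ω → Ω}

omit [IsAlgClosure F Ω] in
theorem kb2_ne (he : Pairing A B act π l e) {X Y T : Pt (WAB A B) Ω} (hX : X ∈ Tor act (cj π)) (hY : Y ∈ Tor act (cj π))
    (hT : T ∈ Tor act π) (h : e Y T ≠ 0) : e X T ≠ 0 := by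
  intro h0
  have h1 := he.add_left (Y - X) (sub_mem hY hX) X hX T hT
  rw [sub_add_cancel, h0, mul_zero] at h1
  exact h h1

omit [IsAlgClosure F Ω] in
theorem kb2_ne1 (C : Cc act π B₀ c) (he : Pairing A B act π l e) {X T : Pt (WAB A B) Ω} (hX : X ∈ Tor act (cj π))
    (hT : T ∈ Tor act π) {y : Ω} (hy : Kum L e c T y) : e X T ≠ 0 := by
  have h1 := hy.2 1 (Subgroup.one_mem _)
  have h2 : e (c 1) T ≠ 0 := by
    intro h3
    rw [h3, zero_mul] at h1
    exact hy.1 h1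
  exact kb2_ne he hX (C.val 1 (Subgroup.one_mem _)) hT h2

omit [IsAlgClosure F Ω] in
theorem kb2_sub (he : Pairing A B act π l e) {X Y T : Pt (WAB A B) Ω} (hX : X ∈ Tor act (cj π))
    (hY : Y ∈ Tor act (cj π)) (hT : T ∈ Tor act π) (h : e Y T ≠ 0) : e (X - Y) T = e X T / e Y T := by
  have h1 := he.add_left (X - Y) (sub_mem hX hY) Y hY T hT
  rw [sub_add_cancel] at h1
  rw [h1, mul_div_assoc, div_self h, mul_one]

omit [IsAlgClosure F Ω] in
theorem kb2_conj (hA : CMA F A B Om j act) (hL : IsTB act π B₀ L) {σ s : Ω ≃ₐ[F] Ω} (hσ : σ ∈ B₀.fixingSubgroup)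
    (hs : s ∈ L.fixingSubgroup) : σ⁻¹ * s * σ ∈ L.fixingSubgroup := by
  rw [hL.fix]
  refine ⟨mul_mem (mul_mem (inv_mem hσ) (hL.mono hs)) hσ, fun T hT => ?_⟩
  rw [ac_mul, ac_mul, ((hL.fix s).1 hs).2 _ (ac_mem hA σ hT), ← ac_mul, inv_mul_cancel, ac_one]

/-- Chunk KB2 (S/M), ports of H13S/KU2.lean to a base field B₀, and the product of Kummer generators. -/
theorem kumB_pow (C : Cc act π B₀ c) (he : Pairing A B act π l e) (hL : IsTB act π B₀ L) {T : Pt (WAB A B) Ω} (hT : T ∈ Tor act π)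
    {y : Ω} (hy : Kum L e c T y) : ∃ m : L, (m : Ω) = y ^ l ∧ m ≠ 0 := by
  have h1 : y ^ l ∈ L := by
    apply ku2_mem
    intro s hs
    rw [map_pow, hy.2 s hs, mul_pow, he.root _ (C.val s (hL.mono hs)) _ hT, one_mul]
  refine ⟨⟨y ^ l, h1⟩, rfl, fun h => ?_⟩
  have h2 : y ^ l = 0 := congrArg (fun z : L => (z : Ω)) h
  exact pow_ne_zero l hy.1 h2

theorem kumB_mul (C : Cc act π B₀ c) (he : Pairing A B act π l e) (hL : IsTB act π B₀ L) {T T' : Pt (WAB A B) Ω} (hT : T ∈ Tor act π)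
    (hT' : T' ∈ Tor act π) {y y' : Ω} (hy : Kum L e c T y) (hy' : Kum L e c T' y') :
    Kum L e c (T + T') (y * y') := by
  refine ⟨mul_ne_zero hy.1 hy'.1, fun s hs => ?_⟩
  rw [map_mul, hy.2 s hs, hy'.2 s hs, he.add_right _ (C.val s (hL.mono hs)) _ hT _ hT']
  ring

theorem kumB_ratio {T : Pt (WAB A B) Ω} {y y' : Ω} (hy : Kum L e c T y) (hy' : Kum L e c T y') :
    ∃ z : L, z ≠ 0 ∧ y = (z : Ω) * y' := by
  have h1 : y / y' ∈ L := by
    apply ku2_mem
    intro s hs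
    have h2 : e (c s) T ≠ 0 := by
      intro h3
      have h4 := hy.2 s hs
      rw [h3, zero_mul] at h4
      exact hy.1 ((map_eq_zero_iff s s.injective).1 h4)
    rw [map_div₀, hy.2 s hs, hy'.2 s hs, mul_div_mul_left _ _ h2]
  refine ⟨⟨y / y', h1⟩, fun h => ?_, ?_⟩
  · have h2 : y / y' = 0 := congrArg (fun z : L => (z : Ω)) h
    exact div_ne_zero hy.1 hy'.1 h2
  · show y = y / y' * y'
    rw [div_mul_cancel₀ _ hy'.1]

/-- σ in the group of B₀ with σ L contained in L and σ⁻¹ L contained in L. -/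
theorem kumB_act (hA : CMA F A B Om j act) (C : Cc act π B₀ c) (he : Pairing A B act π l e) (hL : IsTB act π B₀ L) (σ : Ω ≃ₐ[F] Ω)
    (hσ : σ ∈ B₀.fixingSubgroup) {T : Pt (WAB A B) Ω} (hT : T ∈ Tor act π) {y : Ω} (hy : Kum L e c T y) :
    Kum L e c (ac (WAB A B) σ T) (σ y / e (c σ) (ac (WAB A B) σ T)) := by
  have hT' := ac_mem hA σ hT
  have hne : ∀ X ∈ Tor act (cj π), e X (ac (WAB A B) σ T) ≠ 0 := by
    intro X hX
    have h1 : e (c 1) T ≠ 0 := kb2_ne1 C he (C.val 1 (Subgroup.one_mem _)) hT hy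
    have h2 := he.gal σ _ (C.val 1 (Subgroup.one_mem _)) _ hT
    refine kb2_ne he hX (ac_mem hA σ (C.val 1 (Subgroup.one_mem _))) hT' ?_
    rw [← h2]
    exact (map_ne_zero_iff σ σ.injective).2 h1
  have hg := hne _ (C.val σ hσ)
  have hy0 : σ y ≠ 0 := by
    rw [Ne, map_eq_zero_iff σ σ.injective]
    exact hy.1
  refine ⟨div_ne_zero hy0 hg, fun s hs => ?_⟩
  have hsB := hL.mono hs
  have hs' := kb2_conj hA hL hσ hs
  have e1 : σ * (σ⁻¹ * s * σ) = s * σ := by group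
  have e2 : ac (WAB A B) σ (c (σ⁻¹ * s * σ)) = c s + ac (WAB A B) s (c σ) - c σ := by
    have h1 := C.mul σ hσ (σ⁻¹ * s * σ) (hL.mono hs')
    rw [e1, C.mul s hsB σ hσ] at h1
    rw [h1, add_sub_cancel_left]
  have e3 : s (σ y) = e (c s + ac (WAB A B) s (c σ) - c σ) (ac (WAB A B) σ T) * σ y := by
    have h1 : s (σ y) = σ ((σ⁻¹ * s * σ) y) := by
      show (s * σ) y = (σ * (σ⁻¹ * s * σ)) y
      rw [e1]
    rw [h1, hy.2 _ hs', map_mul, he.gal σ _ (C.val _ (hL.mono hs')) _ hT, e2]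
  have hXs := ac_mem hA s (C.val σ hσ)
  have e4 : s (e (c σ) (ac (WAB A B) σ T)) = e (ac (WAB A B) s (c σ)) (ac (WAB A B) σ T) := by
    rw [he.gal s _ (C.val σ hσ) _ hT', ((hL.fix s).1 hs).2 _ hT']
  have hg2 := hne _ hXs
  rw [map_div₀, e3, e4, kb2_sub he (add_mem (C.val s hsB) hXs) (C.val σ hσ) hT' hg,
    he.add_left _ (C.val s hsB) _ hXs _ hT']
  field_simp

/-- L is stable under the automorphisms over B₀. -/
theorem tb_stable (hA : CMA F A B Om j act) (hL : IsTB act π B₀ L) (σ : Ω ≃ₐ[F] Ω) (hσ : σ ∈ B₀.fixingSubgroup) (x : L) : σ (x : Ω) ∈ L := by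
  apply ku2_mem
  intro s hs
  have hs' := kb2_conj hA hL hσ hs
  have h1 : (σ⁻¹ * s * σ) (x : Ω) = (x : Ω) :=
    (IntermediateField.mem_fixingSubgroup_iff L _).1 hs' x x.2
  have e1 : σ * (σ⁻¹ * s * σ) = s * σ := by group
  show (s * σ) (x : Ω) = σ (x : Ω)
  rw [← e1]
  show σ ((σ⁻¹ * s * σ) (x : Ω)) = σ (x : Ω)
  rw [h1]

/-- Existence of L: L = B₀(coordinates of Tor π). -/
theorem exists_TB (hA : CMA F A B Om j act) (π : 𝓞 F) (hπ : Prime π) (B₀ : IntermediateField F Ω) [FiniteDimensional F B₀] :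
    ∃ L : IntermediateField F Ω, IsTB act π B₀ L := by
  classical
  obtain ⟨hcard, -⟩ := gi_gen hA π hπ
  have hN : Nm π ≠ 0 := fun h => hπ.ne_zero (H55P.Nm_eq_zero.1 h)
  have hfin : Finite (Tor act π) := by
    apply Nat.finite_of_card_ne_zero
    rw [hcard]
    exact hN
  have hint : ∀ x : Ω, IsIntegral F x := fun x =>
    (Algebra.IsAlgebraic.isAlgebraic x).isIntegral
  let A₀ : Set Ω := (xc '' (Tor act π : Set (Pt (WAB A B) Ω))) ∪ (yc '' (Tor act π : Set (Pt (WAB A B) Ω)))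
  have hAf : A₀.Finite := ((Set.toFinite (Tor act π : Set (Pt (WAB A B) Ω))).image _).union
    ((Set.toFinite (Tor act π : Set (Pt (WAB A B) Ω))).image _)
  have hAf' : Finite A₀ := hAf
  have hLf : FiniteDimensional F (IntermediateField.adjoin F A₀) :=
    IntermediateField.finiteDimensional_adjoin fun x _ => hint x
  refine ⟨B₀ ⊔ IntermediateField.adjoin F A₀, inferInstance, le_sup_left, fun s => ?_⟩
  rw [IntermediateField.fixingSubgroup_sup, Subgroup.mem_inf]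
  refine and_congr_right fun _ => ?_
  constructor
  · intro hs T hT
    have hfix : ∀ x ∈ A₀, s x = x := fun x hx =>
      (IntermediateField.mem_fixingSubgroup_iff _ _).1 hs x (IntermediateField.subset_adjoin F A₀ hx)
    by_cases hT0 : T = 0
    · rw [hT0, map_zero]
    · refine pt_ext (ac_ne s hT0) hT0 ?_ ?_
      · rw [xc_ac]
        exact hfix _ (Or.inl ⟨T, hT, rfl⟩)
      · rw [yc_ac]
        exact hfix _ (Or.inr ⟨T, hT, rfl⟩)
  · intro hs
    rw [IntermediateField.mem_fixingSubgroup_iff]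
    intro x hx
    have hA : ∀ x ∈ A₀, s x = x := by
      rintro x (⟨T, hT, rfl⟩ | ⟨T, hT, rfl⟩)
      · have h1 := congrArg xc (hs T hT)
        rw [xc_ac] at h1
        exact h1
      · have h1 := congrArg yc (hs T hT)
        rw [yc_ac] at h1
        exact h1
    induction hx using IntermediateField.adjoin_induction with
    | mem x hx => exact hA x hx
    | algebraMap x => exact s.commutes x
    | add x y _ _ h1 h2 => rw [map_add, h1, h2]
    | inv x _ h1 => rw [map_inv₀, h1]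
    | mul x y _ _ h1 h2 => rw [map_mul, h1, h2]

end H13X
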