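import Mathlib
import Pool.Agent.Lib.H13X.D

/-! # H13X: port of H13Z/CZ2 -/

open NumberField IsDedekindDomain WeierstrassCurve

namespace H13X

open H55P (IQ embF eF LF Per IsHecke Pt ac Inert Dec Nm Coc)
open H35P (WAB Ker tt)
open H55K (Tor ak xc yc CMA Dta GV GMod cj cj_cj mul_cj cj_prime cj_dvd cj_nat Nm_cj Nm_mul Nm_nat)
open H55K.S
open H13S (Abv)




variable {F : Type} [Field F] [NumberField F] [IQ F] {A B : F} {Om : ℂ} {Ω : Type} [Field Ω] [DecidableEq Ω]
  [Algebra F Ω] [IsAlgClosure F Ω] {j : Ω →+* ℂ} {act : 𝓞 F →+* AddMonoid.End (Pt (WAB A B) Ω)} {mo : Ideal (𝓞 F)}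
  {ψ : Ideal (𝓞 F) →*₀ 𝓞 F}

theorem cz2_prime_cj {x : 𝓞 F} (h : Prime x) : Prime (cj x) := (MulEquiv.prime_iff cj).2 h

/-- Chunk CZ2 (M). The pairing is perfect. Let A₀ be the group Hom(Multiplicative (Tor π), Ωˣ) (or into the l-th roots of unity); Tor π is a finite group of exponent l and Ω has enough roots of unity, so card A₀ = card Tor π = Nm π
(CommGroup.card_monoidHom_of_hasEnoughRootsOfUnity or the like; HasEnoughRootsOfUnity for an algebraically closed field of characteristic 0). X -> e X · is an injective (he.nondeg, he.add_left) map from Tor (cj π), which has Nm (cj π) = Nm π elements (gi_gen), to A₀, hence surjective. -/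
theorem pair_surj {π : 𝓞 F} {l : ℕ} (D : Dat A B Om j act mo ψ π l) {e : Pt (WAB A B) Ω → Pt (WAB A B) Ω → Ω} (he : Pairing A B act π l e)
    (κ : Pt (WAB A B) Ω → Ω) (hκ : ∀ T ∈ Tor act π, κ T ^ l = 1)
    (hadd : ∀ T ∈ Tor act π, ∀ T' ∈ Tor act π, κ (T + T') = κ T * κ T') :
    ∃ X ∈ Tor act (cj π), ∀ T ∈ Tor act π, e X T = κ T := by
  classical
  have hchar : CharZero Ω := charZero_of_injective_algebraMap (algebraMap F Ω).injective
  have : IsAlgClosed Ω := IsAlgClosure.isAlgClosed F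
  have hl0 : l ≠ 0 := D.hl.ne_zero
  have hNc : Nm (cj π) = Nm π := Nm_cj π
  have hπc : Prime (cj π) := cj_prime D.pr
  obtain ⟨hc1, -⟩ := gi_gen D.cma π D.pr
  obtain ⟨hc2, -⟩ := gi_gen D.cma (cj π) hπc
  have hN0 : Nm π ≠ 0 := fun h => D.pr.ne_zero (H55P.Nm_eq_zero.1 h)
  have hf1 : Finite (Tor act π) := Nat.finite_of_card_ne_zero (by rw [hc1]; exact hN0)
  have hf2 : Finite (Tor act (cj π)) := Nat.finite_of_card_ne_zero (by rw [hc2, hNc]; exact hN0)
  -- the characters
  let G := Multiplicative (Tor act π)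
  have : Finite G := hf1
  have hex : NeZero (Monoid.exponent G) := ⟨Monoid.exponent_ne_zero_of_finite⟩
  have : NeZero ((Monoid.exponent G : ℕ) : Ω) := ⟨Nat.cast_ne_zero.2 hex.out⟩
  have hcard : Nat.card (G →* Ωˣ) = Nm π := by
    rw [CommGroup.card_monoidHom_of_hasEnoughRootsOfUnity]
    exact hc1
  have : Finite (G →* Ωˣ) := Nat.finite_of_card_ne_zero (by rw [hcard]; exact hN0)
  -- the character of a function
  have hunit : ∀ f : Pt (WAB A B) Ω → Ω, (∀ T ∈ Tor act π, f T ^ l = 1) →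
      (∀ T ∈ Tor act π, ∀ T' ∈ Tor act π, f (T + T') = f T * f T') →
      ∃ χ : G →* Ωˣ, ∀ T : Tor act π, (χ (Multiplicative.ofAdd T) : Ω) = f T := by
    intro f hf hm
    have hne : ∀ T : Tor act π, f T ≠ 0 := by
      intro T h
      have h1 := hf T T.2
      rw [h, zero_pow hl0] at h1
      exact zero_ne_one h1
    refine ⟨MonoidHom.mk' (fun T => Units.mk0 (f (Multiplicative.toAdd T : Tor act π)) (hne _)) ?_, ?_⟩
    · intro a b
      apply Units.ext
      rw [Units.val_mul, Units.val_mk0, Units.val_mk0, Units.val_mk0]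
      exact hm _ (Multiplicative.toAdd a : Tor act π).2 _ (Multiplicative.toAdd b : Tor act π).2
    · intro T
      rfl
  choose ψ hψ using fun X : Tor act (cj π) => hunit (e X) (fun T hT => he.root X X.2 T hT)
    (fun T hT T' hT' => he.add_right X X.2 T hT T' hT')
  have hinj : Function.Injective ψ := by
    intro X Y hXY
    have h1 : ∀ T ∈ Tor act π, e X T = e Y T := by
      intro T hT
      rw [← hψ X ⟨T, hT⟩, ← hψ Y ⟨T, hT⟩, hXY]
    have h2 : (X - Y : Pt (WAB A B) Ω) = 0 := by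
      refine he.nondeg _ (AddSubgroup.sub_mem _ X.2 Y.2) fun T hT => ?_
      have h3 := he.add_left (X - Y) (AddSubgroup.sub_mem _ X.2 Y.2) Y Y.2 T hT
      rw [sub_add_cancel, h1 T hT] at h3
      have h4 : e (Y : Pt (WAB A B) Ω) T ≠ 0 := by
        intro h
        have h5 := he.root Y Y.2 T hT
        rw [h, zero_pow hl0] at h5
        exact zero_ne_one h5
      exact (mul_eq_right₀ h4).1 h3.symm
    exact Subtype.ext (sub_eq_zero.1 h2)
  have hbij : Function.Bijective ψ :=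
    (Nat.bijective_iff_injective_and_card ψ).2 ⟨hinj, by rw [hcard, hc2, hNc]⟩
  obtain ⟨χ, hχ⟩ := hunit κ hκ hadd
  obtain ⟨X, hX⟩ := hbij.2 χ
  refine ⟨X, X.2, fun T hT => ?_⟩
  rw [← hψ X ⟨T, hT⟩, ← hχ ⟨T, hT⟩, hX]

end H13X
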