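import Mathlib
import Pool.Agent.Lib.H13X.XZ2
import Pool.Agent.Lib.H13X.XKB2

/-! # H13X: port of H13Y/YZ1 -/

open NumberField IsDedekindDomain WeierstrassCurve

namespace H13X

open H55P (IQ embF eF LF Per IsHecke Pt ac Inert Dec Nm Coc)
open H35P (WAB Ker tt)
open H55K (Tor ak xc yc CMA Dta GV GMod cj cj_cj mul_cj cj_prime cj_dvd cj_nat Nm_cj Nm_mul Nm_nat)
open H55K.S
open H13S (Abv)





variable {F : Type} [Field F] [NumberField F] [IQ F] {A B : F} {Om : ℂ} {Ω : Type} [Field Ω] [DecidableEq Ω]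
  [Algebra F Ω] [IsAlgClosure F Ω] {j : Ω →+* ℂ} {act : 𝓞 F →+* AddMonoid.End (Pt (WAB A B) Ω)} {mo : Ideal (𝓞 F)}
  {ψ : Ideal (𝓞 F) →*₀ 𝓞 F}

theorem cz3_ne {π : 𝓞 F} {l : ℕ} (hl : l ≠ 0) {e : Pt (WAB A B) Ω → Pt (WAB A B) Ω → Ω} (he : Pairing A B act π l e) {X T : Pt (WAB A B) Ω}
    (hX : X ∈ Tor act (cj π)) (hT : T ∈ Tor act π) : e X T ≠ 0 := by
  intro h
  have h1 := he.root X hX T hT
  rw [h, zero_pow hl] at h1
  exact zero_ne_one h1

theorem cz3_uniq {π : 𝓞 F} {l : ℕ} (hl : l ≠ 0) {e : Pt (WAB A B) Ω → Pt (WAB A B) Ω → Ω} (he : Pairing A B act π l e) {X Y : Pt (WAB A B) Ω}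
    (hX : X ∈ Tor act (cj π)) (hY : Y ∈ Tor act (cj π)) (h : ∀ T ∈ Tor act π, e X T = e Y T) : X = Y := by
  have h1 : X - Y = 0 := by
    refine he.nondeg _ (sub_mem hX hY) fun T hT => ?_
    have h2 := he.add_left (X - Y) (sub_mem hX hY) Y hY T hT
    rw [sub_add_cancel, h T hT] at h2
    exact (mul_eq_right₀ (cz3_ne hl he hY hT)).1 h2.symm
  exact sub_eq_zero.1 h1

/-- Either all l-th roots of unity are in L or only the trivial one. -/
theorem cz3_dich {l : ℕ} (hl : l.Prime) (L : IntermediateField F Ω) :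
    (∀ x : Ω, x ^ l = 1 → x ∈ L) ∨ ∀ x : Ω, x ^ l = 1 → x ∈ L → x = 1 := by
  by_cases h : ∃ x : Ω, x ^ l = 1 ∧ x ∈ L ∧ x ≠ 1
  · left
    have hlf : Fact l.Prime := ⟨hl⟩
    have hln : NeZero l := ⟨hl.ne_zero⟩
    obtain ⟨x, hx, hxL, hx1⟩ := h
    intro t ht
    have hp : IsPrimitiveRoot x l := by
      have h1 : orderOf x = l := orderOf_eq_prime hx hx1
      rw [← h1]
      exact IsPrimitiveRoot.orderOf x
    obtain ⟨i, -, hi⟩ := hp.eq_pow_of_pow_eq_one ht
    rw [← hi]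
    exact pow_mem hxL i
  · right
    intro x hx hxL
    by_contra h1
    exact h ⟨x, hx, hxL, h1⟩

/-- Chunk YZ1 (S/M), PORT of H13Z/CZ3.lean c0_exists to the base field N: IsTF act π L becomes IsTB act π N L, automorphisms σ, g are taken in N.fixingSubgroup (L is stable under them: tb_stable; every use of hL.2 becomes hL.fix with the membership in N.fixingSubgroup: elements of L.fixingSubgroup are in it by hL.mono). -/
theorem c0_exists {π : 𝓞 F} {l : ℕ} (D : Dat A B Om j act mo ψ π l) {e : Pt (WAB A B) Ω → Pt (WAB A B) Ω → Ω} (he : Pairing A B act π l e)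
    {N L : IntermediateField F Ω} (hL : IsTB act π N L) (m : Pt (WAB A B) Ω → (L)ˣ)
    (hact : ∀ σ ∈ N.fixingSubgroup, ∀ T ∈ Tor act π, ∃ z : (L)ˣ,
      ((m (ac (WAB A B) σ T) : L) : Ω) = σ ((m T : L) : Ω) * ((z : L) : Ω) ^ l)
    (y : Pt (WAB A B) Ω → Ω) (hy : ∀ T ∈ Tor act π, y T ≠ 0 ∧ ∃ z : (L)ˣ, y T ^ l = ((m T * z ^ l : (L)ˣ) : L))
    (hy2 : ∀ T ∈ Tor act π, ∀ T' ∈ Tor act π, ∃ z : (L)ˣ, y (T + T') = y T * y T' * ((z : L) : Ω)) :
    ∃ c₀ : (Ω ≃ₐ[F] Ω) → Pt (WAB A B) Ω,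
      (∀ s ∈ L.fixingSubgroup, c₀ s ∈ Tor act (cj π) ∧ ∀ T ∈ Tor act π, s (y T) = e (c₀ s) T * y T) ∧
      (∀ s ∈ L.fixingSubgroup, ∀ t ∈ L.fixingSubgroup, c₀ (s * t) = c₀ s + ac (WAB A B) s (c₀ t)) ∧
      (∃ M : IntermediateField F Ω, FiniteDimensional F M ∧
        ∀ s ∈ L.fixingSubgroup, s ∈ M.fixingSubgroup → c₀ s = 0) ∧
      ∀ g ∈ N.fixingSubgroup, ∃ X ∈ Tor act (cj π), ∀ s ∈ L.fixingSubgroup,
        ac (WAB A B) g (c₀ (g⁻¹ * s * g)) = c₀ s + ac (WAB A B) s X - X := by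
  classical
  have hl0 : l ≠ 0 := D.hl.ne_zero
  have hfixL : ∀ s ∈ L.fixingSubgroup, ∀ x : Ω, x ∈ L → s x = x := fun s hs x hx =>
    (IntermediateField.mem_fixingSubgroup_iff L _).1 hs x hx
  have hTfix : ∀ s ∈ L.fixingSubgroup, ∀ R ∈ Tor act π, ac (WAB A B) s R = R := fun s hs => ((hL.fix s).1 hs).2
  have hun : ∀ z : (L)ˣ, ((z : L) : Ω) ≠ 0 := fun z h => z.ne_zero (by exact_mod_cast h)
  -- existence
  have hex : ∀ s ∈ L.fixingSubgroup, ∃ X ∈ Tor act (cj π), ∀ T ∈ Tor act π, s (y T) = e X T * y T := by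
    intro s hs
    obtain ⟨X, hX, h⟩ := pair_surj D he (fun T => s (y T) / y T) (by
      intro T hT
      obtain ⟨h0, z, hz⟩ := hy T hT
      rw [div_pow, ← map_pow, hz, hfixL s hs _ (SetLike.coe_mem _), ← hz]
      exact div_self (pow_ne_zero _ h0)) (by
      intro T hT T' hT'
      obtain ⟨z, hz⟩ := hy2 T hT T' hT'
      have h0 := (hy T hT).1
      have h0' := (hy T' hT').1
      have hz0 := hun z
      rw [hz, map_mul, map_mul, hfixL s hs _ (SetLike.coe_mem (z : L))]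
      field_simp)
    refine ⟨X, hX, fun T hT => ?_⟩
    rw [h T hT, div_mul_cancel₀ _ (hy T hT).1]
  let c₀ : (Ω ≃ₐ[F] Ω) → Pt (WAB A B) Ω := fun s => if h : s ∈ L.fixingSubgroup then (hex s h).choose else 0
  have hc : ∀ s ∈ L.fixingSubgroup, c₀ s ∈ Tor act (cj π) ∧ ∀ T ∈ Tor act π, s (y T) = e (c₀ s) T * y T := by
    intro s hs
    have h1 : c₀ s = (hex s hs).choose := dif_pos hs
    rw [h1]
    exact (hex s hs).choose_spec
  refine ⟨c₀, hc, fun s hs t ht => ?_, ?_, fun g hg => ?_⟩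
  · -- cocycle
    have hst : s * t ∈ L.fixingSubgroup := Subgroup.mul_mem _ hs ht
    have h1 : ac (WAB A B) s (c₀ t) ∈ Tor act (cj π) := ac_mem D.cma s (hc t ht).1
    refine cz3_uniq hl0 he (hc _ hst).1 (add_mem (hc s hs).1 h1) fun T hT => ?_
    have h2 := (hc _ hst).2 T hT
    have h3 : (s * t) (y T) = s (t (y T)) := rfl
    rw [h3, (hc t ht).2 T hT, map_mul, he.gal s _ (hc t ht).1 T hT, hTfix s hs T hT, (hc s hs).2 T hT] at h2
    rw [he.add_left _ (hc s hs).1 _ h1 T hT]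
    have h4 : e (c₀ (s * t)) T * y T = (e (c₀ s) T * e (ac (WAB A B) s (c₀ t)) T) * y T := by
      rw [← h2]
      ring
    exact mul_right_cancel₀ (hy T hT).1 h4
  · -- continuity
    have hfin : Finite (Tor act π) :=
      Nat.finite_of_card_ne_zero (by rw [(gi_gen D.cma π D.pr).1]; exact fun h => D.pr.ne_zero (H55P.Nm_eq_zero.1 h))
    have hfs : (y '' (Tor act π : Set (Pt (WAB A B) Ω))).Finite := (Set.toFinite _).image y
    have hfs' := hfs.to_subtype
    refine ⟨IntermediateField.adjoin F (y '' (Tor act π : Set (Pt (WAB A B) Ω))), ?_, fun s hs hsN => ?_⟩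
    · apply IntermediateField.finiteDimensional_adjoin
      intro x _
      exact (Algebra.IsAlgebraic.isAlgebraic (R := F) x).isIntegral
    · refine he.nondeg _ (hc s hs).1 fun T hT => ?_
      have h1 : s (y T) = y T := (IntermediateField.mem_fixingSubgroup_iff _ _).1 hsN (y T)
        (IntermediateField.subset_adjoin _ _ ⟨T, hT, rfl⟩)
      have h2 := (hc s hs).2 T hT
      rw [h1] at h2
      exact (mul_eq_right₀ (hy T hT).1).1 h2.symm
  · -- conjugation
    have hst : ∀ x : Ω, x ∈ L → g x ∈ L := fun x hx => tb_stable D.cma hL g hg ⟨x, hx⟩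
    have hgT : ∀ T ∈ Tor act π, ac (WAB A B) g T ∈ Tor act π := fun T hT => ac_mem D.cma g hT
    have hgi : ∀ T ∈ Tor act π, ac (WAB A B) g⁻¹ T ∈ Tor act π := fun T hT => ac_mem D.cma g⁻¹ hT
    have hgg : ∀ T : Pt (WAB A B) Ω, ac (WAB A B) g (ac (WAB A B) g⁻¹ T) = T := fun T => ac_inv g T
    have hgg' : ∀ T : Pt (WAB A B) Ω, ac (WAB A B) g⁻¹ (ac (WAB A B) g T) = T := fun T => by
      rw [← ac_mul, inv_mul_cancel, ac_one]
    have hη : ∀ T ∈ Tor act π, ∃ η z : Ω, η ^ l = 1 ∧ z ∈ L ∧ z ≠ 0 ∧ g (y T) = η * y (ac (WAB A B) g T) * z := by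
      intro T hT
      obtain ⟨h0, z, hz⟩ := hy T hT
      obtain ⟨h0', z', hz'⟩ := hy _ (hgT T hT)
      obtain ⟨z'', hz''⟩ := hact g hg T hT
      have e1 : ((((m T * z ^ l : (L)ˣ) : L)) : Ω) = ((m T : L) : Ω) * ((z : L) : Ω) ^ l := by
        push_cast
        ring
      have e2 : ((((m (ac (WAB A B) g T) * z' ^ l : (L)ˣ) : L)) : Ω) =
          ((m (ac (WAB A B) g T) : L) : Ω) * ((z' : L) : Ω) ^ l := by
        push_cast
        ring
      rw [e1] at hz
      rw [e2, hz''] at hz'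
      have hgz : g ((z : L) : Ω) ≠ 0 := by
        rw [Ne, map_eq_zero]
        exact hun z
      have hm0 : g ((m T : L) : Ω) ≠ 0 := by
        rw [Ne, map_eq_zero]
        exact hun _
      have h1 : g (y T) ^ l = g ((m T : L) : Ω) * g ((z : L) : Ω) ^ l := by
        rw [← map_pow, hz, map_mul, map_pow]
      have hw := hun z'
      have hw'' := hun z''
      have hgy : g (y T) ≠ 0 := by
        rw [Ne, map_eq_zero]
        exact h0
      have hzz : g ((z : L) : Ω) / (((z'' : L) : Ω) * ((z' : L) : Ω)) ≠ 0 :=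
        div_ne_zero hgz (mul_ne_zero hw'' hw)
      refine ⟨g (y T) / (y (ac (WAB A B) g T) * (g ((z : L) : Ω) / (((z'' : L) : Ω) * ((z' : L) : Ω)))),
        g ((z : L) : Ω) / (((z'' : L) : Ω) * ((z' : L) : Ω)), ?_,
        div_mem (hst _ (SetLike.coe_mem _)) (mul_mem (SetLike.coe_mem _) (SetLike.coe_mem _)), hzz, ?_⟩
      · rw [div_pow, mul_pow, div_pow, mul_pow, h1, hz']
        have p1 := pow_ne_zero l hgz
        have p2 := pow_ne_zero l hw
        have p3 := pow_ne_zero l hw''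
        field_simp
      · field_simp
    have hconj : ∀ s ∈ L.fixingSubgroup, ∀ T ∈ Tor act π,
        e (ac (WAB A B) g (c₀ (g⁻¹ * s * g))) (ac (WAB A B) g T) * g (y T) = s (g (y T)) := by
      intro s hs T hT
      have hs' := kb2_conj D.cma hL hg hs
      have h1 := (hc _ hs').2 T hT
      have h2 : g ((g⁻¹ * s * g) (y T)) = s (g (y T)) := by
        have e1 : g * (g⁻¹ * s * g) = s * g := by group
        exact congrArg (fun t : Ω ≃ₐ[F] Ω => t (y T)) e1
      rw [← h2, h1, map_mul, he.gal g _ (hc _ hs').1 T hT]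
    rcases cz3_dich (Ω := Ω) D.hl L with hA | hB
    · refine ⟨0, zero_mem _, fun s hs => ?_⟩
      have hs' := kb2_conj D.cma hL hg hs
      rw [map_zero, add_zero, sub_zero]
      refine cz3_uniq hl0 he (ac_mem D.cma g (hc _ hs').1) (hc s hs).1 fun R hR => ?_
      have h1 := hconj s hs _ (hgi R hR)
      obtain ⟨η, z, hη1, hzL, hz0, h2⟩ := hη _ (hgi R hR)
      rw [hgg] at h1 h2
      have hgy : g (y (ac (WAB A B) g⁻¹ R)) ≠ 0 := by
        rw [Ne, map_eq_zero]
        exact (hy _ (hgi R hR)).1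
      have h3 : s (g (y (ac (WAB A B) g⁻¹ R))) = e (c₀ s) R * g (y (ac (WAB A B) g⁻¹ R)) := by
        rw [h2, map_mul, map_mul, hfixL s hs η (hA η hη1), hfixL s hs z hzL, (hc s hs).2 R hR]
        ring
      rw [h3] at h1
      exact mul_right_cancel₀ hgy h1
    · choose! η z hη1 hzL hz0 hη2 using hη
      have hη0 : ∀ T ∈ Tor act π, η T ≠ 0 := fun T hT h => by
        have := hη1 T hT
        rw [h, zero_pow hl0] at this
        exact zero_ne_one this
      have hadd : ∀ T ∈ Tor act π, ∀ T' ∈ Tor act π, η (T + T') = η T * η T' := by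
        intro T hT T' hT'
        obtain ⟨u, hu⟩ := hy2 T hT T' hT'
        obtain ⟨v, hv⟩ := hy2 _ (hgT T hT) _ (hgT T' hT')
        have h1 := hη2 _ (add_mem hT hT')
        rw [hu, map_mul, map_mul, hη2 T hT, hη2 T' hT', map_add, hv] at h1
        have a1 := (hy _ (hgT T hT)).1
        have a2 := (hy _ (hgT T' hT')).1
        have a3 := hη0 T hT
        have a4 := hη0 T' hT'
        have a5 := hz0 _ (add_mem hT hT')
        have a6 := hun v
        have h2 : η (T + T') * (((v : L) : Ω) * z (T + T')) = η T * η T' * (z T * z T' * g ((u : L) : Ω)) := by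
          have h3 : (y (ac (WAB A B) g T) * y (ac (WAB A B) g T')) * (η (T + T') * (((v : L) : Ω) * z (T + T'))) =
              (y (ac (WAB A B) g T) * y (ac (WAB A B) g T')) * (η T * η T' * (z T * z T' * g ((u : L) : Ω))) := by
            linear_combination -h1
          exact mul_left_cancel₀ (mul_ne_zero a1 a2) h3
        have h4 : η (T + T') / (η T * η T') = 1 := by
          apply hB
          · rw [div_pow, mul_pow, hη1 _ (add_mem hT hT'), hη1 T hT, hη1 T' hT', mul_one, div_one]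
          · have h5 : η (T + T') / (η T * η T') =
                (z T * z T' * g ((u : L) : Ω)) / (((v : L) : Ω) * z (T + T')) := by
              rw [div_eq_div_iff (mul_ne_zero a3 a4) (mul_ne_zero a6 a5), h2]
              ring
            rw [h5]
            exact div_mem (mul_mem (mul_mem (hzL T hT) (hzL T' hT')) (hst _ (SetLike.coe_mem _)))
              (mul_mem (SetLike.coe_mem _) (hzL _ (add_mem hT hT')))
        rw [div_eq_one_iff_eq (mul_ne_zero a3 a4)] at h4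
        exact h4
      obtain ⟨X, hX, hXe⟩ := pair_surj D he (fun R => η (ac (WAB A B) g⁻¹ R)) (fun R hR => hη1 _ (hgi R hR))
        (fun R hR R' hR' => by rw [map_add]; exact hadd _ (hgi R hR) _ (hgi R' hR'))
      refine ⟨X, hX, fun s hs => ?_⟩
      have hs' := kb2_conj D.cma hL hg hs
      rw [eq_sub_iff_add_eq]
      refine cz3_uniq hl0 he (add_mem (ac_mem D.cma g (hc _ hs').1) hX)
        (add_mem (hc s hs).1 (ac_mem D.cma s hX)) fun R hR => ?_
      rw [he.add_left _ (ac_mem D.cma g (hc _ hs').1) _ hX R hR, he.add_left _ (hc s hs).1 _ (ac_mem D.cma s hX) R hR]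
      have h1 := hconj s hs _ (hgi R hR)
      have h2 := hη2 _ (hgi R hR)
      rw [hgg] at h1 h2
      have h3 : s (η (ac (WAB A B) g⁻¹ R)) = e (ac (WAB A B) s X) R := by
        have h4 := he.gal s X hX R hR
        rw [hXe R hR, hTfix s hs R hR] at h4
        exact h4
      rw [h2, map_mul, map_mul, h3, hfixL s hs _ (hzL _ (hgi R hR)), (hc s hs).2 R hR] at h1
      rw [hXe R hR]
      have b1 := (hy R hR).1
      have b2 := hz0 _ (hgi R hR)
      have h5 : (y R * z (ac (WAB A B) g⁻¹ R)) * (e (ac (WAB A B) g (c₀ (g⁻¹ * s * g))) R * η (ac (WAB A B) g⁻¹ R)) =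
          (y R * z (ac (WAB A B) g⁻¹ R)) * (e (c₀ s) R * e (ac (WAB A B) s X) R) := by
        linear_combination h1
      exact mul_left_cancel₀ (mul_ne_zero b1 b2) h5

end H13X
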