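import Mathlib
import Pool.Agent.Lib.H13X.XZ1
import Pool.Agent.Lib.H13X.XZ3
import Pool.Agent.Lib.H13Z.CZ4
import Pool.Agent.Lib.H55K.SCO

/-! # H13X: port of H13Y/YZ2 -/

open NumberField IsDedekindDomain WeierstrassCurve

namespace H13X

open H55P (IQ embF eF LF Per IsHecke Pt ac Inert Dec Nm Coc)
open H35P (WAB Ker tt)
open H55K (Tor ak xc yc CMA Dta GV GMod cj cj_cj mul_cj cj_prime cj_dvd cj_nat Nm_cj Nm_mul Nm_nat)
open H55K.S
open H13S (Abv)





variable {F : Type} [Field F] [NumberField F] [IQ F] {A B : F} {Om : ℂ} {Ω : Type} [Field Ω] [DecidableEq Ω]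
  [Algebra F Ω] [IsAlgClosure F Ω] {j : Ω →+* ℂ} {act : 𝓞 F →+* AddMonoid.End (Pt (WAB A B) Ω)} {mo : Ideal (𝓞 F)}
  {ψ : Ideal (𝓞 F) →*₀ 𝓞 F}

/-- Chunk YZ2 (M), PORT of H13Z/CZ5.lean cocycle_of_m to the base field N. H13Z.ext_cocycle (CZ4) for the group G = N.fixingSubgroup and its subgroup N₁ = (pointwise stabilizer of Tor π, stab_index).subgroupOf G: normal, index = relIndex dividing Nm π - 1 (Subgroup.relIndex_dvd_index_of_normal), prime to l, not 0; s in N₁ iff s in L.fixingSubgroup (hL.fix).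
c s = 0 for s not in G. Continuity: M' = the normal closure of L ⊔ M ⊔ adjoin (coordinates of Tor (cj π)), U = M'.fixingSubgroup.subgroupOf G (contained in N₁ because N ≤ L ≤ M'). Kummer generators as in CZ5. -/
theorem cocycle_of_m {π : 𝓞 F} {l : ℕ} (D : Dat A B Om j act mo ψ π l) {e : Pt (WAB A B) Ω → Pt (WAB A B) Ω → Ω} (he : Pairing A B act π l e)
    {N L : IntermediateField F Ω} (hL : IsTB act π N L) (m : Pt (WAB A B) Ω → (L)ˣ)
    (hadd : ∀ T ∈ Tor act π, ∀ T' ∈ Tor act π, ∃ z : (L)ˣ, m (T + T') = m T * m T' * z ^ l)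
    (hact : ∀ σ ∈ N.fixingSubgroup, ∀ T ∈ Tor act π, ∃ z : (L)ˣ,
      ((m (ac (WAB A B) σ T) : L) : Ω) = σ ((m T : L) : Ω) * ((z : L) : Ω) ^ l) :
    ∃ c : (Ω ≃ₐ[F] Ω) → Pt (WAB A B) Ω, Cc act π N c ∧ ∀ T ∈ Tor act π, ∃ y : Ω, Kum L e c T y ∧
      ∃ z : (L)ˣ, y ^ l = ((m T * z ^ l : (L)ˣ) : L) := by
  classical
  obtain ⟨y, hy, hy2⟩ := y_system D L m hadd
  obtain ⟨c₀, h1, h2, ⟨N₀, hN₀, h3⟩, h4⟩ := c0_exists D he hL m hact y hy hy2
  obtain ⟨N₁, hN₁, hn₁, hd₁, h0₁⟩ := stab_index D.cma π D.pr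
  have hlN : l ∣ Nm π := CO2_Nm D.hl D.pr D.dvd
  have hN0 : Nm π ≠ 0 := fun h => D.pr.ne_zero (H55P.Nm_eq_zero.1 h)
  have hlB : ∀ P ∈ Tor act (cj π), l • P = 0 := by
    intro P hP
    obtain ⟨u, hu⟩ := D.dvd
    have h5 : (l : 𝓞 F) = cj u * cj π := by
      have h6 := congrArg cj hu
      rw [map_natCast, map_mul] at h6
      rw [h6, mul_comm]
    have h7 : act (cj π) P = 0 := hP
    rw [← act_nat (act := act), h5, act_mul, h7, map_zero]
  -- the group and its subgroup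
  have hd₂ : (N₁.subgroupOf N.fixingSubgroup).index ∣ N₁.index :=
    Subgroup.relIndex_dvd_index_of_normal N₁ N.fixingSubgroup
  have hd₃ : (N₁.subgroupOf N.fixingSubgroup).index ∣ Nm π - 1 := hd₂.trans hd₁
  have h0₂ : (N₁.subgroupOf N.fixingSubgroup).index ≠ 0 := fun h => h0₁ (by
    rw [h] at hd₂
    exact Nat.eq_zero_of_zero_dvd hd₂)
  have hcop : l.Coprime (N₁.subgroupOf N.fixingSubgroup).index := CO2_cop D.hl hlN hN0 hd₃
  have hNL : ∀ s : N.fixingSubgroup, s ∈ N₁.subgroupOf N.fixingSubgroup ↔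
      (s : Ω ≃ₐ[F] Ω) ∈ L.fixingSubgroup := fun s => by
    rw [Subgroup.mem_subgroupOf, hN₁, hL.fix]
    exact ⟨fun h => ⟨s.2, h⟩, fun h => h.2⟩
  obtain ⟨c', hcB, hcm, ⟨X, hX, hcX⟩, hcU⟩ := H13Z.ext_cocycle (G := N.fixingSubgroup)
    (fun s => ac (WAB A B) (s : Ω ≃ₐ[F] Ω))
    (fun P => ac_one P) (fun s t P => ac_mul (s : Ω ≃ₐ[F] Ω) t P) (Tor act (cj π)) (fun g P hP => ac_mem D.cma g hP)
    l hlB (N₁.subgroupOf N.fixingSubgroup) h0₂ hcop (fun s => c₀ (s : Ω ≃ₐ[F] Ω))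
    (fun s hs => (h1 s ((hNL s).1 hs)).1)
    (fun s hs t ht => h2 s ((hNL s).1 hs) t ((hNL t).1 ht))
    (fun g => by
      obtain ⟨X, hX, h5⟩ := h4 g g.2
      exact ⟨X, hX, fun s hs => h5 s ((hNL s).1 hs)⟩)
  obtain ⟨c, hc⟩ : ∃ c : (Ω ≃ₐ[F] Ω) → Pt (WAB A B) Ω, ∀ s (hs : s ∈ N.fixingSubgroup), c s = c' ⟨s, hs⟩ :=
    ⟨fun s => if h : s ∈ N.fixingSubgroup then c' ⟨s, h⟩ else 0, fun s hs => dif_pos hs⟩
  -- the field of the coordinates of the points killed by the conjugate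
  obtain ⟨-, T₀, hT₀, hgen, -⟩ := gi_gen D.cma (cj π) (cj_prime D.pr)
  have hint : ∀ x : Ω, IsIntegral F x := fun x => (Algebra.IsAlgebraic.isAlgebraic x).isIntegral
  let A₀ : Set Ω := {xc T₀, yc T₀}
  have hAf : A₀.Finite := Set.toFinite A₀
  have hAf' : Finite A₀ := hAf
  have hLf : FiniteDimensional F (IntermediateField.adjoin F A₀) :=
    IntermediateField.finiteDimensional_adjoin fun x _ => hint x
  have hfix : ∀ t ∈ (IntermediateField.adjoin F A₀).fixingSubgroup, ∀ P ∈ Tor act (cj π),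
      ac (WAB A B) t P = P := by
    intro t ht
    have hfx : ∀ x ∈ A₀, t x = x := fun x hx =>
      ht ⟨x, IntermediateField.subset_adjoin F A₀ hx⟩
    have e1 : ac (WAB A B) t T₀ = T₀ := by
      by_cases hT0 : T₀ = 0
      · rw [hT0, map_zero]
      · refine pt_ext (ac_ne t hT0) hT0 ?_ ?_
        · rw [xc_ac]
          exact hfx _ (by simp [A₀])
        · rw [yc_ac]
          exact hfx _ (by simp [A₀])
    intro P hP
    obtain ⟨a, rfl⟩ := hgen P hP
    rw [ac_act D.cma, e1]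
  have hLfin : FiniteDimensional F L := hL.fin
  let M : IntermediateField F Ω := L ⊔ N₀ ⊔ IntermediateField.adjoin F A₀
  have hMf : FiniteDimensional F M := inferInstance
  let M' : IntermediateField F Ω := IntermediateField.normalClosure F M Ω
  have hNn : Normal F M' := normalClosure.normal F M Ω
  have hNf : FiniteDimensional F M' := normalClosure.is_finiteDimensional F M Ω
  have hMN : M ≤ M' := IntermediateField.le_normalClosure M
  have hLN : L ≤ M' := (le_sup_left.trans le_sup_left).trans hMN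
  have hN₀N : N₀ ≤ M' := (le_sup_right.trans le_sup_left).trans hMN
  have hAN : IntermediateField.adjoin F A₀ ≤ M' := le_sup_right.trans hMN
  have hUn' : M'.fixingSubgroup.Normal := inferInstance
  have hUn : (M'.fixingSubgroup.subgroupOf N.fixingSubgroup).Normal := hUn'.subgroupOf _
  have hmono : ∀ {E : IntermediateField F Ω}, E ≤ M' → ∀ s ∈ M'.fixingSubgroup, s ∈ E.fixingSubgroup :=
    fun h s hs => IntermediateField.fixingSubgroup_antitone h hs
  refine ⟨c, ⟨fun s hs t ht => ?_, ⟨M', hNf, fun s hs hs' => ?_⟩, fun s hs => ?_⟩, fun T hT => ?_⟩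
  · rw [hc _ (mul_mem hs ht), hc s hs, hc t ht]
    exact hcm ⟨s, hs⟩ ⟨t, ht⟩
  · rw [hc s hs]
    refine hcU (M'.fixingSubgroup.subgroupOf N.fixingSubgroup) hUn
      (fun t ht => (hNL t).2 (hmono hLN t (Subgroup.mem_subgroupOf.1 ht)))
      (fun t ht => h3 t (hmono hLN t (Subgroup.mem_subgroupOf.1 ht))
        (hmono hN₀N t (Subgroup.mem_subgroupOf.1 ht)))
      (fun t ht P hP => hfix t (hmono hAN t (Subgroup.mem_subgroupOf.1 ht)) P hP) ⟨s, hs⟩
      (Subgroup.mem_subgroupOf.2 hs')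
  · rw [hc s hs]
    exact hcB ⟨s, hs⟩
  · obtain ⟨hy0, z, hz⟩ := hy T hT
    have hr := he.root X hX T hT
    have he0 : e X T ≠ 0 := by
      intro h
      rw [h, zero_pow D.hl.ne_zero] at hr
      exact zero_ne_one hr
    refine ⟨e X T * y T, ⟨mul_ne_zero he0 hy0, fun s hs => ?_⟩, z, ?_⟩
    · have hsN : s ∈ N.fixingSubgroup := hL.mono hs
      have hs1 : (⟨s, hsN⟩ : N.fixingSubgroup) ∈ N₁.subgroupOf N.fixingSubgroup := (hNL ⟨s, hsN⟩).2 hs
      have hsT : ac (WAB A B) s T = T := ((hL.fix s).1 hs).2 T hT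
      obtain ⟨hc0B, hc0⟩ := h1 s hs
      have h6 : c s + X = c₀ s + ac (WAB A B) s X := by
        rw [hc s hsN, hcX _ hs1]
        abel
      have hcs : c s ∈ Tor act (cj π) := by
        rw [hc s hsN]
        exact hcB _
      have h7 := he.add_left (c s) hcs X hX T hT
      have h8 := he.add_left (c₀ s) hc0B (ac (WAB A B) s X) (ac_mem D.cma s hX) T hT
      rw [h6, h8] at h7
      rw [map_mul, he.gal s X hX T hT, hsT, hc0 T hT]
      linear_combination y T * h7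
    · rw [mul_pow, hr, one_mul, hz]

end H13X
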