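import Mathlib
import Pool.Agent.Lib.H13X.XR
import Pool.Agent.Lib.H13X.XZ5
import Pool.Agent.Lib.H55P.S13

/-! # H13X: port of H13Y/G1 -/

open NumberField IsDedekindDomain WeierstrassCurve

namespace H13X

open H55P (IQ embF eF LF Per IsHecke Pt ac Inert Dec Nm Coc)
open H35P (WAB Ker tt)
open H55K (Tor ak xc yc CMA Dta GV GMod cj cj_cj mul_cj cj_prime cj_dvd cj_nat Nm_cj Nm_mul Nm_nat)
open H55K.S
open H13S (Abv)





variable {F : Type} [Field F] [NumberField F] [IQ F] {A B : F} {Om : ℂ} {Ω : Type} [Field Ω] [DecidableEq Ω]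
  [Algebra F Ω] [IsAlgClosure F Ω] {j : Ω →+* ℂ} {act : 𝓞 F →+* AddMonoid.End (Pt (WAB A B) Ω)} {mo : Ideal (𝓞 F)}
  {ψ : Ideal (𝓞 F) →*₀ 𝓞 F}

/-- The parameter of a nonzero point killed by pi is a uniformizer of L at the places above pi. -/
theorem yg1_unif {π : 𝓞 F} {l : ℕ} (D : Dat A B Om j act mo ψ π l) {N L : IntermediateField F Ω} [NumberField L]
    (hN : Nb l N) (hL : IsTB act π N L) {V : ValuationSubring Ω} (hV : vo V π < 1) {T₀ : Pt (WAB A B) Ω}
    (hT₀ : T₀ ∈ Tor act π) (hT₀0 : T₀ ≠ 0) : ∃ (tL : L) (W : HeightOneSpectrum (𝓞 L)),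
      (tL : Ω) = tt T₀ ∧ Abv L V W ∧ W.valuation L tL = WithZero.exp (-1 : ℤ) := by
  obtain ⟨e0, R⟩ : ∃ e0 : ℕ, RV A B Om j act mo ψ π l N V (tt T₀) e0 := by
    have hl5 := D.five
    rcases dichotomy D.hl D.dta.unr D.pr D.dvd with ⟨hin, hq, -⟩ | ⟨hnd, -, hq, -⟩
    · exact ⟨l + 1, ⟨D, hV, ⟨T₀, hT₀, hT₀0, rfl⟩, by
        rw [hq]
        obtain ⟨k, rfl⟩ : ∃ k, l = k + 1 := ⟨l - 1, by omega⟩
        rw [Nat.add_sub_cancel]
        have : (k + 1) ^ 2 = (k + 1 + 1) * k + 1 := by ring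
        omega⟩, hN⟩
    · exact ⟨1, ⟨D, hV, ⟨T₀, hT₀, hT₀0, rfl⟩, by rw [hq, one_mul]⟩, hN⟩
  obtain ⟨-, -, ht1, ht0, -, -⟩ := R.base.val_l
  have htne : tt T₀ ≠ 0 := (Valuation.ne_zero_iff _).1 ht0
  have htL : tt T₀ ∈ L := by
    apply ku2_mem
    intro s hs
    rw [← tt_ac, ((hL.fix s).1 hs).2 _ hT₀]
  obtain ⟨tL, htL'⟩ : ∃ tL : L, (tL : Ω) = tt T₀ := ⟨⟨tt T₀, htL⟩, rfl⟩
  obtain ⟨w, hw⟩ := H13S.exists_below L V ⟨tL⁻¹, by
    rw [← V.valuation_le_one_iff]
    push_cast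
    rw [htL', map_inv₀, not_le]
    exact (one_lt_inv₀ (zero_lt_iff.2 ht0)).2 ht1⟩
  refine ⟨tL, w, htL', hw, ?_⟩
  have htL0 : tL ≠ 0 := by
    rintro rfl
    exact htne (by rw [← htL']; simp)
  have hwt0 : w.valuation L tL ≠ 0 := (Valuation.ne_zero_iff _).2 htL0
  obtain ⟨j, hj⟩ : ∃ j : ℤ, w.valuation L tL = WithZero.exp j :=
    ⟨WithZero.log (w.valuation L tL), (WithZero.exp_log hwt0).symm⟩
  have hj1 : j < 0 := by
    have h1 : w.valuation L tL < 1 := by
      rw [← hw.lt, htL']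
      exact ht1
    rw [hj, ← WithZero.exp_zero, WithZero.exp_lt_exp] at h1
    exact h1
  obtain ⟨u, hu⟩ := w.valuation_exists_uniformizer L
  have hu' : w.valuation L u = WithZero.exp (-1 : ℤ) := hu
  have hu0 : u ≠ 0 := by
    rintro rfl
    rw [map_zero] at hu'
    exact WithZero.exp_ne_zero hu'.symm
  have hHx : Hx act π N V (u : Ω) := by
    intro s hs
    have h1 : s ∈ L.fixingSubgroup := (hL.fix s).2 ⟨hs.1.1, hs.2⟩
    exact (IntermediateField.mem_fixingSubgroup_iff L _).1 h1 u u.2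
  obtain ⟨n, hn⟩ := R.values hHx (by exact_mod_cast hu0)
  have hzc : ((tL ^ n : L) : Ω) = tt T₀ ^ n := by
    rw [← htL']
    exact map_zpow₀ (algebraMap L Ω) tL n
  have h2 : w.valuation L u = w.valuation L (tL ^ n) := by
    have h3 : V.valuation (u : Ω) = V.valuation ((tL ^ n : L) : Ω) := by
      rw [hzc, map_zpow₀]
      exact hn
    exact le_antisymm ((hw.le _ _).1 h3.le) ((hw.le _ _).1 h3.ge)
  rw [hu', map_zpow₀, hj, ← WithZero.exp_zsmul, WithZero.exp_inj, smul_eq_mul] at h2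
  have hjm : j = -1 := by
    have h4 : j ∣ -1 := ⟨n, by rw [h2]; ring⟩
    have h5 : IsUnit j := Int.isUnit_iff.2 (by
      have h6 : j ∣ 1 := (dvd_neg).1 h4
      have h7 := Int.isUnit_iff.1 (isUnit_of_dvd_one h6)
      exact h7)
    rcases Int.isUnit_iff.1 h5 with h6 | h6 <;> omega
  rw [hj, hjm]

/-- Chunk YG1 (M). From GN to the class. cocycle_of_m: c, y T (choose; 1 outside Tor π) with y^l = m T * z^l. If V contains L then all elements of Ω are in V (H55P.s13_top or integral closure), V = ⊤, all values of nonzero elements are 1: out clear, vo V π < 1 impossible.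
Otherwise W = the prime of L below V (H13S.exists_below, Abv). out: G.out with V, W: l | ord W (m T), so W (m T) = W x^l with x in L (a power of a uniformizer, valuation_exists_uniformizer; ord: H55R/Defs), V (y T)^l = V (x z)^l, so V (y T) = V (x z).
lev: t = tt T₀ is in L (fixed by L.fixingSubgroup: ku2_mem as in H13Z/LV.lean), RV A B Om j act mo ψ π l N V t e0 (e0 = (Nm π - 1)/(l - 1): see H13Z/FZ4 or dichotomy), elements of L are in Hx act π N V (DT elements are in L.fixingSubgroup: hL.fix), RV.values: values of elements of L are powers of V t, so W t = exp(-1) (as in level_pt of H13Z/LV.lean: hjm); G.lev for W (W π < 1 by Abv.lt): W ≤ exp(-2) = W t^2, Abv.le.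
nz: G.nz gives T; if z in L, z^l = y T^l = m T z'^l then m T = (z/z')^l. -/
theorem exists_gl {π : 𝓞 F} {l : ℕ} (D : Dat A B Om j act mo ψ π l) {e : Pt (WAB A B) Ω → Pt (WAB A B) Ω → Ω} (he : Pairing A B act π l e)
    {N L : IntermediateField F Ω} [NumberField N] [NumberField L] (hN : Nb l N) (hL : IsTB act π N L)
    {w : HeightOneSpectrum (𝓞 N)} (hl : (l : 𝓞 N) ∉ w.asIdeal)
    (hfx : ∀ V : ValuationSubring Ω, Abv N V w → ∀ s, DecN N V s → ∀ T ∈ Tor act π, ac (WAB A B) s T = T)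
    {m : Pt (WAB A B) Ω → (L)ˣ} (G : GN act π l N L w m) :
    ∃ (c : (Ω ≃ₐ[F] Ω) → Pt (WAB A B) Ω) (y : Pt (WAB A B) Ω → Ω), Gl A B Om j act mo ψ π l e N L w c y := by
  classical
  have hac : IsAlgClosed Ω := IsAlgClosure.isAlgClosed F
  have halg : Algebra.IsAlgebraic F Ω := IsAlgClosure.isAlgebraic
  have hch : CharZero Ω := charZero_of_injective_algebraMap (algebraMap F Ω).injective
  have hl0 : l ≠ 0 := D.hl.ne_zero
  obtain ⟨c, hc, hy⟩ := cocycle_of_m D he hL m G.add G.gal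
  have hy' : ∀ T, ∃ y : Ω, T ∈ Tor act π → (Kum L e c T y ∧
      ∃ z : (L)ˣ, y ^ l = ((m T * z ^ l : (L)ˣ) : L)) := by
    intro T
    by_cases hT : T ∈ Tor act π
    · obtain ⟨y, h1, h2⟩ := hy T hT
      exact ⟨y, fun _ => ⟨h1, h2⟩⟩
    · exact ⟨1, fun h => absurd h hT⟩
  choose y hy using hy'
  have hcoe : ∀ a b : (L)ˣ, (((a * b ^ l : (L)ˣ) : L) : Ω) = ((a : L) : Ω) * ((b : L) : Ω) ^ l := by
    intro a b
    push_cast
    rfl
  refine ⟨c, y, { D := D, nb := hN, wl := hl, fx := hfx, tb := hL, cc := hc,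
                  kum := fun T hT => (hy T hT).1, out := ?_, lev := ?_, nz := ?_ }⟩
  · intro V hV T hT
    obtain ⟨hk, z, hz⟩ := hy T hT
    have hy0 : y T ≠ 0 := hk.1
    by_cases hLV : ∃ x : L, (x : Ω) ∉ V
    · obtain ⟨W, hW⟩ := H13S.exists_below L V hLV
      obtain ⟨k, hk⟩ := G.out T hT V W hW hV
      obtain ⟨u, hu⟩ := H55R.HB1_pi W
      refine ⟨(((u ^ k * z : (L)ˣ) : L) : Ω), ((u ^ k * z : (L)ˣ) : L).2, ?_, ?_⟩
      · intro h
        exact (u ^ k * z).ne_zero (by exact_mod_cast h)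
      · have h1 : W.valuation L (((u ^ k : (L)ˣ) : L) ^ l) = W.valuation L ((m T : (L)ˣ) : L) := by
          rw [H55R.BF1_val, hk, map_pow, H55R.BF1_val, H55R.ord_zpow, hu, mul_one,
            ← WithZero.exp_nsmul]
          congr 1
          rw [nsmul_eq_mul]
          ring
        have h2 := le_antisymm ((hW.le _ _).2 h1.le) ((hW.le _ _).2 h1.ge)
        have h3 : V.valuation (y T) ^ l = V.valuation (((u ^ k * z : (L)ˣ) : L) : Ω) ^ l := by
          rw [← map_pow, ← map_pow, hz, hcoe, map_mul, ← h2, ← map_mul]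
          congr 1
          push_cast
          rw [mul_pow]
        exact (pow_left_inj₀ zero_le zero_le hl0).1 h3
    · push Not at hLV
      have htop : ∀ x : Ω, x ∈ V := H55P.s13_top L V (by
        intro x hx
        have hx0 : ((x : L) : Ω) ≠ 0 := by
          intro h
          apply hx
          have h1 : (x : L) = 0 := by exact_mod_cast h
          exact RingOfIntegers.coe_injective (h1.trans (map_zero _).symm)
        have h1 := (V.valuation_le_one_iff _).2 (hLV (x : L))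
        have h2 := (V.valuation_le_one_iff _).2 (hLV ((x : L)⁻¹))
        have e : (((x : L)⁻¹ : L) : Ω) = ((x : L) : Ω)⁻¹ := rfl
        rw [e, map_inv₀, inv_le_one₀ (zero_lt_iff.2 ((map_ne_zero _).2 hx0))] at h2
        exact le_antisymm h1 h2)
      refine ⟨1, one_mem L, one_ne_zero, ?_⟩
      rw [map_one]
      have h1 := (V.valuation_le_one_iff _).2 (htop (y T))
      have h2 := (V.valuation_le_one_iff _).2 (htop ((y T)⁻¹))
      rw [map_inv₀, inv_le_one₀ (zero_lt_iff.2 ((map_ne_zero _).2 hy0))] at h2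
      exact le_antisymm h1 h2
  · intro V hV T hT T₀ hT₀ hT₀0
    obtain ⟨hk, z, hz⟩ := hy T hT
    obtain ⟨tL, W, htL, hW, hWt⟩ := yg1_unif D hN hL hV hT₀ hT₀0
    have hWπ : W.valuation L (algebraMap F L (π : F)) < 1 := by
      rw [← hW.lt]
      exact hV
    obtain ⟨z', hz'⟩ := G.lev T hT W hWπ
    refine ⟨(((z' * z : (L)ˣ) : L) : Ω), ((z' * z : (L)ˣ) : L).2, ?_, ?_⟩
    · intro h
      exact (z' * z).ne_zero (by exact_mod_cast h)
    · have hz0 : ((z : L) : Ω) ≠ 0 := by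
        intro h
        exact z.ne_zero (by exact_mod_cast h)
      have hz'0 : ((z' : L) : Ω) ≠ 0 := by
        intro h
        exact z'.ne_zero (by exact_mod_cast h)
      have e1 : y T ^ l / (((z' * z : (L)ˣ) : L) : Ω) ^ l - 1 =
          ((((m T * (z' ^ l)⁻¹ : (L)ˣ) : L) - 1 : L) : Ω) := by
        rw [hz, hcoe]
        push_cast
        field_simp
        ring
      have e2 : V.valuation (tt T₀) ^ 2 = V.valuation ((tL ^ 2 : L) : Ω) := by
        push_cast
        rw [htL, map_pow]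
      rw [e1, e2, hW.le, map_pow, hWt, ← WithZero.exp_nsmul]
      refine hz'.trans ?_
      rw [WithZero.exp_le_exp]
      norm_num
  · obtain ⟨T, hT, hT1⟩ := G.nz
    refine ⟨T, hT, fun x hx hxy => ?_⟩
    obtain ⟨hk, z, hz⟩ := hy T hT
    have hx0 : x ≠ 0 := by
      rintro rfl
      rw [zero_pow hl0] at hxy
      exact pow_ne_zero l hk.1 hxy.symm
    obtain ⟨xL, hxL⟩ : ∃ xL : L, (xL : Ω) = x := ⟨⟨x, hx⟩, rfl⟩
    have hxL0 : xL ≠ 0 := by
      rintro rfl
      exact hx0 (by rw [← hxL]; simp)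
    apply hT1 (Units.mk0 xL hxL0 * z⁻¹)
    have h1 : ((xL ^ l : L) : Ω) = (((m T * z ^ l : (L)ˣ) : L) : Ω) := by
      rw [← hz, ← hxy, ← hxL]
      push_cast
      rfl
    have h2 : xL ^ l = ((m T * z ^ l : (L)ˣ) : L) := Subtype.val_injective h1
    have h3 : Units.mk0 xL hxL0 ^ l = m T * z ^ l := by
      ext
      push_cast
      rw [Units.val_mk0]
      have h4 := congrArg (fun t : L => (t : Ω)) h2
      push_cast at h4
      exact h4
    rw [mul_pow, inv_pow, h3, mul_inv_cancel_right]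

end H13X
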