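import Mathlib
import Pool.Agent.Lib.H13S.IN4
import Pool.Agent.Lib.H13X.XG
import Pool.Agent.Lib.H13Z.LF3
import Pool.Agent.Lib.H55K.SDI

/-! # H13X: port of H13Y/G2 -/

open NumberField IsDedekindDomain WeierstrassCurve

namespace H13X

open H55P (IQ embF eF LF Per IsHecke Pt ac Inert Dec Nm Coc)
open H35P (WAB Ker tt)
open H55K (Tor ak xc yc CMA Dta GV GMod cj cj_cj mul_cj cj_prime cj_dvd cj_nat Nm_cj Nm_mul Nm_nat)
open H55K.S
open H13S (Abv)





variable {F : Type} [Field F] [NumberField F] [IQ F] {A B : F} {Om : ℂ} {Ω : Type} [Field Ω] [DecidableEq Ω]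
  [Algebra F Ω] [IsAlgClosure F Ω] {j : Ω →+* ℂ} {act : 𝓞 F →+* AddMonoid.End (Pt (WAB A B) Ω)} {mo : Ideal (𝓞 F)}
  {ψ : Ideal (𝓞 F) →*₀ 𝓞 F}

variable {π : 𝓞 F} {l : ℕ} {e : Pt (WAB A B) Ω → Pt (WAB A B) Ω → Ω} {N L : IntermediateField F Ω} [NumberField N]
  {w : HeightOneSpectrum (𝓞 N)} {c : (Ω ≃ₐ[F] Ω) → Pt (WAB A B) Ω} {y : Pt (WAB A B) Ω → Ω} {V : ValuationSubring Ω}

omit [IsAlgClosure F Ω] in
/-- Chunk YG2 (S/M). As H13Z/FZ2.lean Gl.zero. -/
theorem Gl.zero (G : Gl A B Om j act mo ψ π l e N L w c y) (he : Pairing A B act π l e) {s : Ω ≃ₐ[F] Ω}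
    (hs : s ∈ L.fixingSubgroup) (h : ∀ T ∈ Tor act π, s (y T) = y T) : c s = 0 := by
  refine he.nondeg _ (G.cc.val s (G.tb.mono hs)) fun T hT => ?_
  obtain ⟨h0, h1⟩ := G.kum T hT
  have h2 := h1 s hs
  rw [h T hT] at h2
  exact mul_right_cancel₀ h0 (by rw [one_mul]; exact h2.symm)

omit [IsAlgClosure F Ω] in
/-- The l-th power of y T is fixed by the automorphisms over L. -/
theorem yg2_pow (G : Gl A B Om j act mo ψ π l e N L w c y) (he : Pairing A B act π l e) {s : Ω ≃ₐ[F] Ω}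
    (hs : s ∈ L.fixingSubgroup) {T : Pt (WAB A B) Ω} (hT : T ∈ Tor act π) : s (y T ^ l) = y T ^ l := by
  rw [map_pow, (G.kum T hT).2 s hs, mul_pow, he.root _ (G.cc.val s (G.tb.mono hs)) T hT, one_mul]

omit [IsAlgClosure F Ω] in
/-- Outside l and w: x in L from Gl.out is fixed by s, y T^l is fixed (kum, he.root), unr_val (as H13Z/FZ2.lean Gl.inert). -/
theorem Gl.inert (G : Gl A B Om j act mo ψ π l e N L w c y) (he : Pairing A B act π l e) (hl : V.valuation (l : Ω) = 1)
    (hw : ¬ Abv N V w) {s : Ω ≃ₐ[F] Ω} (hs : Inert V s) (hT : s ∈ L.fixingSubgroup) : c s = 0 := by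
  have hchar : CharZero Ω := charZero_of_injective_algebraMap (algebraMap F Ω).injective
  refine G.zero he hT fun T hT' => ?_
  obtain ⟨x, hxL, hx0, hx⟩ := G.out V hw T hT'
  exact H13Z.unr_val V G.D.hl hl (G.kum T hT').1 hx hs
    ((IntermediateField.mem_fixingSubgroup_iff L s).1 hT x hxL) (yg2_pow G he hT hT')

omit [DecidableEq Ω] [IsAlgClosure F Ω] in
theorem yg2_unit (hV : Abv N V w) (a : 𝓞 N) (ha : a ∉ w.asIdeal) : V.valuation (((a : N) : Ω)) = 1 := by
  apply le_antisymm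
  · exact (V.valuation_le_one_iff _).2 ((hV (a : N)).2 (w.valuation_le_one a))
  · by_contra hcon
    push Not at hcon
    exact ha ((w.valuation_lt_one_iff_mem a).1 ((H13S.Abv.lt hV _).1 hcon))

omit [IsAlgClosure F Ω] in
/-- The values above w: V l = 1. -/
theorem Gl.val_w (G : Gl A B Om j act mo ψ π l e N L w c y) (hV : Abv N V w) : V.valuation (l : Ω) = 1 := by
  have h1 := yg2_unit hV (l : 𝓞 N) G.wl
  have h2 : (((l : 𝓞 N) : N) : Ω) = l := by
    have e1 : ((l : 𝓞 N) : N) = l := map_natCast (algebraMap (𝓞 N) N) l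
    rw [e1]
    exact map_natCast (algebraMap N Ω) l
  rwa [h2] at h1

/-- Above w over N': inertia elements over N fix Tor π (inert_tors: V 3 = 1, vo V π = 1 because π divides l), so they are in L.fixingSubgroup (tb.fix). y T^l is fixed by the inertia elements over N: H13S.value_fixed for K = N: V (y T)^l = V a, a in N, a ≠ 0, = V x^l with x in N' (hx), so V (y T) = V x; x is fixed by s (s in N'.fixingSubgroup). unr_val, Gl.zero. -/
theorem Gl.kill (G : Gl A B Om j act mo ψ π l e N L w c y) (he : Pairing A B act π l e) (hV : Abv N V w)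
    {N' : IntermediateField F Ω} (hNN : N ≤ N')
    (hx : ∀ a ∈ N, a ≠ 0 → ∃ x ∈ N', V.valuation x ^ l = V.valuation a) {s : Ω ≃ₐ[F] Ω}
    (hs : s ∈ N'.fixingSubgroup) (hi : Inert V s) : c s = 0 := by
  have hchar : CharZero Ω := charZero_of_injective_algebraMap (algebraMap F Ω).injective
  have hl := G.val_w hV
  have hfix : ∀ t : Ω ≃ₐ[F] Ω, t ∈ N.fixingSubgroup → Inert V t → t ∈ L.fixingSubgroup :=
    fun t ht hti => (G.tb.fix t).2 ⟨ht, G.fx V hV t ⟨ht, Inert.dec hti⟩⟩
  have hsN : s ∈ N.fixingSubgroup := by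
    rw [IntermediateField.mem_fixingSubgroup_iff] at hs ⊢
    exact fun x hx => hs x (hNN hx)
  have hsL := hfix s hsN hi
  refine G.zero he hsL fun T hT => ?_
  have hy0 : y T ≠ 0 := (G.kum T hT).1
  obtain ⟨a, ha0, ha⟩ := H13S.value_fixed N V (y T ^ l) (pow_ne_zero l hy0)
    (fun t ht hti => yg2_pow G he (hfix t ht hti) hT)
  obtain ⟨x, hxN, hxa⟩ := hx (a : Ω) a.2 (fun h => ha0 (Subtype.ext h))
  rw [← hxa, map_pow] at ha
  have hxy : V.valuation (y T) = V.valuation x :=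
    (pow_left_inj₀ zero_le zero_le G.D.hl.ne_zero).1 ha
  exact H13Z.unr_val V G.D.hl hl hy0 hxy hi ((IntermediateField.mem_fixingSubgroup_iff N' s).1 hs x hxN)
    (yg2_pow G he hsL hT)

omit [IsAlgClosure F Ω] [NumberField N] in
/-- the coboundary may be taken with values in the points killed by cj π -/
theorem YG3_red (D : Dat A B Om j act mo ψ π l) (C : Cc act π N c) {T : Pt (WAB A B) Ω} (hT : l • T = 0)
    (hc : ∀ s ∈ N.fixingSubgroup, c s = ac (WAB A B) s T - T) :
    ∃ X ∈ Tor act (cj π), ∀ s ∈ N.fixingSubgroup, c s = ac (WAB A B) s X - X := by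
  have hlT : act (l : 𝓞 F) T = 0 := by rw [act_nat (act := act), hT]
  rcases dichotomy D.hl D.dta.unr D.pr D.dvd with ⟨h1, h2, h3⟩ | ⟨h1, -, -, hll⟩
  · refine ⟨T, ?_, hc⟩
    rw [tor_assoc h1, ← tor_assoc h3, mem_Tor]
    exact hlT
  · have hcop : IsCoprime π (cj π) := (D.pr.irreducible.coprime_iff_not_dvd).2 h1
    obtain ⟨u, v, huv⟩ := hcop
    have hX : act (u * π) T ∈ Tor act (cj π) := by
      rw [mem_Tor, ← act_mul]
      have h6 : cj π * (u * π) = u * (l : 𝓞 F) := by rw [← hll]; ring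
      rw [h6, act_mul, hlT, map_zero]
    refine ⟨act (u * π) T, hX, fun s hs => ?_⟩
    have h3 : act (u * π) (c s) = c s := by
      have h4 : act (v * cj π) (c s) = 0 := by
        rw [act_mul, mem_Tor.1 (C.val s hs), map_zero]
      have h5 : act (u * π + v * cj π) (c s) = c s := by rw [huv, act_one]
      rw [act_add, h4, add_zero] at h5
      exact h5
    rw [ac_act D.cma, ← map_sub, ← hc s hs, h3]

/-- Chunk YG3 (S/M). c is not a coboundary over N. Suppose c s = ac s T - T on N.fixingSubgroup, l • T = 0. If cj π = π (dichotomy) then l is a unit times π: T in Tor π = Tor (cj π), X = T. Otherwise π, cj π are coprime, l = unit * π cj π, T = T₁ + X with T₁ in Tor π, X in Tor (cj π) (act of a π + b cj π = 1); c s = (ac s T₁ - T₁) + (ac s X - X) with c s in Tor (cj π), ac s T₁ - T₁ in Tor π, the intersection is 0: ac s T₁ = T₁. So in all cases c s = ac s X - X on N.fixingSubgroup, X in Tor (cj π).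
T' from G.nz; s in L.fixingSubgroup: s (y T') = e (ac s X - X) T' * y T' = (e (ac s X) T'/e X T') y T' = (s (e X T')/e X T') y T' (he.gal, ac s T' = T'), so z = y T'/e X T' is fixed by L.fixingSubgroup: z in L (ku2_mem), z^l = y T'^l (he.root). Contradiction. -/
theorem Gl.not_cob (G : Gl A B Om j act mo ψ π l e N L w c y) (he : Pairing A B act π l e) :
    ¬ ∃ T : Pt (WAB A B) Ω, l • T = 0 ∧ ∀ s ∈ N.fixingSubgroup, c s = ac (WAB A B) s T - T := by
  rintro ⟨T, hT, hc⟩
  obtain ⟨X, hX, hcX⟩ := YG3_red G.D G.cc hT hc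
  obtain ⟨T', hT', hnz⟩ := G.nz
  have hl0 : l ≠ 0 := G.D.hl.ne_zero
  have h1 : e X T' ^ l = 1 := he.root X hX T' hT'
  have hne : e X T' ≠ 0 := by
    intro h
    rw [h, zero_pow hl0] at h1
    exact zero_ne_one h1
  have hz : y T' / e X T' ∈ L := by
    apply ku2_mem
    intro s hs
    have h2 := (G.kum T' hT').2 s hs
    have hsX : ac (WAB A B) s X ∈ Tor act (cj π) := ac_mem G.D.cma s hX
    have hsT : ac (WAB A B) s T' = T' := ((G.tb.fix s).1 hs).2 T' hT'
    have h3 : s (e X T') = e (ac (WAB A B) s X) T' := by rw [he.gal s X hX T' hT', hsT]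
    have h4 : e (ac (WAB A B) s X) T' = e (c s) T' * e X T' := by
      rw [← he.add_left _ (G.cc.val s (G.tb.mono hs)) _ hX T' hT', hcX s (G.tb.mono hs), sub_add_cancel]
    have h5 : e (c s) T' ≠ 0 := by
      intro h6
      rw [h6, zero_mul] at h2
      exact (G.kum T' hT').1 ((map_eq_zero_iff s s.injective).1 h2)
    rw [map_div₀, h2, h3, h4, mul_div_mul_left _ _ h5]
  refine hnz _ hz ?_
  rw [div_pow, h1, div_one]

end H13X
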