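import Mathlib
import Pool.Agent.Lib.H13X.XR

/-! # H13X: port of H13Y/YU -/

open NumberField IsDedekindDomain WeierstrassCurve

namespace H13X

open H55P (IQ embF eF LF Per IsHecke Pt ac Inert Dec Nm Coc)
open H35P (WAB Ker tt)
open H55K (Tor ak xc yc CMA Dta GV GMod cj cj_cj mul_cj cj_prime cj_dvd cj_nat Nm_cj Nm_mul Nm_nat)
open H55K.S
open H13S (Abv)





variable {F : Type} [Field F] [NumberField F] [IQ F] {A B : F} {Om : ℂ} {Ω : Type} [Field Ω] [DecidableEq Ω]
  [Algebra F Ω] [IsAlgClosure F Ω] {j : Ω →+* ℂ} {act : 𝓞 F →+* AddMonoid.End (Pt (WAB A B) Ω)} {mo : Ideal (𝓞 F)}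
  {ψ : Ideal (𝓞 F) →*₀ 𝓞 F}

variable {π : 𝓞 F} {l : ℕ} {N : IntermediateField F Ω} {V : ValuationSubring Ω} {t : Ω} {e0 : ℕ}

/-- The binomial formula modulo l. -/
theorem lu_add_pow (V : ValuationSubring Ω) (hl : l.Prime) {x y : Ω} (hx : V.valuation x ≤ 1)
    (hy : V.valuation y ≤ 1) : ∃ r, V.valuation r ≤ 1 ∧ (x + y) ^ l = x ^ l + y ^ l + l * x * y * r := by
  have hx' := (V.valuation_le_one_iff x).1 hx
  have hy' := (V.valuation_le_one_iff y).1 hy
  obtain ⟨r, hr⟩ := exists_add_pow_prime_eq hl (⟨x, hx'⟩ : V) (⟨y, hy'⟩ : V)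
  refine ⟨r, (V.valuation_le_one_iff _).2 r.2, ?_⟩
  have h1 := congrArg (fun a : V => (a : Ω)) hr
  simpa using h1

theorem xu_max {π : 𝓞 F} (hp : Prime π) : (Ideal.span {π}).IsMaximal := by
  have h1 : (Ideal.span {π}).IsPrime := (Ideal.span_singleton_prime hp.ne_zero).2 hp
  refine h1.isMaximal ?_
  rw [Ne, Ideal.span_singleton_eq_bot]
  exact hp.ne_zero

theorem lu_frob {π : 𝓞 F} (hp : Prime π) (a : 𝓞 F) : π ∣ a ^ Nm π - a := by
  classical
  haveI := xu_max hp
  letI := Ideal.Quotient.field (Ideal.span {π})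
  have hc : Nat.card (𝓞 F ⧸ Ideal.span {π}) = Nm π :=
    H55K.k10_card (Ideal.Quotient.mk (Ideal.span {π})) Ideal.Quotient.mk_surjective fun x => by
      rw [Ideal.Quotient.eq_zero_iff_mem, Ideal.mem_span_singleton]
  have h0 : Nm π ≠ 0 := fun h => hp.ne_zero (H55P.Nm_eq_zero.1 h)
  haveI : Finite (𝓞 F ⧸ Ideal.span {π}) := Nat.finite_of_card_ne_zero (by rw [hc]; exact h0)
  letI := Fintype.ofFinite (𝓞 F ⧸ Ideal.span {π})
  have h1 := FiniteField.pow_card (Ideal.Quotient.mk (Ideal.span {π}) a)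
  rw [← Nat.card_eq_fintype_card, hc, ← map_pow, ← sub_eq_zero, ← map_sub,
    Ideal.Quotient.eq_zero_iff_mem, Ideal.mem_span_singleton] at h1
  exact h1

/-- Chunk YU (M), PORT of H13Z/LU.lean to the base field N (RV.values, RV.step, RV.residue of YR.lean; R.base.val_l). -/
theorem RV.pow_unit (R : RV A B Om j act mo ψ π l N V t e0) {z : Ω} (hz : Hx act π N V z) {i : ℕ} (hi : 1 ≤ i) (h2 : i < l * e0)
    (h3 : ¬ l ∣ i) (h : V.valuation (z ^ l - 1) ≤ V.valuation t ^ i) :
    V.valuation (z ^ l - 1) ≤ V.valuation t ^ (i + 1) := by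
  obtain ⟨hl1, hq, ht1, ht0, he, -⟩ := R.base.val_l
  have hlp := R.base.D.hl
  have hl2 : 2 ≤ l := hlp.two_le
  set r := V.valuation t with hr
  have hr0 : 0 < r := zero_lt_iff.2 ht0
  have hle : ∀ {a b : ℕ}, a ≤ b → r ^ b ≤ r ^ a := fun {a b} hab => pow_le_pow_right_of_le_one' ht1.le hab
  have hlt : ∀ {a b : ℕ}, a < b → r ^ b < r ^ a := fun {a b} hab => pow_lt_pow_right_of_lt_one₀ hr0 ht1 hab
  have hw1 : V.valuation (z ^ l - 1) < 1 := lt_of_le_of_lt h (pow_lt_one₀ zero_le ht1 (by omega))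
  have hvl : V.valuation (l : Ω) < 1 := by
    rw [hl1]
    exact R.base.above
  have hz1 : V.valuation z = 1 := by
    have h4 : V.valuation (z ^ l) = 1 := by
      have h5 : z ^ l = (z ^ l - 1) + 1 := by ring
      rw [h5]
      rw [Valuation.map_add_eq_of_lt_right]
      · exact map_one V.valuation
      · rw [map_one]
        exact hw1
    rw [map_pow] at h4
    exact (pow_eq_one_iff.1 h4).resolve_right (by omega)
  obtain ⟨d, hd⟩ : ∃ d, d = z - 1 := ⟨_, rfl⟩
  have hzd : z = d + 1 := by rw [hd]; ring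
  have hd1 : V.valuation d ≤ 1 := by
    rw [hd]
    exact V.valuation.map_sub_le hz1.le (map_one _).le
  obtain ⟨b, hb, hexp⟩ := lu_add_pow (l := l) V hlp hd1 (y := 1) (map_one _).le
  rw [← hzd, one_pow] at hexp
  have hexp' : z ^ l - 1 = d ^ l + l * d * b := by rw [hexp]; ring
  have hrest : V.valuation (l * d * b) ≤ V.valuation (l : Ω) * V.valuation d := by
    rw [map_mul, map_mul]
    exact mul_le_of_le_one_right' hb
  have hdlt : V.valuation d < 1 := by
    have h5 : d ^ l = (z ^ l - 1) - l * d * b := by rw [hexp']; ring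
    have h6 : V.valuation (d ^ l) < 1 := by
      rw [h5]
      refine lt_of_le_of_lt (Valuation.map_sub _ _ _) (max_lt hw1 (lt_of_le_of_lt hrest ?_))
      exact lt_of_le_of_lt (mul_le_of_le_one_right' hd1) hvl
    rw [map_pow] at h6
    by_contra hcon
    exact absurd h6 (not_lt.2 (one_le_pow_of_one_le' (not_lt.1 hcon) l))
  by_cases hd0 : d = 0
  · have : z ^ l - 1 = 0 := by
      rw [hexp', hd0, zero_pow (by omega)]
      ring
    rw [this, map_zero]
    exact zero_le
  have hHd : Hx act π N V d := by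
    rw [hd]
    exact hz.sub Hx.one
  obtain ⟨n, hn⟩ := R.values hHd hd0
  rw [← hr] at hn
  have hn0 : 0 < n := by
    by_contra hcon
    have h5 : n ≤ 0 := not_lt.1 hcon
    obtain ⟨k, hk⟩ := Int.exists_eq_neg_ofNat h5
    rw [hn, hk, zpow_neg, zpow_natCast] at hdlt
    have h6 : r ^ k ≤ 1 := pow_le_one₀ zero_le ht1.le
    have h7 : 1 ≤ (r ^ k)⁻¹ := by
      rw [one_le_inv₀ (pow_pos hr0 k)]
      exact h6
    exact absurd hdlt (not_lt.2 h7)
  obtain ⟨j, hj⟩ : ∃ j : ℕ, n = j := ⟨n.toNat, (Int.toNat_of_nonneg hn0.le).symm⟩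
  rw [hj, zpow_natCast] at hn
  have hj0 : 1 ≤ j := by omega
  have hrest' : V.valuation (l * d * b) ≤ r ^ (e0 * (l - 1) + j) := by
    rw [pow_add, he, ← hn]
    exact hrest
  have hdl : V.valuation (d ^ l) = r ^ (l * j) := by
    rw [map_pow, hn, ← pow_mul, mul_comm]
  by_cases hje : j < e0
  · have h5 : l * j < e0 * (l - 1) + j := by
      obtain ⟨k, rfl⟩ : ∃ k, l = k + 1 := ⟨l - 1, by omega⟩
      rw [Nat.add_sub_cancel]
      have h6 : k * j < k * e0 := Nat.mul_lt_mul_of_pos_left hje (by omega)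
      have e1 : (k + 1) * j = k * j + j := by ring
      rw [e1, mul_comm e0 k]
      omega
    have h6 : V.valuation (z ^ l - 1) = r ^ (l * j) := by
      rw [hexp', Valuation.map_add_eq_of_lt_left]
      · exact hdl
      · rw [hdl]
        exact lt_of_le_of_lt hrest' (hlt h5)
    rw [h6] at h ⊢
    apply hle
    have h7 : i ≤ l * j := by
      by_contra hcon
      exact absurd h (not_le.2 (hlt (not_le.1 hcon)))
    rcases Nat.eq_or_lt_of_le h7 with h8 | h8
    · exact absurd ⟨j, h8⟩ h3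
    · exact h8
  · have h5 : l * e0 ≤ l * j := Nat.mul_le_mul_left l (not_lt.1 hje)
    have h6 : l * e0 ≤ e0 * (l - 1) + j := by
      obtain ⟨k, rfl⟩ : ∃ k, l = k + 1 := ⟨l - 1, by omega⟩
      rw [Nat.add_sub_cancel]
      have e1 : (k + 1) * e0 = e0 * k + e0 := by ring
      rw [e1]
      omega
    rw [hexp']
    refine Valuation.map_add_le _ ?_ ?_
    · rw [hdl]
      exact hle (by omega)
    · exact hrest'.trans (hle (by omega))

/-- The l-th root of the residue a in N: the residue field of N is finite (R.nb.res with β = π: a^q - a has value < 1, q = (Nm π)^(l^j) is a power of l, so b = a^(q/l)). -/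
theorem RV.raise_mul (R : RV A B Om j act mo ψ π l N V t e0) {m : Ω} (hm : Hx act π N V m) (h0 : m ≠ 0) {j : ℕ} (hj : 1 ≤ j)
    (h2 : j < e0) (h : Lv act π l N V (V.valuation t ^ (l * j)) m) : Lv act π l N V (V.valuation t ^ (l * j + 1)) m := by
  obtain ⟨hl1, hq, ht1, ht0, he, hcase⟩ := R.base.val_l
  have hlp := R.base.D.hl
  have hl2 : 2 ≤ l := hlp.two_le
  obtain ⟨hN, -⟩ : Nm π = l ^ 2 ∧ True := by
    rcases hcase with h3 | h3
    · omega
    · exact ⟨h3.1, trivial⟩
  have hHt : Hx act π N V t := by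
    obtain ⟨T, hT, -, e⟩ := R.base.pt
    rw [e]
    exact Hx.tt hT
  have ht : t ≠ 0 := fun e => ht0 (by rw [e, map_zero])
  obtain ⟨z, hz, hz0, hv⟩ := h
  obtain ⟨w, hw⟩ : ∃ w, w = m / z ^ l - 1 := ⟨_, rfl⟩
  rw [← hw] at hv
  have hHw : Hx act π N V w := by
    rw [hw]
    exact (hm.div (hz.pow l)).sub Hx.one
  have htp : t ^ (l * j) ≠ 0 := pow_ne_zero _ ht
  have hHx : Hx act π N V (w / t ^ (l * j)) := hHw.div (hHt.pow _)
  have hx1 : V.valuation (w / t ^ (l * j)) ≤ 1 := by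
    rw [map_div₀, map_pow]
    exact div_le_one_of_le₀ hv zero_le
  have hvl : V.valuation (l : Ω) < 1 := by
    rw [hl1]
    exact R.base.above
  obtain ⟨α, hαN, hα1, ha⟩ := R.residue hHx hx1
  obtain ⟨q, k, hk0, hqk, hres, -, -⟩ := R.nb.res V π R.base.D.pr R.base.above hvl
  rw [hN, ← pow_mul] at hqk
  have hk1 : 1 ≤ 2 * k := by omega
  obtain ⟨β, hβ⟩ : ∃ β, β = α ^ (l ^ (2 * k - 1)) := ⟨_, rfl⟩
  have hβl : β ^ l = α ^ q := by
    rw [hβ, ← pow_mul, ← pow_succ, Nat.sub_add_cancel hk1, hqk]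
  have hab : V.valuation (α - β ^ l) < 1 := by
    rw [hβl, Valuation.map_sub_swap]
    exact hres α hαN ((V.valuation_le_one_iff α).1 hα1)
  have hβ1 : V.valuation β ≤ 1 := by
    rw [hβ, map_pow]
    exact pow_le_one' hα1 _
  have hHβ : Hx act π N V β := by
    rw [hβ]
    exact (Hx.of_mem hαN).pow _
  have htj : V.valuation (t ^ j) < 1 := by
    rw [map_pow]
    exact pow_lt_one₀ zero_le ht1 (by omega)
  have hd : V.valuation (β * t ^ j) < 1 := by
    rw [map_mul]
    exact lt_of_le_of_lt (mul_le_of_le_one_left' hβ1) htj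
  obtain ⟨c, hc, hexp⟩ := lu_add_pow (l := l) V hlp hd.le (y := 1) (map_one _).le
  rw [one_pow] at hexp
  obtain ⟨u, hu⟩ : ∃ u, u = β * t ^ j + 1 := ⟨_, rfl⟩
  rw [← hu] at hexp
  have hu1 : V.valuation u = 1 := by
    rw [hu, Valuation.map_add_eq_of_lt_right]
    · exact map_one V.valuation
    · rw [map_one]
      exact hd
  have hu0 : u ≠ 0 := fun e => by
    rw [e, map_zero] at hu1
    exact zero_ne_one hu1
  have hHu : Hx act π N V u := by
    rw [hu]
    exact (hHβ.mul (hHt.pow j)).add Hx.one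
  have hr0 : 0 < V.valuation t := zero_lt_iff.2 ht0
  have hrp : 0 < V.valuation t ^ (l * j) := pow_pos hr0 _
  -- the error terms
  have e1 : V.valuation (w - α * t ^ (l * j)) < V.valuation t ^ (l * j) := by
    have e2 : w - α * t ^ (l * j) = (w / t ^ (l * j) - α) * t ^ (l * j) := by
      rw [sub_mul, div_mul_cancel₀ _ htp]
    rw [e2, map_mul, map_pow]
    calc V.valuation (w / t ^ (l * j) - α) * V.valuation t ^ (l * j) < 1 * V.valuation t ^ (l * j) :=
          mul_lt_mul_of_pos_right ha hrp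
      _ = _ := one_mul _
  have e2 : V.valuation ((α - β ^ l) * t ^ (l * j)) < V.valuation t ^ (l * j) := by
    rw [map_mul, map_pow]
    calc V.valuation (α - β ^ l) * V.valuation t ^ (l * j) < 1 * V.valuation t ^ (l * j) :=
          mul_lt_mul_of_pos_right hab hrp
      _ = _ := one_mul _
  have e3 : V.valuation (l * (β * t ^ j) * 1 * c) < V.valuation t ^ (l * j) := by
    have h5 : l * j < e0 * (l - 1) + j := by
      obtain ⟨k, rfl⟩ : ∃ k, l = k + 1 := ⟨l - 1, by omega⟩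
      rw [Nat.add_sub_cancel]
      have h6 : k * j < k * e0 := Nat.mul_lt_mul_of_pos_left h2 (by omega)
      have e1 : (k + 1) * j = k * j + j := by ring
      rw [e1, mul_comm e0 k]
      omega
    refine lt_of_le_of_lt ?_ (pow_lt_pow_right_of_lt_one₀ hr0 ht1 h5)
    rw [pow_add, he, mul_one, map_mul, map_mul, map_mul, map_pow]
    exact (mul_le_of_le_one_right' hc).trans (mul_le_mul_right (mul_le_of_le_one_left' hβ1) _)
  have e4 : w - (u ^ l - 1) = (w - α * t ^ (l * j)) + (α - β ^ l) * t ^ (l * j) - l * (β * t ^ j) * 1 * c := by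
    rw [hexp, mul_pow, ← pow_mul, mul_comm j l]
    ring
  have e5 : V.valuation (w - (u ^ l - 1)) < V.valuation t ^ (l * j) := by
    rw [e4]
    refine lt_of_le_of_lt (Valuation.map_sub _ _ _) (max_lt (lt_of_le_of_lt (Valuation.map_add _ _ _) (max_lt e1 e2)) e3)
  refine ⟨z * u, hz.mul hHu, mul_ne_zero hz0 hu0, ?_⟩
  have e6 : m / (z * u) ^ l - 1 = (w - (u ^ l - 1)) / u ^ l := by
    rw [hw, mul_pow]
    have := pow_ne_zero l hz0
    have := pow_ne_zero l hu0
    field_simp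
    ring
  refine R.step ((hm.div ((hz.mul hHu).pow l)).sub Hx.one) ?_
  rw [e6, map_div₀, map_pow, hu1, one_pow, div_one]
  exact e5

end H13X
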