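import Mathlib
import Pool.Agent.Lib.H13X.XU

/-! # H13X: port of H13Y/YC1 -/

open NumberField IsDedekindDomain WeierstrassCurve

namespace H13X

open H55P (IQ embF eF LF Per IsHecke Pt ac Inert Dec Nm Coc)
open H35P (WAB Ker tt)
open H55K (Tor ak xc yc CMA Dta GV GMod cj cj_cj mul_cj cj_prime cj_dvd cj_nat Nm_cj Nm_mul Nm_nat)
open H55K.S
open H13S (Abv)





variable {F : Type} [Field F] [NumberField F] [IQ F] {A B : F} {Om : ℂ} {Ω : Type} [Field Ω] [DecidableEq Ω]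
  [Algebra F Ω] [IsAlgClosure F Ω] {j : Ω →+* ℂ} {act : 𝓞 F →+* AddMonoid.End (Pt (WAB A B) Ω)} {mo : Ideal (𝓞 F)}
  {ψ : Ideal (𝓞 F) →*₀ 𝓞 F}

section gen

variable {Ω : Type} [Field Ω] [Algebra F Ω]

omit [IQ F] in
theorem lc1_le (V : ValuationSubring Ω) (a : 𝓞 F) : V.valuation (algebraMap F Ω (a : F)) ≤ 1 := H55K.ak_le V a

theorem lc1_mul (a b : 𝓞 F) : algebraMap F Ω ((a * b : 𝓞 F) : F) =
    algebraMap F Ω (a : F) * algebraMap F Ω (b : F) := by
  rw [← map_mul]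
  congr 1

theorem lc1_pow (a : 𝓞 F) (n : ℕ) : algebraMap F Ω ((a ^ n : 𝓞 F) : F) = algebraMap F Ω (a : F) ^ n := by
  rw [← map_pow]
  congr 1

theorem lc1_add (a b : 𝓞 F) : algebraMap F Ω ((a + b : 𝓞 F) : F) =
    algebraMap F Ω (a : F) + algebraMap F Ω (b : F) := by
  rw [← map_add]
  congr 1

theorem lc1_sub (a b : 𝓞 F) : algebraMap F Ω ((a - b : 𝓞 F) : F) =
    algebraMap F Ω (a : F) - algebraMap F Ω (b : F) := by
  rw [← map_sub]
  congr 1

theorem lc1_neg (a : 𝓞 F) : algebraMap F Ω ((-a : 𝓞 F) : F) = -algebraMap F Ω (a : F) := by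
  rw [← map_neg]
  congr 1

theorem lc1_pow_le {V : ValuationSubring Ω} {t : Ω} (ht : V.valuation t < 1) {m n : ℕ} (h : m ≤ n) :
    V.valuation t ^ n ≤ V.valuation t ^ m :=
  pow_le_pow_right_of_le_one' ht.le h

theorem lc1_unit {V : ValuationSubring Ω} {t : Ω} (ht : V.valuation t < 1) {A₀ : Ω} {i : ℕ} (hi : 1 ≤ i)
    (h : V.valuation (A₀ - 1) ≤ V.valuation t ^ i) : V.valuation A₀ = 1 := by
  have h1 : V.valuation (A₀ - 1) < 1 := by
    refine h.trans_lt (lt_of_le_of_lt (lc1_pow_le ht hi) ?_)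
    rw [pow_one]
    exact ht
  have h2 := Valuation.map_one_add_of_lt V.valuation h1
  have e : 1 + (A₀ - 1) = A₀ := by ring
  rwa [e] at h2

theorem lc1_ne {V : ValuationSubring Ω} {A₀ : Ω} (h : V.valuation A₀ = 1) : A₀ ≠ 0 := by
  rintro rfl
  rw [map_zero] at h
  exact zero_ne_one h

theorem lc1_pow_sub {V : ValuationSubring Ω} {r : V.ValueGroup} {x y : Ω} (hx : V.valuation x ≤ r)
    (hy : V.valuation y ≤ r) (h : V.valuation (x - y) ≤ r ^ 2) (i : ℕ) :
    V.valuation (x ^ i - y ^ i) ≤ r ^ (i + 1) := by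
  induction i with
  | zero => simp
  | succ i ih =>
    have e : x ^ (i + 1) - y ^ (i + 1) = x * (x ^ i - y ^ i) + (x - y) * y ^ i := by ring
    rw [e]
    refine Valuation.map_add_le _ ?_ ?_
    · rw [map_mul]
      calc V.valuation x * V.valuation (x ^ i - y ^ i) ≤ r * r ^ (i + 1) := mul_le_mul' hx ih
        _ = r ^ (i + 1 + 1) := by rw [pow_succ' r (i + 1)]
    · rw [map_mul, map_pow]
      calc V.valuation (x - y) * V.valuation y ^ i ≤ r ^ 2 * r ^ i :=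
            mul_le_mul' h (pow_le_pow_left' hy i)
        _ = r ^ (i + 1 + 1) := by rw [← pow_add, Nat.add_comm 2 i]

end gen

variable {π : 𝓞 F} {l : ℕ} {N : IntermediateField F Ω} {V : ValuationSubring Ω} {t : Ω} {e0 : ℕ}

omit [IsAlgClosure F Ω] in
theorem yc1_hx (R : RV A B Om j act mo ψ π l N V t e0) : Hx act π N V t := by
  obtain ⟨T, hT, -, rfl⟩ := R.base.pt
  exact Hx.tt hT

omit [DecidableEq Ω] [Algebra F Ω] [IsAlgClosure F Ω] in
/-- The value of the main term. -/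
theorem yc1_term {V : ValuationSubring Ω} (t : Ω) {a : Ω} (ha : V.valuation a ≤ 1) (i : ℕ) :
    V.valuation (a * t ^ i) ≤ V.valuation t ^ i := by
  rw [map_mul, map_pow]
  exact mul_le_of_le_one_left' ha

/-- m/z^l is at most 1 away from 1 by the value of t^i. -/
theorem yc1_one {V : ValuationSubring Ω} {t : Ω} (ht : V.valuation t < 1) {A₀ : Ω} {a : Ω}
    (ha : V.valuation a ≤ 1) {i : ℕ}
    (h : V.valuation (A₀ - 1 - a * t ^ i) ≤ V.valuation t ^ (i + 1)) :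
    V.valuation (A₀ - 1) ≤ V.valuation t ^ i := by
  have e : A₀ - 1 = (A₀ - 1 - a * t ^ i) + a * t ^ i := by ring
  rw [e]
  exact Valuation.map_add_le _ (h.trans (lc1_pow_le ht (Nat.le_succ i))) (yc1_term t ha i)

theorem yc1_small (R : RV A B Om j act mo ψ π l N V t e0) {d : Ω} (hN : d ∈ N) (hd : V.valuation d < 1) (i : ℕ) :
    V.valuation (d * t ^ i) ≤ V.valuation t ^ (i + 1) := by
  obtain ⟨-, -, ht1, ht0, -, -⟩ := R.base.val_l
  refine R.step ((Hx.of_mem hN).mul ((yc1_hx R).pow i)) ?_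
  rw [map_mul, map_pow]
  exact mul_lt_of_lt_one_left (pow_pos (zero_lt_iff.2 ht0) i) hd

/-- Chunk YC1 (M), PORT of H13Z/LC1.lean to the base field N: coefficients a in N with V a ≤ 1 in place of elements of 𝓞 F (π | a becomes V a < 1). -/
theorem RV.co_exists (R : RV A B Om j act mo ψ π l N V t e0) {m : Ω} (hm : Hx act π N V m) {i : ℕ}
    (h : Lv act π l N V (V.valuation t ^ i) m) : ∃ a : Ω, Co act π l N V t i m a := by
  obtain ⟨-, -, ht1, ht0, -, -⟩ := R.base.val_l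
  obtain ⟨z, hz, z0, h1⟩ := h
  have htx := yc1_hx R
  have t0 : t ^ i ≠ 0 := by
    intro h2
    apply pow_ne_zero i ht0
    rw [← map_pow, h2, map_zero]
  have hx : Hx act π N V ((m / z ^ l - 1) / t ^ i) := ((hm.div (hz.pow l)).sub Hx.one).div (htx.pow i)
  have hx1 : V.valuation ((m / z ^ l - 1) / t ^ i) ≤ 1 := by
    rw [map_div₀, map_pow]
    exact div_le_one_of_le₀ h1 zero_le
  obtain ⟨a, haN, ha1, ha⟩ := R.residue hx hx1
  refine ⟨a, ⟨haN, ha1⟩, z, hz, z0, ?_⟩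
  refine R.step (((hm.div (hz.pow l)).sub Hx.one).sub ((Hx.of_mem haN).mul (htx.pow i))) ?_
  have e : m / z ^ l - 1 - a * t ^ i = ((m / z ^ l - 1) / t ^ i - a) * t ^ i := by
    rw [sub_mul, div_mul_cancel₀ _ t0]
  rw [e, map_mul, map_pow]
  exact mul_lt_of_lt_one_left (pow_pos (zero_lt_iff.2 ht0) i) ha

theorem RV.co_unique (R : RV A B Om j act mo ψ π l N V t e0) {m : Ω} (h0 : m ≠ 0) {i : ℕ} (hi : 1 ≤ i) (h2 : i < l * e0)
    (h3 : ¬ l ∣ i) {a a' : Ω} (h : Co act π l N V t i m a) (h' : Co act π l N V t i m a') :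
    V.valuation (a - a') < 1 := by
  obtain ⟨-, -, ht1, ht0, -, -⟩ := R.base.val_l
  obtain ⟨⟨-, ha⟩, z, hz, z0, h4⟩ := h
  obtain ⟨⟨-, ha'⟩, z', hz', z0', h4'⟩ := h'
  set A₀ := m / z ^ l with hA
  set A' := m / z' ^ l with hA'
  have h5 := yc1_one ht1 ha h4
  have h5' := yc1_one ht1 ha' h4'
  have h6' := lc1_unit ht1 hi h5'
  have n' := lc1_ne h6'
  have e1 : (z' / z) ^ l - 1 = (A₀ - A') / A' := by
    have e2 : (z' / z) ^ l = A₀ / A' := by
      rw [hA, hA', div_pow]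
      have := pow_ne_zero l z0
      have := pow_ne_zero l z0'
      field_simp
    rw [e2, sub_div, div_self n']
  have e3 : V.valuation ((z' / z) ^ l - 1) = V.valuation (A₀ - A') := by
    rw [e1, map_div₀, h6', div_one]
  have h7 : V.valuation (A₀ - A') ≤ V.valuation t ^ i := by
    have e : A₀ - A' = (A₀ - 1) - (A' - 1) := by ring
    rw [e]
    exact Valuation.map_sub_le _ h5 h5'
  have h8 := R.pow_unit (hz'.div hz) hi h2 h3 (e3.le.trans h7)
  rw [e3] at h8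
  have h9 : V.valuation ((a - a') * t ^ i) ≤ V.valuation t ^ (i + 1) := by
    have e : (a - a') * t ^ i = (A₀ - A') -
        ((A₀ - 1 - a * t ^ i) - (A' - 1 - a' * t ^ i)) := by
      ring
    rw [e]
    exact Valuation.map_sub_le _ h8 (Valuation.map_sub_le _ h4 h4')
  rw [map_mul, map_pow, pow_succ', mul_le_mul_iff_left₀ (pow_pos (zero_lt_iff.2 ht0) i)] at h9
  exact h9.trans_lt ht1

theorem RV.co_mul (R : RV A B Om j act mo ψ π l N V t e0) {m m' z : Ω} {i : ℕ} (hi : 1 ≤ i) {a a' : Ω}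
    (h : Co act π l N V t i m a) (h' : Co act π l N V t i m' a') (hz : Hx act π N V z) (h0 : z ≠ 0) :
    Co act π l N V t i (m * m' * z ^ l) (a + a') := by
  obtain ⟨-, -, ht1, ht0, -, -⟩ := R.base.val_l
  obtain ⟨⟨haN, ha⟩, z1, hz1, z10, h4⟩ := h
  obtain ⟨⟨haN', ha'⟩, z2, hz2, z20, h4'⟩ := h'
  refine ⟨⟨N.add_mem haN haN', Valuation.map_add_le _ ha ha'⟩, z1 * z2 * z, (hz1.mul hz2).mul hz,
    mul_ne_zero (mul_ne_zero z10 z20) h0, ?_⟩
  set A₀ := m / z1 ^ l with hA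
  set A' := m' / z2 ^ l with hA'
  have e1 : m * m' * z ^ l / (z1 * z2 * z) ^ l = A₀ * A' := by
    rw [hA, hA', mul_pow, mul_pow]
    have := pow_ne_zero l z10
    have := pow_ne_zero l z20
    have := pow_ne_zero l h0
    field_simp
  have h5 := yc1_one ht1 ha h4
  have h5' := yc1_one ht1 ha' h4'
  have e2 : A₀ * A' - 1 - (a + a') * t ^ i = (A₀ - 1) * (A' - 1) +
      ((A₀ - 1 - a * t ^ i) + (A' - 1 - a' * t ^ i)) := by
    ring
  rw [e1, e2]
  refine Valuation.map_add_le _ ?_ (Valuation.map_add_le _ h4 h4')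
  rw [map_mul]
  calc V.valuation (A₀ - 1) * V.valuation (A' - 1) ≤ V.valuation t ^ i * V.valuation t ^ i :=
        mul_le_mul' h5 h5'
    _ = V.valuation t ^ (i + i) := by rw [pow_add]
    _ ≤ V.valuation t ^ (i + 1) := lc1_pow_le ht1 (by omega)

/-- b in 𝓞 F; the new coefficient is a b^i in N. -/
theorem RV.co_act (R : RV A B Om j act mo ψ π l N V t e0) {m z : Ω} {i : ℕ} {a : Ω} {b : 𝓞 F} (h : Co act π l N V t i m a)
    {s : Ω ≃ₐ[F] Ω} (hs : DecN N V s) (hb : ∀ T ∈ Tor act π, ac (WAB A B) s T = act b T)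
    (hz : Hx act π N V z) (h0 : z ≠ 0) :
    Co act π l N V t i (s m * z ^ l) (a * algebraMap F Ω (b : F) ^ i) := by
  have : Algebra.IsAlgebraic F Ω := IsAlgClosure.isAlgebraic
  obtain ⟨-, -, ht1, ht0, -, -⟩ := R.base.val_l
  obtain ⟨⟨haN, ha⟩, z1, hz1, z10, h4⟩ := h
  have z10' : s z1 ≠ 0 := by
    intro h5
    exact z10 (s.injective (h5.trans (map_zero s).symm))
  have hbV : V.valuation (algebraMap F Ω (b : F)) ≤ 1 := vo_le V b
  refine ⟨⟨N.mul_mem haN (pow_mem (N.algebraMap_mem _) i), ?_⟩, s z1 * z, (hz1.dec R.base.D.cma hs).mul hz,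
    mul_ne_zero z10' h0, ?_⟩
  · rw [map_mul, map_pow]
    exact mul_le_one' ha (pow_le_one' hbV i)
  set A₀ := m / z1 ^ l with hA
  have e1 : s m * z ^ l / (s z1 * z) ^ l = s A₀ := by
    rw [hA, map_div₀, map_pow, mul_pow]
    have := pow_ne_zero l z10'
    have := pow_ne_zero l h0
    field_simp
  have hsa : s a = a := (IntermediateField.mem_fixingSubgroup_iff N s).1 hs.1 a haN
  have h5 : V.valuation (s A₀ - 1 - a * (s t) ^ i) ≤ V.valuation t ^ (i + 1) := by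
    have e2 : s A₀ - 1 - a * (s t) ^ i = s (A₀ - 1 - a * t ^ i) := by
      rw [map_sub, map_sub, map_mul, map_pow, map_one, hsa]
    rw [e2, Dec.val hs.2]
    exact h4
  have h6 : V.valuation ((s t) ^ i - (algebraMap F Ω (b : F) * t) ^ i) ≤ V.valuation t ^ (i + 1) := by
    refine lc1_pow_sub (Dec.val hs.2 t).le ?_ (R.base.act_t hb) i
    rw [map_mul]
    exact mul_le_of_le_one_left' hbV
  have e3 : s A₀ - 1 - a * algebraMap F Ω (b : F) ^ i * t ^ i =
      (s A₀ - 1 - a * (s t) ^ i) +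
        a * ((s t) ^ i - (algebraMap F Ω (b : F) * t) ^ i) := by
    ring
  rw [e1, e3]
  refine Valuation.map_add_le _ h5 ?_
  rw [map_mul]
  exact (mul_le_of_le_one_left' ha).trans h6

theorem RV.co_inv (R : RV A B Om j act mo ψ π l N V t e0) {m : Ω} (h0 : m ≠ 0) {i : ℕ} (hi : 1 ≤ i) {a : Ω}
    (h : Co act π l N V t i m a) : Co act π l N V t i m⁻¹ (-a) := by
  obtain ⟨-, -, ht1, ht0, -, -⟩ := R.base.val_l
  obtain ⟨⟨haN, ha⟩, z1, hz1, z10, h4⟩ := h
  refine ⟨⟨N.neg_mem haN, by rw [Valuation.map_neg]; exact ha⟩, z1⁻¹, hz1.inv, inv_ne_zero z10, ?_⟩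
  set A₀ := m / z1 ^ l with hA
  have e1 : m⁻¹ / z1⁻¹ ^ l = A₀⁻¹ := by
    rw [hA, inv_pow, inv_div, div_inv_eq_mul, div_eq_mul_inv, mul_comm]
  have h5 := yc1_one ht1 ha h4
  have h6 := lc1_unit ht1 hi h5
  have n := lc1_ne h6
  have e2 : A₀⁻¹ - 1 - -a * t ^ i =
      (a * t ^ i * (A₀ - 1) - (A₀ - 1 - a * t ^ i)) / A₀ := by
    field_simp
    ring
  rw [e1, e2, map_div₀, h6, div_one]
  refine Valuation.map_sub_le _ ?_ h4
  rw [map_mul]
  calc V.valuation (a * t ^ i) * V.valuation (A₀ - 1) ≤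
        V.valuation t ^ i * V.valuation t ^ i := mul_le_mul' (yc1_term t ha i) h5
    _ = V.valuation t ^ (i + i) := by rw [pow_add]
    _ ≤ V.valuation t ^ (i + 1) := lc1_pow_le ht1 (by omega)

theorem RV.co_cong (R : RV A B Om j act mo ψ π l N V t e0) {m : Ω} {i : ℕ} {a a' : Ω} (h : Co act π l N V t i m a)
    (ha' : a' ∈ N) (hd : V.valuation (a - a') < 1) : Co act π l N V t i m a' := by
  obtain ⟨⟨haN, ha⟩, z1, hz1, z10, h4⟩ := h
  have ha1 : V.valuation a' ≤ 1 := by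
    have e : a' = a - (a - a') := by ring
    rw [e]
    exact Valuation.map_sub_le _ ha hd.le
  refine ⟨⟨ha', ha1⟩, z1, hz1, z10, ?_⟩
  have e : m / z1 ^ l - 1 - a' * t ^ i =
      (m / z1 ^ l - 1 - a * t ^ i) + (a - a') * t ^ i := by
    ring
  rw [e]
  exact Valuation.map_add_le _ h4 (yc1_small R (N.sub_mem haN ha') hd i)

theorem RV.co_zero (R : RV A B Om j act mo ψ π l N V t e0) {m : Ω} {i : ℕ} {a : Ω} (h : Co act π l N V t i m a)
    (hd : V.valuation a < 1) : Lv act π l N V (V.valuation t ^ (i + 1)) m := by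
  obtain ⟨⟨haN, ha⟩, z1, hz1, z10, h4⟩ := h
  refine ⟨z1, hz1, z10, ?_⟩
  have e : m / z1 ^ l - 1 = (m / z1 ^ l - 1 - a * t ^ i) + a * t ^ i := by ring
  rw [e]
  exact Valuation.map_add_le _ h4 (yc1_small R haN hd i)

end H13X
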