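import Mathlib
import Pool.Agent.Lib.H13X.XU
import Pool.Agent.Lib.H13Z.LPA

/-! # H13X: port of H13Z/LPA -/

open NumberField IsDedekindDomain WeierstrassCurve

namespace H13X

open H55P (IQ embF eF LF Per IsHecke Pt ac Inert Dec Nm Coc)
open H35P (WAB Ker tt)
open H55K (Tor ak xc yc CMA Dta GV GMod cj cj_cj mul_cj cj_prime cj_dvd cj_nat Nm_cj Nm_mul Nm_nat)
open H55K.S
open H13S (Abv)




variable {F : Type} [Field F] [NumberField F] [IQ F] {A B : F} {Om : ℂ} {Ω : Type} [Field Ω] [DecidableEq Ω]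
  [Algebra F Ω] {j : Ω →+* ℂ} {act : 𝓞 F →+* AddMonoid.End (Pt (WAB A B) Ω)} {mo : Ideal (𝓞 F)}
  {ψ : Ideal (𝓞 F) →*₀ 𝓞 F}

/-- Chunk LPA (S/M), pure algebra. K = 𝓞 F/π is a field with l or l^2 elements, x → x^i is an additive and multiplicative map, so a ring homomorphism f : K → K; for x in K the polynomial (X - x)(X - x^l) (or X - x if Nm π = l) has coefficients fixed by Frobenius, that is in the prime field (natural numbers), so f x is a root of it:
f x = x or f x = x^l. For a generator x of K^*: q - 1 divides i - 1 or i - l. If Nm π = l: x^l = x, so q - 1 = l - 1 divides i - 1. -/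
theorem pow_add_class {π : 𝓞 F} {l : ℕ} (D : Dat A B Om j act mo ψ π l) {i : ℕ} (hi : 1 ≤ i)
    (h : ∀ x y : 𝓞 F, π ∣ (x + y) ^ i - x ^ i - y ^ i) :
    ((Nm π : ℤ) - 1) ∣ (i : ℤ) - 1 ∨ (Nm π = l ^ 2 ∧ ((Nm π : ℤ) - 1) ∣ (i : ℤ) - l) := by
  have hfp : Fact l.Prime := ⟨D.hl⟩
  have hmax := xu_max D.pr
  let _ : Field (𝓞 F ⧸ Ideal.span {π}) := Ideal.Quotient.field _
  let q : 𝓞 F →+* 𝓞 F ⧸ Ideal.span {π} := Ideal.Quotient.mk _
  have hq : Function.Surjective q := Ideal.Quotient.mk_surjective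
  have hk : ∀ x, q x = 0 ↔ π ∣ x := by
    intro x
    rw [← Ideal.mem_span_singleton]
    exact Ideal.Quotient.eq_zero_iff_mem
  have hcd : Nat.card (𝓞 F ⧸ Ideal.span {π}) = Nm π := H55K.k10_card q hq hk
  have hNm : Nm π = l ∨ Nm π = l ^ 2 := by
    rcases dichotomy D.hl D.dta.unr D.pr D.dvd with h1 | h1
    · exact Or.inr h1.2.1
    · exact Or.inl h1.2.2.1
  have hl1 := D.hl.pos
  have hNpos : Nm π ≠ 0 := by
    rcases hNm with h1 | h1
    · rw [h1]; omega
    · rw [h1]; positivity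
  have hfin : Finite (𝓞 F ⧸ Ideal.span {π}) := Nat.finite_of_card_ne_zero (by rw [hcd]; exact hNpos)
  have hchar : CharP (𝓞 F ⧸ Ideal.span {π}) l := by
    rw [CharP.charP_iff_prime_eq_zero D.hl]
    have h1 := (hk (l : 𝓞 F)).2 D.dvd
    rwa [map_natCast] at h1
  let f : (𝓞 F ⧸ Ideal.span {π}) →+* (𝓞 F ⧸ Ideal.span {π}) :=
    { toFun := fun x => x ^ i
      map_one' := one_pow i
      map_mul' := fun x y => mul_pow x y i
      map_zero' := zero_pow (by omega)
      map_add' := fun x y => by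
        obtain ⟨a, rfl⟩ := hq x
        obtain ⟨b, rfl⟩ := hq y
        have h1 := (hk _).2 (h a b)
        rw [map_sub, map_sub, map_pow, map_pow, map_pow, map_add, sub_sub, sub_eq_zero] at h1
        exact h1 }
  have h1 := H13Z.lpa_field f (fun x => rfl) (l := l) (i := i) (by rw [hcd]; exact hNm)
  rw [hcd] at h1
  exact h1

end H13X
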