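import Mathlib
import Pool.Agent.Lib.H13X.XC1
import Pool.Agent.Lib.H13X.XPA

/-! # H13X: port of H13Y/YC2 -/

open NumberField IsDedekindDomain WeierstrassCurve

namespace H13X

open H55P (IQ embF eF LF Per IsHecke Pt ac Inert Dec Nm Coc)
open H35P (WAB Ker tt)
open H55K (Tor ak xc yc CMA Dta GV GMod cj cj_cj mul_cj cj_prime cj_dvd cj_nat Nm_cj Nm_mul Nm_nat)
open H55K.S
open H13S (Abv)





variable {F : Type} [Field F] [NumberField F] [IQ F] {A B : F} {Om : ℂ} {Ω : Type} [Field Ω] [DecidableEq Ω]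
  [Algebra F Ω] [IsAlgClosure F Ω] {j : Ω →+* ℂ} {act : 𝓞 F →+* AddMonoid.End (Pt (WAB A B) Ω)} {mo : Ideal (𝓞 F)}
  {ψ : Ideal (𝓞 F) →*₀ 𝓞 F}

variable {π : 𝓞 F} {l : ℕ} {N : IntermediateField F Ω} {V : ValuationSubring Ω} {t : Ω} {e0 : ℕ}

/-- Chunk YC2 (M), PORT of H13Z/LC2.lean, LC3.lean, LC5.lean to the base field N. The inertia elements of RV.exists_inert R.base are in DecN (R.dec). -/
theorem RV.lin (R : RV A B Om j act mo ψ π l N V t e0) {m : Pt (WAB A B) Ω → Ω} (hm : Sys act π l N V m) {T₀ : Pt (WAB A B) Ω}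
    (hT : T₀ ∈ Tor act π) {i : ℕ} (hi : 1 ≤ i) {a : Ω} (h : Co act π l N V t i (m T₀) a) (x : 𝓞 F) :
    Co act π l N V t i (m (act x T₀)) (a * algebraMap F Ω (x : F) ^ i) := by
  by_cases hx : π ∣ x
  · have e0 : act x T₀ = 0 := by
      obtain ⟨k, rfl⟩ := hx
      rw [mul_comm, act_mul, mem_Tor.1 hT, map_zero]
    rw [e0]
    have hT0 : (0 : Pt (WAB A B) Ω) ∈ Tor act π := AddSubgroup.zero_mem _
    have hm0 := hm.ne 0 hT0
    obtain ⟨z, hz, z0, h1⟩ := hm.add 0 hT0 0 hT0
    rw [add_zero] at h1
    have h2 : m 0 * z ^ l = 1 := by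
      have h3 : m 0 * (m 0 * z ^ l) = m 0 * 1 := by
        rw [mul_one, ← mul_assoc]
        exact h1.symm
      exact mul_left_cancel₀ hm0 h3
    have h3 : Co act π l N V t i (m 0) 0 := by
      refine ⟨⟨N.zero_mem, by rw [map_zero]; exact zero_le⟩, z⁻¹, hz.inv, inv_ne_zero z0, ?_⟩
      have e1 : m 0 / z⁻¹ ^ l = 1 := by
        rw [inv_pow, div_inv_eq_mul, h2]
      rw [e1, zero_mul, sub_self, sub_self, map_zero]
      exact zero_le
    have hxV : V.valuation (algebraMap F Ω (x : F)) < 1 := (R.base.vo_lt x).2 hx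
    refine R.co_cong h3 (N.mul_mem h.1.1 (pow_mem (N.algebraMap_mem _) i)) ?_
    rw [zero_sub, Valuation.map_neg, map_mul, map_pow]
    exact (mul_le_of_le_one_left' h.1.2).trans_lt (pow_lt_one₀ zero_le hxV (by omega))
  · obtain ⟨s, hs, hsT⟩ := R.base.exists_inert hx
    obtain ⟨z, hz, z0, h1⟩ := hm.gal s (R.dec hs) T₀ hT
    rw [← hsT T₀ hT, h1]
    exact R.co_act h (R.dec hs) hsT hz z0

theorem RV.pow_add (R : RV A B Om j act mo ψ π l N V t e0) {m : Pt (WAB A B) Ω → Ω} (hm : Sys act π l N V m) {T₀ : Pt (WAB A B) Ω}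
    (hT : T₀ ∈ Tor act π) {i : ℕ} (hi : 1 ≤ i) (h2 : i < l * e0) (h3 : ¬ l ∣ i) {a : Ω}
    (h : Co act π l N V t i (m T₀) a) (ha : V.valuation a = 1) (x y : 𝓞 F) :
    π ∣ (x + y) ^ i - x ^ i - y ^ i := by
  have hx := R.lin hm hT hi h x
  have hy := R.lin hm hT hi h y
  have hxy := R.lin hm hT hi h (x + y)
  obtain ⟨z, hz, z0, h1⟩ := hm.add _ (act_tor hT) _ (act_tor hT)
  have h4 := R.co_mul hi hx hy hz z0
  rw [← h1, ← act_add] at h4
  have h5 := R.co_unique (hm.ne _ (act_tor hT)) hi h2 h3 hxy h4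
  have e : a * algebraMap F Ω ((x + y : 𝓞 F) : F) ^ i -
      (a * algebraMap F Ω (x : F) ^ i + a * algebraMap F Ω (y : F) ^ i) =
      a * algebraMap F Ω (((x + y) ^ i - x ^ i - y ^ i : 𝓞 F) : F) := by
    rw [lc1_sub, lc1_sub, lc1_pow, lc1_pow, lc1_pow]
    ring
  rw [e, map_mul, ha, one_mul] at h5
  exact (R.base.vo_lt _).1 h5

theorem yc2_lt {a : Ω} (ha : V.valuation a < 1) (x : 𝓞 F) (i : ℕ) :
    V.valuation (a * algebraMap F Ω (x : F) ^ i) < 1 := by
  have h1 : V.valuation (algebraMap F Ω (x : F)) ≤ 1 := vo_le V x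
  rw [map_mul, map_pow]
  exact (mul_le_of_le_one_right' (pow_le_one' h1 i)).trans_lt ha

theorem RV.levels (R : RV A B Om j act mo ψ π l N V t e0) {m : Pt (WAB A B) Ω → Ω} (hm : Sys act π l N V m) {n : ℕ}
    (hn : Nm π = l ∧ n = l ∨ Nm π = l ^ 2 ∧ n = l ^ 2 + l - 1)
    (h : ∀ T ∈ Tor act π, Lv act π l N V (V.valuation t ^ 2) (m T)) :
    ∀ T ∈ Tor act π, Lv act π l N V (V.valuation t ^ n) (m T) := by
  have h5 := R.base.D.five
  have hcase := R.base.val_l.2.2.2.2.2
  have hn2 : 2 ≤ n := by
    rcases hn with ⟨-, h1⟩ | ⟨-, h1⟩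
    · omega
    · have : l ≤ l ^ 2 := Nat.le_self_pow (by norm_num) l
      omega
  have key : ∀ i, 2 ≤ i → i ≤ n → ∀ T ∈ Tor act π, Lv act π l N V (V.valuation t ^ i) (m T) := by
    intro i hi2
    induction i, hi2 using Nat.le_induction with
    | base => exact fun _ => h
    | succ i hi ih =>
      intro hin T hT
      have ih' := ih (by omega)
      have hi1 : 1 ≤ i := by omega
      have hie : i < l * e0 := by
        rcases hn with ⟨h1, h2⟩ | ⟨h1, h2⟩
        · rcases hcase with ⟨-, h4⟩ | ⟨h3, -, -⟩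
          · rw [h4]
            omega
          · exfalso
            rw [h1] at h3
            have : l * 1 < l * l := Nat.mul_lt_mul_of_pos_left (by omega) (by omega)
            rw [sq] at h3
            omega
        · rcases hcase with ⟨h3, -⟩ | ⟨-, h4, -⟩
          · exfalso
            rw [h1] at h3
            have : l * 1 < l * l := Nat.mul_lt_mul_of_pos_left (by omega) (by omega)
            rw [sq] at h3
            omega
          · rw [h4, mul_add, mul_one, ← sq]
            omega
      by_cases hli : l ∣ i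
      · obtain ⟨j, rfl⟩ := hli
        have hj : 1 ≤ j := by
          rcases Nat.eq_zero_or_pos j with h6 | h6
          · rw [h6] at hi
            omega
          · exact h6
        exact R.raise_mul (hm.fx T hT) (hm.ne T hT) hj (lt_of_mul_lt_mul_left hie (Nat.zero_le l))
          (ih' T hT)
      · obtain ⟨-, T₀, hT₀, hgen, -⟩ := gi_gen R.base.D.cma π R.base.D.pr
        obtain ⟨a, ha⟩ := R.co_exists (hm.fx T₀ hT₀) (ih' T₀ hT₀)
        by_cases hpa : V.valuation a < 1
        · obtain ⟨x, rfl⟩ := hgen T hT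
          exact R.co_zero (R.lin hm hT₀ hi1 ha x) (yc2_lt hpa x i)
        · exfalso
          have h7 := pow_add_class R.base.D hi1
            (R.pow_add hm hT₀ hi1 hie hli ha (le_antisymm ha.1.2 (not_lt.1 hpa)))
          rcases hn with ⟨h1, h2⟩ | ⟨h1, h2⟩
          · rcases h7 with h8 | ⟨h8, -⟩
            · rw [h1] at h8
              have h9 := Int.le_of_dvd (by omega) h8
              omega
            · rw [h1] at h8
              have : l * 1 < l * l := Nat.mul_lt_mul_of_pos_left (by omega) (by omega)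
              rw [sq] at h8
              omega
          · have hll : l * 5 ≤ l * l := Nat.mul_le_mul_left l h5
            rw [sq] at h1 h2
            rw [h1] at h7
            rcases h7 with h8 | ⟨-, h8⟩
            · obtain ⟨k, hk⟩ := h8
              have hk1 : k = 1 := by
                have e1 : 0 < (i : ℤ) - 1 := by omega
                have e2 : (i : ℤ) - 1 < 2 * (((l * l : ℕ) : ℤ) - 1) := by omega
                have e3 : 0 < ((l * l : ℕ) : ℤ) - 1 := by omega
                have e4 : 0 < k := by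
                  by_contra h9
                  have : (((l * l : ℕ) : ℤ) - 1) * k ≤ 0 :=
                    mul_nonpos_of_nonneg_of_nonpos e3.le (not_lt.1 h9)
                  omega
                have e5 : k < 2 := by
                  by_contra h9
                  have : (((l * l : ℕ) : ℤ) - 1) * 2 ≤ (((l * l : ℕ) : ℤ) - 1) * k :=
                    mul_le_mul_of_nonneg_left (not_lt.1 h9) e3.le
                  omega
                omega
              rw [hk1, mul_one] at hk
              apply hli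
              have : i = l * l := by omega
              rw [this]
              exact dvd_mul_right l l
            · obtain ⟨k, hk⟩ := h8
              have hk1 : k = 0 := by
                have e1 : -(((l * l : ℕ) : ℤ) - 1) < (i : ℤ) - l := by omega
                have e2 : (i : ℤ) - l < ((l * l : ℕ) : ℤ) - 1 := by omega
                have e3 : 0 < ((l * l : ℕ) : ℤ) - 1 := by omega
                have e4 : -1 < k := by
                  by_contra h9
                  have : (((l * l : ℕ) : ℤ) - 1) * k ≤ (((l * l : ℕ) : ℤ) - 1) * (-1) :=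
                    mul_le_mul_of_nonneg_left (not_lt.1 h9) e3.le
                  omega
                have e5 : k < 1 := by
                  by_contra h9
                  have : (((l * l : ℕ) : ℤ) - 1) * 1 ≤ (((l * l : ℕ) : ℤ) - 1) * k :=
                    mul_le_mul_of_nonneg_left (not_lt.1 h9) e3.le
                  omega
                omega
              rw [hk1, mul_zero] at hk
              apply hli
              have : i = l := by omega
              rw [this]
  exact key n hn2 le_rfl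

/-- If the coefficient at T₀ ≠ 0 (a generator) has value < 1 the level is raised for all T (lin, gi_gen / PA1_gen, co_zero). -/
theorem RV.up (R : RV A B Om j act mo ψ π l N V t e0) {m : Pt (WAB A B) Ω → Ω} (hm : Sys act π l N V m) {T₀ : Pt (WAB A B) Ω}
    (hT : T₀ ∈ Tor act π) (h0 : T₀ ≠ 0) {i : ℕ} (hi : 1 ≤ i) {a : Ω} (h : Co act π l N V t i (m T₀) a)
    (ha : V.valuation a < 1) : ∀ T ∈ Tor act π, Lv act π l N V (V.valuation t ^ (i + 1)) (m T) := by
  intro T hT'
  obtain ⟨x, rfl⟩ := (PA1_gen R.base.D.cma π R.base.D.pr T₀ hT h0).1 T hT'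
  exact R.co_zero (R.lin hm hT hi h x) (yc2_lt ha x i)

theorem RV.top (R : RV A B Om j act mo ψ π l N V t e0) {m y : Ω} (hm : Hx act π N V m) (hy : y ^ l = m)
    (h : Lv act π l N V (V.valuation t ^ (l * e0)) m) {s : Ω ≃ₐ[F] Ω} (hs : Inert V s)
    (hT : ∀ T ∈ Tor act π, ac (WAB A B) s T = T) : s y = y := by
  have hchar : CharZero Ω := charZero_of_injective_algebraMap (algebraMap F Ω).injective
  obtain ⟨z, hz, hz0, hv⟩ := h
  obtain ⟨v1, v2, v3, v4, v5, v6⟩ := R.base.val_l
  have hDT : DT act π N V s := ⟨R.dec hs, hT⟩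
  have hsm : s m = m := hm s hDT
  have hsz : s z = z := hz s hDT
  have hst : s t = t := yc1_hx R s hDT
  have h1 := H13Z.fix_eq V R.base.D.hl (by have := R.base.D.five; omega)
    (by rw [v1]; exact R.base.above)
    (τ := t ^ e0) (u := m / z ^ l) (y := y / z) (by rw [map_pow, ← pow_mul]; exact v5)
    (by rw [div_pow, hy]) (by rw [map_pow, ← pow_mul, mul_comm e0]; exact hv) hs
    (by rw [map_pow, hst]) (by rw [map_div₀, map_pow, hsm, hsz])
  rw [map_div₀, hsz] at h1
  exact (div_left_inj' hz0).1 h1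

/-- The quotient of two systems is a system (as in RV.compare, LC4.lean, without act b). -/
theorem Sys.div {m m₁ : Pt (WAB A B) Ω → Ω} (hm : Sys act π l N V m) (hm₁ : Sys act π l N V m₁) :
    Sys act π l N V fun T => m T / m₁ T := by
  refine ⟨fun T hT => div_ne_zero (hm.ne T hT) (hm₁.ne T hT),
    fun T hT => (hm.fx T hT).div (hm₁.fx T hT), fun T hT T' hT' => ?_, fun s hs T hT => ?_⟩
  · obtain ⟨z, hz, z0, h1⟩ := hm.add T hT T' hT'
    obtain ⟨z', hz', z0', h1'⟩ := hm₁.add T hT T' hT'
    refine ⟨z / z', hz.div hz', div_ne_zero z0 z0', ?_⟩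
    show m (T + T') / m₁ (T + T') = m T / m₁ T * (m T' / m₁ T') * (z / z') ^ l
    rw [h1, h1', div_pow]
    have := hm₁.ne T hT
    have := hm₁.ne T' hT'
    have := pow_ne_zero l z0'
    field_simp
  · obtain ⟨z, hz, z0, h1⟩ := hm.gal s hs T hT
    obtain ⟨z', hz', z0', h1'⟩ := hm₁.gal s hs T hT
    refine ⟨z / z', hz.div hz', div_ne_zero z0 z0', ?_⟩
    show m (ac (WAB A B) s T) / m₁ (ac (WAB A B) s T) = s (m T / m₁ T) * (z / z') ^ l
    have h2 : s (m₁ T) ≠ 0 := by
      rw [Ne, map_eq_zero_iff s s.injective]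
      exact hm₁.ne T hT
    rw [h1, h1', div_pow, map_div₀]
    have := pow_ne_zero l z0'
    field_simp

end H13X
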