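import Mathlib
import Pool.Agent.Lib.H13X.XG

/-! # H13X: port of H13Y/YK -/

open NumberField IsDedekindDomain WeierstrassCurve

namespace H13X

open H55P (IQ embF eF LF Per IsHecke Pt ac Inert Dec Nm Coc)
open H35P (WAB Ker tt)
open H55K (Tor ak xc yc CMA Dta GV GMod cj cj_cj mul_cj cj_prime cj_dvd cj_nat Nm_cj Nm_mul Nm_nat)
open H55K.S
open H13S (Abv)





variable {F : Type} [Field F] [NumberField F] [IQ F] {A B : F} {Om : ℂ} {Ω : Type} [Field Ω] [DecidableEq Ω]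
  [Algebra F Ω] {j : Ω →+* ℂ} {act : 𝓞 F →+* AddMonoid.End (Pt (WAB A B) Ω)} {mo : Ideal (𝓞 F)}
  {ψ : Ideal (𝓞 F) →*₀ 𝓞 F}

variable {π : 𝓞 F} {l : ℕ} {N : IntermediateField F Ω} {V : ValuationSubring Ω} {e : Pt (WAB A B) Ω → Pt (WAB A B) Ω → Ω} {c : (Ω ≃ₐ[F] Ω) → Pt (WAB A B) Ω}
  {y : Pt (WAB A B) Ω → Ω}

theorem lk_ne (D : Dat A B Om j act mo ψ π l) (he : Pairing A B act π l e) {X T : Pt (WAB A B) Ω} (hX : X ∈ Tor act (cj π))
    (hT : T ∈ Tor act π) : e X T ≠ 0 := by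
  intro h
  have h1 := he.root X hX T hT
  rw [h, zero_pow (by have := D.five; omega)] at h1
  exact zero_ne_one h1

theorem lk_sub (D : Dat A B Om j act mo ψ π l) (he : Pairing A B act π l e) {X Y T : Pt (WAB A B) Ω} (hX : X ∈ Tor act (cj π))
    (hY : Y ∈ Tor act (cj π)) (hT : T ∈ Tor act π) : e (X - Y) T = e X T / e Y T := by
  have h1 := he.add_left (X - Y) (sub_mem hX hY) Y hY T hT
  rw [sub_add_cancel] at h1
  rw [h1, mul_div_assoc, div_self (lk_ne D he hY hT), mul_one]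

theorem lk_act (D : Dat A B Om j act mo ψ π l) (he : Pairing A B act π l e) (hc : Dc act π N V c) (hy : KS act π N V e c y)
    {σ : Ω ≃ₐ[F] Ω} (hσ : DecN N V σ) {T : Pt (WAB A B) Ω} (hT : T ∈ Tor act π) {s : Ω ≃ₐ[F] Ω} (hs : DT act π N V s) :
    s (σ (y T) / e (c σ) (ac (WAB A B) σ T)) = e (c s) (ac (WAB A B) σ T) * (σ (y T) / e (c σ) (ac (WAB A B) σ T)) := by
  have hT' := ac_mem D.cma σ hT
  have hg := lk_ne D he (hc.val σ hσ) hT'
  have hs' := DT.conj D.cma hσ hs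
  have e1 : σ * (σ⁻¹ * s * σ) = s * σ := by group
  have e2 : ac (WAB A B) σ (c (σ⁻¹ * s * σ)) = c s + ac (WAB A B) s (c σ) - c σ := by
    have h1 := hc.mul σ hσ (σ⁻¹ * s * σ) hs'.1
    rw [e1, hc.mul s hs.1 σ hσ] at h1
    rw [h1, add_sub_cancel_left]
  have e3 : s (σ (y T)) = e (c s + ac (WAB A B) s (c σ) - c σ) (ac (WAB A B) σ T) * σ (y T) := by
    have h1 : s (σ (y T)) = σ ((σ⁻¹ * s * σ) (y T)) := by
      show (s * σ) (y T) = (σ * (σ⁻¹ * s * σ)) (y T)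
      rw [e1]
    rw [h1, hy.gal T hT _ hs', map_mul, he.gal σ _ (hc.val _ hs'.1) _ hT, e2]
  have hXs := ac_mem D.cma s (hc.val σ hσ)
  have e4 : s (e (c σ) (ac (WAB A B) σ T)) = e (ac (WAB A B) s (c σ)) (ac (WAB A B) σ T) := by
    rw [he.gal s _ (hc.val σ hσ) _ hT', hs.2 _ hT']
  have hg2 := lk_ne D he hXs hT'
  rw [map_div₀, e3, e4, lk_sub D he (add_mem (hc.val s hs.1) hXs) (hc.val σ hσ) hT',
    he.add_left _ (hc.val s hs.1) _ hXs _ hT']
  field_simp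

theorem sys_of (D : Dat A B Om j act mo ψ π l) (he : Pairing A B act π l e) (hc : Dc act π N V c) (hy : KS act π N V e c y) :
    Sys act π l N V fun T => y T ^ l := by
  refine ⟨fun T hT => pow_ne_zero l (hy.ne T hT), fun T hT s hs => ?_, fun T hT T' hT' => ?_,
    fun σ hσ T hT => ?_⟩
  · rw [map_pow, hy.gal T hT s hs, mul_pow, he.root _ (hc.val s hs.1) _ hT, one_mul]
  · have h1 := hy.ne T hT
    have h2 := hy.ne T' hT'
    have h3 := hy.ne (T + T') (add_mem hT hT')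
    refine ⟨y (T + T') / (y T * y T'), fun s hs => ?_, div_ne_zero h3 (mul_ne_zero h1 h2), ?_⟩
    · have h4 := lk_ne D he (hc.val s hs.1) hT
      have h5 := lk_ne D he (hc.val s hs.1) hT'
      rw [map_div₀, map_mul, hy.gal _ (add_mem hT hT') s hs, hy.gal T hT s hs, hy.gal T' hT' s hs,
        he.add_right _ (hc.val s hs.1) _ hT _ hT']
      field_simp
    · rw [div_pow, mul_pow]
      field_simp
  · have hT' := ac_mem D.cma σ hT
    have hg := lk_ne D he (hc.val σ hσ) hT'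
    have h1 : σ (y T) ≠ 0 := by
      rw [Ne, map_eq_zero_iff σ σ.injective]
      exact hy.ne T hT
    have h2 := hy.ne _ hT'
    have h3 : σ (y T) / e (c σ) (ac (WAB A B) σ T) ≠ 0 := div_ne_zero h1 hg
    refine ⟨y (ac (WAB A B) σ T) / (σ (y T) / e (c σ) (ac (WAB A B) σ T)), fun s hs => ?_, div_ne_zero h2 h3, ?_⟩
    · have h4 := lk_ne D he (hc.val s hs.1) hT'
      rw [map_div₀, lk_act D he hc hy hσ hT hs, hy.gal _ hT' s hs, mul_div_mul_left _ _ h4]
    · show y (ac (WAB A B) σ T) ^ l = σ (y T ^ l) * _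
      rw [div_pow, div_pow, he.root _ (hc.val σ hσ) _ hT', div_one, map_pow]
      field_simp

theorem ks_sub (D : Dat A B Om j act mo ψ π l) (he : Pairing A B act π l e) (hc : Dc act π N V c) (hy : KS act π N V e c y)
    {c₁ : (Ω ≃ₐ[F] Ω) → Pt (WAB A B) Ω} {y₁ : Pt (WAB A B) Ω → Ω} (hc₁ : Dc act π N V c₁) (hy₁ : KS act π N V e c₁ y₁) :
    KS act π N V e (fun s => c s - c₁ s) (fun T => y T / y₁ T) := by
  refine ⟨fun T hT => div_ne_zero (hy.ne T hT) (hy₁.ne T hT), fun T hT s hs => ?_⟩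
  have h2 := lk_ne D he (hc₁.val s hs.1) hT
  have h3 := hy₁.ne T hT
  show s (y T / y₁ T) = e (c s - c₁ s) T * (y T / y₁ T)
  rw [map_div₀, hy.gal T hT s hs, hy₁.gal T hT s hs, lk_sub D he (hc.val s hs.1) (hc₁.val s hs.1) hT]
  field_simp

theorem c_zero (D : Dat A B Om j act mo ψ π l) (he : Pairing A B act π l e) (hc : Dc act π N V c) (hy : KS act π N V e c y) {s : Ω ≃ₐ[F] Ω}
    (hs : DT act π N V s) (h : ∀ T ∈ Tor act π, s (y T) = y T) : c s = 0 := by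
  apply he.nondeg _ (hc.val s hs.1)
  intro T hT
  have h1 := hy.gal T hT s hs
  rw [h T hT] at h1
  have h2 := hy.ne T hT
  field_simp at h1
  exact h1.symm

end H13X
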