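import Mathlib
import Pool.Agent.Lib.H13X.XG
import Pool.Agent.Lib.H55K.SLD

/-! # H13X: port of H13Z/LV -/

open NumberField IsDedekindDomain WeierstrassCurve

namespace H13X

open H55P (IQ embF eF LF Per IsHecke Pt ac Inert Dec Nm Coc)
open H35P (WAB Ker tt)
open H55K (Tor ak xc yc CMA Dta GV GMod cj cj_cj mul_cj cj_prime cj_dvd cj_nat Nm_cj Nm_mul Nm_nat)
open H55K.S
open H13S (Abv)




variable {F : Type} [Field F] [NumberField F] [IQ F] {A B : F} {Om : ℂ} {Ω : Type} [Field Ω] [DecidableEq Ω]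
  [Algebra F Ω] [IsAlgClosure F Ω] {j : Ω →+* ℂ} {act : 𝓞 F →+* AddMonoid.End (Pt (WAB A B) Ω)} {mo : Ideal (𝓞 F)}
  {ψ : Ideal (𝓞 F) →*₀ 𝓞 F}

variable {π : 𝓞 F} {l : ℕ} {V : ValuationSubring Ω} {t : Ω} {e0 : ℕ} {e : Pt (WAB A B) Ω → Pt (WAB A B) Ω → Ω}

/-- the roots of unity are in L -/
theorem lv_mu (D : Dat A B Om j act mo ψ π l) (hin : Tor act (cj π) = Tor act π) (he : Pairing A B act π l e) {B₀ L : IntermediateField F Ω}
    (hL : IsTB act π B₀ L) (ζ : Ω) (hζ : ζ ^ l = 1) : ζ ∈ L := by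
  have hl := D.hl
  obtain ⟨-, X, hX, -, hX0⟩ := gi_gen D.cma π D.pr
  have hXne : X ≠ 0 := by
    intro h
    have h1 : act (1 : 𝓞 F) X = 0 := by rw [h, map_zero]
    exact D.pr.not_isUnit (isUnit_of_dvd_one ((hX0 1).1 h1))
  have hX' : X ∈ Tor act (cj π) := by rw [hin]; exact hX
  obtain ⟨T, hT, hTe⟩ : ∃ T ∈ Tor act π, e X T ≠ 1 := by
    by_contra h
    push Not at h
    exact hXne (he.nondeg X hX' h)
  have hprim : IsPrimitiveRoot (e X T) l := by
    have : Fact l.Prime := ⟨hl⟩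
    have h1 := orderOf_eq_prime (he.root X hX' T hT) hTe
    rw [← h1]
    exact IsPrimitiveRoot.orderOf _
  have : NeZero l := ⟨hl.ne_zero⟩
  obtain ⟨i, -, hi⟩ := hprim.eq_pow_of_pow_eq_one hζ
  have hmem : e X T ∈ L := by
    apply ku2_mem
    intro s hs
    rw [he.gal s X hX' T hT, ((hL.fix s).1 hs).2 T hT, ((hL.fix s).1 hs).2 X hX]
  rw [← hi]
  exact pow_mem hmem i

theorem level_gen (D : Dat A B Om j act mo ψ π l) (hin : Tor act (cj π) = Tor act π) (hq : Nm π = l ^ 2) (he : Pairing A B act π l e)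
    {B₀ L : IntermediateField F Ω} [NumberField L] (hL : IsTB act π B₀ L) (V : ValuationSubring Ω) (hG : GV A B V)
    (hV : vo V π < 1) (hVl : V.valuation (l : Ω) = vo V π) (w : HeightOneSpectrum (𝓞 L)) (hw : Abv L V w) {P : Pt (WAB A B) Ω} (hP : Ker V P)
    (hPv : V.valuation (tt P) ^ Nm π = vo V π) (C : Cc act π B₀ fun s => ac (WAB A B) s P - P)
    (T : Pt (WAB A B) Ω) (hT : T ∈ Tor act π) (m : L) (hm : m ≠ 0) (y : Ω)
    (hyk : Kum L e (fun s => ac (WAB A B) s P - P) T y) (hy : y ^ l = (m : Ω)) :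
    ∃ z : L, z ≠ 0 ∧ w.valuation L (m / z ^ l - 1) ≤ WithZero.exp (-2 : ℤ) := by
  obtain ⟨c, hcdef⟩ : ∃ c : (Ω ≃ₐ[F] Ω) → Pt (WAB A B) Ω, c = fun s => ac (WAB A B) s P - P := ⟨_, rfl⟩
  rw [← hcdef] at C hyk
  classical
  have hchar : CharZero Ω := charZero_of_injective_algebraMap (algebraMap F Ω).injective
  have hl0 : l ≠ 0 := D.hl.ne_zero
  have hVl1 : V.valuation (l : Ω) < 1 := hVl ▸ hV
  by_contra hlev
  have hex : ∃ s ∈ L.fixingSubgroup, Inert V s ∧ s y ≠ y := by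
    by_contra hcon
    push Not at hcon
    exact hlev (H13S.level_unr L V w hw l D.hl hVl1 m hm y hy hcon)
  obtain ⟨s₁, hs1, hi1, hne1⟩ := hex
  have hTfix : ∀ s ∈ L.fixingSubgroup, ∀ R ∈ Tor act π, ac (WAB A B) s R = R := fun s hs => ((hL.fix s).1 hs).2
  have hcT : ∀ s ∈ L.fixingSubgroup, c s ∈ Tor act π := fun s hs => by
    have := C.val s (hL.mono hs)
    rwa [hin] at this
  have hc1 : c s₁ ≠ 0 := by
    intro h0
    apply hne1
    rw [hyk.2 s₁ hs1, h0, ld3_e0 hl0 he hT, one_mul]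
  have hT0 : T ≠ 0 := by
    intro h0
    apply hne1
    rw [hyk.2 s₁ hs1, h0, ld3_e0' hl0 he (C.val _ (hL.mono hs1)), one_mul]
  have hQc : ∀ h : Ω ≃ₐ[F] Ω, c h = ac (WAB A B) h P - P := fun h => by rw [hcdef]
  have hr := hPv
  have hq3 : 3 ≤ Nm π := by
    rw [hq]
    nlinarith [D.five]
  have hvr := fun R (hR : R ∈ Tor act π) (h0 : R ≠ 0) => val_ratio D.cma D.pr hq3 V hG hV P hP hr R hR h0
  have hcard : Nat.card (Tor act π) = Nm π := (gi_gen D.cma π D.pr).1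
  have hfin : Finite (Tor act π) := Nat.finite_of_card_ne_zero (by rw [hcard]; omega)
  have hV0 : vo V π ≠ 0 := by
    unfold vo
    rw [Ne, map_eq_zero, map_eq_zero]
    exact_mod_cast D.pr.ne_zero
  have hQ0 : V.valuation (tt P) ≠ 0 := by
    intro h0
    rw [h0, zero_pow (by omega)] at hr
    exact hV0 hr.symm
  -- the set J
  have hJfin : {R : Pt (WAB A B) Ω | ∃ h ∈ L.fixingSubgroup, Inert V h ∧ h y = y ∧ c h = R}.Finite := by
    refine Set.Finite.subset (Set.toFinite (Tor act π : Set (Pt (WAB A B) Ω))) ?_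
    rintro R ⟨h, hh, -, -, rfl⟩
    exact hcT h hh
  set J : Finset (Pt (WAB A B) Ω) := hJfin.toFinset with hJ
  have hJmem : ∀ R, R ∈ J ↔ ∃ h ∈ L.fixingSubgroup, Inert V h ∧ h y = y ∧ c h = R := fun R => by
    rw [hJ, Set.Finite.mem_toFinset]
    rfl
  have hJT : ∀ R ∈ J, R ∈ Tor act π := fun R hR => by
    obtain ⟨h, hh, -, -, rfl⟩ := (hJmem R).1 hR
    exact hcT h hh
  have hJcard : J.card ≤ Nm π := by
    rw [← hcard]
    have h1 : (J : Set (Pt (WAB A B) Ω)) ⊆ (Tor act π : Set (Pt (WAB A B) Ω)) := fun R hR => hJT R hR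
    calc J.card = Set.ncard (J : Set (Pt (WAB A B) Ω)) := (Set.ncard_coe_finset J).symm
      _ ≤ Set.ncard (Tor act π : Set (Pt (WAB A B) Ω)) := Set.ncard_le_ncard h1 (Set.toFinite _)
      _ = Nat.card (Tor act π) := rfl
  have hJ0 : (0 : Pt (WAB A B) Ω) ∈ J := (hJmem 0).2 ⟨1, Subgroup.one_mem _, fun x _ => by simp, rfl, C.one⟩
  have hcadd : ∀ h ∈ L.fixingSubgroup, ∀ h' ∈ L.fixingSubgroup, c (h * h') = c h + c h' := fun h hh h' hh' => by
    rw [C.mul h (hL.mono hh) h' (hL.mono hh'), hTfix h hh _ (hcT h' hh')]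
  have hcinv : ∀ h ∈ L.fixingSubgroup, c h⁻¹ = -c h := fun h hh => by
    have h1 := hcadd h hh h⁻¹ (Subgroup.inv_mem _ hh)
    rw [mul_inv_cancel, C.one] at h1
    exact (neg_eq_of_add_eq_zero_right h1.symm).symm
  -- values
  have hval : ∀ R ∈ Tor act π, V.valuation (tt (P + R)) = V.valuation (tt P) := fun R hR => by
    by_cases h0 : R = 0
    · rw [h0, add_zero]
    · exact (hvr R hR h0).1
  have htau : ∀ R ∈ Tor act π, R ≠ 0 → V.valuation (tt R) = V.valuation (tt T) := fun R hR h0 => by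
    have h1 := (kr_tor_ram D.cma hG π D.pr hV hR h0).2
    have h2 := (kr_tor_ram D.cma hG π D.pr hV hT hT0).2
    exact (pow_left_inj₀ zero_le zero_le (by omega)).1 (h1.trans h2.symm)
  have hTQ : V.valuation (tt T) < V.valuation (tt P) := (hvr T hT hT0).2.2
  have hTv : V.valuation (tt T) ^ (Nm π - 1) = vo V π := (kr_tor_ram D.cma hG π D.pr hV hT hT0).2
  have hT0' : V.valuation (tt T) ≠ 0 := by
    intro h0
    rw [h0, zero_pow (by omega)] at hTv
    exact hV0 hTv.symm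
  obtain ⟨a, ha⟩ : ∃ a, a = V.valuation (tt T) / V.valuation (tt P) := ⟨_, rfl⟩
  have ha1 : a < 1 := by
    rw [ha]
    exact (div_lt_one₀ (zero_lt_iff.2 hQ0)).2 hTQ
  have ha0 : 0 < a := by
    rw [ha, zero_lt_iff]
    exact div_ne_zero hT0' hQ0
  have haq : a ^ (Nm π * (Nm π - 1)) = vo V π := by
    have h1 : V.valuation (tt T) ^ (Nm π * (Nm π - 1)) = vo V π ^ Nm π := by
      rw [mul_comm, pow_mul, hTv]
    have h2 : V.valuation (tt P) ^ (Nm π * (Nm π - 1)) = vo V π ^ (Nm π - 1) := by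
      rw [pow_mul, hr]
    have h3 : vo V π ^ Nm π = vo V π ^ (Nm π - 1) * vo V π := by
      rw [← pow_succ]
      congr 1
      omega
    rw [ha, div_pow, h1, h2, h3]
    exact mul_div_cancel_left₀ _ (pow_ne_zero _ hV0)
  -- the bound
  have hbd := H13S.prod_bound V J hJ0 (fun R => tt T / tt (P + R))
    (fun R hR => by
      rw [map_div₀, hval R (hJT R hR), ← ha]
      exact ha1.le)
    {σ : Ω ≃+* Ω | ∃ h ∈ L.fixingSubgroup, Inert V h ∧ h y = y ∧ σ = (h : Ω ≃+* Ω)}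
    (by
      rintro σ ⟨h, hh, hih, hhy, rfl⟩
      refine ⟨c h, fun R hR => ?_, fun R => ⟨fun hR => ?_, fun hR => ?_⟩⟩
      · change h (tt T / tt (P + R)) = tt T / tt (P + (R + c h))
        rw [map_div₀, ← tt_ac, ← tt_ac, hTfix h hh T hT, map_add, hTfix h hh R (hJT R hR)]
        have h1 : ac (WAB A B) h P = c h + P := by
          rw [hQc h, sub_add_cancel]
        rw [h1]
        congr 2
        abel
      · obtain ⟨k, hk, hik, hky, rfl⟩ := (hJmem R).1 hR
        refine (hJmem _).2 ⟨k * h, Subgroup.mul_mem _ hk hh, lcb_mul hik hih, ?_, hcadd k hk h hh⟩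
        change k (h y) = y
        rw [hhy, hky]
      · obtain ⟨k, hk, hik, hky, hkc⟩ := (hJmem _).1 hR
        refine (hJmem _).2 ⟨k * h⁻¹, Subgroup.mul_mem _ hk (Subgroup.inv_mem _ hh),
          lcb_mul hik (lcb_inv hih), ?_, ?_⟩
        · change k (h⁻¹ y) = y
          have h1 : h⁻¹ y = y := by
            have h2 : h⁻¹ (h y) = y := AlgEquiv.symm_apply_apply h y
            rwa [hhy] at h2
          rw [h1, hky]
        · rw [hcadd k hk h⁻¹ (Subgroup.inv_mem _ hh), hcinv h hh, hkc, add_neg_cancel_right])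
    (s₁ : Ω ≃+* Ω) (l - 1) (V.valuation (l : Ω))
    (fun b hb hf => H13S.coef_bound L V w hw l D.hl (by have := D.five; omega) hVl1
      (lv_mu D hin he hL) m hm y hy hlev b hb
      (fun s hs hi hsy => hf (s : Ω ≃+* Ω) ⟨s, hs, hi, hsy, rfl⟩) s₁ hs1 hi1)
  have hterm : ∀ R ∈ J, V.valuation (tt T / tt (P + 0) - (s₁ : Ω ≃+* Ω) (tt T / tt (P + R))) = a ^ 2 := by
    intro R hR
    have hR' := hJT R hR
    have h0 : R + c s₁ ≠ 0 := by
      intro h0
      obtain ⟨k, hk, hik, hky, hkc⟩ := (hJmem R).1 hR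
      apply hne1
      have h1 : c s₁ = c k⁻¹ := by
        rw [hcinv k hk, hkc]
        exact eq_neg_of_add_eq_zero_right h0
      have h2 : k⁻¹ y = y := by
        have h3 : k⁻¹ (k y) = y := AlgEquiv.symm_apply_apply k y
        rwa [hky] at h3
      rw [hyk.2 s₁ hs1, h1, ← hyk.2 k⁻¹ (Subgroup.inv_mem _ hk), h2]
    have hT' : R + c s₁ ∈ Tor act π := AddSubgroup.add_mem _ hR' (hcT s₁ hs1)
    have e1 : (s₁ : Ω ≃+* Ω) (tt T / tt (P + R)) = tt T / tt (P + (R + c s₁)) := by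
      change s₁ (tt T / tt (P + R)) = _
      rw [map_div₀, ← tt_ac, ← tt_ac, hTfix s₁ hs1 T hT, map_add, hTfix s₁ hs1 R hR']
      have h1 : ac (WAB A B) s₁ P = c s₁ + P := by
        rw [hQc s₁, sub_add_cancel]
      rw [h1]
      congr 2
      abel
    rw [e1, add_zero]
    have hv1 := hvr _ hT' h0
    have hne2 : tt (P + (R + c s₁)) ≠ 0 := by
      intro h1
      rw [h1, map_zero] at hv1
      exact hQ0 hv1.1.symm
    have hne3 : tt P ≠ 0 := by
      intro h1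
      rw [h1, map_zero] at hQ0
      exact hQ0 rfl
    have e2 : tt T / tt P - tt T / tt (P + (R + c s₁)) =
        tt T * (tt (P + (R + c s₁)) - tt P) / (tt P * tt (P + (R + c s₁))) := by
      field_simp
    rw [e2, map_div₀, map_mul, map_mul, hv1.1, hv1.2.1, htau _ hT' h0, ha, div_pow, sq, sq]
  rw [Finset.prod_congr rfl (fun R hR => rfl), map_prod] at hbd
  rw [Finset.prod_congr rfl hterm, Finset.prod_const, hVl, ← haq, ← pow_mul, ← pow_mul] at hbd
  have h1 := (pow_le_pow_iff_right_of_lt_one₀ ha0 ha1).1 hbd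
  have h2 : 2 * J.card * (l - 1) ≤ 2 * Nm π * (l - 1) := by
    exact Nat.mul_le_mul_right _ (Nat.mul_le_mul_left _ hJcard)
  have h3 : Nm π * (Nm π - 1) ≤ Nm π * (2 * (l - 1)) := by
    calc Nm π * (Nm π - 1) ≤ 2 * (J.card * (l - 1)) := h1
      _ = 2 * J.card * (l - 1) := by ring
      _ ≤ 2 * Nm π * (l - 1) := h2
      _ = Nm π * (2 * (l - 1)) := by ring
  have h4 := Nat.le_of_mul_le_mul_left h3 (by omega)
  rw [hq] at h4
  have h5 := D.five
  have h6 : l * l = l ^ 2 := by ring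
  have h7 : 5 * l ≤ l ^ 2 := by
    rw [← h6]
    exact Nat.mul_le_mul_right l h5
  omega


end H13X
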