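import Mathlib
import Pool.Agent.Lib.H13X.XKB2
import Pool.Agent.Lib.H13X.XLV0
import Pool.Agent.Lib.H13X.XR

/-! # H13X: port of H13Y/YLV -/

open NumberField IsDedekindDomain WeierstrassCurve

namespace H13X

open H55P (IQ embF eF LF Per IsHecke Pt ac Inert Dec Nm Coc)
open H35P (WAB Ker tt)
open H55K (Tor ak xc yc CMA Dta GV GMod cj cj_cj mul_cj cj_prime cj_dvd cj_nat Nm_cj Nm_mul Nm_nat)
open H55K.S
open H13S (Abv)





variable {F : Type} [Field F] [NumberField F] [IQ F] {A B : F} {Om : ℂ} {Ω : Type} [Field Ω] [DecidableEq Ω]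
  [Algebra F Ω] [IsAlgClosure F Ω] {j : Ω →+* ℂ} {act : 𝓞 F →+* AddMonoid.End (Pt (WAB A B) Ω)} {mo : Ideal (𝓞 F)}
  {ψ : Ideal (𝓞 F) →*₀ 𝓞 F}

variable {π : 𝓞 F} {l : ℕ} {N : IntermediateField F Ω} {V : ValuationSubring Ω} {t : Ω} {e0 : ℕ}
  {e : Pt (WAB A B) Ω → Pt (WAB A B) Ω → Ω}

theorem ylv_hx {B₀ L : IntermediateField F Ω} (hL : IsTB act π B₀ L)
    (hB : ∀ s, DecN N V s → s ∈ B₀.fixingSubgroup) (x : L) : Hx act π N V (x : Ω) := by
  intro s hs
  have h1 : s ∈ L.fixingSubgroup := (hL.fix s).2 ⟨hB s hs.1, hs.2⟩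
  exact (IntermediateField.mem_fixingSubgroup_iff L _).1 h1 x x.2

/-- Chunk YLV (S/M), PORT of H13Z/LV.lean level_pt (uses level_gen as it is; RV.values of YR.lean in place of RV.values; elements of L are in Hx act π N V by hB). If P = 0 the cocycle is 0, e 0 T = 1, y is fixed by L.fixingSubgroup, so y in L (ku2_mem), z = y. -/
theorem level_ptu (R : RV A B Om j act mo ψ π l N V t e0) (hin : Tor act (cj π) = Tor act π) (hq : Nm π = l ^ 2) (he : Pairing A B act π l e)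
    {B₀ L : IntermediateField F Ω} [NumberField L] (hL : IsTB act π B₀ L)
    (hB : ∀ s, DecN N V s → s ∈ B₀.fixingSubgroup) {P : Pt (WAB A B) Ω}
    (hP : P = 0 ∨ Ker V P ∧ V.valuation (tt P) ^ Nm π = vo V π)
    (C : Cc act π B₀ fun s => ac (WAB A B) s P - P) (T : Pt (WAB A B) Ω) (hT : T ∈ Tor act π) (y : Ω)
    (hyk : Kum L e (fun s => ac (WAB A B) s P - P) T y) : Lv act π l N V (V.valuation t ^ 2) (y ^ l) := by
  have hl0 : l ≠ 0 := R.base.D.hl.ne_zero
  rcases hP with hP0 | ⟨hP, hPv⟩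
  · have hyL : y ∈ L := by
      apply ku2_mem
      intro s hs
      rw [hyk.2 s hs]
      show e (ac (WAB A B) s P - P) T * y = y
      rw [hP0, map_zero, sub_zero, ld3_e0 hl0 he hT, one_mul]
    refine ⟨y, ylv_hx hL hB ⟨y, hyL⟩, hyk.1, ?_⟩
    rw [div_self (pow_ne_zero l hyk.1), sub_self, map_zero]
    exact zero_le
  obtain ⟨-, -, ht1, ht0, -, -⟩ := R.base.val_l
  have htne : t ≠ 0 := (Valuation.ne_zero_iff _).1 ht0
  have htL : t ∈ L := by
    obtain ⟨T₀, hT₀, -, rfl⟩ := R.base.pt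
    apply ku2_mem
    intro s hs
    rw [← tt_ac, ((hL.fix s).1 hs).2 _ hT₀]
  obtain ⟨tL, htL'⟩ : ∃ tL : L, (tL : Ω) = t := ⟨⟨t, htL⟩, rfl⟩
  obtain ⟨w, hw⟩ := H13S.exists_below L V ⟨tL⁻¹, by
    rw [← V.valuation_le_one_iff]
    push_cast
    rw [htL', map_inv₀, not_le]
    exact (one_lt_inv₀ (zero_lt_iff.2 ht0)).2 ht1⟩
  obtain ⟨m, hm, hm0⟩ := kumB_pow C he hL hT hyk
  obtain ⟨z, hz0, hz⟩ := level_gen R.base.D hin hq he hL V R.base.gv R.base.above R.base.val_l.1 w hw hP hPv C T hT m hm0 y hyk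
    hm.symm
  have htL0 : tL ≠ 0 := by
    rintro rfl
    exact htne (by rw [← htL']; simp)
  have hwt0 : w.valuation L tL ≠ 0 := (Valuation.ne_zero_iff _).2 htL0
  obtain ⟨j, hj⟩ : ∃ j : ℤ, w.valuation L tL = WithZero.exp j :=
    ⟨WithZero.log (w.valuation L tL), (WithZero.exp_log hwt0).symm⟩
  have hj1 : j < 0 := by
    have h1 : w.valuation L tL < 1 := by
      rw [← hw.lt, htL']
      exact ht1
    rw [hj, ← WithZero.exp_zero, WithZero.exp_lt_exp] at h1
    exact h1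
  obtain ⟨u, hu⟩ := w.valuation_exists_uniformizer L
  have hu' : w.valuation L u = WithZero.exp (-1 : ℤ) := hu
  have hu0 : u ≠ 0 := by
    rintro rfl
    rw [map_zero] at hu'
    exact WithZero.exp_ne_zero hu'.symm
  obtain ⟨n, hn⟩ := R.values (ylv_hx hL hB u) (by exact_mod_cast hu0)
  have hzc : ((tL ^ n : L) : Ω) = t ^ n := by
    rw [← htL']
    exact map_zpow₀ (algebraMap L Ω) tL n
  have h2 : w.valuation L u = w.valuation L (tL ^ n) := by
    have h3 : V.valuation (u : Ω) = V.valuation ((tL ^ n : L) : Ω) := by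
      rw [hzc, map_zpow₀]
      exact hn
    exact le_antisymm ((hw.le _ _).1 h3.le) ((hw.le _ _).1 h3.ge)
  rw [hu', map_zpow₀, hj, ← WithZero.exp_zsmul, WithZero.exp_inj, smul_eq_mul] at h2
  have hjm : j = -1 := by
    have h4 : j ∣ -1 := ⟨n, by rw [h2]; ring⟩
    have h5 : IsUnit j := Int.isUnit_iff.2 (by
      have h6 : j ∣ 1 := (dvd_neg).1 h4
      have h7 := Int.isUnit_iff.1 (isUnit_of_dvd_one h6)
      exact h7)
    rcases Int.isUnit_iff.1 h5 with h6 | h6 <;> omega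
  refine ⟨z, ylv_hx hL hB z, by exact_mod_cast hz0, ?_⟩
  have h6 : w.valuation L (m / z ^ l - 1) ≤ w.valuation L (tL ^ 2) := by
    rw [map_pow, hj, hjm, ← WithZero.exp_nsmul]
    refine hz.trans ?_
    rw [WithZero.exp_le_exp]
    norm_num
  have h7 := (hw.le _ _).2 h6
  push_cast at h7
  rw [hm, htL', map_pow] at h7
  exact h7

end H13X
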