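import Mathlib
import Pool.Agent.Lib.H13X.XG
import Pool.Agent.Lib.H55K.SCO

/-! # H13X: port of H13Y/YCB -/

open NumberField IsDedekindDomain WeierstrassCurve

namespace H13X

open H55P (IQ embF eF LF Per IsHecke Pt ac Inert Dec Nm Coc)
open H35P (WAB Ker tt)
open H55K (Tor ak xc yc CMA Dta GV GMod cj cj_cj mul_cj cj_prime cj_dvd cj_nat Nm_cj Nm_mul Nm_nat)
open H55K.S
open H13S (Abv)





variable {F : Type} [Field F] [NumberField F] [IQ F] {A B : F} {Om : ℂ} {Ω : Type} [Field Ω] [DecidableEq Ω]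
  [Algebra F Ω] [IsAlgClosure F Ω] {j : Ω →+* ℂ} {act : 𝓞 F →+* AddMonoid.End (Pt (WAB A B) Ω)} {mo : Ideal (𝓞 F)}
  {ψ : Ideal (𝓞 F) →*₀ 𝓞 F}

variable {π : 𝓞 F} {l : ℕ} {N : IntermediateField F Ω} {V : ValuationSubring Ω} {c : (Ω ≃ₐ[F] Ω) → Pt (WAB A B) Ω}

theorem lcb_l (D : Dat A B Om j act mo ψ π l) {P : Pt (WAB A B) Ω} (hP : P ∈ Tor act (cj π)) : l • P = 0 := by
  obtain ⟨u, hu⟩ := D.dvd
  have h1 : (l : 𝓞 F) = cj u * cj π := by
    have h2 := congrArg cj hu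
    rw [cj_nat, map_mul] at h2
    rw [h2, mul_comm]
  have h3 : act (cj π) P = 0 := mem_Tor.1 hP
  rw [← act_nat (act := act), h1, act_mul, h3, map_zero]

/-- A cocycle on the decomposition group which vanishes on the inertia elements fixing Tor pi and Tor (cj pi) is a coboundary on inertia. -/
theorem cob_inert (D : Dat A B Om j act mo ψ π l) (hc : Dc act π N V c)
    (h : ∀ s ∈ N.fixingSubgroup, JV act π V s → c s = 0) :
    ∃ X ∈ Tor act (cj π), ∀ s ∈ N.fixingSubgroup, Inert V s → c s = ac (WAB A B) s X - X := by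
  obtain ⟨N₁, hN₁, hn₁, hd₁, h0₁⟩ := stab_index D.cma π D.pr
  obtain ⟨N₂, hN₂, hn₂, hd₂, h0₂⟩ := stab_index D.cma (cj π) (cj_prime D.pr)
  have hlN : l ∣ Nm π := CO2_Nm D.hl D.pr D.dvd
  have hN0 : Nm π ≠ 0 := fun h => D.pr.ne_zero (H55P.Nm_eq_zero.1 h)
  rw [Nm_cj] at hd₂
  have hidx : (N₁ ⊓ N₂).index = N₁.relIndex N₂ * N₂.index := by
    rw [← Subgroup.relIndex_mul_index (inf_le_right : N₁ ⊓ N₂ ≤ N₂), Subgroup.inf_relIndex_right]
  have hrel : N₁.relIndex N₂ ∣ N₁.index := Subgroup.relIndex_dvd_index_of_normal N₁ N₂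
  have hcop : l.Coprime (N₁ ⊓ N₂).index := by
    rw [hidx]
    exact Nat.Coprime.mul_right (CO2_cop D.hl hlN hN0 (hrel.trans hd₁)) (CO2_cop D.hl hlN hN0 hd₂)
  have hne : (N₁ ⊓ N₂).index ≠ 0 := by
    rw [hidx]
    refine mul_ne_zero (fun h => h0₁ ?_) h0₂
    rw [h] at hrel
    exact Nat.eq_zero_of_zero_dvd hrel
  let I : Subgroup (Ω ≃ₐ[F] Ω) :=
    { carrier := {s | Inert V s ∧ s ∈ N.fixingSubgroup}
      mul_mem' := fun hs ht => ⟨lcb_mul hs.1 ht.1, mul_mem hs.2 ht.2⟩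
      one_mem' := ⟨lcb_one, one_mem _⟩
      inv_mem' := fun hs => ⟨lcb_inv hs.1, inv_mem hs.2⟩ }
  have hI : ∀ s : I, Inert V s.1 := fun s => s.2.1
  have hID : ∀ s : I, DecN N V s.1 := fun s => ⟨s.2.2, Inert.dec s.2.1⟩
  have hdvd : (N₁ ⊓ N₂).relIndex I ∣ (N₁ ⊓ N₂).index := Subgroup.relIndex_dvd_index_of_normal _ _
  have hcop' : l.Coprime ((N₁ ⊓ N₂).subgroupOf I).index := Nat.Coprime.coprime_dvd_right hdvd hcop
  have hne' : ((N₁ ⊓ N₂).subgroupOf I).index ≠ 0 := by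
    intro h1
    have h2 : (N₁ ⊓ N₂).relIndex I = 0 := h1
    rw [h2] at hdvd
    exact hne (Nat.eq_zero_of_zero_dvd hdvd)
  have hvan : ∀ n ∈ (N₁ ⊓ N₂).subgroupOf I, c n.1 = 0 := by
    intro s hs
    rw [Subgroup.mem_subgroupOf] at hs
    obtain ⟨hs₁, hs₂⟩ := Subgroup.mem_inf.1 hs
    rw [hN₁] at hs₁
    rw [hN₂] at hs₂
    exact h s.1 (hID s).1 ⟨hI s, hs₁, hs₂⟩
  obtain ⟨X, hX, hX2⟩ := H13S.cob_of_vanish (G := I) (fun s => (ac (WAB A B) s.1 : Pt (WAB A B) Ω →+ Pt (WAB A B) Ω))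
    (fun s t P => ac_mul s.1 t.1 P) (fun s => c s.1)
    (fun s t => hc.mul s.1 (hID s) t.1 (hID t))
    ((N₁ ⊓ N₂).subgroupOf I) hne' hvan l hcop' (fun s => lcb_l D (hc.val s.1 (hID s))) (Tor act (cj π))
    (fun s => hc.val s.1 (hID s))
  exact ⟨X, hX, fun s hs hs2 => hX2 ⟨s, hs2, hs⟩⟩

/-- Extension of the vanishing from inertia to the decomposition group with a Frobenius element. -/
theorem cob_frob (D : Dat A B Om j act mo ψ π l) (hc : Dc act π N V c)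
    (h : ∀ s ∈ N.fixingSubgroup, Inert V s → c s = 0) {φ : Ω ≃ₐ[F] Ω}
    (hφ : DecN N V φ) {n : ℕ} (hn : ∀ x ∈ V, V.valuation (φ x - x ^ n) < 1)
    (h0 : ∀ T ∈ Tor act (cj π), ac (WAB A B) φ T = T → T = 0) :
    ∃ X ∈ Tor act (cj π), ∀ s, DecN N V s → c s = ac (WAB A B) s X - X := by
  have hpr := cj_prime D.pr
  have hcard := (gi_gen D.cma (cj π) hpr).1
  have hN0 : Nm (cj π) ≠ 0 := fun h => hpr.ne_zero (H55P.Nm_eq_zero.1 h)
  have hfin : Finite (Tor act (cj π)) := Nat.finite_of_card_ne_zero (by rw [hcard]; exact hN0)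
  let f : Tor act (cj π) → Tor act (cj π) := fun T => ⟨ac (WAB A B) φ T.1 - T.1, sub_mem (ac_mem D.cma φ T.2) T.2⟩
  have hinj : Function.Injective f := by
    intro T T' hTT
    have h1 : ac (WAB A B) φ T.1 - T.1 = ac (WAB A B) φ T'.1 - T'.1 := congrArg Subtype.val hTT
    have h2 : ac (WAB A B) φ (T.1 - T'.1) = T.1 - T'.1 := by
      rw [map_sub, sub_eq_sub_iff_sub_eq_sub.1 h1]
    exact Subtype.ext (sub_eq_zero.1 (h0 _ (sub_mem T.2 T'.2) h2))
  obtain ⟨⟨X, hX⟩, hfX⟩ := Finite.surjective_of_injective hinj ⟨c φ, hc.val φ hφ⟩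
  have hφX : ac (WAB A B) φ X - X = c φ := congrArg Subtype.val hfX
  obtain ⟨χ, hχ, -⟩ := exists_chi D.cma (cj π) hpr
  have hact : ∀ s : Ω ≃ₐ[F] Ω, ∃ a : 𝓞 F, ∀ T ∈ Tor act (cj π), ac (WAB A B) s T = act a T := by
    intro s
    obtain ⟨a, ha⟩ := Ideal.Quotient.mk_surjective (χ s : 𝓞 F ⧸ Ideal.span {cj π})
    exact ⟨a, hχ s a ha⟩
  refine ⟨X, hX, fun s hs => ?_⟩
  have hi : Inert V ((s * φ)⁻¹ * (φ * s)) := by
    intro x hx
    have hd : Dec V (s * φ)⁻¹ := (hs.mul hφ).inv.2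
    have e1 : ((s * φ)⁻¹ * (φ * s)) x - x = (s * φ)⁻¹ (φ (s x) - s (φ x)) := by
      rw [map_sub]
      have e2 : (s * φ)⁻¹ (s (φ x)) = x := AlgEquiv.symm_apply_apply (s * φ) x
      rw [e2]
      rfl
    rw [e1, Dec.lt_one hd]
    have hsx : s x ∈ V := (hs.2 x).2 hx
    have e3 : φ (s x) - s (φ x) = (φ (s x) - s x ^ n) - s (φ x - x ^ n) := by
      rw [map_sub, map_pow]
      ring
    rw [e3]
    exact V.valuation.map_sub_lt (hn _ hsx) ((Dec.lt_one hs.2 _).2 (hn x hx))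
  have h1 : c (φ * s) = c (s * φ) := by
    have e : φ * s = (s * φ) * ((s * φ)⁻¹ * (φ * s)) := by group
    have hiN := (hs.mul hφ).inv.mul (hφ.mul hs)
    rw [e, hc.mul _ (hs.mul hφ) _ hiN, h _ hiN.1 hi, map_zero, add_zero]
  rw [hc.mul φ hφ s hs, hc.mul s hs φ hφ, ← hφX] at h1
  obtain ⟨a, ha⟩ := hact s
  obtain ⟨b, hb⟩ := hact φ
  have hcomm : ac (WAB A B) s (ac (WAB A B) φ X) = ac (WAB A B) φ (ac (WAB A B) s X) := by
    rw [ha _ (ac_mem D.cma φ hX), hb _ hX, ha _ hX, ac_act D.cma, hb _ hX]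
  have h2 : ac (WAB A B) φ (c s - (ac (WAB A B) s X - X)) = c s - (ac (WAB A B) s X - X) := by
    rw [map_sub, map_sub]
    rw [map_sub, hcomm] at h1
    have h3 : ac (WAB A B) φ (c s) = c s + (ac (WAB A B) φ (ac (WAB A B) s X) - ac (WAB A B) s X) - (ac (WAB A B) φ X - X) := by
      rw [← h1]
      abel
    rw [h3]
    abel
  exact sub_eq_zero.1 (h0 _ (sub_mem (hc.val s hs) (sub_mem (ac_mem D.cma s hX) hX)) h2)

/-- From cocycles and Kummer generators over a field B₀ to the local notions. -/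
theorem dc_of_cc {B₀ : IntermediateField F Ω} (hc : Cc act π B₀ c) (hB : ∀ s, DecN N V s → s ∈ B₀.fixingSubgroup) :
    Dc act π N V c :=
  ⟨fun s hs t ht => hc.mul s (hB s hs) t (hB t ht), fun s hs => hc.val s (hB s hs)⟩

theorem ks_of_kum {B₀ L : IntermediateField F Ω} (hL : IsTB act π B₀ L)
    (hB : ∀ s, DecN N V s → s ∈ B₀.fixingSubgroup) {e : Pt (WAB A B) Ω → Pt (WAB A B) Ω → Ω} {y : Pt (WAB A B) Ω → Ω}
    (hy : ∀ T ∈ Tor act π, Kum L e c T (y T)) : KS act π N V e c y :=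
  ⟨fun T hT => (hy T hT).1, fun T hT s hs => (hy T hT).2 s ((hL.fix s).2 ⟨hB s hs.1, hs.2⟩)⟩

/-- The two local reductions: on inertia to zero, then ramified torsion. If c vanishes on the inertia elements over N fixing Tor π
and Tor (cj π), and some inertia element over N has no fixed point, then c is the coboundary of a point of Tor (cj π). -/
theorem cob_ram (D : Dat A B Om j act mo ψ π l) (hc : Dc act π N V c)
    (h : ∀ s ∈ N.fixingSubgroup, JV act π V s → c s = 0)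
    (hσ : ∃ s ∈ N.fixingSubgroup, Inert V s ∧ ∀ T ∈ Tor act (cj π), ac (WAB A B) s T = T → T = 0) :
    ∃ X ∈ Tor act (cj π), ∀ s, DecN N V s → c s = ac (WAB A B) s X - X := by
  obtain ⟨X, hX, h1⟩ := cob_inert D hc h
  refine ⟨X, hX, fun s hs => ?_⟩
  have h2 := cob_dec_ram (hc.sub_cob D.cma hX) (fun s hsN hs => by
    show c s - (ac (WAB A B) s X - X) = 0
    rw [h1 s hsN hs, sub_self]) hσ s hs
  exact sub_eq_zero.1 h2

/-- Elements of JV fix the l-th roots of unity. -/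
theorem JV.mu (D : Dat A B Om j act mo ψ π l) {e : Pt (WAB A B) Ω → Pt (WAB A B) Ω → Ω} (he : Pairing A B act π l e)
    {s : Ω ≃ₐ[F] Ω} (hs : JV act π V s) (ζ : Ω) (hζ : ζ ^ l = 1) : s ζ = ζ := by
  have hpr := cj_prime D.pr
  obtain ⟨-, X, hX, -, hX0⟩ := gi_gen D.cma (cj π) hpr
  have hXne : X ≠ 0 := by
    intro h0
    apply hpr.not_unit
    rw [isUnit_iff_dvd_one]
    apply (hX0 1).1
    rw [h0, map_zero]
  have hex : ∃ T ∈ Tor act π, e X T ≠ 1 := by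
    by_contra hcon
    push Not at hcon
    exact hXne (he.nondeg X hX hcon)
  obtain ⟨T, hT, hne1⟩ := hex
  have hroot := he.root X hX T hT
  have hprim : IsPrimitiveRoot (e X T) l := by
    have h1 : Fact l.Prime := ⟨D.hl⟩
    rw [← orderOf_eq_prime hroot hne1]
    exact IsPrimitiveRoot.orderOf _
  have hfix : s (e X T) = e X T := by
    rw [he.gal s _ hX T hT, hs.2.2 _ hX, hs.2.1 T hT]
  have hl0 : NeZero l := ⟨D.hl.ne_zero⟩
  obtain ⟨i, -, hi⟩ := hprim.eq_pow_of_pow_eq_one hζ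
  rw [← hi, map_pow, hfix]

end H13X
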