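import Mathlib
import Pool.Agent.Lib.H13X.XG
import Pool.Agent.Lib.H13Z.LI
import Pool.Agent.Lib.H55K.SQR

/-! # H13X: port of H13Z/LI -/

open NumberField IsDedekindDomain WeierstrassCurve

namespace H13X

open H55P (IQ embF eF LF Per IsHecke Pt ac Inert Dec Nm Coc)
open H35P (WAB Ker tt)
open H55K (Tor ak xc yc CMA Dta GV GMod cj cj_cj mul_cj cj_prime cj_dvd cj_nat Nm_cj Nm_mul Nm_nat)
open H55K.S
open H13S (Abv)




variable {F : Type} [Field F] [NumberField F] [IQ F] {A B : F} {Om : ℂ} {Ω : Type} [Field Ω] [DecidableEq Ω]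
  [Algebra F Ω] [IsAlgClosure F Ω] {j : Ω →+* ℂ} {act : 𝓞 F →+* AddMonoid.End (Pt (WAB A B) Ω)} {mo : Ideal (𝓞 F)}
  {ψ : Ideal (𝓞 F) →*₀ 𝓞 F}

variable {β : 𝓞 F} {V : ValuationSubring Ω}

/-- the value of the parameter of a point fixed by inertia -/
theorem li_val (hA : CMA F A B Om j act) (hG : GV A B V) (hβ : Prime β) (hV : vo V β < 1) {P : Pt (WAB A B) Ω} (hP : Ker V P) (h0 : P ≠ 0)
    (h : ∀ s : Ω ≃ₐ[F] Ω, Inert V s → ac (WAB A B) s P = P) : ∃ k : ℤ, V.valuation (tt P) = vo V β ^ k := by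
  have ht : tt P ≠ 0 := fun hc => h0 ((kr_tt_zero hG hP).1 hc)
  have hfix : ∀ s ∈ (⊥ : IntermediateField F Ω).fixingSubgroup, Inert V s → s (tt P) = tt P := by
    intro s _ hs
    rw [← tt_ac, h s hs]
  have hnf : NumberField (⊥ : IntermediateField F Ω) := NumberField.of_module_finite F _
  obtain ⟨a, ha0, ha⟩ := H13S.value_fixed (⊥ : IntermediateField F Ω) V (tt P) ht hfix
  obtain ⟨b, hb⟩ := IntermediateField.mem_bot.1 a.2
  have hb0 : b ≠ 0 := by
    rintro rfl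
    rw [map_zero] at hb
    exact ha0 (Subtype.ext hb.symm)
  rw [ha, ← hb]
  exact qv_intpow V hβ hV b hb0

/-- Chunk LI1 (S/M). T₁ ≠ 0 in Tor β (gi_gen). If all inertia elements fixed all points of Tor β then tt T₁ would be fixed by the inertia group: H13S.value_fixed for K = ⊥ and qv_intpow: V (tt T₁) = (V β)^n; V (tt T₁)^(Nm β - 1) = V β (kr_tor_ram), so n (Nm β - 1) = 1, impossible. no_fix. -/
theorem moved_ram (hA : CMA F A B Om j act) (hG : GV A B V) (hβ : Prime β) (hN : 4 ≤ Nm β) (hV : vo V β < 1) :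
    ∃ s : Ω ≃ₐ[F] Ω, Inert V s ∧ ∀ T ∈ Tor act β, ac (WAB A B) s T = T → T = 0 := by
  have key : ∃ s : Ω ≃ₐ[F] Ω, Inert V s ∧ ∃ T ∈ Tor act β, ac (WAB A B) s T ≠ T := by
    by_contra hcon
    push Not at hcon
    obtain ⟨-, T, hT, -, hT0⟩ := gi_gen hA β hβ
    have hTne : T ≠ 0 := by
      intro h0
      apply hβ.not_isUnit
      rw [isUnit_iff_dvd_one]
      apply (hT0 1).1
      rw [h0, map_zero]
    obtain ⟨hK, hv⟩ := kr_tor_ram hA hG β hβ hV hT hTne
    obtain ⟨k, hk⟩ := li_val hA hG hβ hV hK hTne (fun s hs => hcon s hs T hT)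
    rw [hk] at hv
    exact H13Z.li_zpow (vo_ne V hβ.ne_zero) hV k (by omega) hv
  obtain ⟨s, hs, h⟩ := key
  exact ⟨s, hs, fun T hT hTs => no_fix hA hβ h hT hTs⟩

/-- Chunk LN (S/M). P - X would be fixed by the inertia group, V (tt (P - X)) = V (tt P) (H13S.val_ratio with R = -X, if X ≠ 0), and it is a power of V β (H13S.value_fixed for K = ⊥, qv_intpow; tt ≠ 0): n * Nm β = 1, impossible. -/
theorem pt_nontriv (hA : CMA F A B Om j act) (hG : GV A B V) (hβ : Prime β) (hN : 4 ≤ Nm β) (hV : vo V β < 1) {P : Pt (WAB A B) Ω} (hP : Ker V P)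
    (hv : V.valuation (tt P) ^ Nm β = vo V β) :
    ¬ ∃ X ∈ Tor act β, ∀ s : Ω ≃ₐ[F] Ω, Inert V s → ac (WAB A B) s P - P = ac (WAB A B) s X - X := by
  rintro ⟨X, hX, h⟩
  have hfix : ∀ s : Ω ≃ₐ[F] Ω, Inert V s → ac (WAB A B) s (P - X) = P - X := by
    intro s hs
    have h1 := h s hs
    rw [map_sub, sub_eq_sub_iff_sub_eq_sub.1 h1]
  have hval : Ker V (P - X) ∧ V.valuation (tt (P - X)) = V.valuation (tt P) := by
    by_cases h0 : X = 0
    · rw [h0, sub_zero]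
      exact ⟨hP, rfl⟩
    · have hnX : -X ∈ Tor act β := neg_mem hX
      have hn0 : -X ≠ 0 := neg_ne_zero.2 h0
      rw [sub_eq_add_neg]
      exact ⟨kr_add hG hP (kr_tor_ram hA hG β hβ hV hnX hn0).1,
        (val_ratio hA hβ (by omega) V hG hV P hP hv (-X) hnX hn0).1⟩
  have hβ0 := vo_ne V hβ.ne_zero
  have hne : P - X ≠ 0 := by
    intro hc
    have h1 := hval.2
    rw [hc, tt_zero, map_zero] at h1
    rw [← h1, zero_pow (by omega)] at hv
    exact hβ0 hv.symm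
  obtain ⟨k, hk⟩ := li_val hA hG hβ hV hval.1 hne hfix
  rw [← hval.2, hk] at hv
  exact H13Z.li_zpow hβ0 hV k (by omega) hv

end H13X
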