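import Mathlib
import Pool.Agent.Lib.H13S.KU1
import Pool.Agent.Lib.H13X.D

/-! # H13X: port of H13Z/KB -/

open NumberField IsDedekindDomain WeierstrassCurve

namespace H13X

open H55P (IQ embF eF LF Per IsHecke Pt ac Inert Dec Nm Coc)
open H35P (WAB Ker tt)
open H55K (Tor ak xc yc CMA Dta GV GMod cj cj_cj mul_cj cj_prime cj_dvd cj_nat Nm_cj Nm_mul Nm_nat)
open H55K.S
open H13S (Abv)




variable {F : Type} [Field F] [NumberField F] [IQ F] {A B : F} {Om : ℂ} {Ω : Type} [Field Ω] [DecidableEq Ω]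
  [Algebra F Ω] [IsAlgClosure F Ω] {j : Ω →+* ℂ} {act : 𝓞 F →+* AddMonoid.End (Pt (WAB A B) Ω)} {mo : Ideal (𝓞 F)}
  {ψ : Ideal (𝓞 F) →*₀ 𝓞 F}

variable {π : 𝓞 F} {l : ℕ} {B₀ L : IntermediateField F Ω} {c : (Ω ≃ₐ[F] Ω) → Pt (WAB A B) Ω}
  {e : Pt (WAB A B) Ω → Pt (WAB A B) Ω → Ω}

/-- Chunk KB1 (M), port of H13S.exists_kum (KU1.lean) to a base field B₀ (all elements s, t in L.fixingSubgroup lie in B₀.fixingSubgroup: IsTB.mono). -/
theorem exists_kumB (D : Dat A B Om j act mo ψ π l) (C : Cc act π B₀ c) (he : Pairing A B act π l e) (hL : IsTB act π B₀ L) {T : Pt (WAB A B) Ω}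
    (hT : T ∈ Tor act π) : ∃ y : Ω, Kum L e c T y := by
  classical
  obtain ⟨E₁, hE₁, hc₁⟩ := C.cont
  have hNF : Normal F Ω := IsAlgClosure.normal F Ω
  have hNL : Normal L Ω := Normal.tower_top_of_normal F L Ω
  let b := Module.finBasis F E₁
  let S : Set Ω := Set.range (fun i => ((b i : E₁) : Ω)) ∪ {x : Ω | x ^ l = 1}
  have hl0 : 0 < l := D.hl.pos
  have hfr : {x : Ω | x ^ l = 1}.Finite := by
    have h1 := (Polynomial.nthRoots l (1 : Ω)).toFinset.finite_toSet
    refine h1.subset fun x hx => ?_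
    rw [Finset.mem_coe, Multiset.mem_toFinset, Polynomial.mem_nthRoots hl0]
    exact hx
  have hSf : Finite S := ((Set.finite_range _).union hfr).to_subtype
  -- the inclusion of the automorphism groups
  have hmem : ∀ s : Ω ≃ₐ[L] Ω, s.restrictScalars F ∈ L.fixingSubgroup := by
    intro s
    rw [IntermediateField.mem_fixingSubgroup_iff]
    intro x hx
    exact s.commutes ⟨x, hx⟩
  have hmB : ∀ s : Ω ≃ₐ[L] Ω, s.restrictScalars F ∈ B₀.fixingSubgroup := fun s => hL.mono (hmem s)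
  have hacT : ∀ s : Ω ≃ₐ[L] Ω, ac (WAB A B) (s.restrictScalars F) T = T := fun s =>
    ((hL.fix _).1 (hmem s)).2 T hT
  have h0 : ∀ s : Ω ≃ₐ[L] Ω, e (c (s.restrictScalars F)) T ≠ 0 := by
    intro s h0
    have h1 := he.root _ (C.val (s.restrictScalars F) (hmB s)) T hT
    rw [h0, zero_pow hl0.ne'] at h1
    exact zero_ne_one h1
  have hcoc : ∀ s t : Ω ≃ₐ[L] Ω, e (c ((s * t).restrictScalars F)) T =
      e (c (s.restrictScalars F)) T * s (e (c (t.restrictScalars F)) T) := by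
    intro s t
    have h1 : (s * t).restrictScalars F = s.restrictScalars F * t.restrictScalars F := rfl
    rw [h1, C.mul _ (hmB s) _ (hmB t), he.add_left _ (C.val _ (hmB s)) _ (ac_mem D.cma _ (C.val _ (hmB t))) T hT]
    congr 1
    have h2 := he.gal (s.restrictScalars F) _ (C.val (t.restrictScalars F) (hmB t)) T hT
    rw [hacT] at h2
    exact h2.symm
  have htriv : ∀ n : Ω ≃ₐ[L] Ω, (∀ x ∈ S, n x = x) → e (c (n.restrictScalars F)) T = 1 := by
    intro n hn
    have h1 : n.restrictScalars F ∈ E₁.fixingSubgroup := by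
      rw [IntermediateField.mem_fixingSubgroup_iff]
      intro x hx
      have h2 := b.sum_repr ⟨x, hx⟩
      have h3 : x = ∑ i, (b.repr ⟨x, hx⟩ i) • ((b i : E₁) : Ω) := by
        have h4 := congrArg (fun z : E₁ => (z : Ω)) h2
        refine h4.symm.trans ?_
        push_cast
        rfl
      rw [h3, map_sum]
      refine Finset.sum_congr rfl fun i _ => ?_
      rw [map_smul]
      congr 1
      exact hn _ (Or.inl ⟨i, rfl⟩)
    have h2 := hc₁ _ (hmB n) h1
    rw [h2]
    have h3 := he.add_left 0 (zero_mem _) 0 (zero_mem _) T hT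
    rw [add_zero] at h3
    have h4 := he.root 0 (zero_mem _) T hT
    have h5 : e 0 T ≠ 0 := by
      intro h0
      rw [h0, zero_pow hl0.ne'] at h4
      exact zero_ne_one h4
    exact (mul_eq_left₀ h5).1 h3.symm
  obtain ⟨y, hy0, hy⟩ := H13S.ku1_h90 (k := L) (Ω := Ω) (fun s => e (c (s.restrictScalars F)) T) h0 hcoc S
    (fun s => Or.inr (he.root _ (C.val _ (hmB s)) T hT)) htriv
  refine ⟨y, hy0, fun s hs => ?_⟩
  exact hy (IntermediateField.fixingSubgroupEquiv L ⟨s, hs⟩)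

end H13X
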