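import Mathlib
import Pool.Agent.Lib.H13X.XCB
import Pool.Agent.Lib.H13X.XI
import Pool.Agent.Lib.H13X.XKB
import Pool.Agent.Lib.H13X.XKB2
import Pool.Agent.Lib.H13X.XP0
import Pool.Agent.Lib.H55K.K10

/-! # H13X: port of H13Y/YP -/

open NumberField IsDedekindDomain WeierstrassCurve

namespace H13X

open H55P (IQ embF eF LF Per IsHecke Pt ac Inert Dec Nm Coc)
open H35P (WAB Ker tt)
open H55K (Tor ak xc yc CMA Dta GV GMod cj cj_cj mul_cj cj_prime cj_dvd cj_nat Nm_cj Nm_mul Nm_nat)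
open H55K.S
open H13S (Abv)





variable {F : Type} [Field F] [NumberField F] [IQ F] {A B : F} {Om : ℂ} {Ω : Type} [Field Ω] [DecidableEq Ω]
  [Algebra F Ω] [IsAlgClosure F Ω] {j : Ω →+* ℂ} {act : 𝓞 F →+* AddMonoid.End (Pt (WAB A B) Ω)} {mo : Ideal (𝓞 F)}
  {ψ : Ideal (𝓞 F) →*₀ 𝓞 F}

variable {π : 𝓞 F} {l : ℕ} {N : IntermediateField F Ω} {V : ValuationSubring Ω} {e : Pt (WAB A B) Ω → Pt (WAB A B) Ω → Ω}

theorem local_ptu (hA : CMA F A B Om j act) (hG : GV A B V) [FiniteDimensional F N] (hl : l.Prime)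
    (hV : V.valuation (l : Ω) < 1) {u : Ω} (hu : u ∈ N) (hu1 : V.valuation u = 1) :
    ∃ (Q : Pt (WAB A B) Ω) (B₀ : IntermediateField F Ω), FiniteDimensional F B₀ ∧
      (∀ s : Ω ≃ₐ[F] Ω, DecN N V s → s ∈ B₀.fixingSubgroup) ∧
      (∀ s ∈ B₀.fixingSubgroup, ac (WAB A B) s Q = Q) ∧ Ker V Q ∧ tt Q = l * u := by
  have hch : CharZero Ω := charZero_of_injective_algebraMap (algebraMap F Ω).injective
  refine local_ptt hA hG (mul_mem (natCast_mem N l) hu) ?_ ?_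
  · refine mul_ne_zero (Nat.cast_ne_zero.2 hl.ne_zero) ?_
    rintro rfl
    rw [map_zero] at hu1
    exact zero_ne_one hu1
  · rw [map_mul, hu1, mul_one]
    exact hV

/-- The norm of π. -/
theorem xp_nm (D : Dat A B Om j act mo ψ π l) : 4 ≤ Nm π ∧ 4 ≤ Nm (cj π) := by
  have h1 := H55K.k10_arith D.hl D.five D.pr D.dvd
  rw [Nm_cj]
  omega

/-- Chunk YP2 (S). div_pt gives P₁ with act β P₁ = act β P; P = P₁ + R, R in Tor β; R = 0 or kr_tor_ram, kr_add, val_ratio. -/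
theorem div_any (hA : CMA F A B Om j act) (hG : GV A B V) {β : 𝓞 F} (hβ : Prime β) (hN : 4 ≤ Nm β) (hV : vo V β < 1) {P : Pt (WAB A B) Ω}
    (hQ : Ker V (act β P)) (hv : V.valuation (tt (act β P)) = vo V β) :
    Ker V P ∧ V.valuation (tt P) ^ Nm β = vo V β := by
  obtain ⟨P₁, h1, h2, h4⟩ := div_pt hA hG hβ hN hV hQ hv
  have hR : P - P₁ ∈ Tor act β := by
    rw [mem_Tor, map_sub, h1, sub_self]
  by_cases h0 : P - P₁ = 0
  · rw [sub_eq_zero.1 h0]
    exact ⟨h2, h4⟩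
  · have e : P = P₁ + (P - P₁) := by abel
    rw [e]
    refine ⟨kr_add hG h2 (kr_tor_ram hA hG β hβ hV hR h0).1, ?_⟩
    rw [(val_ratio hA hβ (by omega) V hG hV P₁ h2 h4 (P - P₁) hR h0).1]
    exact h4

/-- Chunk YP3 (S/M). Ker V (-Q') and V (tt (-Q') + tt Q') ≤ V (tt Q')^2 (kr_act, kr_tt_act with a = -1, act_neg/act (-1) = neg), kr_add, kr_tt_add with c = V l: V (tt Q), V (tt Q') ≤ V l. So tt (Q - Q') = l (u - u') modulo elements of value < V l (V l^2 < V l). -/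
theorem tt_diff (hA : CMA F A B Om j act) (hG : GV A B V) {Q Q' : Pt (WAB A B) Ω} (hQ : Ker V Q) (hQ' : Ker V Q') (hl0 : V.valuation (l : Ω) ≠ 0)
    (hl : V.valuation (l : Ω) < 1) {u u' : Ω} (hu : V.valuation u ≤ 1) (hu' : V.valuation u' ≤ 1)
    (h : V.valuation (tt Q - l * u) < V.valuation (l : Ω))
    (h' : V.valuation (tt Q' - l * u') < V.valuation (l : Ω)) (hd : V.valuation (u - u') = 1) :
    Ker V (Q - Q') ∧ V.valuation (tt (Q - Q')) = V.valuation (l : Ω) := by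
  have hlp : 0 < V.valuation (l : Ω) := zero_lt_iff.2 hl0
  have hsq : V.valuation (l : Ω) ^ 2 < V.valuation (l : Ω) :=
    pow_lt_self_of_lt_one₀ hlp hl (by norm_num)
  have hle : ∀ (R : Pt (WAB A B) Ω) (v : Ω), V.valuation v ≤ 1 →
      V.valuation (tt R - l * v) < V.valuation (l : Ω) →
      V.valuation (tt R) ≤ V.valuation (l : Ω) := by
    intro R v hv h1
    have e : tt R = (tt R - l * v) + l * v := by ring
    rw [e]
    refine (V.valuation.map_add _ _).trans (max_le h1.le ?_)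
    rw [map_mul]
    exact mul_le_of_le_one_right' hv
  have hn : act (-1 : 𝓞 F) Q' = -Q' := by rw [act_neg, act_one]
  have hK' : Ker V (-Q') := by
    rw [← hn]
    exact kr_act hA hG _ hQ'
  have hm := kr_tt_act hA hG (-1 : 𝓞 F) hQ'
  have h1m : ak Ω (-1 : 𝓞 F) = -1 := by
    have e : (((-1 : 𝓞 F) : 𝓞 F) : F) = -1 := rfl
    show algebraMap F Ω (((-1 : 𝓞 F) : 𝓞 F) : F) = -1
    rw [e, map_neg, map_one]
  rw [hn, h1m] at hm
  have hQl := hle Q u hu h
  have hQ'l := hle Q' u' hu' h'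
  have hm2 : V.valuation (tt (-Q') - -1 * tt Q') ≤ V.valuation (l : Ω) ^ 2 :=
    hm.trans (pow_le_pow_left' hQ'l 2)
  have hnQ' : V.valuation (tt (-Q')) ≤ V.valuation (l : Ω) := by
    have e : tt (-Q') = (tt (-Q') - -1 * tt Q') - tt Q' := by ring
    rw [e]
    exact (V.valuation.map_sub _ _).trans (max_le (hm2.trans hsq.le) hQ'l)
  have ha := kr_tt_add hG hQ hK' (V.valuation (l : Ω)) hQl hnQ'
  rw [← sub_eq_add_neg] at ha
  refine ⟨by rw [sub_eq_add_neg]; exact kr_add hG hQ hK', ?_⟩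
  have e : tt (Q - Q') = ((((tt (Q - Q') - tt Q - tt (-Q')) +
      (tt (-Q') - -1 * tt Q')) + (tt Q - l * u)) - (tt Q' - l * u')) +
      l * (u - u') := by ring
  have hv : V.valuation ((l : Ω) * (u - u')) = V.valuation (l : Ω) := by
    rw [map_mul, hd, mul_one]
  rw [e, ← hv]
  refine V.valuation.map_add_eq_of_lt_right ?_
  rw [hv]
  exact V.valuation.map_sub_lt (V.valuation.map_add_lt (V.valuation.map_add_lt (ha.trans_lt hsq)
    (hm2.trans_lt hsq)) h) h'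

/-- Chunk YP4 (S). tt_diff for Q = act (cj π) P, Q' = act (cj π) P'; act (cj π) (P - P') = Q - Q'; div_any with β = cj π (LL1_prime_cj, LL1_prim_cj, LL1_nm), pt_nontriv for P - P'. -/
theorem pt_diff (D : Dat A B Om j act mo ψ π l) (hG : GV A B V) (hV : vo V (cj π) < 1) (hl : V.valuation (l : Ω) = vo V (cj π))
    {P P' : Pt (WAB A B) Ω} {u u' : Ω} (hu : V.valuation u ≤ 1) (hu' : V.valuation u' ≤ 1)
    (hQ : Ker V (act (cj π) P)) (hQ' : Ker V (act (cj π) P'))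
    (h : V.valuation (tt (act (cj π) P) - l * u) < V.valuation (l : Ω))
    (h' : V.valuation (tt (act (cj π) P') - l * u') < V.valuation (l : Ω))
    (hd : V.valuation (u - u') = 1) :
    ¬ ∃ X ∈ Tor act (cj π), ∀ s : Ω ≃ₐ[F] Ω, Inert V s →
      (ac (WAB A B) s P - P) - (ac (WAB A B) s P' - P') = ac (WAB A B) s X - X := by
  have hpr := cj_prime D.pr
  have hN := (xp_nm D).2
  have hl0 : V.valuation (l : Ω) ≠ 0 := by
    rw [hl]
    exact vo_ne V hpr.ne_zero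
  have hl1 : V.valuation (l : Ω) < 1 := by
    rw [hl]
    exact hV
  obtain ⟨h1, h2⟩ := tt_diff D.cma hG hQ hQ' hl0 hl1 hu hu' h h' hd
  rw [← map_sub] at h1 h2
  rw [hl] at h2
  obtain ⟨h3, h4⟩ := div_any D.cma hG hpr hN hV h1 h2
  rintro ⟨X, hX, hX2⟩
  refine pt_nontriv D.cma hG hpr hN hV h3 h4 ⟨X, hX, fun s hs => ?_⟩
  rw [← hX2 s hs, map_sub]
  abel

/-- Chunk YP5 (S/M), PORT of H13Z/LL1.lean exists_pt. If V u = 1: local_ptu, div_pt with β = cj π (V (tt Q) = V l), cc_pt, exists_TB, exists_kumB, dc_of_cc, ks_of_kum (YCB.lean). If V u < 1: P = 0 (tt 0 = 0: tt_zero; Ker V 0), B₀ = N, the same. -/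
theorem exists_ptu (D : Dat A B Om j act mo ψ π l) (hG : GV A B V) (he : Pairing A B act π l e) (hNb : Nb l N) (hV : vo V (cj π) < 1)
    (hl : V.valuation (l : Ω) = vo V (cj π)) {u : Ω} (hu : u ∈ N) (hu1 : V.valuation u ≤ 1) :
    ∃ (P : Pt (WAB A B) Ω) (B₀ L : IntermediateField F Ω) (y₁ : Pt (WAB A B) Ω → Ω),
      Ker V (act (cj π) P) ∧
      V.valuation (tt (act (cj π) P) - l * u) < V.valuation (l : Ω) ∧
      (P = 0 ∨ Ker V P ∧ V.valuation (tt P) ^ Nm (cj π) = vo V (cj π)) ∧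
      (∀ s, DecN N V s → s ∈ B₀.fixingSubgroup) ∧
      Cc act π B₀ (fun s => ac (WAB A B) s P - P) ∧ IsTB act π B₀ L ∧
      (∀ T ∈ Tor act π, Kum L e (fun s => ac (WAB A B) s P - P) T (y₁ T)) ∧
      Dc act π N V (fun s => ac (WAB A B) s P - P) ∧ KS act π N V e (fun s => ac (WAB A B) s P - P) y₁ := by
  classical
  have hfdN := hNb.fin
  have hVl : V.valuation (l : Ω) < 1 := by rw [hl]; exact hV
  have hpr := cj_prime D.pr
  have hl0 : V.valuation (l : Ω) ≠ 0 := by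
    rw [hl]
    exact vo_ne V hpr.ne_zero
  have key : ∀ (P : Pt (WAB A B) Ω) (B₀ : IntermediateField F Ω), FiniteDimensional F B₀ →
      (∀ s, DecN N V s → s ∈ B₀.fixingSubgroup) →
      (∀ s ∈ B₀.fixingSubgroup, ac (WAB A B) s (act (cj π) P) = act (cj π) P) →
      ∃ (L : IntermediateField F Ω) (y₁ : Pt (WAB A B) Ω → Ω), (∀ s, DecN N V s → s ∈ B₀.fixingSubgroup) ∧
      Cc act π B₀ (fun s => ac (WAB A B) s P - P) ∧ IsTB act π B₀ L ∧
      (∀ T ∈ Tor act π, Kum L e (fun s => ac (WAB A B) s P - P) T (y₁ T)) ∧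
      Dc act π N V (fun s => ac (WAB A B) s P - P) ∧ KS act π N V e (fun s => ac (WAB A B) s P - P) y₁ := by
    intro P B₀ hfd hB hP
    have C : Cc act π B₀ fun s => ac (WAB A B) s P - P := cc_pt D.cma hP
    obtain ⟨L, hL⟩ := exists_TB D.cma π D.pr B₀
    let y₁ : Pt (WAB A B) Ω → Ω := fun T => if hT : T ∈ Tor act π then (exists_kumB D C he hL hT).choose else 1
    have hy₁ : ∀ T ∈ Tor act π, Kum L e (fun s => ac (WAB A B) s P - P) T (y₁ T) := by
      intro T hT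
      have h1 : y₁ T = (exists_kumB D C he hL hT).choose := dif_pos hT
      rw [h1]
      exact (exists_kumB D C he hL hT).choose_spec
    exact ⟨L, y₁, hB, C, hL, hy₁, dc_of_cc C hB, ks_of_kum hL hB hy₁⟩
  rcases lt_or_eq_of_le hu1 with hu2 | hu2
  · obtain ⟨L, y₁, h⟩ := key 0 N hfdN (fun s hs => hs.1) (fun s _ => by rw [map_zero, map_zero])
    refine ⟨0, N, L, y₁, ?_, ?_, Or.inl rfl, h⟩
    · rw [map_zero]
      exact ker_zero V
    · rw [map_zero, tt_zero, zero_sub, Valuation.map_neg, map_mul]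
      exact mul_lt_of_lt_one_right (zero_lt_iff.2 hl0) hu2
  · obtain ⟨Q, B₀, hfd, hB, hQ, hQK, hQt⟩ := local_ptu (V := V) (N := N) D.cma hG D.hl hVl hu hu2
    have hQv : V.valuation (tt Q) = vo V (cj π) := by
      rw [hQt, map_mul, hu2, mul_one, hl]
    obtain ⟨P, hPQ, hPK, hPt⟩ := div_pt D.cma hG hpr (xp_nm D).2 hV hQK hQv
    obtain ⟨L, y₁, h⟩ := key P B₀ hfd hB (fun s hs => by rw [hPQ]; exact hQ s hs)
    refine ⟨P, B₀, L, y₁, ?_, ?_, Or.inr ⟨hPK, hPt⟩, h⟩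
    · rw [hPQ]
      exact hQK
    · rw [hPQ, hQt, sub_self, map_zero]
      exact zero_lt_iff.2 hl0

end H13X
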