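import Mathlib
import Pool.Agent.Lib.H13X.XC2
import Pool.Agent.Lib.H13X.XK
import Pool.Agent.Lib.H13X.XLV
import Pool.Agent.Lib.H13X.XP
import Pool.Agent.Lib.H13Y.YPG

/-! # H13X: port of H13Y/YL1 -/

open NumberField IsDedekindDomain WeierstrassCurve

namespace H13X

open H55P (IQ embF eF LF Per IsHecke Pt ac Inert Dec Nm Coc)
open H35P (WAB Ker tt)
open H55K (Tor ak xc yc CMA Dta GV GMod cj cj_cj mul_cj cj_prime cj_dvd cj_nat Nm_cj Nm_mul Nm_nat)
open H55K.S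
open H13S (Abv)





variable {F : Type} [Field F] [NumberField F] [IQ F] {A B : F} {Om : ℂ} {Ω : Type} [Field Ω] [DecidableEq Ω]
  [Algebra F Ω] [IsAlgClosure F Ω] {j : Ω →+* ℂ} {act : 𝓞 F →+* AddMonoid.End (Pt (WAB A B) Ω)} {mo : Ideal (𝓞 F)}
  {ψ : Ideal (𝓞 F) →*₀ 𝓞 F}

variable {π : 𝓞 F} {l : ℕ} {N : IntermediateField F Ω} {V : ValuationSubring Ω} {t : Ω} {e0 : ℕ}
  {e : Pt (WAB A B) Ω → Pt (WAB A B) Ω → Ω}

/-- Chunk YL1a (S/M). If all (y T)^l have the level l e0 then c is zero on JV: RV.top, c_zero (JV elements are in DT: R.dec). -/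
theorem top_zero (R : RV A B Om j act mo ψ π l N V t e0) (he : Pairing A B act π l e) {c : (Ω ≃ₐ[F] Ω) → Pt (WAB A B) Ω} (hc : Dc act π N V c)
    {y : Pt (WAB A B) Ω → Ω} (hy : KS act π N V e c y)
    (h : ∀ T ∈ Tor act π, Lv act π l N V (V.valuation t ^ (l * e0)) (y T ^ l)) :
    ∀ s, JV act π V s → c s = 0 := by
  intro s hs
  refine c_zero R.base.D he hc hy ⟨R.dec hs.1, hs.2.1⟩ fun T hT => ?_
  exact R.top ((sys_of R.base.D he hc hy).fx T hT) rfl (h T hT) hs.1 hs.2.1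

/-- Chunk YL1b (S/M). Two classes with the same coefficient at T₀ at the level l^2 + l - 1 = l e0 - 1 differ by a class vanishing on JV. hc.sub, ks_sub (YK.lean), sys_of, the system (y T/y₁ T)^l = (y T)^l/(y₁ T)^l (Sys.div or sys_of); its coefficient at T₀ is a - a₁ (co_inv, co_mul with z = 1); RV.up: level l^2 + l (not 0 for T₀: T₀ ≠ 0), top_zero. -/
theorem same_coef (R : RV A B Om j act mo ψ π l N V t e0) (hin : Tor act (cj π) = Tor act π) (hq : Nm π = l ^ 2) (he : Pairing A B act π l e)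
    {c c₁ : (Ω ≃ₐ[F] Ω) → Pt (WAB A B) Ω} (hc : Dc act π N V c) (hc₁ : Dc act π N V c₁) {y y₁ : Pt (WAB A B) Ω → Ω}
    (hy : KS act π N V e c y) (hy₁ : KS act π N V e c₁ y₁) {T₀ : Pt (WAB A B) Ω} (hT : T₀ ∈ Tor act π) (h0 : T₀ ≠ 0)
    {a a₁ : Ω} (ha : Co act π l N V t (l ^ 2 + l - 1) (y T₀ ^ l) a)
    (ha₁ : Co act π l N V t (l ^ 2 + l - 1) (y₁ T₀ ^ l) a₁) (hd : V.valuation (a - a₁) < 1) :
    ∀ s, JV act π V s → c s - c₁ s = 0 := by
  have D := R.base.D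
  have hl5 := D.five
  have he0 : l * e0 = l ^ 2 + l := by
    rcases R.base.val_l.2.2.2.2.2 with h | h
    · exfalso
      have h1 := h.1
      rw [hq] at h1
      nlinarith
    · rw [h.2.1]
      ring
  have hi1 : 1 ≤ l ^ 2 + l - 1 := by
    have : 1 ≤ l ^ 2 := Nat.one_le_pow _ _ (by omega)
    omega
  have hi2 : l ^ 2 + l - 1 + 1 = l ^ 2 + l := by omega
  have hks := ks_sub D he hc hy hc₁ hy₁
  have hm := sys_of D he (hc.sub hc₁) hks
  have hm₁ := sys_of D he hc₁ hy₁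
  have h1 := R.co_mul hi1 ha (R.co_inv (hm₁.ne T₀ hT) hi1 ha₁) Hx.one one_ne_zero
  have e1 : y T₀ ^ l * (y₁ T₀ ^ l)⁻¹ * 1 ^ l = (y T₀ / y₁ T₀) ^ l := by
    rw [div_pow, one_pow, mul_one, div_eq_mul_inv]
  rw [e1, ← sub_eq_add_neg] at h1
  have h2 := R.up hm hT h0 hi1 h1 hd
  rw [hi2, ← he0] at h2
  exact top_zero R he (hc.sub hc₁) hks h2

/-- The inert case: the conjugate of π is associated to π. -/
theorem inert_of (D : Dat A B Om j act mo ψ π l) (hq : Nm π = l ^ 2) :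
    Tor act (cj π) = Tor act π ∧ vo V (cj π) = vo V π := by
  have h5 := D.five
  rcases dichotomy D.hl D.dta.unr D.pr D.dvd with ⟨h, -, -⟩ | ⟨-, -, h, -⟩
  · exact ⟨tor_assoc h, vo_assoc V h (fun x => vo_le V x)⟩
  · exfalso
    rw [h] at hq
    nlinarith

/-- Chunk YL1c (M). The local condition in the inert case over N. cj π = π, V l = V π (R.base.val_l). q, r from R.nb.res V π. T₀ ≠ 0 from gi_gen. For each i: exists_ptu with u = r i (choose: P i, y i); levels: level_ptu and RV.levels, so co_exists gives a i = the coefficient at T₀ of (y i T₀)^l at the level l^2 + l - 1. For i ≠ i' not V (a i - a i') < 1: otherwise same_coef: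
the difference of the classes vanishes on JV, cob_inert (Dc.sub, R.dec) gives X, against pt_diff. c has the coefficient a (sys_of, RV.levels, co_exists). pigeon with S = N: i with V (a - a i) < 1. same_coef: c - c_i vanishes on JV; cob_ram (YCB.lean) with moved_ram: c s - (s P_i - P_i) = s X - X. The point P_i + X. -/
theorem loc_inert (R : RV A B Om j act mo ψ π l N V t e0) (hq : Nm π = l ^ 2) (he : Pairing A B act π l e)
    {c : (Ω ≃ₐ[F] Ω) → Pt (WAB A B) Ω} (hc : Dc act π N V c) {y : Pt (WAB A B) Ω → Ω} (hy : KS act π N V e c y)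
    (h2 : ∀ T ∈ Tor act π, Lv act π l N V (V.valuation t ^ 2) (y T ^ l)) :
    ∃ P : Pt (WAB A B) Ω, ∀ s, DecN N V s → c s = ac (WAB A B) s P - P := by
  have D := R.base.D
  obtain ⟨hin, hvc⟩ := inert_of (V := V) D hq
  have hG := R.base.gv
  have hV : vo V (cj π) < 1 := by
    rw [hvc]
    exact R.base.above
  have hvl : V.valuation (l : Ω) = vo V (cj π) := by
    rw [hvc]
    exact R.base.val_l.1
  obtain ⟨q, f, -, -, -, -, r, hr1, hr2, hr3⟩ := R.nb.res V π D.pr R.base.above R.lt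
  obtain ⟨-, T₀, hT₀, -, hz⟩ := gi_gen R.base.D.cma π D.pr
  have hT₀0 : T₀ ≠ 0 := by
    intro h
    have h1 := (hz 1).1 (by rw [act_one, h])
    exact D.pr.not_isUnit (isUnit_of_dvd_one h1)
  have hpts : ∀ i, ∃ (P : Pt (WAB A B) Ω) (y₁ : Pt (WAB A B) Ω → Ω) (a : Ω),
      Ker V (act (cj π) P) ∧
      V.valuation (tt (act (cj π) P) - l * r i) < V.valuation (l : Ω) ∧
      Dc act π N V (fun s => ac (WAB A B) s P - P) ∧ KS act π N V e (fun s => ac (WAB A B) s P - P) y₁ ∧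
      Co act π l N V t (l ^ 2 + l - 1) (y₁ T₀ ^ l) a := by
    intro i
    obtain ⟨P, B₀, L, y₁, h1, h3, h4, hB, C, hL, hkum, hc₁, hy₁⟩ :=
      exists_ptu D hG he R.nb hV hvl (hr1 i).1 (hr1 i).2
    have hfd := hL.fin
    have hnf : NumberField L := NumberField.of_module_finite F L
    rw [Nm_cj, hvc] at h4
    have hm₁ := sys_of D he hc₁ hy₁
    have hlev := R.levels hm₁ (Or.inr ⟨hq, rfl⟩) (fun T hT =>
      level_ptu R hin hq he hL hB h4 C T hT (y₁ T) (hkum T hT))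
    obtain ⟨a, ha⟩ := R.co_exists (hm₁.fx T₀ hT₀) (hlev T₀ hT₀)
    exact ⟨P, y₁, a, h1, h3, hc₁, hy₁, ha⟩
  choose P y₁ a hK hTt hcD hcK hco using hpts
  have hinj : ∀ i i', i ≠ i' → ¬ V.valuation (a i - a i') < 1 := by
    intro i i' hii hlt
    have h5 := same_coef R hin hq he (hcD i) (hcD i') (hcK i) (hcK i') hT₀ hT₀0 (hco i) (hco i') hlt
    obtain ⟨X, hX, h6⟩ := cob_inert D ((hcD i).sub (hcD i')) (fun s _ hs => h5 s hs)
    exact pt_diff D hG hV hvl (hr1 i).2 (hr1 i').2 (hK i) (hK i') (hTt i) (hTt i') (hr2 i i' hii)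
      ⟨X, hX, fun s hs => h6 s (R.dec hs).1 hs⟩
  have hm := sys_of D he hc hy
  have hlev := R.levels hm (Or.inr ⟨hq, rfl⟩) h2
  obtain ⟨a₀, ha₀⟩ := R.co_exists (hm.fx T₀ hT₀) (hlev T₀ hT₀)
  obtain ⟨i, hi⟩ := H13Y.pigeon V (N : Set Ω) r a (fun x hx hxV => hr3 x hx hxV) (fun i => (hco i).1) hinj
    ha₀.1.1 ha₀.1.2
  have h5 := same_coef R hin hq he hc (hcD i) hy (hcK i) hT₀ hT₀0 ha₀ (hco i) hi
  obtain ⟨X, hX, h6⟩ := cob_ram D (hc.sub (hcD i)) (fun s _ hs => h5 s hs) (by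
    obtain ⟨σ, h6, h7⟩ := moved_ram D.cma hG (cj_prime D.pr) (xp_nm D).2 hV
    exact ⟨σ, (R.dec h6).1, h6, h7⟩)
  refine ⟨P i + X, fun s hs => ?_⟩
  have h7 : c s - (ac (WAB A B) s (P i) - P i) = ac (WAB A B) s X - X := h6 s hs
  rw [map_add, sub_eq_iff_eq_add.1 h7]
  abel

end H13X
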