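import Mathlib
import Pool.Agent.Lib.H13X.XDG
import Pool.Agent.Lib.H13X.XE
import Pool.Agent.Lib.H13X.XP
import Pool.Agent.Lib.H13Y.YPG
import Pool.Agent.Lib.H55K.SLV

/-!
# H13X: a class which is zero on the inertia elements fixing the l-torsion is locally a coboundary

If some inertia element over K moves the points killed by the conjugate β of π, then the class is a coboundary (cob_dec_ram).
Otherwise inertia over K fixes all points killed by powers of β, and a Frobenius element φ over K moves some of them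
(fin_move: the residue field of K is finite), so every point killed by β is φ P - P with P killed by a power of β (phi_surj).
-/

open NumberField IsDedekindDomain WeierstrassCurve

namespace H13X

open H55P (IQ embF eF LF Per IsHecke Pt ac Inert Dec Nm Coc)
open H35P (WAB Ker tt)
open H55K (Tor ak xc yc CMA Dta GV GMod cj cj_cj mul_cj cj_prime cj_dvd cj_nat Nm_cj Nm_mul Nm_nat)
open H55K.S
open H13S (Abv)

variable {F : Type} [Field F] [NumberField F] [IQ F] {A B : F} {Om : ℂ} {Ω : Type} [Field Ω] [DecidableEq Ω]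
  [Algebra F Ω] [IsAlgClosure F Ω] {j : Ω →+* ℂ} {act : 𝓞 F →+* AddMonoid.End (Pt (WAB A B) Ω)} {mo : Ideal (𝓞 F)}
  {ψ : Ideal (𝓞 F) →*₀ 𝓞 F}

variable {π : 𝓞 F} {l : ℕ} {V : ValuationSubring Ω}

/-- Many points killed by a power of β, no two equal up to sign. -/
theorem many_pts (hA : CMA F A B Om j act) {β : 𝓞 F} (hβ : Prime β) (m : ℕ) :
    ∃ (n : ℕ) (T : ℕ → Pt (WAB A B) Ω), (∀ i, T i ∈ Tor act (β ^ n)) ∧ (∀ i < m, T i ≠ 0) ∧
      ∀ i < m, ∀ k < m, i ≠ k → T i ≠ T k ∧ T i ≠ -T k := by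
  have hN0 : Nm β ≠ 0 := Nm_ne_zero' hβ.ne_zero
  have hN1 : Nm β ≠ 1 := fun h => hβ.not_unit (Nm_eq_one'.1 h)
  have hN2 : 2 ≤ Nm β := by omega
  have hn : (2 * m) ^ 2 < Nm β ^ ((2 * m) ^ 2) := Nat.lt_pow_self (by omega)
  obtain ⟨T₀, hT₀, -, hz, -⟩ := hA.gen (β ^ ((2 * m) ^ 2)) (pow_ne_zero _ hβ.ne_zero)
  have key : ∀ a : ℤ, a ≠ 0 → |a| ≤ 2 * m → act ((a : ℤ) : 𝓞 F) T₀ ≠ 0 := by
    intro a ha0 ha h
    have h1 := (hz _).1 h
    have h2 : Nm β ^ ((2 * m) ^ 2) ∣ a.natAbs ^ 2 := by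
      obtain ⟨c, hc⟩ := h1
      have h3 : Nm ((a.natAbs : ℕ) : 𝓞 F) = a.natAbs ^ 2 := Nm_nat _
      have h4 : Nm ((a : ℤ) : 𝓞 F) = Nm ((a.natAbs : ℕ) : 𝓞 F) := by
        rcases Int.natAbs_eq a with h5 | h5
        · conv_lhs => rw [h5]
          rw [Int.cast_natCast]
        · conv_lhs => rw [h5]
          rw [Int.cast_neg, Int.cast_natCast, neg_eq_neg_one_mul, Nm_mul]
          have h6 : Nm (-1 : 𝓞 F) = 1 := Nm_eq_one'.2 isUnit_one.neg
          rw [h6, one_mul]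
      have h7 : ∀ k : ℕ, Nm (β ^ k) = Nm β ^ k := by
        intro k
        induction k with
        | zero => rw [pow_zero, pow_zero]; exact Nm_eq_one'.2 isUnit_one
        | succ k ih => rw [pow_succ, Nm_mul, ih, pow_succ]
      rw [← h3, ← h4, hc, Nm_mul, h7]
      exact dvd_mul_right _ _
    have h8 : 0 < a.natAbs ^ 2 := pow_pos (Int.natAbs_pos.2 ha0) 2
    have h9 := Nat.le_of_dvd h8 h2
    have h10 : a.natAbs ≤ 2 * m := by
      have h12 := Int.abs_eq_natAbs a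
      rw [h12] at ha
      exact_mod_cast ha
    have h11 : a.natAbs ^ 2 ≤ (2 * m) ^ 2 := Nat.pow_le_pow_left h10 2
    omega
  refine ⟨(2 * m) ^ 2, fun i => act (((i + 1 : ℕ) : ℤ) : 𝓞 F) T₀, fun i => act_tor hT₀, fun i hi => ?_,
    fun i hi k hk hik => ⟨fun h => ?_, fun h => ?_⟩⟩
  · refine key _ (by positivity) ?_
    rw [abs_of_nonneg (by positivity)]
    push_cast
    omega
  · refine key (((i + 1 : ℕ) : ℤ) - ((k + 1 : ℕ) : ℤ)) (by push_cast; omega) ?_ ?_
    · rw [abs_le]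
      push_cast
      omega
    · change act (((i + 1 : ℕ) : ℤ) : 𝓞 F) T₀ = act (((k + 1 : ℕ) : ℤ) : 𝓞 F) T₀ at h
      rw [Int.cast_sub, act_sub, h, sub_self]
  · refine key (((i + 1 : ℕ) : ℤ) + ((k + 1 : ℕ) : ℤ)) (by push_cast; omega) ?_ ?_
    · rw [abs_le]
      push_cast
      omega
    · change act (((i + 1 : ℕ) : ℤ) : 𝓞 F) T₀ = -act (((k + 1 : ℕ) : ℤ) : 𝓞 F) T₀ at h
      rw [Int.cast_add, act_add, h, neg_add_cancel]

/-- The Frobenius element moves a point killed by a power of β, if the differences of the x-coordinates of these points have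
all the same value. -/
theorem fin_move (hA : CMA F A B Om j act) {β : 𝓞 F} (hβ : Prime β) {φ : Ω ≃ₐ[F] Ω} {Q : ℕ} (hQ : 2 ≤ Q)
    (hφ : ∀ x ∈ V, V.valuation (φ x - x ^ Q) < 1) {r : V.ValueGroup} (hr : r ≠ 0)
    (hd : ∀ n : ℕ, ∀ P ∈ Tor act (β ^ n), ∀ P' ∈ Tor act (β ^ n), P ≠ 0 → P' ≠ 0 → P ≠ P' → P ≠ -P' →
      V.valuation (xc P - xc P') = r) :
    ∃ n : ℕ, ∃ T ∈ Tor act (β ^ n), ac (WAB A B) φ T ≠ T := by
  by_contra hcon
  push Not at hcon
  obtain ⟨n, T, hT, hT0, hTT⟩ := many_pts hA hβ (Q + 3)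
  have hv : ∀ i < Q + 3, ∀ k < Q + 3, i ≠ k → V.valuation (xc (T i) - xc (T k)) = r := fun i hi k hk hik =>
    hd n _ (hT i) _ (hT k) (hT0 i hi) (hT0 k hk) (hTT i hi k hk hik).1 (hTT i hi k hk hik).2
  have hx : ∀ i, φ (xc (T i)) = xc (T i) := fun i => by
    rw [← xc_ac, hcon n _ (hT i)]
  let f : ℕ → Ω := fun i => (xc (T (i + 2)) - xc (T 0)) / (xc (T 1) - xc (T 0))
  have hf1 : ∀ i < Q + 1, V.valuation (f i) = 1 := by
    intro i hi
    show V.valuation ((xc (T (i + 2)) - xc (T 0)) / (xc (T 1) - xc (T 0))) = 1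
    rw [map_div₀, hv _ (by omega) _ (by omega) (by omega), hv _ (by omega) _ (by omega) (by omega), div_self hr]
  have hfd : ∀ i < Q + 1, ∀ k < Q + 1, i ≠ k → V.valuation (f i - f k) = 1 := by
    intro i hi k hk hik
    have e : f i - f k = (xc (T (i + 2)) - xc (T (k + 2))) / (xc (T 1) - xc (T 0)) := by
      show (xc (T (i + 2)) - xc (T 0)) / (xc (T 1) - xc (T 0)) -
        (xc (T (k + 2)) - xc (T 0)) / (xc (T 1) - xc (T 0)) = _
      rw [← sub_div]
      congr 1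
      ring
    rw [e, map_div₀, hv _ (by omega) _ (by omega) (by omega), hv _ (by omega) _ (by omega) (by omega), div_self hr]
  have hff : ∀ i < Q + 1, V.valuation (f i ^ Q - (1 : ℕ) * f i) < 1 := by
    intro i hi
    have h1 := hφ (f i) ((V.valuation_le_one_iff _).1 (hf1 i hi).le)
    have h2 : φ (f i) = f i := by
      show φ ((xc (T (i + 2)) - xc (T 0)) / (xc (T 1) - xc (T 0))) = _
      rw [map_div₀, map_sub, map_sub, hx, hx, hx]
    rw [h2] at h1
    rw [Nat.cast_one, one_mul, Valuation.map_sub_swap]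
    exact h1
  obtain ⟨i, hi⟩ := H13Y.pigeon2 V hQ (n := 1) (fun i : Fin Q => f i)
    (fun i => ⟨(hf1 i (by omega)).le, hff i (by omega)⟩)
    (fun i i' hii h => by
      have h1 := hfd i (by omega) i' (by omega) (fun h2 => hii (Fin.ext h2))
      exact absurd h (by rw [h1]; exact lt_irrefl _)) (z := f Q) (hf1 Q (by omega)).le (hff Q (by omega))
  rw [hfd Q (by omega) i (by omega) (by omega)] at hi
  exact lt_irrefl _ hi

/-- Every point killed by β is φ P - P with P killed by a power of β. -/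
theorem phi_surj (hA : CMA F A B Om j act) {β : 𝓞 F} (hβ : Prime β) {φ : Ω ≃ₐ[F] Ω}
    (h : ∃ n : ℕ, ∃ T ∈ Tor act (β ^ n), ac (WAB A B) φ T ≠ T) {R : Pt (WAB A B) Ω} (hR : R ∈ Tor act β) :
    ∃ n : ℕ, ∃ P ∈ Tor act (β ^ n), ac (WAB A B) φ P - P = R := by
  classical
  obtain ⟨T, hT, hne⟩ := Nat.find_spec h
  have hmin := fun m (hm : m < Nat.find h) => Nat.find_min h hm
  obtain ⟨n, hn⟩ : ∃ n, n = Nat.find h := ⟨_, rfl⟩
  rw [← hn] at hT hmin
  have hn0 : n ≠ 0 := by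
    rintro rfl
    apply hne
    rw [pow_zero, mem_Tor, act_one] at hT
    rw [hT, map_zero]
  obtain ⟨k, rfl⟩ : ∃ k, n = k + 1 := ⟨n - 1, by omega⟩
  have hβT : act β T ∈ Tor act (β ^ k) := by
    rw [mem_Tor, ← act_mul, ← pow_succ]
    exact hT
  have hfix : ac (WAB A B) φ (act β T) = act β T := by
    by_contra h1
    exact hmin k (Nat.lt_succ_self k) ⟨_, hβT, h1⟩
  have hR₀ : ac (WAB A B) φ T - T ∈ Tor act β := by
    rw [mem_Tor, map_sub, ← ac_act hA, hfix, sub_self]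
  obtain ⟨a, ha⟩ := (PA1_gen hA β hβ _ hR₀ (sub_ne_zero.2 hne)).1 R hR
  refine ⟨k + 1, act a T, act_tor hT, ?_⟩
  rw [ac_act hA, ha, map_sub]

/-- THE LOCAL LEMMA. -/
theorem loc_zero (D : Dat A B Om j act mo ψ π l) {K : IntermediateField F Ω} [NumberField K]
    {c : (Ω ≃ₐ[F] Ω) → Pt (WAB A B) Ω} (C : Cc act π K c) {w : HeightOneSpectrum (𝓞 K)} (hw : Abv K V w)
    (hI : V.valuation (l : Ω) < 1 → ∀ s, Inert V s → s ∈ K.fixingSubgroup)
    (h : ∀ s ∈ K.fixingSubgroup, JV act π V s → c s = 0) :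
    ∃ P : Pt (WAB A B) Ω, ∀ s ∈ K.fixingSubgroup, Dec V s → c s = ac (WAB A B) s P - P := by
  have hA := D.cma
  have hπ' : Prime (cj π) := cj_prime D.pr
  have hd' : cj π ∣ (l : 𝓞 F) := D.conj.dvd
  have hDc : Dc act π K V c := dc_of_cc C fun s hs => hs.1
  obtain ⟨X, hX, hX2⟩ := cob_inert D hDc h
  by_cases hmv : ∃ σ ∈ K.fixingSubgroup, Inert V σ ∧ ∃ T ∈ Tor act (cj π), ac (WAB A B) σ T ≠ T
  · obtain ⟨σ, hσ, hσI, hσT⟩ := hmv
    have h1 := cob_dec_ram (hDc.sub_cob hA hX) (fun s hs hi => by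
      show c s - (ac (WAB A B) s X - X) = 0
      rw [hX2 s hs hi, sub_self]) ⟨σ, hσ, hσI, fun T hT hs => no_fix hA hπ' hσT hT hs⟩
    exact ⟨X, fun s hs hd => sub_eq_zero.1 (h1 s ⟨hs, hd⟩)⟩
  · push Not at hmv
    have hcj1 : vo V (cj π) = 1 := by
      by_contra hne
      have hlt : vo V (cj π) < 1 := lt_of_le_of_ne (vo_le V _) hne
      have hVl := H55K.S.val_l hd' (fun V x => vo_le V x) V hlt
      obtain ⟨σ, h1, h2⟩ := moved_ram hA (D.dta.good V hVl) hπ' (xp_nm D).2 hlt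
      obtain ⟨T, hT, hT0⟩ := H55K.exists_tor hA hπ'
      exact hT0 (h2 T hT (hmv σ (hI hVl σ h1) h1 T hT))
    obtain ⟨φ, hφK, hφD, hφF⟩ := exists_frobK K hw
    have hQ : 2 ≤ Ideal.absNorm w.asIdeal := by
      have h1 : Ideal.absNorm w.asIdeal ≠ 0 := by
        rw [Ne, Ideal.absNorm_eq_zero_iff]
        exact w.ne_bot
      have h2 : Ideal.absNorm w.asIdeal ≠ 1 := by
        rw [Ne, Ideal.absNorm_eq_one_iff]
        exact w.isPrime.ne_top
      omega
    have hpow1 : ∀ n, vo V (cj π ^ n) = 1 := fun n => by rw [vo_pow, hcj1, one_pow]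
    have hln : ∀ (n : ℕ), ∀ P ∈ Tor act (cj π ^ n), (l ^ n) • P = 0 := by
      intro n P hP
      rw [← act_nat (act := act), Nat.cast_pow]
      obtain ⟨u, hu⟩ := pow_dvd_pow_of_dvd hd' n
      rw [hu, mul_comm, act_mul, mem_Tor.1 hP, map_zero]
    have hle : V.valuation (l : Ω) ≤ 1 := by
      rw [← vo_nat (F := F)]
      exact vo_le V _
    -- inertia over K fixes the points killed by the powers of the conjugate of π
    have hfix : ∀ s ∈ K.fixingSubgroup, Inert V s → ∀ (n : ℕ), ∀ P ∈ Tor act (cj π ^ n), ac (WAB A B) s P = P := by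
      intro s hs hi n P hP
      rcases lt_or_eq_of_le hle with h1 | h1
      · exact inert_tors hA (D.dta.good V h1) (hpow1 n) hi hP
      · obtain ⟨Kg, u, hG⟩ := D.dta.gmod V
        refine H55K.inert_fix hA D.hl D.five hπ' hd' hG h1 s hi (fun T hT => hmv s hs hi T hT) (l ^ n) ?_ P ?_
        · rw [Nat.cast_pow, map_pow, h1, one_pow]
        · rw [smul_sub, hln n P hP, sub_zero]
          have h2 : (l ^ n) • ac (WAB A B) s P = ac (WAB A B) s ((l ^ n) • P) := (map_nsmul _ _ _).symm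
          rw [h2, hln n P hP, map_zero]
    have hmove : ∃ n : ℕ, ∃ T ∈ Tor act (cj π ^ n), ac (WAB A B) φ T ≠ T := by
      rcases lt_or_eq_of_le hle with h1 | h1
      · have hG := D.dta.good V h1
        have hnk : ∀ n : ℕ, ∀ P ∈ Tor act (cj π ^ n), P ≠ 0 → ¬ Ker V P := fun n P hP h0 hK =>
          h0 (kr_tor hA hG _ (hpow1 n) hP hK)
        refine fin_move hA hπ' hQ hφF (r := 1) one_ne_zero fun n P hP P' hP' h0 h0' h2 h3 => ?_
        exact H55K.cls_diff hG (hnk n P hP h0) (hnk n P' hP' h0')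
          (hnk n _ (sub_mem hP hP') (sub_ne_zero.2 h2))
          (hnk n _ (add_mem hP hP') (fun h4 => h3 (eq_neg_of_add_eq_zero_left h4)))
      · obtain ⟨Kg, u, hG⟩ := D.dta.gmod V
        have hnk : ∀ n : ℕ, ∀ P ∈ Tor act (cj π ^ n), P ≠ 0 → P ∉ Kg := fun n P hP h0 hK =>
          h0 (hG.tors (l ^ n) (by rw [Nat.cast_pow, map_pow, h1, one_pow]) P hK (hln n P hP))
        refine fin_move hA hπ' hQ hφF (r := V.valuation u ^ 2)
          (pow_ne_zero 2 ((map_ne_zero _).2 hG.une)) fun n P hP P' hP' h0 h0' h2 h3 => ?_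
        exact hG.diff P P' (hnk n P hP h0) (hnk n P' hP' h0')
          (hnk n _ (sub_mem hP hP') (sub_ne_zero.2 h2))
          (hnk n _ (add_mem hP hP') (fun h4 => h3 (eq_neg_of_add_eq_zero_left h4)))
    have hcφ : c φ - (ac (WAB A B) φ X - X) ∈ Tor act (cj π) :=
      sub_mem (C.val φ hφK) (sub_mem (ac_mem hA φ hX) hX)
    obtain ⟨n, P, hP, hPR⟩ := phi_surj hA hπ' hmove hcφ
    refine ⟨X + P, fun s hs hd => ?_⟩
    have h0 : c s - (ac (WAB A B) s X - X) - (ac (WAB A B) s P - P) = 0 := by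
      refine dec_gen (d := fun s => c s - (ac (WAB A B) s X - X) - (ac (WAB A B) s P - P)) hw (fun s hs _ t ht _ => ?_) ?_ (fun s hs hi => ?_) hφK hφD hφF ?_ hs hd
      · show c (s * t) - (ac (WAB A B) (s * t) X - X) - (ac (WAB A B) (s * t) P - P) = _
        rw [C.mul s hs t ht, ac_mul, ac_mul, map_sub, map_sub, map_sub, map_sub]
        abel
      · obtain ⟨N, hN, hN0⟩ := C.cont
        have hf1 := lp_fin X
        have hf2 := lp_fin P
        refine ⟨N ⊔ IntermediateField.adjoin F {xc X, yc X} ⊔ IntermediateField.adjoin F {xc P, yc P},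
          inferInstance, fun s hs hsN _ => ?_⟩
        rw [IntermediateField.fixingSubgroup_sup, IntermediateField.fixingSubgroup_sup, Subgroup.mem_inf,
          Subgroup.mem_inf] at hsN
        show c s - (ac (WAB A B) s X - X) - (ac (WAB A B) s P - P) = 0
        rw [hN0 s hs hsN.1.1, lp_adj s X hsN.1.2, lp_adj s P hsN.2, sub_self, sub_self, sub_self, sub_zero]
      · show c s - (ac (WAB A B) s X - X) - (ac (WAB A B) s P - P) = 0
        rw [hX2 s hs hi, hfix s hs hi n P hP]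
        abel
      · show c φ - (ac (WAB A B) φ X - X) - (ac (WAB A B) φ P - P) = 0
        rw [hPR, sub_self]
    have h1 : c s - (ac (WAB A B) s X - X) = ac (WAB A B) s P - P := sub_eq_zero.1 h0
    rw [sub_eq_iff_eq_add.1 h1, map_add]
    abel

end H13X
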