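import Mathlib
import Pool.Agent.Lib.H13X.D
import Pool.Agent.Lib.H55K.SNA

/-! # H13X: the values of the Kummer generators of a local point (from H55K.SNA) -/

open NumberField IsDedekindDomain WeierstrassCurve

namespace H13X

open H55P (IQ embF eF LF Per IsHecke Pt ac Inert Dec Nm Coc)
open H35P (WAB Ker tt)
open H55K (Tor ak xc yc CMA Dta GV GMod cj cj_cj mul_cj cj_prime cj_dvd cj_nat Nm_cj Nm_mul Nm_nat)
open H55K.S
open H13S (Abv)

variable {F : Type} [Field F] [NumberField F] [IQ F] {A B : F} {Om : ℂ} {Ω : Type} [Field Ω] [DecidableEq Ω]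
  [Algebra F Ω] [IsAlgClosure F Ω] {j : Ω →+* ℂ} {act : 𝓞 F →+* AddMonoid.End (Pt (WAB A B) Ω)} {mo : Ideal (𝓞 F)}
  {ψ : Ideal (𝓞 F) →*₀ 𝓞 F}

/-- The value of a Kummer generator of the class of a point in the kernel of reduction, in the split case above the conjugate
of π. -/
theorem na_val {π : 𝓞 F} {l : ℕ} (D : Dat A B Om j act mo ψ π l) {e : Pt (WAB A B) Ω → Pt (WAB A B) Ω → Ω}
    (he : Pairing A B act π l e) (V : ValuationSubring Ω) (hG : GV A B V) (h1 : vo V π = 1)
    (hV : vo V (cj π) < 1) {P : Pt (WAB A B) Ω} (hPK : Ker V P)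
    (hc' : ∀ s, Inert V s → ac (WAB A B) s P - P ∈ Tor act (cj π)) {T : Pt (WAB A B) Ω} (hT : T ∈ Tor act π)
    {y : Ω} (hy0 : y ≠ 0) (hyk : ∀ s, Inert V s → s y = e (ac (WAB A B) s P - P) T * y) :
    ∃ k : ℤ, V.valuation y = vo V (cj π) ^ k := by
  classical
  have hA := D.cma
  have hl := D.hl
  have h5 := D.five
  have hl0 : l ≠ 0 := hl.ne_zero
  have hβ : Prime (cj π) := cj_prime D.pr
  have hnass : ¬ Associated (cj π) π := by
    intro h
    have h2 := vo_assoc V h (vo_le V)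
    rw [h1] at h2
    exact absurd hV (by rw [h2]; exact lt_irrefl _)
  obtain ⟨hNπ, hπl⟩ : Nm π = l ∧ π * cj π = (l : 𝓞 F) := by
    rcases dichotomy hl D.dta.unr D.pr D.dvd with ⟨h2, -, -⟩ | ⟨-, -, h2, h3⟩
    · exact absurd h2 hnass
    · exact ⟨h2, h3⟩
  have hNβ : Nm (cj π) = l := by rw [Nm_cj, hNπ]
  have hVlβ : V.valuation (l : Ω) = vo V (cj π) := by
    rw [← vo_nat (F := F), ← hπl, vo_mul, h1, one_mul]
  have hsT : ∀ s, Inert V s → ac (WAB A B) s T = T := fun s hs => by
    refine sub_eq_zero.1 (kr_tor hA hG π h1 ?_ (kr_inert hG s hs T))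
    exact (Tor act π).sub_mem (ac_mem hA s hT) hT
  by_cases hT0 : T = 0
  · refine na_fix hβ hV hy0 fun s hs => ?_
    rw [hyk s hs, hT0, ld3_e0' hl0 he (hc' s hs), one_mul]
  by_cases hno : ∃ R ∈ Tor act (cj π), ∀ s, Inert V s → ac (WAB A B) s (P + R) = P + R
  · obtain ⟨R, hR, hfix⟩ := hno
    have heR : e R T ≠ 0 := by
      intro h
      have h2 := he.root R hR T hT
      rw [h, zero_pow hl0] at h2
      exact zero_ne_one h2
    obtain ⟨k, hk⟩ := na_fix hβ hV (mul_ne_zero hy0 heR) fun s hi => by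
      rw [map_mul, hyk s hi, he.gal s R hR T hT, hsT s hi]
      have h2 : R = (ac (WAB A B) s P - P) + ac (WAB A B) s R := by
        have h3 := hfix s hi
        rw [map_add] at h3
        rw [sub_add_eq_add_sub, h3, add_sub_cancel_left]
      have h3 : e R T = e (ac (WAB A B) s P - P) T * e (ac (WAB A B) s R) T := by
        conv_lhs => rw [h2]
        exact he.add_left _ (hc' s hi) _ (ac_mem hA s hR) T hT
      rw [h3]
      ring
    refine ⟨k, ?_⟩
    have h4 : V.valuation (e R T) = 1 := by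
      apply H13Z.lf1_one _ l hl0
      rw [← map_pow, he.root R hR T hT, map_one]
    rwa [map_mul, h4, mul_one] at hk
  · -- the value of tt P
    set β := cj π with hβd
    have hρ := na_point hA hβ (by rw [hNβ]; omega) V hG hV P hPK hc' hno
    rw [hNβ] at hρ
    set ρ := V.valuation (tt P) with hρd
    have hϖ0 : vo V β ≠ 0 := vo_ne V hβ.ne_zero
    have hρ0 : ρ ≠ 0 := by
      intro h
      rw [h, zero_pow hl0] at hρ
      exact hϖ0 hρ.symm
    have hρ1 : ρ < 1 := kr_tt_lt hG hPK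
    have hρp : 0 < ρ := zero_lt_iff.2 hρ0
    obtain ⟨k, hk⟩ := na_fix hβ hV (pow_ne_zero l hy0) fun s hs => by
      rw [map_pow, hyk s hs, mul_pow, he.root _ (hc' s hs) T hT, one_mul]
    by_cases hdvd : (l : ℤ) ∣ k
    · obtain ⟨k', hk'⟩ := hdvd
      refine ⟨k', ?_⟩
      rw [map_pow, hk', mul_comm, zpow_mul, zpow_natCast] at hk
      exact (pow_left_inj₀ zero_le zero_le hl0).1 hk
    exfalso
    have hcop : IsCoprime k (l : ℤ) := by
      rw [isCoprime_comm]
      exact (Nat.prime_iff_prime_int.1 hl).coprime_iff_not_dvd.2 hdvd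
    obtain ⟨a, b, hab⟩ := hcop
    -- the character f
    have heT : ∀ R ∈ Tor act β, e R T ≠ 0 := fun R hR h => by
      have h2 := he.root R hR T hT
      rw [h, zero_pow hl0] at h2
      exact zero_ne_one h2
    have hgenT : ∀ R ∈ Tor act β, e R T = 1 → R = 0 := by
      intro R hR h2
      refine he.nondeg R hR fun X hX => ?_
      obtain ⟨x, rfl⟩ := (PA1_gen hA π D.pr T hT hT0).1 X hX
      obtain ⟨n, hn⟩ := exists_natmod hl hNπ x
      rw [← (PA1_gen hA π D.pr T hT hT0).2, act_sub, sub_eq_zero] at hn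
      rw [hn, act_nat]
      have h3 : ∀ i : ℕ, e R (i • T) = 1 := by
        intro i
        induction i with
        | zero => rw [zero_smul]; exact ld3_e0' hl0 he hR
        | succ i ih =>
          rw [succ_nsmul, he.add_right R hR _ ((Tor act π).nsmul_mem hT i) T hT, ih, h2, mul_one]
      exact h3 n
    let f : Tor act β → Ω := fun R => e (R : Pt (WAB A B) Ω) T ^ a
    have hfadd : ∀ R R' : Tor act β, f (R + R') = f R * f R' := by
      intro R R'
      show e ((R : Pt (WAB A B) Ω) + R') T ^ a = _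
      rw [he.add_left _ R.2 _ R'.2 T hT, mul_zpow]
    have hfl : ∀ R : Tor act β, f R ^ l = 1 := by
      intro R
      show (e (R : Pt (WAB A B) Ω) T ^ a) ^ l = 1
      rw [← zpow_natCast, ← zpow_mul, mul_comm, zpow_mul, zpow_natCast, he.root _ R.2 T hT, one_zpow]
    have hf1 : ∀ R : Tor act β, f R = 1 → R = 0 := by
      intro R h2
      apply Subtype.ext
      refine hgenT _ R.2 ?_
      have h3 : e (R : Pt (WAB A B) Ω) T ^ a = 1 := h2
      have h4 := he.root _ R.2 T hT
      have h5 : e (R : Pt (WAB A B) Ω) T ^ (a * k + b * l) = 1 := by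
        rw [zpow_add₀ (heT _ R.2), zpow_mul, h3, one_zpow, one_mul, mul_comm, zpow_mul, zpow_natCast, h4, one_zpow]
      rwa [hab, zpow_one] at h5
    have hf0 : f 0 = 1 := by
      show e ((0 : Tor act β) : Pt (WAB A B) Ω) T ^ a = 1
      rw [ZeroMemClass.coe_zero, ld3_e0 hl0 he hT, one_zpow]
    have hfne : ∀ R : Tor act β, f R ≠ 0 := fun R => zpow_ne_zero _ (heT _ R.2)
    have hfin : Finite (Tor act β) := by
      apply Nat.finite_of_card_ne_zero
      rw [(gi_gen hA β hβ).1, hNβ]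
      exact hl0
    let _ : Fintype (Tor act β) := Fintype.ofFinite _
    -- y'
    let y' : Ω := y ^ a * ak Ω β ^ b
    have hakβ : ak Ω β ≠ 0 := (Valuation.ne_zero_iff _).1 hϖ0
    have hy'0 : y' ≠ 0 := mul_ne_zero (zpow_ne_zero _ hy0) (zpow_ne_zero _ hakβ)
    have hy'v : V.valuation y' = ρ := by
      have h2 : V.valuation y' ^ l = ρ ^ l := by
        show V.valuation (y ^ a * ak Ω β ^ b) ^ l = _
        rw [hρ, ← map_pow, mul_pow, ← zpow_natCast, ← zpow_natCast, ← zpow_mul, ← zpow_mul, mul_comm a, zpow_mul y,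
          zpow_natCast, map_mul, map_zpow₀, map_zpow₀, hk, ← zpow_mul, ← zpow_add₀ hϖ0]
        have h3 : k * a + b * (l : ℤ) = 1 := by rw [mul_comm k a]; exact hab
        rw [h3, zpow_one]
      exact (pow_left_inj₀ zero_le zero_le hl0).1 h2
    let c' : (Ω ≃ₐ[F] Ω) → Tor act β := fun s => if h : Inert V s then ⟨ac (WAB A B) s P - P, hc' s h⟩ else 0
    have hcc : ∀ s, Inert V s → ((c' s : Tor act β) : Pt (WAB A B) Ω) = ac (WAB A B) s P - P := fun s hs => by
      show (((if h : Inert V s then ⟨ac (WAB A B) s P - P, hc' s h⟩ else 0 : Tor act β)) : Pt (WAB A B) Ω) = _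
      rw [dif_pos hs]
    have hsy' : ∀ s, Inert V s → s y' = f (c' s) * y' := by
      intro s hs
      show s (y ^ a * ak Ω β ^ b) = e (c' s : Pt (WAB A B) Ω) T ^ a * (y ^ a * ak Ω β ^ b)
      rw [hcc s hs, map_mul, map_zpow₀, map_zpow₀, hyk s hs, mul_zpow, s.commutes]
      ring
    -- the resolvents
    let t : Tor act β → Ω := fun R => tt (P + (R : Pt (WAB A B) Ω))
    let Ai : ℕ → Ω := fun i => ∑ R, f (-R) ^ i * t R
    have hsA : ∀ s, Inert V s → ∀ i, s (Ai i) = f (c' s) ^ i * Ai i := by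
      intro s hs i
      show s (∑ R, f (-R) ^ i * t R) = f (c' s) ^ i * ∑ R, f (-R) ^ i * t R
      rw [map_sum, Finset.mul_sum]
      let g : Tor act β → Tor act β := fun R => ⟨ac (WAB A B) s (R : Pt (WAB A B) Ω), ac_mem hA s R.2⟩ + c' s
      have hg : Function.Bijective g := by
        refine Finite.injective_iff_bijective.1 fun R R' h2 => ?_
        have h3 := congrArg Subtype.val (add_right_cancel h2)
        exact Subtype.ext (ac_inj s h3)
      refine Fintype.sum_bijective g hg _ _ fun R => ?_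
      have h2 : s (f (-R)) = f (c' s) * f (-(g R)) := by
        rw [← hfadd]
        show s (e ((-R : Tor act β) : Pt (WAB A B) Ω) T ^ a) = e ((c' s + -(g R) : Tor act β) : Pt (WAB A B) Ω) T ^ a
        rw [map_zpow₀, he.gal s _ (-R).2 T hT, hsT s hs]
        congr 2
        show ac (WAB A B) s (-(R : Pt (WAB A B) Ω)) = (c' s : Pt (WAB A B) Ω) +
          -(ac (WAB A B) s (R : Pt (WAB A B) Ω) + (c' s : Pt (WAB A B) Ω))
        rw [map_neg]
        abel
      have h3 : s (t R) = t (g R) := by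
        show s (tt (P + (R : Pt (WAB A B) Ω))) = tt (P + (ac (WAB A B) s (R : Pt (WAB A B) Ω) + (c' s : Pt (WAB A B) Ω)))
        rw [← tt_ac, map_add, hcc s hs]
        congr 1
        abel
      rw [map_mul, map_pow, h2, h3, mul_pow, mul_assoc]
    have hAv : ∀ i, Ai i ≠ 0 → ∃ n : ℤ, V.valuation (Ai i) = ρ ^ ((i : ℤ) + l * n) := by
      intro i h0
      have h2 : Ai i / y' ^ i ≠ 0 := div_ne_zero h0 (pow_ne_zero _ hy'0)
      obtain ⟨n, hn⟩ := na_fix hβ hV h2 fun s hs => by
        rw [map_div₀, map_pow, hsA s hs, hsy' s hs, mul_pow,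
          mul_div_mul_left _ _ (pow_ne_zero _ (hfne _))]
      refine ⟨n, ?_⟩
      rw [map_div₀, map_pow, hy'v, div_eq_iff (pow_ne_zero _ hρ0)] at hn
      rw [hn, ← hρ, ← zpow_natCast, ← zpow_mul, ← zpow_natCast, ← zpow_add₀ hρ0, add_comm]
    have hdist : ∀ i < l, ∀ k < l, i ≠ k → Ai i ≠ 0 → V.valuation (Ai i) ≠ V.valuation (Ai k) := by
      intro i hi k hk' hne h0 h2
      have h3 : Ai k ≠ 0 := by
        rw [← Valuation.ne_zero_iff V.valuation, ← h2, Valuation.ne_zero_iff]
        exact h0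
      obtain ⟨n, hn⟩ := hAv i h0
      obtain ⟨n', hn'⟩ := hAv k h3
      rw [hn, hn'] at h2
      have h4 := (zpow_right_injective₀ hρp hρ1.ne) h2
      have h5 : (i : ℤ) + l * n = k + l * n' := h4
      have h6 : (i : ℤ) % l = (k : ℤ) % l := by
        have h7 := congrArg (· % (l : ℤ)) h5
        simpa using h7
      rw [Int.emod_eq_of_lt (by positivity) (by exact_mod_cast hi),
        Int.emod_eq_of_lt (by positivity) (by exact_mod_cast hk')] at h6
      exact hne (by exact_mod_cast h6)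
    have hle := na_sum V l Ai hdist
    have hsum0 : ∑ i ∈ Finset.range l, Ai i = l * t 0 := by
      rw [← na_res hl f hfadd hfl hf1 t 0]
      refine Finset.sum_congr rfl fun i _ => ?_
      rw [hf0, one_pow, one_mul]
    have ht0 : t 0 = tt P := by
      show tt (P + ((0 : Tor act β) : Pt (WAB A B) Ω)) = tt P
      rw [ZeroMemClass.coe_zero, add_zero]
    rw [hsum0, ht0, map_mul] at hle
    -- a nonzero point
    obtain ⟨-, R₀, hR₀T, -, hR₀z⟩ := gi_gen hA β hβ
    have hR₀0 : R₀ ≠ 0 := by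
      intro h
      have h3 : act (1 : 𝓞 F) R₀ = 0 := by rw [h, map_zero]
      exact hβ.not_isUnit (isUnit_of_dvd_one ((hR₀z 1).1 h3))
    let R₁ : Tor act β := ⟨R₀, hR₀T⟩
    have hR₁ : f R₁ ≠ 1 := fun h => hR₀0 (congrArg Subtype.val (hf1 R₁ h))
    have hsum1 : (l : Ω) * (t R₁ - tt P) = ∑ i ∈ Finset.range l, (f R₁ ^ i - 1) * Ai i := by
      rw [mul_sub, ← na_res hl f hfadd hfl hf1 t R₁, ← ht0, ← hsum0, ← Finset.sum_sub_distrib]
      refine Finset.sum_congr rfl fun i _ => ?_
      show f R₁ ^ i * Ai i - Ai i = _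
      ring
    have hfv : V.valuation (f R₁) = 1 := by
      apply H13Z.lf1_one _ l hl0
      rw [← map_pow, hfl, map_one]
    have hbound : V.valuation ((l : Ω) * (t R₁ - tt P)) ≤
        V.valuation (f R₁ - 1) * (V.valuation (l : Ω) * ρ) := by
      rw [hsum1]
      refine Valuation.map_sum_le _ fun i hi => ?_
      have h2 : f R₁ ^ i - 1 = (∑ n ∈ Finset.range i, f R₁ ^ n) * (f R₁ - 1) := (geom_sum_mul _ _).symm
      have h3 : V.valuation (∑ n ∈ Finset.range i, f R₁ ^ n) ≤ 1 := by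
        refine Valuation.map_sum_le _ fun n _ => ?_
        rw [map_pow, hfv, one_pow]
      rw [map_mul, h2, map_mul]
      refine mul_le_mul' ?_ (hle i (Finset.mem_range.1 hi))
      calc V.valuation (∑ n ∈ Finset.range i, f R₁ ^ n) * V.valuation (f R₁ - 1)
          ≤ 1 * V.valuation (f R₁ - 1) := mul_le_mul' h3 le_rfl
        _ = _ := one_mul _
    obtain ⟨-, hrat, -⟩ := val_ratio hA hβ (by rw [hNβ]; omega) V hG hV P hPK (by rw [hNβ]; exact hρ) R₀ hR₀T hR₀0
    obtain ⟨-, hτ⟩ := kr_tor_ram hA hG β hβ hV hR₀T hR₀0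
    rw [hNβ] at hτ
    have hroot := na_root V l hl (f R₁) (hfl R₁) hR₁
    rw [hVlβ, ← hτ] at hroot
    have hfτ : V.valuation (f R₁ - 1) ≤ V.valuation (tt R₀) := by
      by_contra hcon
      push Not at hcon
      exact absurd hroot (not_le.2 (pow_lt_pow_left₀ hcon zero_le (by omega)))
    have hVl0 : 0 < V.valuation (l : Ω) := by
      rw [hVlβ]
      exact zero_lt_iff.2 hϖ0
    rw [map_mul] at hbound
    have e1 : t R₁ - tt P = tt (P + R₀) - tt P := rfl
    rw [e1, hrat] at hbound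
    have h6 : V.valuation (l : Ω) * V.valuation (tt R₀) ≤ V.valuation (l : Ω) * (V.valuation (tt R₀) * ρ) := by
      refine hbound.trans ?_
      calc V.valuation (f R₁ - 1) * (V.valuation (l : Ω) * ρ)
          ≤ V.valuation (tt R₀) * (V.valuation (l : Ω) * ρ) := mul_le_mul' hfτ le_rfl
        _ = _ := by rw [mul_left_comm]
    have h7 : V.valuation (tt R₀) ≤ V.valuation (tt R₀) * ρ := (mul_le_mul_iff_right₀ hVl0).1 h6
    have hτ0 : 0 < V.valuation (tt R₀) := by
      rw [zero_lt_iff]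
      intro h
      rw [h, zero_pow (by omega)] at hτ
      exact hϖ0 hτ.symm
    have h8 : V.valuation (tt R₀) * ρ < V.valuation (tt R₀) * 1 := mul_lt_mul_of_pos_left hρ1 hτ0
    rw [mul_one] at h8
    exact absurd h7 (not_le.2 h8)

end H13X
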