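import Mathlib
import Pool.Agent.Lib.H13X.XCB
import Pool.Agent.Lib.H13X.XE
import Pool.Agent.Lib.H13X.XK
import Pool.Agent.Lib.H13Z.LF2
import Pool.Agent.Lib.H55K.SLV
import Pool.Agent.Lib.H55K.SNA

/-! # H13X: port of H13Y/YQ1 -/

open NumberField IsDedekindDomain WeierstrassCurve

namespace H13X

open H55P (IQ embF eF LF Per IsHecke Pt ac Inert Dec Nm Coc)
open H35P (WAB Ker tt)
open H55K (Tor ak xc yc CMA Dta GV GMod cj cj_cj mul_cj cj_prime cj_dvd cj_nat Nm_cj Nm_mul Nm_nat)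
open H55K.S
open H13S (Abv)





variable {F : Type} [Field F] [NumberField F] [IQ F] {A B : F} {Om : ℂ} {Ω : Type} [Field Ω] [DecidableEq Ω]
  [Algebra F Ω] [IsAlgClosure F Ω] {j : Ω →+* ℂ} {act : 𝓞 F →+* AddMonoid.End (Pt (WAB A B) Ω)} {mo : Ideal (𝓞 F)}
  {ψ : Ideal (𝓞 F) →*₀ 𝓞 F}

section gen

variable {Ω : Type} [Field Ω] {l : ℕ} {V : ValuationSubring Ω}

theorem LQ1_pow {R : Type} [CommRing R] (y : R) (n : ℕ) : ∃ c : R,
    (1 + y) ^ n = 1 + n * y + y ^ 2 * c := by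
  induction n with
  | zero => exact ⟨0, by simp⟩
  | succ n ih =>
    obtain ⟨c, hc⟩ := ih
    refine ⟨n + c + c * y, ?_⟩
    rw [pow_succ, hc]
    push_cast
    ring

theorem LQ1_est {y : Ω} (hy : V.valuation y ≤ 1) (n : ℕ) :
    V.valuation ((1 + y) ^ n - 1 - n * y) ≤ V.valuation y ^ 2 := by
  have hyV : y ∈ V := (V.valuation_le_one_iff y).1 hy
  obtain ⟨c, hc⟩ := LQ1_pow (⟨y, hyV⟩ : V) n
  have hc' := congrArg (fun z : V => (z : Ω)) hc
  push_cast at hc'
  have e : (1 + y) ^ n - 1 - n * y = y ^ 2 * (c : Ω) := by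
    rw [hc']
    ring
  rw [e, map_mul, map_pow]
  exact mul_le_of_le_one_right' ((V.valuation_le_one_iff _).2 c.2)

theorem LQ1_root (hl : l.Prime) (h5 : 5 ≤ l) (hVl : V.valuation (l : Ω) < 1) {z : Ω}
    (hz : V.valuation z ≤ 1) (h : V.valuation (z ^ l - 1) < 1) : V.valuation (z - 1) < 1 := by
  have hzV : z ∈ V := (V.valuation_le_one_iff z).1 hz
  obtain ⟨r, hr⟩ := exists_add_pow_prime_eq hl (⟨z, hzV⟩ : V) (-1)
  have hr' := congrArg (fun z : V => (z : Ω)) hr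
  push_cast at hr'
  have hodd : Odd l := hl.odd_of_ne_two (by omega)
  rw [hodd.neg_one_pow] at hr'
  have e : (z - 1) ^ l = (z ^ l - 1) + (l : Ω) * ((-⟨z, hzV⟩ * r : V) : Ω) := by
    rw [sub_eq_add_neg z 1, hr']
    push_cast
    ring
  have h2 : V.valuation ((z - 1) ^ l) < 1 := by
    rw [e]
    refine Valuation.map_add_lt _ h ?_
    rw [map_mul]
    exact mul_lt_one_of_lt_of_le hVl ((V.valuation_le_one_iff _).2 (-⟨z, hzV⟩ * r : V).2)
  rw [map_pow] at h2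
  by_contra hcon
  push Not at hcon
  exact absurd h2 (not_lt.2 (one_le_pow₀ hcon))

theorem LQ1_up {z : Ω} (h : V.valuation (z - 1) ≤ V.valuation (l : Ω)) (hVl : V.valuation (l : Ω) < 1) :
    V.valuation (z ^ l - 1) ≤ V.valuation (l : Ω) ^ 2 := by
  have h1 := LQ1_est (V := V) (y := z - 1) (h.trans hVl.le) l
  have e1 : 1 + (z - 1) = z := by ring
  rw [e1] at h1
  have e : z ^ l - 1 = (z ^ l - 1 - l * (z - 1)) + l * (z - 1) := by ring
  rw [e]
  refine Valuation.map_add_le _ (h1.trans (pow_le_pow_left₀ zero_le h 2)) ?_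
  rw [map_mul, sq]
  exact mul_le_mul' le_rfl h

end gen

/-- Existence of the data in the unramified case. -/
theorem exists_UV {π : 𝓞 F} {l : ℕ} {N : IntermediateField F Ω} {V : ValuationSubring Ω}
    (D : Dat A B Om j act mo ψ π l) (hNb : Nb l N) (hs : ¬ π ∣ cj π) (hV : vo V (cj π) < 1) :
    ∃ (φ : Ω ≃ₐ[F] Ω) (q n : ℕ), UV A B Om j act mo ψ π l N V φ q n := by
  have hc := cj_prime D.pr
  have hA := D.cma
  have hVl : V.valuation (l : Ω) < 1 := H55K.S.val_l D.conj.dvd (fun V x => vo_le V x) V hV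
  have hG := D.dta.good V hVl
  have hdi : Nm π = l := by
    rcases dichotomy D.hl D.dta.unr D.pr D.dvd with ⟨h, -, -⟩ | ⟨-, -, h, -⟩
    · exact absurd h.symm.dvd hs
    · exact h
  have hp1 : vo V π = 1 := vo_unit (IsCoprime.symm ((D.pr.irreducible.coprime_iff_not_dvd).2 hs)) hV
  obtain ⟨q, f, hf, hq, -, ⟨φ, hφN, hφD, hφ⟩, r, hr1, hr2, -⟩ := hNb.res V (cj π) hc hV hVl
  have hNc : Nm (cj π) = l := by rw [Nm_cj, hdi]
  -- φ acts on the points killed by π as a number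
  obtain ⟨-, T₀, hT₀, hgen, hz⟩ := gi_gen hA π D.pr
  obtain ⟨a, ha⟩ := hgen _ (ac_mem hA φ hT₀)
  obtain ⟨n, hn⟩ := exists_natmod D.hl hdi a
  have hact : ∀ T ∈ Tor act π, ac (WAB A B) φ T = n • T := by
    intro T hT
    obtain ⟨b, rfl⟩ := hgen T hT
    have h1 : act a T₀ = n • T₀ := by
      obtain ⟨u, hu⟩ := hn
      rw [← act_nat (act := act), ← sub_eq_zero, ← act_sub, hu, mul_comm, act_mul, mem_Tor.1 hT₀, map_zero]
    rw [ac_act hA, ha, h1, map_nsmul]
  refine ⟨φ, q, n, D, hs, hV, hNb, ⟨hφN, hφD⟩, ?_, hφ, hact, ?_, r, hr1, hr2⟩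
  · refine ⟨l ^ (f - 1), ?_, pow_pos D.hl.pos _⟩
    rw [hq, hNc, ← pow_succ', Nat.sub_add_cancel hf]
  · intro h
    have h1 := hact T₀ hT₀
    have h2 : n • T₀ = 0 := by
      obtain ⟨w, rfl⟩ := h
      rw [mul_comm, mul_nsmul, ← act_nat (act := act) l]
      obtain ⟨u, hu⟩ := D.dvd
      rw [hu, mul_comm π u, act_mul, mem_Tor.1 (nsmul_mem hT₀ w), map_zero]
    rw [h2] at h1
    have hT0 : T₀ ≠ 0 := by
      intro h0
      exact D.pr.not_unit (isUnit_of_dvd_one ((hz 1).1 (by rw [h0, map_zero])))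
    exact ac_ne φ hT0 h1

variable {π : 𝓞 F} {l : ℕ} {N : IntermediateField F Ω} {V : ValuationSubring Ω} {φ : Ω ≃ₐ[F] Ω} {q n : ℕ}
  {e : Pt (WAB A B) Ω → Pt (WAB A B) Ω → Ω}

theorem UV.val_l (U : UV A B Om j act mo ψ π l N V φ q n) : V.valuation (l : Ω) = vo V (cj π) ∧ vo V π = 1 ∧
    GV A B V ∧ V.valuation (l : Ω) ≠ 0 ∧ V.valuation (l : Ω) < 1 := by
  have hp1 : vo V π = 1 := vo_unit (IsCoprime.symm ((U.D.pr.irreducible.coprime_iff_not_dvd).2 U.nd)) U.above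
  have h2 : π * cj π = (l : 𝓞 F) := by
    rcases dichotomy U.D.hl U.D.dta.unr U.D.pr U.D.dvd with ⟨h, -, -⟩ | ⟨-, -, -, h⟩
    · exact absurd h.symm.dvd U.nd
    · exact h
  have h1 : V.valuation (l : Ω) = vo V (cj π) := by
    rw [← vo_nat (F := F), ← h2, vo_mul, hp1, one_mul]
  have hlt : V.valuation (l : Ω) < 1 := by
    rw [h1]
    exact U.above
  refine ⟨h1, hp1, U.D.dta.good V hlt, ?_, hlt⟩
  rw [h1]
  exact vo_ne V (cj_prime U.D.pr).ne_zero

/-- PORT of UV.values: inertia elements are in DecN (U.nb.dec) and fix Tor π (inert_tors). -/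
theorem UV.values (U : UV A B Om j act mo ψ π l N V φ q n) {x : Ω} (hx : Hx act π N V x) (h0 : x ≠ 0) :
    ∃ k : ℤ, V.valuation x = V.valuation (l : Ω) ^ k := by
  obtain ⟨h1, h2, h3, -, h5⟩ := U.val_l
  have hNF : NumberField (⊥ : IntermediateField F Ω) := NumberField.of_module_finite F _
  have hfix : ∀ s ∈ (⊥ : IntermediateField F Ω).fixingSubgroup, Inert V s → s x = x := by
    intro s _ hs
    exact hx s ⟨U.nb.dec h5 hs, fun T hT => inert_tors U.D.cma h3 h2 hs hT⟩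
  obtain ⟨a, ha, hva⟩ := H13S.value_fixed (⊥ : IntermediateField F Ω) V _ h0 hfix
  obtain ⟨a', ha'⟩ := IntermediateField.mem_bot.1 a.2
  have ha'0 : a' ≠ 0 := by
    rintro rfl
    rw [map_zero] at ha'
    exact ha (Subtype.ext ha'.symm)
  obtain ⟨k, hk⟩ := qv_intpow V (cj_prime U.D.pr) U.above a' ha'0
  rw [ha'] at hk
  exact ⟨k, by rw [hva, hk, h1]⟩

theorem UV.step (U : UV A B Om j act mo ψ π l N V φ q n) {x : Ω} (hx : Hx act π N V x) (h : V.valuation x < 1) :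
    V.valuation x ≤ V.valuation (l : Ω) := by
  obtain ⟨-, -, -, h4, h5⟩ := U.val_l
  by_cases h0 : x = 0
  · rw [h0, map_zero]
    exact zero_le
  obtain ⟨k, hk⟩ := U.values hx h0
  have h6 : 0 < V.valuation (l : Ω) := zero_lt_iff.2 h4
  rw [hk] at h ⊢
  have hk1 : 1 ≤ k := by
    by_contra hcon
    push Not at hcon
    have h7 : k ≤ 0 := by omega
    have h8 : 1 ≤ V.valuation (l : Ω) ^ k := by
      have h9 := zpow_le_zpow_right_of_le_one₀ h6 h5.le h7
      rwa [zpow_zero] at h9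
    exact absurd h (not_lt.2 h8)
  have h9 := zpow_le_zpow_right_of_le_one₀ h6 h5.le hk1
  rwa [zpow_one] at h9

theorem yq1_nsmul {m : Pt (WAB A B) Ω → Ω} (hm : Sys act π l N V m) {T : Pt (WAB A B) Ω}
    (hT : T ∈ Tor act π) (k : ℕ) : ∃ z : Ω, Hx act π N V z ∧ z ≠ 0 ∧ m (k • T) = m T ^ k * z ^ l := by
  induction k with
  | zero =>
    obtain ⟨z, hz, hz0, he⟩ := hm.add 0 (zero_mem _) 0 (zero_mem _)
    have h0 := hm.ne 0 (zero_mem _)
    refine ⟨z⁻¹, hz.inv, inv_ne_zero hz0, ?_⟩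
    rw [add_zero] at he
    have h1 : m 0 * z ^ l = 1 := by
      apply mul_left_cancel₀ h0
      rw [mul_one, ← mul_assoc]
      exact he.symm
    rw [zero_smul, pow_zero, one_mul, inv_pow]
    exact eq_inv_of_mul_eq_one_left h1
  | succ k ih =>
    obtain ⟨z₁, hz₁, hz₁0, he₁⟩ := ih
    have hk : k • T ∈ Tor act π := nsmul_mem hT k
    obtain ⟨z, hz, hz0, he⟩ := hm.add _ hk _ hT
    refine ⟨z₁ * z, hz₁.mul hz, mul_ne_zero hz₁0 hz0, ?_⟩
    rw [succ_nsmul, he, he₁]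
    ring

/-- Chunk YQ3 (S/M), PORT of UV.coef (LQ1.lean). The only change: φ is a Frobenius element with exponent q = l q': b = (φ⁻¹ u)^q', V (u - b^l) < 1; at the end V (φ x - x^q) < 1. -/
theorem UV.coef (U : UV A B Om j act mo ψ π l N V φ q n) {m : Pt (WAB A B) Ω → Ω} (hm : Sys act π l N V m) {T : Pt (WAB A B) Ω} (hT : T ∈ Tor act π)
    (hvm : ∃ k : ℤ, V.valuation (m T) = V.valuation (l : Ω) ^ ((l : ℤ) * k)) :
    ∃ z x : Ω, Hx act π N V z ∧ z ≠ 0 ∧ Hx act π N V x ∧ V.valuation x ≤ 1 ∧ m T = z ^ l * (1 + l * x) ∧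
      V.valuation (x ^ q - n * x) < 1 := by
  have halg : Algebra.IsAlgebraic F Ω := IsAlgClosure.isAlgebraic
  obtain ⟨-, -, -, h4, h5⟩ := U.val_l
  have hl := U.D.hl
  have hl5 := U.D.five
  have hL0 : (l : Ω) ≠ 0 := (Valuation.ne_zero_iff _).1 h4
  have hLp : 0 < V.valuation (l : Ω) := zero_lt_iff.2 h4
  have hM0 := hm.ne T hT
  have hMx := hm.fx T hT
  obtain ⟨M, hMd⟩ : ∃ M : Ω, M = m T := ⟨_, rfl⟩
  rw [← hMd] at hM0 hMx ⊢
  -- the equation φ M = M^n z^l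
  have hφM : ∃ z : Ω, Hx act π N V z ∧ z ≠ 0 ∧ φ M = M ^ n * z ^ l := by
    obtain ⟨z₁, hz₁, hz₁0, he₁⟩ := yq1_nsmul hm hT n
    obtain ⟨z₂, hz₂, hz₂0, he₂⟩ := hm.gal φ U.dec T hT
    rw [U.gal T hT, he₁] at he₂
    refine ⟨z₁ / z₂, hz₁.div hz₂, div_ne_zero hz₁0 hz₂0, ?_⟩
    rw [hMd, div_pow]
    field_simp
    exact he₂.symm
  obtain ⟨z, hz, hz0, hφ⟩ := hφM
  obtain ⟨r', hvr⟩ := hvm
  obtain ⟨r, hr'⟩ : ∃ r : ℤ, r = (l : ℤ) * r' := ⟨_, rfl⟩
  have hr : V.valuation M = V.valuation (l : Ω) ^ r := by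
    rw [hMd, hvr, hr']
  have hLx : Hx act π N V ((l : Ω) ^ r') := (Hx.nat l).zpow r'
  have hLr0 : (l : Ω) ^ r' ≠ 0 := zpow_ne_zero _ hL0
  obtain ⟨u, hud⟩ : ∃ u : Ω, u = M / ((l : Ω) ^ r') ^ l := ⟨_, rfl⟩
  have hux : Hx act π N V u := by
    rw [hud]
    exact hMx.div (hLx.pow l)
  have hu1 : V.valuation u = 1 := by
    rw [hud, map_div₀, map_pow, map_zpow₀, hr, hr', ← zpow_natCast, ← zpow_mul, mul_comm r' (l : ℤ)]
    exact div_self (zpow_ne_zero _ h4)
  obtain ⟨q', hqq, hq'⟩ := U.ql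
  obtain ⟨b', hbd⟩ : ∃ b' : Ω, b' = φ⁻¹ u := ⟨_, rfl⟩
  have hbx' : Hx act π N V b' := by
    rw [hbd]
    exact hux.dec U.D.cma U.dec.inv
  have hφb : φ b' = u := by
    rw [hbd, ← AlgEquiv.mul_apply, mul_inv_cancel]
    rfl
  have hb1' : V.valuation b' = 1 := by
    rw [← Dec.val U.dec.2 b', hφb, hu1]
  obtain ⟨b, hbq⟩ : ∃ b : Ω, b = b' ^ q' := ⟨_, rfl⟩
  have hbx : Hx act π N V b := by
    rw [hbq]
    exact hbx'.pow q'
  have hb1 : V.valuation b = 1 := by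
    rw [hbq, map_pow, hb1', one_pow]
  have hb0 : b ≠ 0 := by
    rintro rfl
    rw [map_zero] at hb1
    exact zero_ne_one hb1
  have hub : V.valuation (u - b ^ l) < 1 := by
    have h8 := U.frob b' ((V.valuation_le_one_iff b').1 hb1'.le)
    rw [hφb, hqq, mul_comm l q', pow_mul, ← hbq] at h8
    exact h8
  obtain ⟨y, hyd⟩ : ∃ y : Ω, y = u / b ^ l - 1 := ⟨_, rfl⟩
  have hyx : Hx act π N V y := by
    rw [hyd]
    exact (hux.div (hbx.pow l)).sub Hx.one
  have hy1 : V.valuation y < 1 := by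
    have e : y = (u - b ^ l) / b ^ l := by
      rw [hyd]
      field_simp
    rw [e, map_div₀, map_pow, hb1, one_pow, div_one]
    exact hub
  have hyl := U.step hyx hy1
  obtain ⟨x, hxd⟩ : ∃ x : Ω, x = y / l := ⟨_, rfl⟩
  have hxx : Hx act π N V x := by
    rw [hxd]
    exact hyx.div (Hx.nat l)
  have hyx' : y = l * x := by
    rw [hxd]
    field_simp
  have hx1 : V.valuation x ≤ 1 := by
    rw [hxd, map_div₀]
    exact div_le_one_of_le₀ hyl zero_le
  have hub' : u = b ^ l * (1 + l * x) := by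
    rw [← hyx', hyd]
    field_simp
    ring
  have hMw : M = ((l : Ω) ^ r' * b) ^ l * (1 + l * x) := by
    have h9 : M = ((l : Ω) ^ r') ^ l * u := by
      rw [hud]
      field_simp
    rw [h9, hub', mul_pow]
    ring
  refine ⟨(l : Ω) ^ r' * b, x, hLx.mul hbx, mul_ne_zero hLr0 hb0, hxx, hx1, hMw, ?_⟩
  -- the congruence
  obtain ⟨w, hwd⟩ : ∃ w : Ω, w = (l : Ω) ^ r' * b := ⟨_, rfl⟩
  rw [← hwd] at hMw
  have hwx : Hx act π N V w := by
    rw [hwd]
    exact hLx.mul hbx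
  have hw0 : w ≠ 0 := by
    rw [hwd]
    exact mul_ne_zero hLr0 hb0
  have hφw0 : φ w ≠ 0 := (map_ne_zero φ).2 hw0
  have hφl : φ (l : Ω) = l := map_natCast φ l
  have hφx1 : V.valuation (φ x) ≤ 1 := by
    rw [Dec.val U.dec.2 x]
    exact hx1
  obtain ⟨z', hz'd⟩ : ∃ z' : Ω, z' = w ^ n * z / φ w := ⟨_, rfl⟩
  have hz'x : Hx act π N V z' := by
    rw [hz'd]
    exact ((hwx.pow n).mul hz).div (hwx.dec U.D.cma U.dec)
  have hkey : 1 + l * φ x = (1 + l * x) ^ n * z' ^ l := by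
    have h10 : φ M = (φ w) ^ l * (1 + l * φ x) := by
      rw [hMw, map_mul, map_pow, map_add, map_mul, hφl, map_one]
    rw [hφ, hMw] at h10
    rw [hz'd, div_pow, mul_pow]
    have h11 : (φ w) ^ l ≠ 0 := pow_ne_zero _ hφw0
    field_simp
    have h12 : (w ^ l * (1 + l * x)) ^ n = (w ^ n) ^ l * (1 + l * x) ^ n := by
      rw [mul_pow, ← pow_mul, ← pow_mul, mul_comm l n]
    rw [mul_comm, ← h10, h12]
    ring
  have hlx1 : V.valuation ((l : Ω) * x) ≤ V.valuation (l : Ω) := by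
    rw [map_mul]
    exact mul_le_of_le_one_right' hx1
  have hlx2 : V.valuation ((l : Ω) * φ x) ≤ V.valuation (l : Ω) := by
    rw [map_mul]
    exact mul_le_of_le_one_right' hφx1
  have hu2 : V.valuation (1 + (l : Ω) * x) = 1 := by
    have h13 : V.valuation ((l : Ω) * x) < V.valuation (1 : Ω) := by
      rw [map_one]
      exact lt_of_le_of_lt hlx1 h5
    have h14 := V.valuation.map_add_eq_of_lt_left h13
    rwa [map_one] at h14
  have hest := LQ1_est (V := V) (y := (l : Ω) * x) (hlx1.trans h5.le) n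
  have hest' : V.valuation ((1 + (l : Ω) * x) ^ n - 1 - n * (l * x)) ≤ V.valuation (l : Ω) ^ 2 :=
    hest.trans (pow_le_pow_left₀ zero_le hlx1 2)
  have hnl : V.valuation ((n : Ω) * (l * x)) ≤ V.valuation (l : Ω) := by
    rw [map_mul]
    exact (mul_le_of_le_one_left' ((V.valuation_le_one_iff _).2 (natCast_mem V n))).trans hlx1
  have hl2 : V.valuation (l : Ω) ^ 2 ≤ V.valuation (l : Ω) := by
    rw [sq]
    exact mul_le_of_le_one_right' h5.le
  have hz1 : V.valuation (z' ^ l - 1) ≤ V.valuation (l : Ω) := by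
    have e : (1 + l * x) ^ n * (z' ^ l - 1) =
        l * φ x - (((1 + (l : Ω) * x) ^ n - 1 - n * (l * x)) + n * (l * x)) := by
      linear_combination -hkey
    have h15 : V.valuation ((1 + l * x) ^ n * (z' ^ l - 1)) ≤ V.valuation (l : Ω) := by
      rw [e]
      refine Valuation.map_sub_le _ hlx2 (Valuation.map_add_le _ (hest'.trans hl2) hnl)
    rwa [map_mul, map_pow, hu2, one_pow, one_mul] at h15
  have hz'1 : V.valuation z' ≤ 1 := by
    have h16 : V.valuation (z' ^ l) ≤ 1 := by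
      have e : z' ^ l = (z' ^ l - 1) + 1 := by ring
      rw [e]
      refine Valuation.map_add_le _ (hz1.trans h5.le) ?_
      rw [map_one]
    rw [map_pow] at h16
    exact (pow_le_one_iff_of_nonneg zero_le hl.ne_zero).1 h16
  have hz2 := LQ1_root hl hl5 h5 hz'1 (lt_of_le_of_lt hz1 h5)
  have hz3 := U.step (hz'x.sub Hx.one) hz2
  have hz4 := LQ1_up hz3 h5
  have hfin : V.valuation ((l : Ω) * (φ x - n * x)) ≤ V.valuation (l : Ω) ^ 2 := by
    have e : (l : Ω) * (φ x - n * x) = ((1 + (l : Ω) * x) ^ n - 1 - n * (l * x)) +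
        (1 + l * x) ^ n * (z' ^ l - 1) := by
      linear_combination hkey
    rw [e]
    refine Valuation.map_add_le _ hest' ?_
    rw [map_mul, map_pow, hu2, one_pow, one_mul]
    exact hz4
  rw [map_mul, sq] at hfin
  have hfin2 : V.valuation (φ x - n * x) ≤ V.valuation (l : Ω) := le_of_mul_le_mul_left hfin hLp
  have hfr := U.frob x ((V.valuation_le_one_iff x).1 hx1)
  have e : x ^ q - n * x = (φ x - n * x) - (φ x - x ^ q) := by ring
  rw [e]
  exact Valuation.map_sub_lt _ (lt_of_le_of_lt hfin2 h5) hfr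

/-- Chunk YQ4 (S), PORT of UV.fix and UV.zero (LQ3.lean; zero needs only D and nd). -/
theorem UV.fix (U : UV A B Om j act mo ψ π l N V φ q n) (he : Pairing A B act π l e) {y z v : Ω} (hz : Hx act π N V z) (h0 : z ≠ 0)
    (hv : Hx act π N V v) (h : y ^ l = z ^ l * v) (h1 : V.valuation (v - 1) ≤ V.valuation (l : Ω) ^ 2)
    {s : Ω ≃ₐ[F] Ω} (hs : JV act π V s) : s y = y := by
  have hΩ : IsAlgClosed Ω := IsAlgClosure.isAlgClosed F
  have hc0 : CharZero Ω := charZero_of_injective_algebraMap (algebraMap F Ω).injective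
  obtain ⟨_, _, _, _, hl1⟩ := U.val_l
  have hD : DecN N V s := U.nb.dec hl1 hs.1
  have hDT : DT act π N V s := ⟨hD, hs.2.1⟩
  have h2 : (y / z) ^ l = v := by
    rw [div_pow, h, mul_div_cancel_left₀ _ (pow_ne_zero l h0)]
  have h3 := H13Z.fix_strict V U.D.hl (by
    have := U.D.five
    omega) hl1 h2 h1 hD.2 (fun ζ hζ => JV.mu U.D he hs ζ hζ) (hv s hDT)
  rw [map_div₀ s, hz s hDT] at h3
  exact (div_left_inj' h0).1 h3

theorem yq4_zero (D : Dat A B Om j act mo ψ π l) (he : Pairing A B act π l e) {X : Pt (WAB A B) Ω} (hX : X ∈ Tor act (cj π)) :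
    e X 0 = 1 := by
  have h1 := he.add_right X hX 0 (zero_mem _) 0 (zero_mem _)
  rw [add_zero] at h1
  have h2 := lk_ne D he hX (zero_mem (Tor act π))
  exact (left_eq_mul₀ h2).1 h1

theorem yq4_nsmul (D : Dat A B Om j act mo ψ π l) (he : Pairing A B act π l e) {X T : Pt (WAB A B) Ω} (hX : X ∈ Tor act (cj π))
    (hT : T ∈ Tor act π) (j : ℕ) : e (j • X) T = e X T ^ j := by
  induction j with
  | zero =>
    rw [zero_nsmul, pow_zero]
    have h1 := he.add_left 0 (zero_mem _) 0 (zero_mem _) T hT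
    rw [add_zero] at h1
    have h2 := lk_ne D he (zero_mem (Tor act (cj π))) hT
    exact (left_eq_mul₀ h2).1 h1
  | succ j ih =>
    rw [succ_nsmul, he.add_left _ (nsmul_mem hX j) X hX T hT, ih, pow_succ]

theorem UV.zero (U : UV A B Om j act mo ψ π l N V φ q n) (he : Pairing A B act π l e) {T₀ : Pt (WAB A B) Ω} (hT : T₀ ∈ Tor act π) (h0 : T₀ ≠ 0)
    {X : Pt (WAB A B) Ω} (hX : X ∈ Tor act (cj π)) (h : e X T₀ = 1) : X = 0 := by
  refine he.nondeg X hX fun T hTT => ?_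
  have hcard : Nat.card (Tor act π) = l := by
    obtain ⟨h1, _⟩ := gi_gen U.D.cma π U.D.pr
    rw [h1]
    rcases dichotomy U.D.hl U.D.dta.unr U.D.pr U.D.dvd with ⟨h, -, -⟩ | ⟨-, -, h, -⟩
    · exact absurd h.symm.dvd U.nd
    · exact h
  have hf : Fact (Nat.card (Tor act π)).Prime := ⟨by rw [hcard]; exact U.D.hl⟩
  let H : AddSubgroup (Tor act π) :=
    { carrier := {S | e X S = 1}
      zero_mem' := yq4_zero U.D he hX
      add_mem' := by
        intro S S' hS hS'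
        show e X ((S + S' : Tor act π) : Pt (WAB A B) Ω) = 1
        have h1 : ((S + S' : Tor act π) : Pt (WAB A B) Ω) = (S : Pt (WAB A B) Ω) + S' := rfl
        rw [h1, he.add_right X hX S S.2 S' S'.2]
        have h2 : e X S = 1 := hS
        have h3 : e X S' = 1 := hS'
        rw [h2, h3, one_mul]
      neg_mem' := by
        intro S hS
        show e X ((-S : Tor act π) : Pt (WAB A B) Ω) = 1
        have h1 := he.add_right X hX S S.2 ((-S : Tor act π) : Pt (WAB A B) Ω) (-S : Tor act π).2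
        have h2 : e X S = 1 := hS
        have h3 : (S : Pt (WAB A B) Ω) + ((-S : Tor act π) : Pt (WAB A B) Ω) = 0 := by
          have : ((-S : Tor act π) : Pt (WAB A B) Ω) = -(S : Pt (WAB A B) Ω) := rfl
          rw [this, add_neg_cancel]
        rw [h3, yq4_zero U.D he hX, h2, one_mul] at h1
        exact h1.symm }
  rcases AddSubgroup.eq_bot_or_eq_top_of_prime_card H with h1 | h1
  · exfalso
    have h2 : (⟨T₀, hT⟩ : Tor act π) ∈ H := h
    rw [h1, AddSubgroup.mem_bot] at h2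
    exact h0 (congrArg Subtype.val h2)
  · have h2 : (⟨T, hTT⟩ : Tor act π) ∈ H := by
      rw [h1]
      trivial
    exact h2

end H13X
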