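import Mathlib
import Pool.Agent.Lib.H13X.XQ1
import Pool.Agent.Lib.H13X.XP
import Pool.Agent.Lib.H13X.XNV
import Pool.Agent.Lib.H13Y.YPG

/-! # H13X: port of H13Y/YQ2 -/

open NumberField IsDedekindDomain WeierstrassCurve

namespace H13X

open H55P (IQ embF eF LF Per IsHecke Pt ac Inert Dec Nm Coc)
open H35P (WAB Ker tt)
open H55K (Tor ak xc yc CMA Dta GV GMod cj cj_cj mul_cj cj_prime cj_dvd cj_nat Nm_cj Nm_mul Nm_nat)
open H55K.S
open H13S (Abv)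





variable {F : Type} [Field F] [NumberField F] [IQ F] {A B : F} {Om : ℂ} {Ω : Type} [Field Ω] [DecidableEq Ω]
  [Algebra F Ω] [IsAlgClosure F Ω] {j : Ω →+* ℂ} {act : 𝓞 F →+* AddMonoid.End (Pt (WAB A B) Ω)} {mo : Ideal (𝓞 F)}
  {ψ : Ideal (𝓞 F) →*₀ 𝓞 F}

variable {π : 𝓞 F} {l : ℕ} {N : IntermediateField F Ω} {V : ValuationSubring Ω} {φ : Ω ≃ₐ[F] Ω} {q n : ℕ}
  {e : Pt (WAB A B) Ω → Pt (WAB A B) Ω → Ω}

/-- Chunk YQ5 (S/M). Two classes with congruent coefficients x, x₁ at T₀ ≠ 0: y T₀^l = z^l (1 + l x), y₁ T₀^l = z₁^l (1 + l x₁). (y T₀/y₁ T₀)^l = (z/z₁)^l v, v = (1 + l x)/(1 + l x₁), v - 1 = l (x - x₁)/(1 + l x₁), V ≤ V l^2 (UV.step). UV.fix: y T₀/y₁ T₀ is fixed by s in JV (in DT), KS.act: e (c s) T₀/e (c₁ s) T₀ = 1, lk_sub, UV.zero. -/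
theorem UV.same (U : UV A B Om j act mo ψ π l N V φ q n) (he : Pairing A B act π l e) {c c₁ : (Ω ≃ₐ[F] Ω) → Pt (WAB A B) Ω}
    (hc : Dc act π N V c) (hc₁ : Dc act π N V c₁) {y y₁ : Pt (WAB A B) Ω → Ω} (hy : KS act π N V e c y)
    (hy₁ : KS act π N V e c₁ y₁) {T₀ : Pt (WAB A B) Ω} (hT : T₀ ∈ Tor act π) (h0 : T₀ ≠ 0) {z x z₁ x₁ : Ω}
    (hz : Hx act π N V z) (hz0 : z ≠ 0) (hx : Hx act π N V x) (hx1 : V.valuation x ≤ 1)
    (h : y T₀ ^ l = z ^ l * (1 + l * x)) (hz₁ : Hx act π N V z₁) (hz10 : z₁ ≠ 0) (hx₁ : Hx act π N V x₁)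
    (hx11 : V.valuation x₁ ≤ 1) (h₁ : y₁ T₀ ^ l = z₁ ^ l * (1 + l * x₁))
    (hd : V.valuation (x - x₁) < 1) : ∀ s, JV act π V s → c s - c₁ s = 0 := by
  intro s hs
  have D := U.D
  obtain ⟨_, _, _, _, hl1⟩ := U.val_l
  have hDN : DecN N V s := U.nb.dec hl1 hs.1
  have hDT : DT act π N V s := ⟨hDN, hs.2.1⟩
  have hyn : y T₀ ≠ 0 := hy.ne T₀ hT
  have hyn₁ : y₁ T₀ ≠ 0 := hy₁.ne T₀ hT
  have hxx := U.step (hx.sub hx₁) hd
  have hlx₁ : V.valuation ((l : Ω) * x₁) < 1 := by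
    rw [map_mul]
    exact lt_of_le_of_lt (mul_le_of_le_one_right' hx11) hl1
  have hu₁ : V.valuation (1 + (l : Ω) * x₁) = 1 := Valuation.map_one_add_of_lt _ hlx₁
  have hun₁ : 1 + (l : Ω) * x₁ ≠ 0 := by
    intro h0
    rw [h0, map_zero] at hu₁
    exact zero_ne_one hu₁
  obtain ⟨v, hv⟩ : ∃ v, v = (1 + (l : Ω) * x) / (1 + (l : Ω) * x₁) := ⟨_, rfl⟩
  have hvH : Hx act π N V v := by
    rw [hv]
    exact (Hx.one.add ((Hx.nat l).mul hx)).div (Hx.one.add ((Hx.nat l).mul hx₁))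
  have hv1 : V.valuation (v - 1) ≤ V.valuation (l : Ω) ^ 2 := by
    have e1 : v - 1 = (l : Ω) * (x - x₁) / (1 + (l : Ω) * x₁) := by
      rw [hv, div_sub_one hun₁]
      congr 1
      ring
    rw [e1, map_div₀, hu₁, div_one, map_mul, sq]
    exact mul_le_mul_right hxx _
  have hq : (y T₀ / y₁ T₀) ^ l = (z / z₁) ^ l * v := by
    rw [div_pow, h, h₁, hv, div_pow]
    field_simp
  have h3 := U.fix he (hz.div hz₁) (div_ne_zero hz0 hz10) hvH hq hv1 hs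
  rw [map_div₀ s, hy.gal T₀ hT s hDT, hy₁.gal T₀ hT s hDT] at h3
  have h5 := lk_ne D he (hc₁.val s hDN) hT
  have h4 : e (c s) T₀ / e (c₁ s) T₀ = 1 := by
    field_simp at h3 ⊢
    exact h3
  apply U.zero he hT h0 (sub_mem (hc.val s hDN) (hc₁.val s hDN))
  rw [lk_sub D he (hc.val s hDN) (hc₁.val s hDN) hT]
  exact h4

/-- Chunk YQ6 (M). The local condition above cj π over N in the split case. T₀ ≠ 0 in Tor π (gi_gen). r from U.rep. For each i: exists_ptu with u = r i (hl: UV.val_l): P i, y i, class c_i; UV.coef for sys_of: z i, x i, V (x i^q - n x i) < 1. For i ≠ i' not V (x i - x i') < 1: otherwise UV.same: the difference vanishes on JV; cob_inert (inertia elements are in DecN: U.nb.dec) against pt_diff.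
c has (z, x) (UV.coef, sys_of). pigeon2 (2 ≤ q): i with V (x - x i) < 1. UV.same, cob_ram with moved_ram for cj π: c s - (s P_i - P_i) = s X - X. The point P_i + X. -/
theorem loc_conj (U : UV A B Om j act mo ψ π l N V φ q n) (he : Pairing A B act π l e) {c : (Ω ≃ₐ[F] Ω) → Pt (WAB A B) Ω} (hc : Dc act π N V c)
    {y : Pt (WAB A B) Ω → Ω} (hy : KS act π N V e c y)
    (hvy : ∀ T ∈ Tor act π, ∃ k : ℤ, V.valuation (y T) = V.valuation (l : Ω) ^ k) : ∃ P : Pt (WAB A B) Ω, ∀ s, DecN N V s → c s = ac (WAB A B) s P - P := by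
  have D := U.D
  obtain ⟨hl0, hp1, hG, hl00, hl1⟩ := U.val_l
  have hA := D.cma
  have hβ : Prime (cj π) := cj_prime D.pr
  have hID : ∀ s : Ω ≃ₐ[F] Ω, Inert V s → DecN N V s := fun s hs => U.nb.dec hl1 hs
  have hDT : ∀ s : Ω ≃ₐ[F] Ω, Inert V s → DT act π N V s := fun s hs =>
    ⟨hID s hs, fun T hT => inert_tors hA hG hp1 hs hT⟩
  obtain ⟨_, T₀, hT₀, _, hz0⟩ := gi_gen U.D.cma π D.pr
  have hT00 : T₀ ≠ 0 := by
    intro h
    have h1 := (hz0 1).1 (by rw [act_one, h])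
    exact D.pr.not_unit (isUnit_of_dvd_one h1)
  obtain ⟨r, hr1, hr2⟩ := U.rep
  have key : ∀ i : Fin q, ∃ (P : Pt (WAB A B) Ω) (y₁ : Pt (WAB A B) Ω → Ω) (z x : Ω),
      Ker V (act (cj π) P) ∧
      V.valuation (tt (act (cj π) P) - l * r i) < V.valuation (l : Ω) ∧
      Dc act π N V (fun s => ac (WAB A B) s P - P) ∧ KS act π N V e (fun s => ac (WAB A B) s P - P) y₁ ∧
      Hx act π N V z ∧ z ≠ 0 ∧ Hx act π N V x ∧ V.valuation x ≤ 1 ∧ y₁ T₀ ^ l = z ^ l * (1 + l * x) ∧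
      V.valuation (x ^ q - n * x) < 1 := by
    intro i
    obtain ⟨P, B₀, L, y₁, hP, hPv, hP3, -, -, -, -, hc₁, hy₁⟩ :=
      exists_ptu D hG he U.nb U.above hl0 (hr1 i).1 (hr1 i).2
    have hPK : Ker V P := by
      rcases hP3 with h | h
      · rw [h]
        exact ker_zero V
      · exact h.1
    obtain ⟨k, hk⟩ := na_val D he V hG hp1 U.above hPK (fun s hs => hc₁.val s (hID s hs)) hT₀ (hy₁.ne T₀ hT₀)
      (fun s hs => hy₁.gal T₀ hT₀ s (hDT s hs))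
    obtain ⟨z, x, hz, hzn, hx, hx1, hmz, hxe⟩ := U.coef (sys_of D he hc₁ hy₁) hT₀ ⟨k, by
      show V.valuation (y₁ T₀ ^ l) = _
      rw [map_pow, hk, ← hl0, mul_comm, zpow_mul, zpow_natCast]⟩
    exact ⟨P, y₁, z, x, hP, hPv, hc₁, hy₁, hz, hzn, hx, hx1, hmz, hxe⟩
  choose P y₁ z x hP hPv hc₁ hy₁ hz hzn hx hx1 hm hxe using key
  have hinj : ∀ i i', i ≠ i' → ¬ V.valuation (x i - x i') < 1 := by
    intro i i' hne hlt
    have h1 := U.same he (hc₁ i) (hc₁ i') (hy₁ i) (hy₁ i') hT₀ hT00 (hz i) (hzn i) (hx i) (hx1 i)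
      (hm i) (hz i') (hzn i') (hx i') (hx1 i') (hm i') hlt
    obtain ⟨X, hX, hX1⟩ := cob_inert D ((hc₁ i).sub (hc₁ i')) (fun s _ hs => h1 s hs)
    exact pt_diff D hG U.above hl0 (hr1 i).2 (hr1 i').2 (hP i) (hP i') (hPv i) (hPv i') (hr2 i i' hne)
      ⟨X, hX, fun s hs => hX1 s (hID s hs).1 hs⟩
  obtain ⟨z', x', hz', hzn', hx', hx1', hmz', hxe'⟩ := U.coef (sys_of D he hc hy) hT₀ (by
    obtain ⟨k, hk⟩ := hvy T₀ hT₀
    exact ⟨k, by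
      show V.valuation (y T₀ ^ l) = _
      rw [map_pow, hk, mul_comm, zpow_mul, zpow_natCast]⟩)
  have hq2 : 2 ≤ q := by
    obtain ⟨q', hq', hq0⟩ := U.ql
    have h5 := D.five
    rw [hq']
    nlinarith
  obtain ⟨i, hi⟩ := H13Y.pigeon2 V hq2 x (fun i => ⟨hx1 i, hxe i⟩) hinj hx1' hxe'
  have h1 := U.same he hc (hc₁ i) hy (hy₁ i) hT₀ hT00 hz' hzn' hx' hx1' hmz' (hz i) (hzn i) (hx i)
    (hx1 i) (hm i) hi
  obtain ⟨X, hX, hX1⟩ := cob_ram D (hc.sub (hc₁ i)) (fun s _ hs => h1 s hs) (by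
    obtain ⟨σ, h6, h7⟩ := moved_ram hA hG hβ (xp_nm D).2 U.above
    exact ⟨σ, (hID σ h6).1, h6, h7⟩)
  refine ⟨P i + X, fun s hs => ?_⟩
  have h2 : c s - (ac (WAB A B) s (P i) - P i) = ac (WAB A B) s X - X := hX1 s hs
  rw [map_add, sub_eq_iff_eq_add.1 h2]
  abel

end H13X
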