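import Mathlib
import Pool.Agent.Lib.H13X.XG2
import Pool.Agent.Lib.H13X.XL1
import Pool.Agent.Lib.H13X.XLZ
import Pool.Agent.Lib.H13X.XQ2
import Pool.Agent.Lib.H55P.S13

/-! # H13X: the local conditions of the global class over N -/

open NumberField IsDedekindDomain WeierstrassCurve

namespace H13X

open H55P (IQ embF eF LF Per IsHecke Pt ac Inert Dec Nm Coc)
open H35P (WAB Ker tt)
open H55K (Tor ak xc yc CMA Dta GV GMod cj cj_cj mul_cj cj_prime cj_dvd cj_nat Nm_cj Nm_mul Nm_nat)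
open H55K.S
open H13S (Abv)

variable {F : Type} [Field F] [NumberField F] [IQ F] {A B : F} {Om : ℂ} {Ω : Type} [Field Ω] [DecidableEq Ω]
  [Algebra F Ω] [IsAlgClosure F Ω] {j : Ω →+* ℂ} {act : 𝓞 F →+* AddMonoid.End (Pt (WAB A B) Ω)} {mo : Ideal (𝓞 F)}
  {ψ : Ideal (𝓞 F) →*₀ 𝓞 F}

variable {π : 𝓞 F} {l : ℕ} {e : Pt (WAB A B) Ω → Pt (WAB A B) Ω → Ω} {N L : IntermediateField F Ω} [NumberField N]
  {w : HeightOneSpectrum (𝓞 N)} {c : (Ω ≃ₐ[F] Ω) → Pt (WAB A B) Ω} {y : Pt (WAB A B) Ω → Ω} {V : ValuationSubring Ω}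

omit [IQ F] [DecidableEq Ω] in
/-- V is a nontrivial valuation ring: it lies above a prime of K. -/
theorem xg3_below (K : IntermediateField F Ω) [NumberField K] (hV : V ≠ ⊤) : ∃ w : HeightOneSpectrum (𝓞 K), Abv K V w := by
  have hac : IsAlgClosed Ω := IsAlgClosure.isAlgClosed F
  have halg : Algebra.IsAlgebraic F Ω := IsAlgClosure.isAlgebraic
  have hch : CharZero Ω := charZero_of_injective_algebraMap (algebraMap F Ω).injective
  by_cases hLV : ∃ x : K, (x : Ω) ∉ V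
  · exact H13S.exists_below K V hLV
  · exfalso
    push Not at hLV
    have htop : ∀ x : Ω, x ∈ V := H55P.s13_top K V (by
      intro x hx
      have hx0 : ((x : K) : Ω) ≠ 0 := by
        intro h
        apply hx
        have h1 : (x : K) = 0 := by exact_mod_cast h
        exact RingOfIntegers.coe_injective (h1.trans (map_zero _).symm)
      have h1 := (V.valuation_le_one_iff _).2 (hLV (x : K))
      have h2 := (V.valuation_le_one_iff _).2 (hLV ((x : K)⁻¹))
      have e : (((x : K)⁻¹ : K) : Ω) = ((x : K) : Ω)⁻¹ := rfl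
      rw [e, map_inv₀, inv_le_one₀ (zero_lt_iff.2 ((map_ne_zero _).2 hx0))] at h2
      exact le_antisymm h1 h2)
    exact hV (top_unique fun x _ => htop x)

/-- The local condition above l. -/
theorem Gl.above (G : Gl A B Om j act mo ψ π l e N L w c y) (he : Pairing A B act π l e) (hV : V.valuation (l : Ω) < 1) :
    ∃ P : Pt (WAB A B) Ω, ∀ s, DecN N V s → c s = ac (WAB A B) s P - P := by
  have D := G.D
  have hl5 := D.five
  have hdc : Dc act π N V c := dc_of_cc G.cc fun s hs => hs.1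
  have hks : KS act π N V e c y := ks_of_kum G.tb (fun s hs => hs.1) G.kum
  have hVt : V ≠ ⊤ := by
    rintro rfl
    have h1 : (⊤ : ValuationSubring Ω).valuation (l : Ω) ≠ 0 := by
      rw [Ne, map_eq_zero]
      have hchar : CharZero Ω := charZero_of_injective_algebraMap (algebraMap F Ω).injective
      exact_mod_cast D.hl.ne_zero
    have h2 : (⊤ : ValuationSubring Ω).valuation ((l : Ω)⁻¹) ≤ 1 :=
      ((⊤ : ValuationSubring Ω).valuation_le_one_iff _).2 (ValuationSubring.mem_top _)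
    rw [map_inv₀, inv_le_one₀ (zero_lt_iff.2 h1)] at h2
    exact absurd hV (not_lt.2 h2)
  have hFx : ∀ x ∈ L, Hx act π N V x := by
    intro x hx s hs
    exact (IntermediateField.mem_fixingSubgroup_iff L s).1 ((G.tb.fix s).2 ⟨hs.1.1, hs.2⟩) x hx
  have hlvo : vo V (l : 𝓞 F) < 1 := by
    rw [vo_nat]
    exact hV
  by_cases hπ : vo V π < 1
  · obtain ⟨-, T₀, hT₀, -, hT₀a⟩ := gi_gen D.cma π D.pr
    have hT₀0 : T₀ ≠ 0 := by
      rintro rfl
      have h1 := (hT₀a 1).1 (map_zero _)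
      exact D.pr.not_isUnit (isUnit_of_dvd_one h1)
    have hlev : ∀ T ∈ Tor act π, Lv act π l N V (V.valuation (tt T₀) ^ 2) (y T ^ l) := by
      intro T hT
      obtain ⟨z, hz, hz0, hz1⟩ := G.lev V hπ T hT T₀ hT₀ hT₀0
      exact ⟨z, hFx z hz, hz0, hz1⟩
    rcases dichotomy D.hl D.dta.unr D.pr D.dvd with ⟨hin, hq, -⟩ | ⟨hnd, -, hq, -⟩
    · have R : RV A B Om j act mo ψ π l N V (tt T₀) (l + 1) := ⟨⟨D, hπ, ⟨T₀, hT₀, hT₀0, rfl⟩, by
        rw [hq]
        obtain ⟨k, rfl⟩ : ∃ k, l = k + 1 := ⟨l - 1, by omega⟩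
        rw [Nat.add_sub_cancel]
        have : (k + 1) ^ 2 = (k + 1 + 1) * k + 1 := by ring
        omega⟩, G.nb⟩
      exact loc_inert R hq he hdc hks hlev
    · have R : RV A B Om j act mo ψ π l N V (tt T₀) 1 := ⟨⟨D, hπ, ⟨T₀, hT₀, hT₀0, rfl⟩, by rw [hq, one_mul]⟩, G.nb⟩
      have hlev2 := R.levels (sys_of D he hdc hks) (Or.inl ⟨hq, rfl⟩) hlev
      have h0 := top_zero R he hdc hks (by rw [mul_one]; exact hlev2)
      obtain ⟨v, hv⟩ := xg3_below (F := F) N hVt
      obtain ⟨P, hP⟩ := loc_zero D G.cc hv (fun hVl s hs => G.nb.inert V hVl s hs) fun s _ hs => h0 s hs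
      exact ⟨P, fun s hs => hP s hs.1 hs.2⟩
  · have hcj : vo V (cj π) < 1 := by
      rcases dichotomy D.hl D.dta.unr D.pr D.dvd with ⟨-, -, h3⟩ | ⟨-, -, -, h3⟩
      · exfalso
        apply hπ
        rw [← vo_assoc V h3 (fun x => vo_le V x)]
        exact hlvo
      · rw [← h3, vo_mul] at hlvo
        have h1 : vo V π = 1 := le_antisymm (vo_le V π) (not_lt.1 hπ)
        rwa [h1, one_mul] at hlvo
    have hnd : ¬ π ∣ cj π := by
      rintro ⟨x, hx⟩
      have h1 : vo V π = 1 := le_antisymm (vo_le V π) (not_lt.1 hπ)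
      rcases dichotomy D.hl D.dta.unr D.pr D.dvd with ⟨h3, -, -⟩ | ⟨h3, -⟩
      · rw [vo_assoc V h3 (fun x => vo_le V x), h1] at hcj
        exact lt_irrefl _ hcj
      · exact h3 ⟨x, hx⟩
    obtain ⟨φ, q, n, U⟩ := exists_UV D G.nb hnd hcj
    refine loc_conj U he hdc hks fun T hT => ?_
    have hnw : ¬ Abv N V w := fun h => by
      rw [G.val_w h] at hV
      exact lt_irrefl _ hV
    obtain ⟨x, hx, hx0, hxv⟩ := G.out V hnw T hT
    obtain ⟨k, hk⟩ := U.values (hFx x hx) hx0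
    exact ⟨k, hxv.trans hk⟩

/-- The local conditions over N'. -/
theorem Gl.local (G : Gl A B Om j act mo ψ π l e N L w c y) (he : Pairing A B act π l e) {N' : IntermediateField F Ω}
    [NumberField N'] (hNN : N ≤ N')
    (hK : ∀ V : ValuationSubring Ω, Abv N V w → ∀ a ∈ N, a ≠ 0 → ∃ x ∈ N', V.valuation x ^ l = V.valuation a)
    (hV : V ≠ ⊤) : ∃ P : Pt (WAB A B) Ω, ∀ s ∈ N'.fixingSubgroup, Dec V s → c s = ac (WAB A B) s P - P := by
  have hfix : ∀ s ∈ N'.fixingSubgroup, s ∈ N.fixingSubgroup := by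
    intro s hs
    rw [IntermediateField.mem_fixingSubgroup_iff] at hs ⊢
    exact fun x hx => hs x (hNN hx)
  by_cases hlV : V.valuation (l : Ω) < 1
  · obtain ⟨P, hP⟩ := G.above he hlV
    exact ⟨P, fun s hs hsD => hP s ⟨hfix s hs, hsD⟩⟩
  · have hlV1 : V.valuation (l : Ω) = 1 := by
      apply le_antisymm _ (not_lt.1 hlV)
      have h1 := vo_le V (l : 𝓞 F)
      rwa [vo_nat] at h1
    by_cases hw : Abv N V w
    · have C' : Cc act π N' c := ⟨fun s hs t ht => G.cc.mul s (hfix s hs) t (hfix t ht), by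
        obtain ⟨M, hM, h1⟩ := G.cc.cont
        exact ⟨M, hM, fun s hs => h1 s (hfix s hs)⟩, fun s hs => G.cc.val s (hfix s hs)⟩
      obtain ⟨v, hv⟩ := xg3_below (F := F) N' hV
      exact loc_zero G.D C' hv (fun h => absurd h hlV) fun s hs hj => G.kill he hw hNN (hK V hw) hs hj.1
    · obtain ⟨v, hv⟩ := xg3_below (F := F) N hV
      obtain ⟨P, hP⟩ := loc_zero G.D G.cc hv (fun h => absurd h hlV) fun s hs hj =>
        G.inert he hlV1 hw hj.1 ((G.tb.fix s).2 ⟨hs, hj.2.1⟩)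
      exact ⟨P, fun s hs hsD => hP s (hfix s hs) hsD⟩

end H13X
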