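import Mathlib
import Pool.Agent.Lib.H13S.Defs
import Pool.Agent.Lib.H13S.LD1
import Pool.Agent.Lib.H13Y.GN2
import Pool.Agent.Lib.H55K.A.B3
import Pool.Agent.Lib.H55K.SD

/-! # H13X: ports of GN6c, GN8a, GN8b, GN9a to all F -/

open NumberField IsDedekindDomain WeierstrassCurve

namespace H13X

open H55P (IQ embF eF LF Per IsHecke Pt ac Inert Dec Nm Coc)
open H35P (WAB Ker tt)
open H55K (Tor ak xc yc CMA Dta GV GMod cj cj_cj mul_cj cj_prime cj_dvd cj_nat Nm_cj Nm_mul Nm_nat)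
open H55K.S
open H55R (Pl ord es fs smulP)
open H13S (Abv)
open H13Y (guN EqHomN LocN Kap kmk kmk_zero kmk_surj SU mem_SU SU_act exists_lev)
open H99B (Lev)

variable {F : Type} [Field F] [NumberField F] [IQ F]

/-- F ⊆ N is not real, so N is totally complex: the number of infinite places is [N : F]. -/
theorem places_card (N : Type) [Field N] [NumberField N] [Algebra F N] :
    (∀ v : InfinitePlace N, v.IsComplex) ∧ Fintype.card (InfinitePlace N) = Module.finrank F N := by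
  classical
  have hreal := H55K.Ab.b3_real F
  have hc : ∀ v : InfinitePlace N, v.IsComplex := by
    intro v
    rw [← InfinitePlace.not_isReal_iff_isComplex]
    intro h
    have h1 : (v.comap (algebraMap F N)).IsReal := h.comap (algebraMap F N)
    have h3 : 0 < InfinitePlace.nrRealPlaces F := Fintype.card_pos_iff.2 ⟨⟨_, h1⟩⟩
    omega
  refine ⟨hc, ?_⟩
  have h0 : InfinitePlace.nrRealPlaces N = 0 := by
    rw [InfinitePlace.nrRealPlaces, Fintype.card_eq_zero_iff]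
    exact ⟨fun v => (InfinitePlace.not_isReal_iff_isComplex.2 (hc v.1)) v.2⟩
  have h2 := InfinitePlace.card_add_two_mul_card_eq_rank N
  have h4 := InfinitePlace.card_eq_nrRealPlaces_add_nrComplexPlaces N
  have h5 := Module.finrank_mul_finrank ℚ F N
  have h6 : Module.finrank ℚ F = 2 := IQ.deg
  rw [h6] at h5
  omega

/-- The product of the norms of different primes containing π. -/
theorem prod_norm_le {N : Type} [Field N] [NumberField N] [Algebra F N] {π : 𝓞 F} (h0 : π ≠ 0)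
    (T : Finset (Pl N)) (hT : ∀ v ∈ T, algebraMap (𝓞 F) (𝓞 N) π ∈ v.asIdeal) :
    ∏ v ∈ T, Ideal.absNorm v.asIdeal ≤ Nm π ^ Module.finrank F N := by
  classical
  have hinj : Function.Injective (algebraMap (𝓞 F) (𝓞 N)) := FaithfulSMul.algebraMap_injective (𝓞 F) (𝓞 N)
  have hπ : algebraMap (𝓞 F) (𝓞 N) π ≠ 0 := by
    intro h
    exact h0 (hinj (by rw [h, map_zero]))
  have hdvd : ∏ v ∈ T, v.asIdeal ∣ Ideal.span {algebraMap (𝓞 F) (𝓞 N) π} := by
    have h1 : ∏ v ∈ T, v.asIdeal = ∏ P ∈ T.image (fun v => v.asIdeal), P := by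
      rw [Finset.prod_image]
      intro v _ w _ hvw
      exact HeightOneSpectrum.ext hvw
    rw [h1]
    apply Finset.prod_primes_dvd
    · intro P hP
      rw [Finset.mem_image] at hP
      obtain ⟨v, -, rfl⟩ := hP
      exact v.prime
    · intro P hP
      rw [Finset.mem_image] at hP
      obtain ⟨v, hv, rfl⟩ := hP
      rw [Ideal.dvd_span_singleton]
      exact hT v hv
  have hnorm : Ideal.absNorm (Ideal.span {algebraMap (𝓞 F) (𝓞 N) π}) = Nm π ^ Module.finrank F N := by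
    rw [Ideal.absNorm_span_singleton]
    unfold Nm
    rw [Ideal.absNorm_span_singleton, ← Int.natAbs_pow]
    congr 1
    have h1 : ((Algebra.norm ℤ (algebraMap (𝓞 F) (𝓞 N) π) : ℤ) : ℚ) = ((Algebra.norm ℤ π ^ Module.finrank F N : ℤ) : ℚ) := by
      rw [Algebra.coe_norm_int]
      push_cast
      rw [Algebra.coe_norm_int]
      have h2 : ((algebraMap (𝓞 F) (𝓞 N) π : 𝓞 N) : N) = algebraMap F N (π : F) := rfl
      rw [h2, ← Algebra.norm_norm (S := F), Algebra.norm_algebraMap, map_pow]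
    exact_mod_cast h1
  have h1 : Ideal.absNorm (∏ v ∈ T, v.asIdeal) ∣ Ideal.absNorm (Ideal.span {algebraMap (𝓞 F) (𝓞 N) π}) :=
    Ideal.absNorm_dvd_absNorm_of_le (Ideal.le_of_dvd hdvd)
  rw [map_prod, hnorm] at h1
  apply Nat.le_of_dvd _ h1
  rw [← hnorm]
  apply Nat.pos_of_ne_zero
  rw [Ne, Ideal.absNorm_eq_zero_iff, Ideal.span_singleton_eq_bot]
  exact hπ

/-- π divides l and l 𝓞 N is squarefree: v divides π exactly once. -/
theorem unr_val {l : ℕ} (hl : l ≠ 0) {π : 𝓞 F} (hd : π ∣ (l : 𝓞 F)) {N : Type} [Field N] [NumberField N]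
    [Algebra F N] (hU : H55P.UnrP l N) (v : Pl N) (hv : algebraMap (𝓞 F) (𝓞 N) π ∈ v.asIdeal) :
    v.valuation N (algebraMap F N (π : F)) = WithZero.exp (-1 : ℤ) := by
  have hl0 : (l : 𝓞 N) ≠ 0 := Nat.cast_ne_zero.2 hl
  have hx : algebraMap (𝓞 F) (𝓞 N) π ∣ (l : 𝓞 N) := by
    have h := map_dvd (algebraMap (𝓞 F) (𝓞 N)) hd
    rwa [map_natCast] at h
  have hx0 : algebraMap (𝓞 F) (𝓞 N) π ≠ 0 := fun h => hl0 (by rwa [h, zero_dvd_iff] at hx)
  have h1 : algebraMap F N (π : F) = algebraMap (𝓞 N) N (algebraMap (𝓞 F) (𝓞 N) π) := rfl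
  rw [h1, HeightOneSpectrum.valuation_of_algebraMap]
  have hle : v.intValuation (algebraMap (𝓞 F) (𝓞 N) π) ≤ WithZero.exp (-((1 : ℕ) : ℤ)) := by
    rw [HeightOneSpectrum.intValuation_le_pow_iff_dvd, pow_one, Ideal.dvd_span_singleton]
    exact hv
  have hnle : ¬ v.intValuation (algebraMap (𝓞 F) (𝓞 N) π) ≤ WithZero.exp (-((2 : ℕ) : ℤ)) := by
    rw [HeightOneSpectrum.intValuation_le_pow_iff_dvd]
    intro h
    have h2 : v.asIdeal * v.asIdeal ∣ Ideal.span {(l : 𝓞 N)} := by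
      rw [← pow_two]
      refine h.trans ?_
      rw [Ideal.dvd_iff_le, Ideal.span_singleton_le_span_singleton]
      exact hx
    have h3 := hU v.asIdeal h2
    exact v.isPrime.ne_top (Ideal.isUnit_iff.1 h3)
  rw [HeightOneSpectrum.intValuation_if_neg _ hx0] at hle hnle ⊢
  rw [WithZero.exp_le_exp] at hle hnle
  congr 1
  push_cast at hle hnle
  omega

theorem gn8b_fin {L : Type} [Field L] [NumberField L] [Algebra F L] {π : 𝓞 F} (h0 : π ≠ 0) :
    Finite {W : Pl L // algebraMap (𝓞 F) (𝓞 L) π ∈ W.asIdeal} := by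
  have h1 : algebraMap (𝓞 F) (𝓞 L) π ≠ 0 := by
    intro h
    apply h0
    exact (FaithfulSMul.algebraMap_injective (𝓞 F) (𝓞 L)) (by rw [h, map_zero])
  have h2 : Ideal.span {algebraMap (𝓞 F) (𝓞 L) π} ≠ 0 := by
    simpa [Ideal.span_singleton_eq_bot] using h1
  have h3 := Ideal.finite_factors h2
  refine Set.Finite.to_subtype (h3.subset ?_)
  intro W hW
  show W.asIdeal ∣ _
  rw [Ideal.dvd_span_singleton]
  exact hW

theorem gn8b_norm {N L : Type} [Field N] [NumberField N] [Field L] [NumberField L] [Algebra N L] (W : Pl L)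
    (hs : ∀ b : Kap W, ∃ y : 𝓞 N, kmk W (algebraMap (𝓞 N) (𝓞 L) y) = b) :
    Nat.card (Kap W) = Ideal.absNorm (W.under (𝓞 N)).asIdeal := by
  set f : 𝓞 N →+* Kap W := (kmk W).comp (algebraMap (𝓞 N) (𝓞 L)) with hf
  have hsur : Function.Surjective f := hs
  have hker : RingHom.ker f = (W.under (𝓞 N)).asIdeal := by
    ext y
    rw [RingHom.mem_ker, hf, RingHom.comp_apply, kmk_zero]
    rfl
  rw [Ideal.absNorm_apply, Submodule.cardQuot_apply, ← hker]
  exact Nat.card_congr (RingHom.quotientKerEquivOfSurjective hsur).symm.toEquiv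

/-- The levels at all primes above π. -/
theorem exists_Lam {l : ℕ} [Fact l.Prime] {π : 𝓞 F} (h0 : π ≠ 0) {N L : Type} [Field N] [NumberField N]
    [Field L] [NumberField L] [Algebra F N] [Algebra N L] [Algebra F L] [IsScalarTower F N L] {k : Type}
    [Field k] [Fintype k] [CharP k l] (hcard : Fintype.card k = Nm π) (χ : Gal(L/N) →* kˣ)
    (hone : ∀ W W' : Pl L, algebraMap (𝓞 F) (𝓞 L) π ∈ W.asIdeal → W.under (𝓞 N) = W'.under (𝓞 N) → W = W')
    (hloc : ∀ W : Pl L, algebraMap (𝓞 F) (𝓞 L) π ∈ W.asIdeal →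
      ∃ (j : k →+* Kap W) (t : Lˣ), LocN j χ W t (kmk W)) :
    ∃ (Λ : Type) (_ : AddCommGroup Λ) (_ : Module k Λ) (_ : Module.Finite k Λ) (f : Lˣ → Λ),
      Module.finrank k Λ ≤ Module.finrank F N ∧
      (∀ x y : Lˣ, (∀ W : Pl L, algebraMap (𝓞 F) (𝓞 L) π ∈ W.asIdeal → (l : ℤ) ∣ ord W x) →
        (∀ W : Pl L, algebraMap (𝓞 F) (𝓞 L) π ∈ W.asIdeal → (l : ℤ) ∣ ord W y) → f (x * y) = f x + f y) ∧
      (∀ (σ : Gal(L/N)) (x : Lˣ), (∀ W : Pl L, algebraMap (𝓞 F) (𝓞 L) π ∈ W.asIdeal → (l : ℤ) ∣ ord W x) →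
        f (guN σ x) = (χ σ : k) • f x) ∧
      ∀ x : Lˣ, (∀ W : Pl L, algebraMap (𝓞 F) (𝓞 L) π ∈ W.asIdeal → (l : ℤ) ∣ ord W x) → f x = 0 →
        ∀ W : Pl L, algebraMap (𝓞 F) (𝓞 L) π ∈ W.asIdeal → Lev l W x := by
  classical
  let S := {W : Pl L // algebraMap (𝓞 F) (𝓞 L) π ∈ W.asIdeal}
  haveI : Finite S := gn8b_fin h0
  haveI : Fintype S := Fintype.ofFinite S
  choose j t hl using fun W : S => hloc W.1 W.2
  have hch : ∀ W : S, CharP (Kap W.1) l := fun W => charP_of_injective_ringHom (j W).injective l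
  choose c hc1 hc2 hc3 using fun W : S => haveI := hch W; exists_lev (hl W)
  let Λ := (W : S) → Kap W.1
  letI m : ∀ W : S, Module k (Kap W.1) := fun W => Module.compHom _ (j W)
  have hsm : ∀ (W : S) (a : k) (x : Kap W.1), a • x = j W a * x := fun W a x => rfl
  haveI : Finite Λ := Pi.finite
  haveI hfin : Module.Finite k Λ := Module.Finite.of_finite
  refine ⟨Λ, inferInstance, inferInstance, hfin, fun x W => c W x, ?_, ?_, ?_, ?_⟩
  · have h1 : Nat.card Λ = ∏ W : S, Nat.card (Kap W.1) := Nat.card_pi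
    have h2 : Nat.card Λ = Nat.card k ^ Module.finrank k Λ := Module.natCard_eq_pow_finrank
    have hinj : Set.InjOn (fun W : S => W.1.under (𝓞 N)) (Finset.univ : Finset S) := by
      intro W _ W' _ h
      exact Subtype.ext (hone W.1 W'.1 W.2 h)
    have h3 : ∏ W : S, Nat.card (Kap W.1) = ∏ v ∈ Finset.univ.image (fun W : S => W.1.under (𝓞 N)), Ideal.absNorm v.asIdeal := by
      rw [Finset.prod_image hinj]
      exact Finset.prod_congr rfl fun W _ => gn8b_norm W.1 (hl W).surj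
    have h4 := prod_norm_le (F := F) (N := N) h0 (Finset.univ.image (fun W : S => W.1.under (𝓞 N))) (by
      intro v hv
      obtain ⟨W, -, rfl⟩ := Finset.mem_image.1 hv
      show algebraMap (𝓞 N) (𝓞 L) (algebraMap (𝓞 F) (𝓞 N) π) ∈ W.1.asIdeal
      have : algebraMap (𝓞 N) (𝓞 L) (algebraMap (𝓞 F) (𝓞 N) π) = algebraMap (𝓞 F) (𝓞 L) π := by
        rw [← IsScalarTower.algebraMap_apply]
      rw [this]
      exact W.2)
    rw [← h3, ← h1, h2, ← hcard, Nat.card_eq_fintype_card] at h4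
    exact (Nat.pow_le_pow_iff_right Fintype.one_lt_card).1 h4
  · intro x y hx hy
    funext W
    exact hc1 W x y (hx W.1 W.2) (hy W.1 W.2)
  · intro σ x hx
    funext W
    exact hc2 W σ x (hx W.1 W.2)
  · intro x hx h W hW
    exact hc3 ⟨W, hW⟩ x (hx W hW) (congrFun h ⟨W, hW⟩)

end H13X
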