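import Mathlib
import Pool.Agent.Lib.H13S.CO1
import Pool.Agent.Lib.H13Y.GN2
import Pool.Agent.Lib.H13Y.GN9b
import Pool.Agent.Lib.H55K.K10
import Pool.Agent.Lib.H55K.K3
import Pool.Agent.Lib.H55K.SD

/-! # H13X: ports of GN9b, GN11a, GN11b to all F -/

open NumberField IsDedekindDomain WeierstrassCurve

namespace H13X

open H55P (IQ embF eF LF Per IsHecke Pt ac Inert Dec Nm Coc)
open H35P (WAB Ker tt)
open H55K (Tor ak xc yc CMA Dta GV GMod cj cj_cj mul_cj cj_prime cj_dvd cj_nat Nm_cj Nm_mul Nm_nat)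
open H55K (Fxd Lft TFld TotRam tot_ram exists_lft lft_fxd exists_abw Abw)
open H55K.S
open H55R (Pl ord es fs smulP under_smulP under_exists ord_map)
open H13S (Abv)
open H13Y (guN EqHomN LocN Kap kmk kmk_zero kmk_surj SU mem_SU SU_act exists_lev gn9b_surj gn9b_ram)

open H99B (Lev)

variable {F : Type} [Field F] [NumberField F] [IQ F] {A B : F} {Om : ℂ} {Ω : Type} [Field Ω] [DecidableEq Ω]
  [Algebra F Ω] {j : Ω →+* ℂ} {act : 𝓞 F →+* AddMonoid.End (Pt (WAB A B) Ω)}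
  {N L : Type} [Field N] [NumberField N] [Field L] [NumberField L] [Algebra F N] [Algebra F L]
  [Algebra N L] [Algebra N Ω] [Algebra L Ω] [IsScalarTower F N L] [IsScalarTower N L Ω]
  [IsScalarTower F N Ω] [IsScalarTower F L Ω]

omit [IQ F] in
theorem gn9b_tower {N L : Type} [Field N] [NumberField N] [Field L] [NumberField L] [Algebra F N]
    [Algebra N L] [Algebra F L] [IsScalarTower F N L] (y : 𝓞 F) :
    algebraMap (𝓞 F) (𝓞 L) y = algebraMap (𝓞 N) (𝓞 L) (algebraMap (𝓞 F) (𝓞 N) y) := by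
  apply RingOfIntegers.ext
  exact IsScalarTower.algebraMap_apply F N L (y : F)

/-- The local data at the primes above π. -/
theorem exists_locN [IsAlgClosure F Ω] (h : CMA F A B Om j act) {π : 𝓞 F} (hp : Prime π)
    (hL : TFld act N L π) (h2 : 2 < Nm π)
    (hG : ∀ V : ValuationSubring Ω, V.valuation (ak Ω π) < 1 → GV A B V)
    (hun : ∀ v : Pl N, algebraMap (𝓞 F) (𝓞 N) π ∈ v.asIdeal →
      v.valuation N (algebraMap F N (π : F)) = WithZero.exp (-1 : ℤ))
    {k : Type} [Field k] (q : 𝓞 F →+* k) (hq : Function.Surjective q) (hk : ∀ x, q x = 0 ↔ π ∣ x)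
    (χ : Gal(L/N) →* kˣ) (hχ : ∀ (σ : Gal(L/N)) (s : Ω ≃ₐ[F] Ω) (c : 𝓞 F), Lft σ s → q c = χ σ →
      ∀ R ∈ Tor act π, ac (WAB A B) s R = act c R)
    (W : Pl L) (hW : algebraMap (𝓞 F) (𝓞 L) π ∈ W.asIdeal) :
    ∃ (j : k →+* Kap W) (t : Lˣ), LocN j χ W t (kmk W) := by
  have hgal : IsGalois N L := hL.gal
  obtain ⟨v, hWv⟩ : ∃ v : Pl N, W.under (𝓞 N) = v := ⟨_, rfl⟩
  have hmem : ∀ y : 𝓞 N, y ∈ v.asIdeal ↔ algebraMap (𝓞 N) (𝓞 L) y ∈ W.asIdeal := by
    intro y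
    rw [← hWv]
    exact Iff.rfl
  have hv : algebraMap (𝓞 F) (𝓞 N) π ∈ v.asIdeal := by
    rw [hmem, ← gn9b_tower]
    exact hW
  have TR := tot_ram h hp hL v (hun v hv) hG
  have he : 2 ≤ es N L v := by
    rw [TR.es]
    omega
  obtain ⟨T, hT, h0⟩ := H55K.exists_tor h hp
  obtain ⟨x, y, hx, hy⟩ := hL.crd T hT
  obtain ⟨t, ht⟩ : ∃ t : L, algebraMap L Ω t = tt T := ⟨x / y, by rw [map_div₀, hx, hy, H55K.tt_xy]⟩
  have hT2 := TR.val W hWv T hT h0 t ht
  have ht0 : t ≠ 0 := by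
    intro h
    rw [h, map_zero] at hT2
    exact WithZero.exp_ne_zero hT2.symm
  have hψ : ∀ a : 𝓞 F, q a = 0 → ((kmk W).comp (algebraMap (𝓞 F) (𝓞 L))) a = 0 := by
    intro a ha
    rw [hk] at ha
    obtain ⟨c, rfl⟩ := ha
    rw [map_mul, RingHom.comp_apply, (kmk_zero W _).2 hW, zero_mul]
  let j' : k →+* Kap W := q.liftOfSurjective hq ⟨(kmk W).comp (algebraMap (𝓞 F) (𝓞 L)), fun a ha => hψ a ha⟩
  have hj : ∀ y : 𝓞 F, j' (q y) = kmk W (algebraMap (𝓞 N) (𝓞 L) (algebraMap (𝓞 F) (𝓞 N) y)) := by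
    intro y
    rw [← gn9b_tower]
    exact RingHom.liftOfRightInverse_comp_apply q (Function.surjInv hq) (Function.rightInverse_surjInv hq)
      ⟨(kmk W).comp (algebraMap (𝓞 F) (𝓞 L)), fun a ha => hψ a ha⟩ y
  refine ⟨j', Units.mk0 t ht0, ⟨fun x => kmk_zero W x, fun b => ?_, fun y hy => ?_, fun σ => ?_, ?_,
    fun σ y hy => ?_⟩⟩
  · exact gn9b_surj v W hWv TR.fs b
  · exact gn9b_ram v W hWv he y ((kmk_zero W _).1 hy)
  · exact TR.one _ _ ((under_smulP σ W).trans hWv) hWv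
  · have h1 := H55R.BF1_val W (Units.mk0 t ht0)
    rw [Units.val_mk0, hT2, WithZero.exp_inj] at h1
    omega
  · obtain ⟨c, hc⟩ := hq (χ σ : k)
    obtain ⟨s, hs⟩ := exists_lft (F := F) (Ω := Ω) σ
    have h1 := hχ σ s c hs hc T hT
    obtain ⟨V, hV⟩ := exists_abw Ω W
    have hWπ : W.valuation L (algebraMap F L (π : F)) < 1 := by
      have e : algebraMap F L (π : F) = algebraMap (𝓞 L) L (algebraMap (𝓞 F) (𝓞 L) π) := rfl
      rw [e]
      exact (W.valuation_lt_one_iff_mem _).2 hW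
    have hVb : V.valuation (ak Ω π) < 1 := by
      have e : ak Ω π = algebraMap L Ω (algebraMap F L (π : F)) := IsScalarTower.algebraMap_apply F L Ω _
      rw [e, hV.lt]
      exact hWπ
    have hGV := hG V hVb
    have hK := (H55K.tor_ram h hGV hp hVb hT h0).1
    have h4 := H55K.tt_act h hGV c hK
    rw [← h1, H55K.tt_ac, ← ht, hs] at h4
    have e3 : ak Ω c = algebraMap L Ω (algebraMap F L (c : F)) := IsScalarTower.algebraMap_apply F L Ω _
    rw [e3, ← map_mul, ← map_sub, ← map_pow, ← map_pow, hV.le, map_pow, hT2] at h4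
    have h5 : W.valuation L (algebraMap N L (((y - algebraMap (𝓞 F) (𝓞 N) c : 𝓞 N)) : N)) ≤
        WithZero.exp (-2 : ℤ) := by
      refine gn9b_ram v W hWv he _ ((kmk_zero W _).1 ?_)
      rw [map_sub, map_sub, hy, ← hc, hj, sub_self]
    have h6 : ((y - algebraMap (𝓞 F) (𝓞 N) c : 𝓞 N) : N) = (y : N) - algebraMap F N (c : F) := rfl
    have h10 : algebraMap N L (y : N) - algebraMap F L (c : F) =
        algebraMap N L (((y - algebraMap (𝓞 F) (𝓞 N) c : 𝓞 N)) : N) := by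
      rw [h6, map_sub, IsScalarTower.algebraMap_apply F N L]
    rw [← h10] at h5
    have h7 : σ ((Units.mk0 t ht0 : Lˣ) : L) - algebraMap N L (y : N) * ((Units.mk0 t ht0 : Lˣ) : L) =
        (σ t - algebraMap F L (c : F) * t) - (algebraMap N L (y : N) - algebraMap F L (c : F)) * t := by
      rw [Units.val_mk0]
      ring
    rw [h7]
    have h9 : (WithZero.exp (-1 : ℤ)) ^ 2 = (WithZero.exp (-2 : ℤ)) := by
      rw [← WithZero.exp_nsmul]
      norm_num
    rw [h9] at h4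
    refine (W.valuation L).map_sub_le h4 ?_
    rw [map_mul, hT2]
    refine (mul_le_of_le_one_right' ?_).trans h5
    rw [← WithZero.exp_zero, WithZero.exp_le_exp]
    norm_num

/-- χ is a bijection. -/
theorem chi_bijN [IsAlgClosure F Ω] (h : CMA F A B Om j act) {π : 𝓞 F} (hp : Prime π)
    (hL : TFld act N L π)
    (hG : ∀ V : ValuationSubring Ω, V.valuation (ak Ω π) < 1 → GV A B V)
    (hun : ∀ v : Pl N, algebraMap (𝓞 F) (𝓞 N) π ∈ v.asIdeal →
      v.valuation N (algebraMap F N (π : F)) = WithZero.exp (-1 : ℤ))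
    {k : Type} [Field k] [Fintype k] (q : 𝓞 F →+* k) (hq : Function.Surjective q)
    (hk : ∀ x, q x = 0 ↔ π ∣ x) (χ : Gal(L/N) →* kˣ) (hχi : Function.Injective χ) :
    Fintype.card k = Nm π ∧ Function.Bijective χ := by
  classical
  obtain ⟨v, hv⟩ : ∃ v : Pl N, algebraMap (𝓞 F) (𝓞 N) π ∈ v.asIdeal := by
    have h1 : ¬ IsUnit (algebraMap (𝓞 F) (𝓞 N) π) := by
      intro h
      exact hp.not_isUnit ((isUnit_map_iff (algebraMap (𝓞 F) (𝓞 N)) π).1 h)
    have h0 : algebraMap (𝓞 F) (𝓞 N) π ≠ 0 := by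
      intro h
      apply hp.ne_zero
      exact (FaithfulSMul.algebraMap_injective (𝓞 F) (𝓞 N)) (by rw [h, map_zero])
    obtain ⟨M, hM, hle⟩ := Ideal.exists_le_maximal (Ideal.span {algebraMap (𝓞 F) (𝓞 N) π})
      (by rwa [Ne, Ideal.span_singleton_eq_top])
    have hmem : algebraMap (𝓞 F) (𝓞 N) π ∈ M := hle (Ideal.mem_span_singleton_self _)
    refine ⟨⟨M, hM.isPrime, ?_⟩, hmem⟩
    rintro rfl
    exact h0 (by simpa using hmem)
  have htot := tot_ram h hp hL v (hun v hv) hG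
  have hgal : IsGalois N L := hL.gal
  have hfin : Finite kˣ := inferInstance
  refine ⟨by rw [← Nat.card_eq_fintype_card, H55K.k10_card q hq hk], ?_⟩
  rw [Nat.bijective_iff_injective_and_card]
  refine ⟨hχi, ?_⟩
  rw [IsGalois.card_aut_eq_finrank, htot.deg, ← H55K.k10_card q hq hk, Nat.card_units]

end H13X
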