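import Mathlib
import Pool.Agent.Lib.H13X.XN1
import Pool.Agent.Lib.H13X.XN2
import Pool.Agent.Lib.H13Y.GN11b

/-! # H13X: port of GN11b to all F -/

open NumberField IsDedekindDomain WeierstrassCurve

namespace H13X

open H55P (IQ embF eF LF Per IsHecke Pt ac Inert Dec Nm Coc)
open H35P (WAB Ker tt)
open H55K (Tor ak xc yc CMA Dta GV GMod cj cj_cj mul_cj cj_prime cj_dvd cj_nat Nm_cj Nm_mul Nm_nat)
open H55K (Fxd Lft TFld TotRam tot_ram exists_lft lft_fxd exists_abw Abw)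
open H55K.S
open H55R (Pl ord es fs smulP under_smulP under_exists ord_map)
open H13S (Abv)
open H13Y (guN EqHomN LocN Kap kmk kmk_zero kmk_surj SU mem_SU SU_act exists_lev gn9b_surj gn9b_ram etaN_hom
  exists_teich exists_psi gn_alg SU_fg SU_pow gn11b_units gn11b_K)
open H99B (Lev cf pw exists_rho)

variable {F : Type} [Field F] [NumberField F] [IQ F] {A B : F} {Om : ℂ} {Ω : Type} [Field Ω] [DecidableEq Ω]
  [Algebra F Ω] {j : Ω →+* ℂ} {act : 𝓞 F →+* AddMonoid.End (Pt (WAB A B) Ω)}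
  {N L : Type} [Field N] [NumberField N] [Field L] [NumberField L] [Algebra F N] [Algebra F L]
  [Algebra N L] [Algebra N Ω] [Algebra L Ω] [IsScalarTower F N L] [IsScalarTower N L Ω]
  [IsScalarTower F N Ω] [IsScalarTower F L Ω]

/-- The class over N by counting. -/
theorem glob_N [IsAlgClosure F Ω] (hA : CMA F A B Om j act) {l : ℕ} [Fact l.Prime] (h5 : 5 ≤ l) {π : 𝓞 F} (hp : Prime π)
    (hL : TFld act N L π)
    (hG : ∀ V : ValuationSubring Ω, V.valuation (ak Ω π) < 1 → GV A B V)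
    (hun : ∀ v : Pl N, algebraMap (𝓞 F) (𝓞 N) π ∈ v.asIdeal →
      v.valuation N (algebraMap F N (π : F)) = WithZero.exp (-1 : ℤ))
    {k : Type} [Field k] [Fintype k] [DecidableEq k] [CharP k l] (q : 𝓞 F →+* k)
    (hq : Function.Surjective q) (hk : ∀ x, q x = 0 ↔ π ∣ x) (χ : Gal(L/N) →* kˣ) (hχi : Function.Injective χ)
    (hχ : ∀ (σ : Gal(L/N)) (s : Ω ≃ₐ[F] Ω) (c : 𝓞 F), Lft σ s → q c = χ σ →
      ∀ R ∈ Tor act π, ac (WAB A B) s R = act c R) (w : Pl N)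
    (hwπ : algebraMap (𝓞 F) (𝓞 N) π ∉ w.asIdeal)
    (hst : ∀ Q : Pl L, Q.under (𝓞 N) = w → ∀ σ : Gal(L/N), smulP σ Q = Q → σ = 1) :
    ∃ m : k → Lˣ, EqHomN l χ m ∧
      (∀ (a : k) (v : Pl L), v.under (𝓞 N) ≠ w → (l : ℤ) ∣ ord v (m a)) ∧
      (∀ (a : k) (W : Pl L), algebraMap (𝓞 F) (𝓞 L) π ∈ W.asIdeal → Lev l W (m a)) ∧
      ∃ a : k, ∀ z : Lˣ, m a ≠ z ^ l := by
  have hgal : IsGalois N L := hL.gal
  have hl : l.Prime := Fact.out
  obtain ⟨hcard, hχb⟩ := chi_bijN hA hp hL hG hun q hq hk χ hχi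
  obtain ⟨ρ, hρ⟩ := exists_rho l k
  obtain ⟨V, ω, hV, hωi, hω⟩ := exists_teich l χ hχb.1
  obtain ⟨hk5, u, hu⟩ := gn11b_units h5 (k := k)
  have h2 : 2 < Nm π := by
    rw [← hcard]
    omega
  have hω1 : ω ≠ 1 := by
    intro h
    obtain ⟨g, hg⟩ := hχb.2 u
    apply hu
    have h3 : g = 1 := hωi (by rw [h]; rfl)
    rw [← hg, h3, map_one]
  obtain ⟨Q, hQ⟩ := under_exists (L := L) w
  obtain ⟨hc, hcardN⟩ := places_card (F := F) N
  obtain ⟨ψ, p1, p2, p3⟩ := exists_psi hc ω hω1 w Q hQ (hst Q hQ)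
  have htow : ∀ c : 𝓞 F, algebraMap (𝓞 F) (𝓞 L) c = algebraMap (𝓞 N) (𝓞 L) (algebraMap (𝓞 F) (𝓞 N) c) :=
    fun c => RingOfIntegers.ext (IsScalarTower.algebraMap_apply F N L (c : F))
  have hmem : ∀ W : Pl L, algebraMap (𝓞 F) (𝓞 L) π ∈ W.asIdeal →
      algebraMap (𝓞 F) (𝓞 N) π ∈ (W.under (𝓞 N)).asIdeal := by
    intro W hW
    rw [htow] at hW
    exact hW
  have hone : ∀ W W' : Pl L, algebraMap (𝓞 F) (𝓞 L) π ∈ W.asIdeal → W.under (𝓞 N) = W'.under (𝓞 N) →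
      W = W' := by
    intro W W' hW hWW
    exact (tot_ram hA hp hL (W.under (𝓞 N)) (hun _ (hmem W hW)) hG).one W W' rfl hWW.symm
  have hloc : ∀ W : Pl L, algebraMap (𝓞 F) (𝓞 L) π ∈ W.asIdeal →
      ∃ (j : k →+* Kap W) (t : Lˣ), LocN j χ W t (kmk W) := fun W hW =>
    exists_locN hA hp hL h2 hG hun q hq hk χ hχ W hW
  obtain ⟨Λ, i1, i2, i3, f, hfin, f1, f2, f3⟩ := exists_Lam hp.ne_zero hcard χ hone hloc
  have hdv : ∀ x ∈ SU L w, ∀ W : Pl L, algebraMap (𝓞 F) (𝓞 L) π ∈ W.asIdeal → (l : ℤ) ∣ ord W x := by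
    intro x hx W hW
    have h3 : W.under (𝓞 N) ≠ w := by
      intro h
      apply hwπ
      rw [← h]
      exact hmem W hW
    rw [hx W h3]
    exact dvd_zero _
  have f1' : ∀ x ∈ SU L w, ∀ y ∈ SU L w, f (x * y) = f x + f y := fun x hx y hy =>
    f1 x y (hdv x hx) (hdv y hy)
  have f2' : ∀ g : Gal(L/N), ∀ x ∈ SU L w, f (guN g x) = (χ g : k) • f x := fun g x hx =>
    f2 g x (hdv x hx)
  obtain ⟨x, hx, hfx, hnx⟩ := gn_alg χ hχb ρ hρ (guN : Gal(L/N) →* Monoid.End Lˣ) (SU L w)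
    (fun g x hx => SU_act g hx) f f1' f2' (ι := Option (InfinitePlace N)) (by
      rw [Fintype.card_option, hcardN]
      omega) V hV ω hω ψ (fun i x _ y _ => p1 i x y) (fun i g x _ => p2 i g x) p3 (SU_fg w)
  have hK : ∀ g : Gal(L/N), guN g x ∈ gn11b_K w f f1' := by
    intro g
    refine ⟨SU_act g hx, ?_⟩
    rw [f2' g x hx, hfx, smul_zero]
  have hm0 : ∀ a : k, pw guN (cf χ ρ a) x ∈ gn11b_K w f f1' := by
    intro a
    unfold pw
    exact Subgroup.prod_mem _ fun g _ => Subgroup.zpow_mem _ (hK g) _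
  refine ⟨fun a => pw guN (cf χ ρ a) x, etaN_hom χ ρ x, ?_, ?_, 1, ?_⟩
  · intro a v hv
    show (l : ℤ) ∣ ord v (pw guN (cf χ ρ a) x)
    rw [(hm0 a).1 v hv]
    exact dvd_zero _
  · intro a W hW
    exact f3 _ (hdv _ (hm0 a).1) (hm0 a).2 W hW
  · intro z hz
    exact hnx z (SU_pow hl.ne_zero (hm0 1).1 hz) hz

end H13X
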