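import Mathlib
import Pool.Agent.Lib.H13X.XE
import Pool.Agent.Lib.H13X.XG
import Pool.Agent.Lib.H13X.XKB2
import Pool.Agent.Lib.H13Y.GN0
import Pool.Agent.Lib.H13Y.GN5
import Pool.Agent.Lib.H55K.K0C
import Pool.Agent.Lib.H55K.K3

/-! # H13X: the global elements over N, for points over Ω -/

open NumberField IsDedekindDomain WeierstrassCurve
open scoped Pointwise

namespace H13X

open H55P (IQ embF eF LF Per IsHecke Pt ac Inert Dec Nm Coc)
open H35P (WAB Ker tt)
open H55K (Tor ak xc yc CMA Dta GV GMod cj cj_cj mul_cj cj_prime cj_dvd cj_nat Nm_cj Nm_mul Nm_nat)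
open H55K (Fxd Lft TFld TotRam tot_ram exists_lft lft_fxd exists_abw Abw)
open H55K.S
open H55R (Pl ord es fs smulP under_smulP under_exists ord_map)
open H13S (Abv)
open H13Y (guN EqHomN)
open H99B (Lev)

section res

/-- A finite field in which every element is its own q-th power has at most q elements. -/
theorem xn4_card {κ : Type} [Field κ] [Finite κ] {q : ℕ} (hq : 2 ≤ q) (h : ∀ b : κ, b ^ q = b) : Nat.card κ ≤ q := by
  classical
  have : Fintype κ := Fintype.ofFinite κ
  let P : Polynomial κ := Polynomial.X ^ q - Polynomial.X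
  have hdeg : P.natDegree = q := by
    show (Polynomial.X ^ q - Polynomial.X : Polynomial κ).natDegree = q
    exact FiniteField.X_pow_card_sub_X_natDegree_eq κ (by omega)
  have hP : P ≠ 0 := by
    intro h0
    rw [h0, Polynomial.natDegree_zero] at hdeg
    omega
  have h1 : (Finset.univ : Finset κ).val ⊆ P.roots := by
    intro b _
    rw [Polynomial.mem_roots hP, Polynomial.IsRoot.def]
    show (Polynomial.X ^ q - Polynomial.X : Polynomial κ).eval b = 0
    rw [Polynomial.eval_sub, Polynomial.eval_pow, Polynomial.eval_X, h b, sub_self]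
  have h2 := Polynomial.card_le_degree_of_subset_roots h1
  rw [hdeg] at h2
  rwa [Nat.card_eq_fintype_card]

end res

variable {F : Type} [Field F] [NumberField F] [IQ F] {A B : F} {Om : ℂ} {Ω : Type} [Field Ω] [DecidableEq Ω]
  [Algebra F Ω] [IsAlgClosure F Ω] {j : Ω →+* ℂ} {act : 𝓞 F →+* AddMonoid.End (Pt (WAB A B) Ω)} {mo : Ideal (𝓞 F)}
  {ψ : Ideal (𝓞 F) →*₀ 𝓞 F}

variable {π : 𝓞 F} {l : ℕ} {N L : IntermediateField F Ω}

/-- The structure of an extension of N on L. -/
@[reducible] noncomputable def algNL {N L : IntermediateField F Ω} (h : N ≤ L) : Algebra N L :=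
  (IntermediateField.inclusion h).toRingHom.toAlgebra

/-- The restriction of s (over N) to L. -/
theorem exists_restr (hA : CMA F A B Om j act) (hL : IsTB act π N L) :
    letI := algNL hL.le
    ∀ s ∈ N.fixingSubgroup, ∃ g : Gal(L/N), ∀ x : L, s (x : Ω) = ((g x : L) : Ω) := by
  letI := algNL hL.le
  intro s hs
  have hs' : s⁻¹ ∈ N.fixingSubgroup := Subgroup.inv_mem _ hs
  have hmap : ∀ y : N, ((algebraMap N L y : L) : Ω) = (y : Ω) := fun _ => rfl
  refine ⟨AlgEquiv.ofBijective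
    { toFun := fun x => ⟨s (x : Ω), tb_stable hA hL s hs x⟩
      map_one' := Subtype.ext (map_one s)
      map_mul' := fun x y => Subtype.ext (map_mul s _ _)
      map_zero' := Subtype.ext (map_zero s)
      map_add' := fun x y => Subtype.ext (map_add s _ _)
      commutes' := fun y => Subtype.ext ((IntermediateField.mem_fixingSubgroup_iff N _).1 hs _ y.2) }
    ⟨fun x y hxy => ?_, fun y => ?_⟩, fun x => rfl⟩
  · have h1 : s (x : Ω) = s (y : Ω) := congrArg Subtype.val hxy
    exact Subtype.ext (s.injective h1)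
  · refine ⟨⟨s⁻¹ (y : Ω), tb_stable hA hL s⁻¹ hs' y⟩, Subtype.ext ?_⟩
    show s (s⁻¹ (y : Ω)) = y
    exact s.apply_symm_apply _

/-- L = N(E[π]) as an abstract extension. -/
theorem tfld_of_tb (hA : CMA F A B Om j act) (hL : IsTB act π N L) :
    letI := algNL hL.le
    TFld act N L π := by
  letI := algNL hL.le
  have hT : IsScalarTower F N L := IsScalarTower.of_algebraMap_eq fun x => Subtype.ext rfl
  have halg : IsAlgClosed Ω := IsAlgClosure.isAlgClosed F
  have hint : Algebra.IsAlgebraic F Ω := IsAlgClosure.isAlgebraic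
  have hch : CharZero Ω := charZero_of_injective_algebraMap (algebraMap F Ω).injective
  have hfL : FiniteDimensional F L := hL.fin
  have hfin : FiniteDimensional N L := Module.Finite.of_restrictScalars_finite F N L
  have hmem : ∀ x : Ω, (∀ s : Ω ≃ₐ[F] Ω, s ∈ L.fixingSubgroup → s x = x) → x ∈ L := fun x hx => ku2_mem L hx
  refine ⟨?_, ?_, ?_⟩
  · apply IsGalois.of_fixedField_eq_bot
    rw [eq_bot_iff]
    intro x hx
    rw [IntermediateField.mem_fixedField_iff] at hx
    have h1 : (x : Ω) ∈ N := by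
      apply ku2_mem
      intro s hs
      obtain ⟨g, hg⟩ := exists_restr hA hL s hs
      rw [hg x, hx g (Subgroup.mem_top g)]
    rw [IntermediateField.mem_bot]
    exact ⟨⟨x, h1⟩, Subtype.ext rfl⟩
  · intro T hT
    have hx : xc T ∈ L := hmem _ fun s hs => by rw [← xc_ac, ((hL.fix s).1 hs).2 T hT]
    have hy : yc T ∈ L := hmem _ fun s hs => by rw [← yc_ac, ((hL.fix s).1 hs).2 T hT]
    exact ⟨⟨xc T, hx⟩, ⟨yc T, hy⟩, rfl, rfl⟩
  · intro s hs hfix x
    have h1 : s ∈ L.fixingSubgroup := (hL.fix s).2 ⟨by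
      rw [IntermediateField.mem_fixingSubgroup_iff]
      exact fun y hy => hs ⟨y, hy⟩, hfix⟩
    exact (IntermediateField.mem_fixingSubgroup_iff L _).1 h1 x x.2

/-- The decomposition groups above w over N fix the points killed by π: Gal(L/N) acts freely on the primes of L above w. -/
theorem stab_N (hL : IsTB act π N L) [NumberField N] [NumberField L] {w : Pl N}
    (hfx : ∀ V : ValuationSubring Ω, Abv N V w → ∀ s, DecN N V s → ∀ T ∈ Tor act π, ac (WAB A B) s T = T) :
    letI := algNL hL.le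
    ∀ Q : Pl L, Q.under (𝓞 N) = w → ∀ σ : Gal(L/N), smulP σ Q = Q → σ = 1 := by
  letI := algNL hL.le
  have hT : IsScalarTower F N L := IsScalarTower.of_algebraMap_eq fun x => Subtype.ext rfl
  have hT' : IsScalarTower N L Ω := IsScalarTower.of_algebraMap_eq fun x => rfl
  intro Q hQ σ hσ
  obtain ⟨V, hV⟩ := exists_abw Ω Q
  have hVw : Abv N V w := hV.below hQ
  have hmono : ∀ s : Ω ≃ₐ[F] Ω, DecN N V s → s ∈ L.fixingSubgroup := fun s hs =>
    (hL.fix s).2 ⟨hs.1, hfx V hVw s hs⟩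
  obtain ⟨φ, hφ, hφD, hφF⟩ := exists_frobK N hVw
  set q := Ideal.absNorm w.asIdeal with hq
  have hq2 : 2 ≤ q := by
    have h1 : q ≠ 0 := by
      rw [hq, Ne, Ideal.absNorm_eq_zero_iff]
      exact w.ne_bot
    have h2 : q ≠ 1 := by
      rw [hq, Ne, Ideal.absNorm_eq_one_iff]
      exact w.isPrime.ne_top
    omega
  have hQm := Q.isMaximal
  have hQp := Q.isPrime
  have hwm := w.isMaximal
  letI : Field (𝓞 L ⧸ Q.asIdeal) := Ideal.Quotient.field Q.asIdeal
  have hfinQ : Finite (𝓞 L ⧸ Q.asIdeal) := Ideal.finiteQuotientOfFreeOfNeBot Q.asIdeal Q.ne_bot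
  have hfinw : Finite (𝓞 N ⧸ w.asIdeal) := Ideal.finiteQuotientOfFreeOfNeBot w.asIdeal w.ne_bot
  have hpow : ∀ b : 𝓞 L ⧸ Q.asIdeal, b ^ q = b := by
    intro b
    obtain ⟨y, rfl⟩ := Ideal.Quotient.mk_surjective b
    rw [← map_pow, ← sub_eq_zero, ← map_sub, Ideal.Quotient.eq_zero_iff_mem]
    have hyV : ((y : L) : Ω) ∈ V := (hV (y : L)).2 (Q.valuation_le_one y)
    have h1 := hφF _ hyV
    rw [(IntermediateField.mem_fixingSubgroup_iff L _).1 (hmono φ ⟨hφ, hφD⟩) _ (y : L).2] at h1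
    have h2 : Q.valuation L ((y - y ^ q : 𝓞 L) : L) < 1 := by
      rw [← hV.lt]
      exact h1
    have h3 := (Q.valuation_lt_one_iff_mem _).1 h2
    have e : y ^ q - y = -(y - y ^ q) := by ring
    rw [e]
    exact neg_mem h3
  have hcard := xn4_card hq2 hpow
  have hu : ∀ y : 𝓞 N, y ∈ w.asIdeal ↔ algebraMap (𝓞 N) (𝓞 L) y ∈ Q.asIdeal := by
    intro y
    rw [← hQ]
    exact Iff.rfl
  let f : (𝓞 N ⧸ w.asIdeal) →+* (𝓞 L ⧸ Q.asIdeal) :=
    Ideal.quotientMap Q.asIdeal (algebraMap (𝓞 N) (𝓞 L)) fun y hy => (hu y).1 hy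
  have hf1 : Function.Injective f := Ideal.quotientMap_injective' fun y hy => (hu y).2 hy
  have hf : Function.Bijective f := hf1.bijective_of_nat_card_le (by
    have h1 : Nat.card (𝓞 N ⧸ w.asIdeal) = q := by
      rw [hq, Ideal.absNorm_apply, Submodule.cardQuot_apply]
    rw [h1]
    exact hcard)
  have hσx : ∀ x : 𝓞 L, σ • x - x ∈ Q.asIdeal := by
    intro x
    obtain ⟨b, hb⟩ := hf.2 (Ideal.Quotient.mk Q.asIdeal x)
    obtain ⟨y, rfl⟩ := Ideal.Quotient.mk_surjective b
    have h1 : Ideal.Quotient.mk Q.asIdeal (algebraMap (𝓞 N) (𝓞 L) y) = Ideal.Quotient.mk Q.asIdeal x := hb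
    have hz : x - algebraMap (𝓞 N) (𝓞 L) y ∈ Q.asIdeal := by
      rw [← Ideal.Quotient.eq_zero_iff_mem, map_sub, h1, sub_self]
    have hsz : σ • (x - algebraMap (𝓞 N) (𝓞 L) y) ∈ Q.asIdeal := by
      have h2 : Q.asIdeal = σ • Q.asIdeal := (congrArg HeightOneSpectrum.asIdeal hσ).symm
      rw [h2]
      exact Ideal.smul_mem_pointwise_smul _ _ _ hz
    have hy : σ • algebraMap (𝓞 N) (𝓞 L) y = algebraMap (𝓞 N) (𝓞 L) y := by
      apply RingOfIntegers.ext
      exact σ.commutes (y : N)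
    have e : σ • x - x = σ • (x - algebraMap (𝓞 N) (𝓞 L) y) - (x - algebraMap (𝓞 N) (𝓞 L) y) := by
      rw [smul_sub, hy]
      ring
    rw [e]
    exact sub_mem hsz hz
  obtain ⟨s, hs, hsl⟩ := H55K.exists_inert (F := F) hV σ hσx
  have hsN : s ∈ N.fixingSubgroup := by
    rw [IntermediateField.mem_fixingSubgroup_iff]
    exact fun y hy => hsl.fxd ⟨y, hy⟩
  have hsL := hmono s ⟨hsN, Inert.dec hs⟩
  exact (lft_fxd hsl).1 fun x => (IntermediateField.mem_fixingSubgroup_iff L _).1 hsL _ x.2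

end H13X
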