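import Mathlib
import Pool.Agent.Lib.H13X.XN3
import Pool.Agent.Lib.H13X.XN4

/-! # H13X: the global elements over N (GN) -/

open NumberField IsDedekindDomain WeierstrassCurve

namespace H13X

open H55P (IQ embF eF LF Per IsHecke Pt ac Inert Dec Nm Coc)
open H35P (WAB Ker tt)
open H55K (Tor ak xc yc CMA Dta GV GMod cj cj_cj mul_cj cj_prime cj_dvd cj_nat Nm_cj Nm_mul Nm_nat)
open H55K (Fxd Lft TFld TotRam tot_ram exists_lft lft_fxd exists_abw Abw)
open H55K.S
open H55R (Pl ord es fs smulP under_smulP under_exists ord_map)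
open H13S (Abv)
open H13Y (guN EqHomN)
open H99B (Lev)

variable {F : Type} [Field F] [NumberField F] [IQ F] {A B : F} {Om : ℂ} {Ω : Type} [Field Ω] [DecidableEq Ω]
  [Algebra F Ω] [IsAlgClosure F Ω] {j : Ω →+* ℂ} {act : 𝓞 F →+* AddMonoid.End (Pt (WAB A B) Ω)} {mo : Ideal (𝓞 F)}
  {ψ : Ideal (𝓞 F) →*₀ 𝓞 F}

variable {π : 𝓞 F} {l : ℕ} {N L : IntermediateField F Ω}

/-- THE GLOBAL ELEMENTS: w is not above l, the decomposition groups above w over N fix the points killed by π. -/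
theorem exists_GN (D : Dat A B Om j act mo ψ π l) [NumberField N] [NumberField L] (hL : IsTB act π N L)
    (hU : H55P.UnrP l N) {w : HeightOneSpectrum (𝓞 N)} (hl : (l : 𝓞 N) ∉ w.asIdeal)
    (hfx : ∀ V : ValuationSubring Ω, Abv N V w → ∀ s, DecN N V s → ∀ T ∈ Tor act π, ac (WAB A B) s T = T) :
    ∃ m : Pt (WAB A B) Ω → (L)ˣ, GN act π l N L w m := by
  classical
  have hlp : Fact l.Prime := ⟨D.hl⟩
  have hA := D.cma
  have hp := D.pr
  let _ := algNL hL.le
  have hT : IsScalarTower F N L := IsScalarTower.of_algebraMap_eq fun x => Subtype.ext rfl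
  have hT' : IsScalarTower N L Ω := IsScalarTower.of_algebraMap_eq fun x => rfl
  have hTF := tfld_of_tb hA hL
  have hrestr := exists_restr hA hL
  have hst := stab_N hL hfx
  have hgal : IsGalois N L := hTF.gal
  have hmax : (Ideal.span {π}).IsMaximal := by
    have h1 : (Ideal.span {π}).IsPrime := (Ideal.span_singleton_prime hp.ne_zero).2 hp
    exact h1.isMaximal (by rw [Ne, Ideal.span_singleton_eq_bot]; exact hp.ne_zero)
  have hb : Ideal.span {π} ≠ ⊥ := by
    rw [Ne, Ideal.span_singleton_eq_bot]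
    exact hp.ne_zero
  let k := 𝓞 F ⧸ Ideal.span {π}
  letI ik : Field k := Ideal.Quotient.field (Ideal.span {π})
  have hfin : Finite k := Ideal.finiteQuotientOfFreeOfNeBot _ hb
  letI : Fintype k := Fintype.ofFinite k
  let q : 𝓞 F →+* k := Ideal.Quotient.mk (Ideal.span {π})
  have hq : Function.Surjective q := Ideal.Quotient.mk_surjective
  have hk : ∀ x, q x = 0 ↔ π ∣ x := fun x => by
    rw [Ideal.Quotient.eq_zero_iff_mem, Ideal.mem_span_singleton]
  have hchar : CharP k l := by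
    have h1 : ((l : ℕ) : k) = 0 := by
      have h2 := (hk (l : 𝓞 F)).2 D.dvd
      rw [map_natCast] at h2
      exact h2
    obtain ⟨p, hp⟩ := CharP.exists k
    have h2 : p ∣ l := (CharP.cast_eq_zero_iff k p l).1 h1
    rcases (Nat.dvd_prime D.hl).1 h2 with h3 | h3
    · exfalso
      subst h3
      have h4 : ((1 : ℕ) : k) = 0 := (CharP.cast_eq_zero_iff k 1 1).2 (dvd_refl 1)
      rw [Nat.cast_one] at h4
      exact one_ne_zero h4
    · rw [← h3]
      exact hp
  obtain ⟨χ, hχi, hχ⟩ := H55K.exists_chi hA hp hTF q hq hk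
  obtain ⟨T₀, hT₀, h0⟩ := H55K.exists_tor hA hp
  have hwπ : algebraMap (𝓞 F) (𝓞 N) π ∉ w.asIdeal := by
    intro h
    apply hl
    obtain ⟨c, hc⟩ := D.dvd
    have h1 := congrArg (algebraMap (𝓞 F) (𝓞 N)) hc
    rw [map_natCast, map_mul] at h1
    rw [h1]
    exact w.asIdeal.mul_mem_right _ h
  have hG : ∀ V : ValuationSubring Ω, V.valuation (ak Ω π) < 1 → GV A B V := by
    intro V hV
    have hVl : V.valuation (l : Ω) < 1 := by
      obtain ⟨c, hc⟩ := D.dvd
      have h1 : vo V (l : 𝓞 F) = vo V π * vo V c := by rw [hc, vo_mul]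
      rw [← vo_nat (F := F), h1]
      exact lt_of_le_of_lt (mul_le_of_le_one_right' (vo_le V c)) hV
    exact D.dta.good V hVl
  obtain ⟨m₀, hm, hm1, hm2, a0, hm3⟩ := glob_N hA D.five hp hTF hG
    (fun v hv => unr_val D.hl.ne_zero D.dvd hU v hv) q hq hk χ hχi hχ w hwπ hst
  have hmem : ∀ (c : 𝓞 F) (v : Pl L), v.valuation L (algebraMap F L (c : F)) < 1 →
      algebraMap (𝓞 F) (𝓞 L) c ∈ v.asIdeal := by
    intro c v hv
    have h1 : algebraMap F L (c : F) = algebraMap (𝓞 L) L (algebraMap (𝓞 F) (𝓞 L) c) := rfl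
    rw [h1, HeightOneSpectrum.valuation_lt_one_iff_mem] at hv
    exact hv
  have hact0 : ∀ c c' : 𝓞 F, act c T₀ = act c' T₀ → q c = q c' := by
    intro c c' h
    have h1 : act (c - c') T₀ = 0 := by rw [H55K.k2a_sub, h, sub_self]
    rw [H55K.tor_zero hA hp hT₀ h0, ← hk, map_sub, sub_eq_zero] at h1
    exact h1
  have hex : ∀ T : Pt (WAB A B) Ω, ∃ c : 𝓞 F, T ∈ Tor act π → act c T₀ = T := by
    intro T
    by_cases hT : T ∈ Tor act π
    · obtain ⟨c, hc⟩ := H55K.tor_gen hA hp hT₀ hT h0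
      exact ⟨c, fun _ => hc⟩
    · exact ⟨0, fun h => absurd h hT⟩
  choose cc hcc using hex
  have hP : ∀ c : 𝓞 F, act c T₀ ∈ Tor act π := fun c => H55K.tor_act c hT₀
  have hdet : ∀ (c : 𝓞 F), q (cc (act c T₀)) = q c := by
    intro c
    exact hact0 _ _ (hcc _ (hP c))
  refine ⟨fun T => m₀ (q (cc T)), ⟨?_, ?_, ?_, ?_, ?_⟩⟩
  · intro T hT T' hT'
    have h2 : q (cc (T + T')) = q (cc T) + q (cc T') := by
      rw [← map_add, ← hdet (cc T + cc T')]
      congr 2
      rw [H55K.k2a_add, hcc T hT, hcc T' hT']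
    show ∃ z, m₀ (q (cc (T + T'))) = _
    rw [h2]
    exact hm.add _ _
  · intro σ hσ T hT
    obtain ⟨s, hs⟩ := hrestr σ hσ
    obtain ⟨c, hc⟩ := hq (χ s : k)
    have h2 : ac (WAB A B) σ T = act (c * cc T) T₀ := by
      rw [H55K.k2a_mul, hcc T hT]
      exact hχ s σ c (fun x => hs x) hc T hT
    have h3 : q (cc (ac (WAB A B) σ T)) = χ s * q (cc T) := by
      rw [h2, hdet, map_mul, hc]
    obtain ⟨z, hz⟩ := hm.equiv s (q (cc T))
    refine ⟨z, ?_⟩
    show ((m₀ (q (cc (ac (WAB A B) σ T))) : L) : Ω) = _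
    rw [h3, hz, hs]
    rfl
  · intro T hT V W hVW hVw
    refine hm1 _ W fun hWw => hVw ?_
    have h1 : Abw V W := hVW
    exact h1.below hWw
  · intro T hT v hv
    exact hm2 _ v (hmem π v hv)
  · obtain ⟨c, hc⟩ := hq a0
    refine ⟨act c T₀, hP c, ?_⟩
    intro z
    show m₀ (q (cc (act c T₀))) ≠ z ^ l
    rw [hdet, hc]
    exact hm3 z

end H13X
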