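import Mathlib
import Pool.Agent.Lib.H13X.XG1
import Pool.Agent.Lib.H13X.XG3
import Pool.Agent.Lib.H13X.XN5
import Pool.Agent.Lib.H13X.XNB
import Pool.Agent.Lib.H13X.XT
import Pool.Agent.Lib.H13Y.G4
import Pool.Agent.Lib.H13Y.GT
import Pool.Agent.Lib.H55P.I4

/-! # H13X: one step of degree l, and the chain -/

open NumberField IsDedekindDomain WeierstrassCurve

namespace H13X

open H55P (IQ embF eF LF Per IsHecke Pt ac Inert Dec Nm Coc PExt UnrP Ram RamF)
open H35P (WAB Ker tt)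
open H55K (Tor ak xc yc CMA Dta GV GMod cj cj_cj mul_cj cj_prime cj_dvd cj_nat Nm_cj Nm_mul Nm_nat)
open H55K (Abw exists_abw)
open H55K.S
open H55R (Pl)
open H13S (Abv)
open H13Z (SelNon)

variable {F : Type} [Field F] [NumberField F] [IQ F] {A B : F} {Om : ℂ} {Ω : Type} [Field Ω] [DecidableEq Ω]
  [Algebra F Ω] [IsAlgClosure F Ω] {j : Ω →+* ℂ} {act : 𝓞 F →+* AddMonoid.End (Pt (WAB A B) Ω)} {mo : Ideal (𝓞 F)}
  {ψ : Ideal (𝓞 F) →*₀ 𝓞 F} {π : 𝓞 F} {l : ℕ}

/-- Inertia above a prime element β above l moves all points killed by β. -/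
theorem xs_moved (D : Dat A B Om j act mo ψ π l) {K : IntermediateField F Ω} (hK : Nb l K) {β : 𝓞 F} (hβ : Prime β)
    (hd : β ∣ (l : 𝓞 F)) {T : Pt (WAB A B) Ω} (hT : T ∈ Tor act β)
    (h : ∀ s ∈ K.fixingSubgroup, ac (WAB A B) s T = T) : T = 0 := by
  have hp : (Ideal.span {β}).IsPrime := (Ideal.span_singleton_prime hβ.ne_zero).2 hβ
  let v : Pl F := ⟨Ideal.span {β}, hp, by rw [Ne, Ideal.span_singleton_eq_bot]; exact hβ.ne_zero⟩
  obtain ⟨V, hV⟩ := exists_abw Ω v
  have hVβ : vo V β < 1 := by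
    have h1 := (hV.lt (β : F)).2 ((v.valuation_lt_one_iff_mem β).2 (Ideal.mem_span_singleton_self β))
    exact h1
  have hVl : V.valuation (l : Ω) < 1 := by
    obtain ⟨c, hc⟩ := hd
    have h1 : vo V (l : 𝓞 F) = vo V β * vo V c := by rw [hc, vo_mul]
    rw [← vo_nat (F := F), h1]
    exact lt_of_le_of_lt (mul_le_of_le_one_right' (vo_le V c)) hVβ
  have hN := H55K.k10_arith D.hl D.five hβ hd
  obtain ⟨s, hs, hs'⟩ := moved_ram D.cma (D.dta.good V hVl) hβ (by omega) hVβ
  exact hs' T hT (h s (hK.inert V hVl s hs))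

/-- Points killed by l and fixed by the group of K are zero. -/
theorem no_tors (D : Dat A B Om j act mo ψ π l) {K : IntermediateField F Ω} (hK : Nb l K) {R : Pt (WAB A B) Ω}
    (hR : l • R = 0) (h : ∀ s ∈ K.fixingSubgroup, ac (WAB A B) s R = R) : R = 0 := by
  have hlR : act (l : 𝓞 F) R = 0 := by rw [act_nat (act := act), hR]
  rcases dichotomy D.hl D.dta.unr D.pr D.dvd with ⟨-, -, h3⟩ | ⟨-, -, -, hll⟩
  · refine xs_moved D hK D.pr D.dvd ?_ h
    rw [← tor_assoc h3]
    exact hlR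
  · have hd' : cj π ∣ (l : 𝓞 F) := by rw [cj_dvd, cj_nat]; exact D.dvd
    have h1 : act (cj π) R = 0 := by
      refine xs_moved D hK D.pr D.dvd ?_ fun s hs => ?_
      · rw [mem_Tor, ← act_mul, hll]
        exact hlR
      · rw [ac_act D.cma, h s hs]
    exact xs_moved D hK (cj_prime D.pr) hd' h1 h

/-- One step. -/
theorem sel_step (D : Dat A B Om j act mo ψ π l) {N N' L₀ : IntermediateField F Ω} [NumberField N] [NumberField N']
    [NumberField L₀] (hL : PExt l ⊥ L₀) (hU : UnrP l L₀) (hNN : N ≤ N') (hNL : N' ≤ L₀)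
    (hn : ∀ s ∈ N.fixingSubgroup, ∀ x ∈ N', s x ∈ N')
    (hd : Module.finrank F N' = Module.finrank F N * l) {w : HeightOneSpectrum (𝓞 N)}
    (hlw : (l : 𝓞 N) ∉ w.asIdeal) (hr : Ram N N' w.asIdeal)
    (hfx : ∀ V : ValuationSubring Ω, Abv N V w → ∀ s, DecN N V s → ∀ T ∈ Tor act π, ac (WAB A B) s T = T) :
    SelNon (WAB A B) l N' := by
  have hL₀f : FiniteDimensional F L₀ := hL.fin
  have hN'f : FiniteDimensional F N' := H55P.finDim_of_le hNL
  have hNf : FiniteDimensional F N := H55P.finDim_of_le (hNN.trans hNL)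
  have hN : Nb l N := nb_of D.hl hL (hNN.trans hNL) hU
  have hN' : Nb l N' := nb_of D.hl hL hNL hU
  have hUN : UnrP l N := by
    letI : Algebra N L₀ := (IntermediateField.inclusion (hNN.trans hNL)).toRingHom.toAlgebra
    exact H55P.UnrP.down N L₀ l D.hl hU
  obtain ⟨L, hLT⟩ := exists_TB D.cma π D.pr N
  have hLf : FiniteDimensional F L := hLT.fin
  have hLn : NumberField L := NumberField.of_module_finite F L
  obtain ⟨m, hm⟩ := exists_GN D hLT hUN hlw hfx
  obtain ⟨e, he⟩ := exists_pairing π l D.dta D.pr D.dvd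
  obtain ⟨c, y, G⟩ := exists_gl D he hN hLT hlw hfx hm
  have hmono : ∀ s ∈ N'.fixingSubgroup, s ∈ N.fixingSubgroup := fun s hs =>
    IntermediateField.fixingSubgroup_antitone hNN hs
  refine ⟨c, ⟨fun s hs t ht => G.cc.mul s (hmono s hs) t (hmono t ht), ?_⟩, fun s hs =>
    lcb_l D (G.cc.val s (hmono s hs)), fun V hV => ?_, ?_⟩
  · obtain ⟨M, hM, h2⟩ := G.cc.cont
    exact ⟨M, hM, fun s hs hsM => h2 s (hmono s hs) hsM⟩
  · exact G.local he hNN (fun V hV a ha h0 => H13Y.ram_step D.hl hNN hn hd hr hV ha h0) hV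
  · rintro ⟨T, hT, h⟩
    refine G.not_cob he ⟨T, hT, ?_⟩
    exact H13Y.cob_down (WAB A B) l hNN hn (fun R hR hfix => no_tors D hN' hR hfix)
      G.cc.mul (fun s hs => lcb_l D (G.cc.val s hs)) hT h

omit [IsAlgClosure F Ω] [IQ F] in
/-- v₀ unramified in N and ramified in K: some prime w of N above v₀ is ramified in K. -/
theorem ram_up {N K : IntermediateField F Ω}
    [NumberField N] [NumberField K] (hNK : N ≤ K) (v₀ : HeightOneSpectrum (𝓞 F)) (hK : RamF K v₀.asIdeal)
    (hN : ¬ RamF N v₀.asIdeal) : ∃ w : HeightOneSpectrum (𝓞 N),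
      w.asIdeal.under (𝓞 F) = v₀.asIdeal ∧ Ram N K w.asIdeal := by
  obtain ⟨W, hWp, hW⟩ := hK
  letI : Algebra N K := (IntermediateField.inclusion hNK).toRingHom.toAlgebra
  have t1 : IsScalarTower F N K := IsScalarTower.of_algebraMap_eq fun x => rfl
  rw [Ideal.map_le_iff_le_comap] at hW
  obtain ⟨w, hw1, hw2, h | h⟩ := H55P.i3_tower (M := F) (N := N) (K := K) v₀ W fun x hx => hW hx
  · exact absurd ⟨w.asIdeal, w.isPrime, by
      rw [Ideal.map_le_iff_le_comap]
      exact fun x hx => h x hx⟩ hN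
  · refine ⟨w, hw2, W, hWp, fun x y hx hxy => ?_⟩
    have hl : W.LiesOver w.asIdeal := ⟨hw1.symm⟩
    have h2 := H55P.s13_le_sq w.asIdeal w.ne_bot W h x hx
    have h3 : y = algebraMap (𝓞 N) (𝓞 K) x := by
      apply RingOfIntegers.ext
      apply Subtype.ext
      exact hxy
    rw [h3]
    exact h2

/-- THEOREM X: v₀ is not above l and ramified in K, and the decomposition group of V₀ above v₀ fixes the points killed by π. -/
theorem x_core (D : Dat A B Om j act mo ψ π l) {L₀ : IntermediateField F Ω} [NumberField L₀] (hL : PExt l ⊥ L₀)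
    (hU : UnrP l L₀) (K : IntermediateField F Ω) [NumberField K] (hKL : K ≤ L₀) {v₀ : HeightOneSpectrum (𝓞 F)}
    (hr : RamF K v₀.asIdeal) (hl : (l : 𝓞 F) ∉ v₀.asIdeal) {V₀ : ValuationSubring Ω} (hV₀ : Abw V₀ v₀)
    (hfx : ∀ s, Dec V₀ s → ∀ T ∈ Tor act π, ac (WAB A B) s T = T) : SelNon (WAB A B) l K := by
  have hL₀f : FiniteDimensional F L₀ := hL.fin
  have hcl0 : IsAlgClosed Ω := IsAlgClosure.isAlgClosed F
  have hal0 : Algebra.IsAlgebraic F Ω := IsAlgClosure.isAlgebraic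
  have hc0 : CharZero Ω := charZero_of_injective_algebraMap (algebraMap F Ω).injective
  have hbn : NumberField (⊥ : IntermediateField F Ω) := NumberField.of_module_finite F _
  obtain ⟨n, hn⟩ : ∃ n, Module.finrank F K = n := ⟨_, rfl⟩
  induction n using Nat.strong_induction_on generalizing K with
  | _ n ih =>
    have hKf : FiniteDimensional F K := H55P.finDim_of_le hKL
    have hne : K ≠ ⊥ := by
      rintro rfl
      obtain ⟨v, -, h2, -⟩ := H55P.bot_conv' (⟨0, 0, 0, 0, 0⟩ : WeierstrassCurve (𝓞 F)) (⊥ : IntermediateField F Ω) v₀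
      exact H55P.ram_self _ v (h2 hr)
    obtain ⟨N, -, hNK, hd, hnorm⟩ := H55P.chain_step l D.hl ⊥ K L₀ hL bot_le hKL hne
    have hNf : FiniteDimensional F N := H55P.finDim_of_le hNK
    have hNn : NumberField N := NumberField.of_module_finite F N
    have hlt : Module.finrank F N < n := by
      have h0 : 0 < Module.finrank F N := Module.finrank_pos
      have h2 := D.hl.two_le
      rw [← hn, hd]
      nlinarith
    have hKN : Nb l K := nb_of D.hl hL hKL hU
    by_cases hrN : RamF N v₀.asIdeal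
    · exact H13Y.non_up (WAB A B) l hNK hnorm (fun R hR hfix => no_tors D hKN hR hfix)
        (ih _ hlt N (hNK.trans hKL) hrN rfl)
    · obtain ⟨w, hw, hram⟩ := ram_up hNK v₀ hr hrN
      have hlw : (l : 𝓞 N) ∉ w.asIdeal := by
        intro h
        apply hl
        rw [← hw, Ideal.mem_under, map_natCast]
        exact h
      refine sel_step D hL hU hNK hKL hnorm hd hlw hram fun V hV s hs T hT => ?_
      have hVv : Abw V v₀ := by
        have h1 : Abw V w := hV
        exact h1.below (K := F) (HeightOneSpectrum.ext hw)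
      obtain ⟨σ, hσ⟩ := trans_F hV₀ hVv
      have hD : Dec V₀ (σ⁻¹ * s * σ) := by
        intro x
        have h1 := hσ (σ⁻¹ (s (σ x)))
        have h2 : σ (σ⁻¹ (s (σ x))) = s (σ x) := σ.apply_symm_apply _
        rw [h2] at h1
        exact h1.symm.trans ((hs.2 (σ x)).trans (hσ x))
      have h3 := hfx _ hD (ac (WAB A B) σ⁻¹ T) (ac_mem D.cma σ⁻¹ hT)
      rw [← ac_mul, show σ⁻¹ * s * σ * σ⁻¹ = σ⁻¹ * s by group, ac_mul] at h3
      have h4 := congrArg (ac (WAB A B) σ) h3
      have h5 : ∀ P, ac (WAB A B) σ (ac (WAB A B) σ⁻¹ P) = P := fun P => by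
        rw [← ac_mul, mul_inv_cancel, ac_one]
      rwa [h5, h5] at h4

end H13X
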