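import Mathlib
import Pool.Agent.Lib.H13X.XLK
import Pool.Agent.Lib.H13X.XS
import Pool.Agent.Lib.H55K.BH1
import Pool.Agent.Lib.H55K.MM
import Pool.Agent.Lib.H55K.Y6

/-! # H13X: a bad ramified prime gives a nonzero Selmer class, for all curves with complex multiplication -/

open NumberField IsDedekindDomain WeierstrassCurve

namespace H13X

open H55P (IQ embF eF LF Per IsHecke Pt ac Inert Dec Nm Coc PExt UnrP Ram RamF pt8_norm)
open H35P (WAB Ker tt)
open H55K (Tor ak xc yc CMA Dta GV GMod cj cj_cj mul_cj cj_prime cj_dvd cj_nat Nm_cj Nm_mul Nm_nat)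
open H55K (Abw exists_abw)
open H55K.S
open H55R (Pl)
open H13S (Abv)
open H13Z (SelNon)
open H55K.TQ (BaseH PrimeH NoAn)

section away

variable {F : Type} [Field F] [NumberField F] [IQ F] {Ω : Type} [Field Ω] [DecidableEq Ω] [Algebra F Ω]
  [IsAlgClosure F Ω]

omit [IQ F] [DecidableEq Ω] [IsAlgClosure F Ω] in
theorem xf_small {p q n : ℕ} (hp : p.Prime) (h5 : 5 ≤ p) (hq : q = 2 ∨ q = 3) (hn : n ≠ 1) (hd : n ∣ q ^ 2) (h : p ∣ n - 1) :
    False := by
  rcases hq with rfl | rfl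
  · obtain ⟨k, hk, rfl⟩ := (Nat.dvd_prime_pow Nat.prime_two).1 hd
    have hk0 : k ≠ 0 := by rintro rfl; exact hn rfl
    have : k = 1 ∨ k = 2 := by omega
    rcases this with rfl | rfl
    · have := Nat.le_of_dvd (by norm_num) h
      omega
    · have := Nat.le_of_dvd (by norm_num) h
      omega
  · obtain ⟨k, hk, rfl⟩ := (Nat.dvd_prime_pow Nat.prime_three).1 hd
    have hk0 : k ≠ 0 := by rintro rfl; exact hn rfl
    have : k = 1 ∨ k = 2 := by omega
    rcases this with rfl | rfl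
    · have := Nat.le_of_dvd (by norm_num) h
      omega
    · have h8 : p ∣ 2 ^ 3 := by simpa using h
      have := (Nat.prime_dvd_prime_iff_eq hp Nat.prime_two).1 (hp.dvd_of_dvd_pow h8)
      omega

/-- A prime which is ramified in a subfield K of a p-extension is prime to 6 and to p if p is unramified. -/
theorem xf_away {p : ℕ} (hp : p.Prime) (h5 : 5 ≤ p) {L K : IntermediateField F Ω} [NumberField L] [NumberField K]
    (hL : PExt p ⊥ L) (hU : UnrP p L) (hKL : K ≤ L) (v₀ : HeightOneSpectrum (𝓞 F)) (hr : RamF K v₀.asIdeal) :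
    (2 : 𝓞 F) ∉ v₀.asIdeal ∧ (3 : 𝓞 F) ∉ v₀.asIdeal ∧ (p : 𝓞 F) ∉ v₀.asIdeal := by
  have hcl0 : IsAlgClosed Ω := IsAlgClosure.isAlgClosed F
  have hal0 : Algebra.IsAlgebraic F Ω := IsAlgClosure.isAlgebraic
  have hc0 : CharZero Ω := charZero_of_injective_algebraMap (algebraMap F Ω).injective
  have hbn : NumberField (⊥ : IntermediateField F Ω) := NumberField.of_module_finite F _
  have hUK : UnrP p K := by
    let _ : Algebra K L := (IntermediateField.inclusion hKL).toAlgebra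
    exact H55P.UnrP.down K L p hp hU
  obtain ⟨v, h1⟩ := H55K.y9_up (F := F) (Ω := Ω) v₀
  have hram := (H55K.y9_ram h1 K).2 hr
  have hn := H55P.ram_norm p hp ⊥ L hL K bot_le hKL hUK v hram
  have hnorm : Ideal.absNorm v.asIdeal = Ideal.absNorm v₀.asIdeal := by
    rw [← Ideal.absNorm_relNorm (𝓞 F) (𝓞 (⊥ : IntermediateField F Ω)) v.asIdeal, H55K.y9_norm h1]
  rw [hnorm] at hn
  have hne : Ideal.absNorm v₀.asIdeal ≠ 1 := by
    rw [Ne, Ideal.absNorm_eq_one_iff]
    exact v₀.isPrime.ne_top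
  have hdvd : ∀ q : ℕ, (q : 𝓞 F) ∈ v₀.asIdeal → Ideal.absNorm v₀.asIdeal ∣ q ^ 2 := by
    intro q hq
    have h2 : Ideal.absNorm (Ideal.span {(q : 𝓞 F)}) = q ^ 2 := Nm_nat q
    rw [← h2]
    apply map_dvd
    rw [Ideal.dvd_iff_le, Ideal.span_singleton_le_iff_mem]
    exact hq
  refine ⟨fun h => ?_, fun h => ?_, H55K.y9_unr K hUK hr⟩
  · exact xf_small hp h5 (Or.inl rfl) hne (hdvd 2 (by exact_mod_cast h)) hn
  · exact xf_small hp h5 (Or.inr rfl) hne (hdvd 3 (by exact_mod_cast h)) hn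

end away

section transport

variable {F : Type} [Field F] [NumberField F] [IQ F]

omit [NumberField F] [IQ F] in
theorem xf_transport {Ω : Type} [Field Ω] [DecidableEq Ω] [Algebra F Ω] {W W' : WeierstrassCurve F} (p : ℕ)
    (K : IntermediateField F Ω) (φ : Pt W Ω ≃+ Pt W' Ω) (hφ : ∀ s P, φ (ac W s P) = ac W' s (φ P))
    (h : SelNon W' p K) : SelNon W p K := by
  obtain ⟨c, hc, hp, hV, hn⟩ := h
  have hφ' : ∀ s P, φ.symm (ac W' s P) = ac W s (φ.symm P) := by
    intro s P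
    apply φ.injective
    rw [hφ, φ.apply_symm_apply, φ.apply_symm_apply]
  refine ⟨fun s => φ.symm (c s), ⟨?_, ?_⟩, fun s hs => ?_, fun V hVt => ?_, ?_⟩
  · intro s hs t ht
    show φ.symm (c (s * t)) = φ.symm (c s) + ac W s (φ.symm (c t))
    rw [hc.mul s hs t ht, map_add, hφ']
  · obtain ⟨L, hL, hL2⟩ := hc.cont
    refine ⟨L, hL, fun s hs hs2 => ?_⟩
    show φ.symm (c s) = 0
    rw [hL2 s hs hs2, map_zero]
  · show p • φ.symm (c s) = 0
    rw [← map_nsmul, hp s hs, map_zero]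
  · obtain ⟨P, hP⟩ := hV V hVt
    refine ⟨φ.symm P, fun s hs hI => ?_⟩
    show φ.symm (c s) = ac W s (φ.symm P) - φ.symm P
    rw [hP s hs hI, map_sub, hφ']
  · rintro ⟨T, hT1, hT2⟩
    refine hn ⟨φ T, by rw [← map_nsmul, hT1, map_zero], fun s hs => ?_⟩
    have h1 : φ.symm (c s) = ac W s T - T := hT2 s hs
    rw [← hφ, ← map_sub, ← h1, φ.apply_symm_apply]

theorem xf_short {F : Type} [Field F] [NumberField F] (W₀ : WeierstrassCurve (𝓞 F)) {A B : F}
    (hA : A = -(algebraMap (𝓞 F) F W₀.c₄) / 48) (hB : B = -(algebraMap (𝓞 F) F W₀.c₆) / 864)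
    (hΔ : W₀.Δ ≠ 0) {Ω : Type} [Field Ω] [DecidableEq Ω] [Algebra F Ω] (p : ℕ) (K : IntermediateField F Ω)
    (h : SelNon (WAB A B) p K) : SelNon (W₀⁄F) p K := by
  obtain ⟨W, hW⟩ : ∃ W : WeierstrassCurve F, W = (W₀⁄F) := ⟨_, rfl⟩
  have hc4 : W.c₄ = algebraMap (𝓞 F) F W₀.c₄ := by
    rw [hW]
    exact W₀.map_c₄ (algebraMap (𝓞 F) F)
  have hc6 : W.c₆ = algebraMap (𝓞 F) F W₀.c₆ := by
    rw [hW]
    exact W₀.map_c₆ (algebraMap (𝓞 F) F)
  have hWΔ : W.Δ ≠ 0 := by
    rw [hW]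
    intro h0
    apply hΔ
    have h1 : (W₀⁄F).Δ = algebraMap (𝓞 F) F W₀.Δ := W₀.map_Δ (algebraMap (𝓞 F) F)
    rw [h1] at h0
    exact (map_eq_zero_iff _ (IsFractionRing.injective (𝓞 F) F)).1 h0
  rw [← hc4] at hA
  rw [← hc6] at hB
  have D : H55P.PS4_D W (WAB A B) ((W.a₂ + (W.a₁ / 2) ^ 2) / 3) (W.a₁ / 2) (W.a₃ / 2) := by
    refine ⟨rfl, rfl, rfl, ?_, ?_, ?_, ?_, ?_⟩
    · field_simp
    · field_simp
    · field_simp
    · show A = _
      rw [hA, WeierstrassCurve.c₄, WeierstrassCurve.b₂, WeierstrassCurve.b₄]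
      ring
    · show B = _ - A * _
      rw [hB, hA, WeierstrassCurve.c₄, WeierstrassCurve.c₆, WeierstrassCurve.b₂, WeierstrassCurve.b₄, WeierstrassCurve.b₆]
      ring
  have hd := H55K.y6_delta D
  have i1 : W.IsElliptic := ⟨isUnit_iff_ne_zero.2 hWΔ⟩
  have i2 : (WAB A B).IsElliptic := ⟨isUnit_iff_ne_zero.2 (by rw [hd]; exact hWΔ)⟩
  have i3 : (W⁄Ω).IsElliptic := inferInstanceAs (W.map (algebraMap F Ω)).IsElliptic
  have i4 : ((WAB A B)⁄Ω).IsElliptic := inferInstanceAs ((WAB A B).map (algebraMap F Ω)).IsElliptic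
  rw [← hW]
  refine xf_transport p K (H55P.PS4_iso (H55P.PS4_map (Ω := Ω) D)) ?_ h
  intro f P
  rcases P with _ | ⟨x, y, h'⟩
  · rfl
  · have e1 : f (algebraMap F Ω ((W.a₂ + (W.a₁ / 2) ^ 2) / 3)) = algebraMap F Ω ((W.a₂ + (W.a₁ / 2) ^ 2) / 3) :=
      f.commutes _
    have e2 : f (algebraMap F Ω (W.a₁ / 2)) = algebraMap F Ω (W.a₁ / 2) := f.commutes _
    have e3 : f (algebraMap F Ω (W.a₃ / 2)) = algebraMap F Ω (W.a₃ / 2) := f.commutes _
    change Affine.Point.some _ _ _ = Affine.Point.some _ _ _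
    rw [Affine.Point.some.injEq]
    constructor
    · change f x + algebraMap F Ω ((W.a₂ + (W.a₁ / 2) ^ 2) / 3) = f (x + algebraMap F Ω ((W.a₂ + (W.a₁ / 2) ^ 2) / 3))
      rw [map_add, e1]
    · change f y + algebraMap F Ω (W.a₁ / 2) * f x + algebraMap F Ω (W.a₃ / 2) =
        f (y + algebraMap F Ω (W.a₁ / 2) * x + algebraMap F Ω (W.a₃ / 2))
      rw [map_add, map_add, map_mul, e2, e3]

/-- A nonzero class of the classical Selmer group: the group defined by the inertia conditions is not zero. -/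
theorem xf_zero {Ω : Type} [Field Ω] [DecidableEq Ω] [Algebra F Ω] {W : WeierstrassCurve F} {p : ℕ}
    {K : IntermediateField F Ω} (h : SelNon W p K) : ¬ H55P.SelZero W p K := by
  obtain ⟨c, hc, hp, hV, hn⟩ := h
  intro h0
  apply hn
  refine h0 c hc hp fun V => ?_
  by_cases hVt : V = ⊤
  · subst hVt
    refine ⟨0, fun s hs hI => ?_⟩
    have h1 : s = 1 := by
      apply AlgEquiv.ext
      intro x
      have h2 := hI x (ValuationSubring.mem_top x)
      by_contra hne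
      have h3 : s x - x ≠ 0 := sub_ne_zero.2 hne
      have h4 : (⊤ : ValuationSubring Ω).valuation (s x - x)⁻¹ ≤ 1 :=
        (ValuationSubring.valuation_le_one_iff _ _).2 (ValuationSubring.mem_top _)
      rw [map_inv₀, inv_le_one₀ (zero_lt_iff.2 ((map_ne_zero _).2 h3))] at h4
      exact absurd h2 (not_lt.2 h4)
    have h2 := hc.mul 1 (one_mem _) 1 (one_mem _)
    rw [mul_one, H55K.S.ac_one] at h2
    rw [h1, left_eq_add.1 h2, map_zero, sub_zero]
  · obtain ⟨P, hP⟩ := hV V hVt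
    exact ⟨P, fun s hs hI => hP s hs (Inert.dec hI)⟩

end transport

section main

variable {F : Type} [Field F] [NumberField F] [IQ F] {W₀ : WeierstrassCurve (𝓞 F)} {Om : ℂ}
    {m : Ideal (𝓞 F)} {ψ : Ideal (𝓞 F) →*₀ 𝓞 F} {p : ℕ}

open Classical in
/-- THEOREM X for all curves with complex multiplication. If some prime v of F not dividing the discriminant, at which the number of points is divisible by p, is
ramified in K then the classical p-Selmer group over K is not zero. -/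
theorem nonsel (hH : BaseH F W₀ Om m ψ) (hp : PrimeH F W₀ p) {L K : IntermediateField F (AlgebraicClosure F)}
    [NumberField L] [NumberField K] (hL : PExt p ⊥ L) (hU : UnrP p L) (hKL : K ≤ L) (hN : ¬ NoAn p W₀ K) :
    SelNon (W₀⁄F) p K := by
  obtain ⟨v₀, hr, hΔ, hpts⟩ : ∃ v₀ : HeightOneSpectrum (𝓞 F), RamF K v₀.asIdeal ∧ W₀.Δ ∉ v₀.asIdeal ∧
      p ∣ Nat.card (W₀⁄(𝓞 F ⧸ v₀.asIdeal)).toAffine.Point := by
    unfold NoAn at hN
    push Not at hN
    exact hN
  have hB := H55K.TQ.base_of hH hp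
  obtain ⟨j, hj⟩ := H55K.exists_j F (AlgebraicClosure F)
  obtain ⟨A, hA⟩ : ∃ A : F, A = -(algebraMap (𝓞 F) F W₀.c₄) / 48 := ⟨_, rfl⟩
  obtain ⟨B, hB'⟩ : ∃ B : F, B = -(algebraMap (𝓞 F) F W₀.c₆) / 864 := ⟨_, rfl⟩
  have hd := H55K.y3_ne W₀ hA hB' hB.data.ell
  have hper : Per F (embF F A) (embF F B) Om := by
    have e1 : embF F A = -(eF F W₀.c₄) / 48 := by
      rw [hA, map_div₀, map_neg, map_ofNat]
      rfl
    have e2 : embF F B = -(eF F W₀.c₆) / 864 := by
      rw [hB', map_div₀, map_neg, map_ofNat]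
      rfl
    rw [e1, e2]
    exact hB.data.per
  obtain ⟨act, hact⟩ := H55K.exists_CMA F A B Om j hd hper hj
  have hG : ∀ V : ValuationSubring (AlgebraicClosure F),
      ∃ (Kg : AddSubgroup (Pt (WAB A B) (AlgebraicClosure F))) (u : AlgebraicClosure F),
        GMod (WAB A B) V Kg u := fun V => H55K.exists_gmod hd (H55K.y3_j W₀ hA hB' hB.jint) V
  have hD : Dta A B Om j act m ψ p := H55K.mk_Dta hB hA hB' hact hG
  obtain ⟨h2, h3, hpv⟩ := xf_away hp.prime hp.five hL hU hKL v₀ hr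
  obtain ⟨V, hV⟩ := exists_abw (AlgebraicClosure F) v₀
  have hGV : GV A B V := by
    refine lk_gv W₀ hA hB' ?_ ?_ (lk_one hV hΔ)
    · have := lk_one hV (x := ((2 : ℕ) : 𝓞 F)) (by exact_mod_cast h2)
      rw [vo_nat] at this
      exact_mod_cast this
    · have := lk_one hV (x := ((3 : ℕ) : 𝓞 F)) (by exact_mod_cast h3)
      rw [vo_nat] at this
      exact_mod_cast this
  obtain ⟨T, hT0, hT, hf⟩ := lk_dec hact W₀ hA hB' hΔ hV hGV hp.prime hpv hpts
  obtain ⟨π, hπ, hd', hfx⟩ := lk_pi hact hp.prime hB.unr hT0 hT hf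
  have D : Dat A B Om j act m ψ π p := ⟨hD, hπ, hd'⟩
  exact xf_short W₀ hA hB' hB.data.ell p K (x_core D hL hU K hKL hr hpv hV hfx)

open Classical in
/-- The same for the Selmer group of H55P. -/
theorem not_selG (hH : BaseH F W₀ Om m ψ) (hp : PrimeH F W₀ p) {L K : IntermediateField F (AlgebraicClosure F)}
    [NumberField L] [NumberField K] (hL : PExt p ⊥ L) (hU : UnrP p L) (hKL : K ≤ L) (hN : ¬ NoAn p W₀ K) :
    ¬ H55P.SelG p W₀ K := xf_zero (nonsel hH hp hL hU hKL hN)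

end main

end H13X
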